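import Pool.Agent.Helper84.GN.Esc
import Pool.Agent.Helper84.GN.Main
import Pool.Agent.Helper84.NI.J3

/-!
# Project S3 (MP_0f6f3f_an, sharp rank theorem in dimension three and four): definitions

`PD G`: totally bounded pseudometrics on `G`. `UC pd f`: uniformly continuous scalar functions. `PCF R pd O`: fields of operators which are uniformly continuous at infinity
on the regions of `R`, for every fixed vector. `iU R A`: restriction to a set, on `R.Ua`. `Tens H L K`: `K` is a tensor product of the Hilbert spaces `H`, `L`.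
`nn D`: the closed span of the ranges of the operators `D l`. `Te S r L`: elements with `s 0 ≤ r s (N-2)` and `L s (N-1) ≤ s (N-2)`. `Bad S R`: the last gap and another
one are larger than `R`. `FibX N L`: fibre representation of `GL(N)` with multiplication operators. `pos S b γ j`: projection on the span of the right singular vectors of the block of `j`.
-/

set_option autoImplicit false

open Filter Topology Matrix

namespace Pool.Agent.Helper84.GN.S3

open NI GVN Pool.Agent.Helper90.RK Pool.Agent.Helper96.RK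

/-- Totally bounded pseudometrics on `G`. -/
structure PD (G : Type) where
  /-- the distance -/
  d : G → G → ℝ
  self : ∀ γ, d γ γ = 0
  symm : ∀ γ γ', d γ γ' = d γ' γ
  tri : ∀ γ γ' γ'', d γ γ'' ≤ d γ γ' + d γ' γ''
  tb : ∀ δ : ℝ, 0 < δ → ∃ F : Finset G, ∀ γ, ∃ γ' ∈ F, d γ γ' < δ

variable {G Λ : Type} [Group G] [Group Λ]

/-- Uniformly continuous scalar functions. -/
def UC (pd : PD G) (f : G → ℂ) : Prop :=
  ∀ ε : ℝ, 0 < ε → ∃ δ : ℝ, 0 < δ ∧ ∀ γ γ', pd.d γ γ' < δ → ‖f γ - f γ'‖ ≤ ε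

/-- Fields of operators which are uniformly continuous at infinity on the regions, for every fixed vector. -/
def PCF (R : Reg G) (pd : PD G) {L : Type} [NormedAddCommGroup L] [InnerProductSpace ℂ L]
    (O : G → (L →L[ℂ] L)) : Prop :=
  ∀ (w : L) (ε : ℝ), 0 < ε → ∃ δ : ℝ, 0 < δ ∧ ∀ n : ℕ, ∃ s ∈ R.F n, ∀ γ ∈ s, ∀ γ' ∈ s,
    pd.d γ γ' < δ → ‖O γ w - O γ' w‖ ≤ ε

/-- Restriction to a set, on `R.Ua`. -/
noncomputable def iU (R : Reg G) (A : Set G) : R.Ua →L[ℂ] R.Ua :=
  ((UP.map (ind ℂ A)).comp R.Ua.subtypeL).codRestrict R.Ua (fun x => ind_mem_Ua R A x.2)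

theorem coe_iU (R : Reg G) (A : Set G) (x : R.Ua) : (iU R A x : UP (L2 G)) = UP.map (ind ℂ A) x := rfl

/-- The operators `x : Ua → Ua` which vanish between sets at positive distance. -/
def Loc (R : Reg G) (pd : PD G) (X : R.Ua →L[ℂ] R.Ua) : Prop :=
  ∀ (A B : Set G) (δ : ℝ), 0 < δ → (∀ γ ∈ A, ∀ γ' ∈ B, δ ≤ pd.d γ γ') → ∀ x, iU R B (X (iU R A x)) = 0

section Tens

variable (H L K : Type) [NormedAddCommGroup H] [InnerProductSpace ℂ H] [NormedAddCommGroup L] [InnerProductSpace ℂ L]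
  [NormedAddCommGroup K] [InnerProductSpace ℂ K]

/-- `K` is a tensor product of the Hilbert spaces `H`, `L`. -/
structure Tens where
  /-- the bilinear map -/
  t : H →ₗ[ℂ] L →ₗ[ℂ] K
  inner_t : ∀ a b v w, inner ℂ (t a v) (t b w) = inner ℂ a b * inner ℂ v w
  dense : ∀ x : K, (∀ a v, inner ℂ (t a v) x = 0) → x = 0

end Tens

/-- Fibre representation of all the invertible matrices, with multiplication operators which depend only on the values at generic points, for every block function. -/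
structure FibX (N : ℕ) (L : Type) [NormedAddCommGroup L] [InnerProductSpace ℂ L] extends FibM (fun _ : Fin N => 0) L where
  gsq1 : ∀ (b : Fin N → ℕ) {ι : Type} (S : Finset ι) (m : ι → YY N → ℝ),
    (∀ t ∈ S, Pool.Agent.Helper90.RK.Hm (fun _ : Fin N => 0) (m t)) →
    (∀ y, Gen b y → ∑ t ∈ S, m t y ^ 2 = 1) → ∀ f, ∑ t ∈ S, ‖mu (m t) f‖ ^ 2 = ‖f‖ ^ 2
  gsq2 : ∀ (b : Fin N → ℕ) {ι : Type} (S : Finset ι) (m m' : ι → YY N → ℝ) (a : ℝ),
    (∀ t ∈ S, Pool.Agent.Helper90.RK.Hm (fun _ : Fin N => 0) (m t)) →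
    (∀ t ∈ S, Pool.Agent.Helper90.RK.Hm (fun _ : Fin N => 0) (m' t)) →
    (∀ y, Gen b y → ∑ t ∈ S, (m t y - m' t y) ^ 2 ≤ a) →
    ∀ f, ∑ t ∈ S, ‖mu (m t) f - mu (m' t) f‖ ^ 2 ≤ a * ‖f‖ ^ 2

section Desc

variable {K1 K2 : Type} [NormedAddCommGroup K1] [InnerProductSpace ℂ K1]
  [NormedAddCommGroup K2] [InnerProductSpace ℂ K2]

/-- The closed span of the ranges of the operators `D l`. -/
noncomputable def nn (D : Λ → (K1 →L[ℂ] K2)) : Submodule ℂ K2 :=
  (Submodule.span ℂ {y | ∃ (l : Λ) (x : K1), y = D l x}).topologicalClosure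

omit [Group Λ] in
theorem mem_nn (D : Λ → (K1 →L[ℂ] K2)) (l : Λ) (x : K1) : D l x ∈ nn D :=
  Submodule.le_topologicalClosure _ (Submodule.subset_span ⟨l, x, rfl⟩)

omit [Group Λ] in
instance [CompleteSpace K2] (D : Λ → (K1 →L[ℂ] K2)) : CompleteSpace (nn D) :=
  (Submodule.isClosed_topologicalClosure _).completeSpace_coe

/-- `D l` with values in `nn D`. -/
noncomputable def Dn (D : Λ → (K1 →L[ℂ] K2)) (l : Λ) : K1 →L[ℂ] nn D :=
  (D l).codRestrict (nn D) (fun x => mem_nn D l x)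

omit [Group Λ] in
theorem coe_Dn (D : Λ → (K1 →L[ℂ] K2)) (l : Λ) (x : K1) : (Dn D l x : K2) = D l x := rfl

/-- The operators on `K1` commuting with all the operators `D m* D l`. -/
def CommD [CompleteSpace K1] [CompleteSpace K2] (D : Λ → (K1 →L[ℂ] K2)) (N : K1 →L[ℂ] K1) : Prop :=
  ∀ (l m : Λ) (x : K1), N (ContinuousLinearMap.adjoint (D m) (D l x)) =
    ContinuousLinearMap.adjoint (D m) (D l (N x))

end Desc

section Geo

variable {N : ℕ} {P : PH G N} (S : Sv P)

/-- The type `{N-1}` region. -/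
def Te (r L : ℝ) : Set G := {γ | ∀ i j k : Fin N, (i : ℕ) = 0 → (j : ℕ) + 2 = N → (k : ℕ) + 1 = N →
  S.s γ i ≤ r * S.s γ j ∧ L * S.s γ k ≤ S.s γ j}

/-- The last gap and another gap are larger than `R`. -/
def Bad (R : ℝ) : Set G := {γ | ∃ i j : Fin N, (j : ℕ) + 2 = N ∧ (i : ℕ) + 2 ≠ N ∧ R < gp S γ i ∧ R < gp S γ j}

/-- The last gap is larger than `R`. -/
def Last (R : ℝ) : Set G := {γ | ∀ j : Fin N, (j : ℕ) + 2 = N → R < gp S γ j}

/-- The first gap is larger than `R`. -/
def First (R : ℝ) : Set G := {γ | ∀ j : Fin N, (j : ℕ) = 0 → R < gp S γ j}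

/-- Two gaps are larger than `R`. -/
def Two (R : ℝ) : Set G := {γ | ∃ i j : Fin N, i ≠ j ∧ R < gp S γ i ∧ R < gp S γ j}

/-- The projection on the span of the right singular vectors of the block of `j`. -/
noncomputable def pos (b : Fin N → ℕ) (γ : G) (j : Fin N) : MN N :=
  S.kR γ * diagonal (fun i => if b i = b j then (1 : ℂ) else 0) * (S.kR γ)ᴴ

/-- The distance of the positions. -/
noncomputable def pdist (b : Fin N → ℕ) (γ γ' : G) : ℝ :=
  ∑ j, Real.sqrt (ns (pos S b γ j - pos S b γ' j))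

/-- All gaps except the last one. -/
def Jm (N : ℕ) : Finset (Fin N) := Finset.univ.filter fun i => (i : ℕ) + 2 ≠ N

/-- The stratum of type `{N-1}`. -/
noncomputable def Sm : Str S := chStr S (Jm N) []

end Geo

end Pool.Agent.Helper84.GN.S3
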