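import Pool.Agent.Helper9.S3.Defs

/-!
# Project S3, block P0: the pseudometric of the positions

`pdist S b γ γ' = ∑ j, √(ns (pos γ j - pos γ' j))`. `ns` is the sum of the squares of the absolute values of the entries (`Helper84/NI/Geo.lean` or `PH`), `√ ns` satisfies the triangle inequality (search `ns_add`, `sqrt_ns_add` or `Matrix.frobenius` in `Helper84`, `Helper90`, else prove it by Minkowski / as the norm of `EuclideanSpace ℂ (Fin N × Fin N)`).
`self`, `symm`: clear (`ns (-A) = ns A`). `tb`: all `pos S b γ j` are projections, `ns ≤ N`, so the functions `j ↦ pos S b γ j` stay in a compact (closed and bounded) subset `C` of `Fin N → MN N`; the function `(p, p') ↦ ∑ j, √(ns (p j - p' j))` is continuous and vanishes on the diagonal. `C` compact: cover `C` by finitely many open sets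
`{p | ∑ j √(ns (p j - c j)) < δ / 2}`, `c ∈ C`; choose in each of these sets which contains some `pos γ` such a `γ`: the finite set `F`.
-/

set_option autoImplicit false

open Filter Topology Matrix
open scoped ComplexConjugate

namespace Pool.Agent.Helper84.GN.S3

open NI GVN Pool.Agent.Helper90.RK Pool.Agent.Helper96.RK

variable {G Λ : Type} [Group G] [Group Λ] {N : ℕ} {P : PH G N} {S : Sv P}

/-- A matrix as a vector of a Euclidean space. -/
private noncomputable def eu (A : MN N) : EuclideanSpace ℂ (Fin N × Fin N) :=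
  WithLp.toLp 2 (fun p => A p.1 p.2)

private theorem norm_eu (A : MN N) : ‖eu A‖ = Real.sqrt (ns A) := by
  rw [EuclideanSpace.norm_eq]
  congr 1
  unfold ns eu
  rw [Fintype.sum_prod_type]

private theorem eu_sub (A B : MN N) : eu (A - B) = eu A - eu B := rfl

private theorem pdist_eq (b : Fin N → ℕ) (γ γ' : G) :
    pdist S b γ γ' = ∑ j, ‖eu (pos S b γ j) - eu (pos S b γ' j)‖ := by
  unfold pdist
  refine Finset.sum_congr rfl fun j _ => ?_
  rw [← eu_sub, norm_eu]

private theorem ns_pos_le (b : Fin N → ℕ) (γ : G) (j : Fin N) : ns (pos S b γ j) ≤ N := by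
  have hk : IsU (S.kR γ) := S.uR γ
  have hk' : IsU (S.kR γ)ᴴ := by
    unfold IsU
    rw [Matrix.conjTranspose_conjTranspose]
    exact mul_eq_one_comm.mp hk
  unfold pos
  rw [ns_mul_unitary hk', ns_unitary_mul hk]
  unfold ns
  have h1 : ∀ i : Fin N, ∑ i', ‖(diagonal (fun i => if b i = b j then (1 : ℂ) else 0) : MN N) i i'‖ ^ 2 ≤ 1 := by
    intro i
    rw [Finset.sum_eq_single i]
    · rw [diagonal_apply_eq]
      split_ifs <;> simp
    · intro i' _ hi'
      rw [diagonal_apply_ne _ (Ne.symm hi')]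
      simp
    · intro h
      exact absurd (Finset.mem_univ i) h
  calc ∑ i, ∑ i', ‖(diagonal (fun i => if b i = b j then (1 : ℂ) else 0) : MN N) i i'‖ ^ 2
      ≤ ∑ _i : Fin N, (1 : ℝ) := Finset.sum_le_sum fun i _ => h1 i
    _ = N := by simp

private theorem pdist_tb (b : Fin N → ℕ) (δ : ℝ) (hδ : 0 < δ) :
    ∃ F : Finset G, ∀ γ, ∃ γ' ∈ F, pdist S b γ γ' < δ := by
  classical
  let Φ : G → (Fin N → EuclideanSpace ℂ (Fin N × Fin N)) := fun γ j => eu (pos S b γ j)
  have hbd : Bornology.IsBounded (Set.range Φ) := by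
    rw [isBounded_iff_forall_norm_le]
    refine ⟨Real.sqrt N, ?_⟩
    rintro _ ⟨γ, rfl⟩
    rw [pi_norm_le_iff_of_nonneg (Real.sqrt_nonneg _)]
    intro j
    change ‖eu (pos S b γ j)‖ ≤ _
    rw [norm_eu]
    exact Real.sqrt_le_sqrt (ns_pos_le b γ j)
  have htb : TotallyBounded (Set.range Φ) :=
    hbd.isCompact_closure.totallyBounded.subset subset_closure
  have hε : 0 < δ / (N + 1) := by positivity
  obtain ⟨t, hts, htf, htc⟩ := Metric.finite_approx_of_totallyBounded htb _ hε
  obtain ⟨F, hF⟩ : ∃ F : Finset G, ∀ y ∈ t, ∃ γ' ∈ F, Φ γ' = y := by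
    choose! f hf using fun y (hy : y ∈ t) => hts hy
    refine ⟨htf.toFinset.image f, fun y hy => ⟨f y, ?_, hf y hy⟩⟩
    exact Finset.mem_image_of_mem f (htf.mem_toFinset.2 hy)
  refine ⟨F, fun γ => ?_⟩
  have h1 := htc (Set.mem_range_self γ)
  rw [Set.mem_iUnion₂] at h1
  obtain ⟨y, hy, hy'⟩ := h1
  obtain ⟨γ', hγ', rfl⟩ := hF y hy
  refine ⟨γ', hγ', ?_⟩
  rw [pdist_eq]
  rw [Metric.mem_ball, dist_eq_norm] at hy'
  have h2 : ∀ j, ‖eu (pos S b γ j) - eu (pos S b γ' j)‖ ≤ δ / (N + 1) := fun j =>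
    (norm_le_pi_norm (Φ γ - Φ γ') j).trans hy'.le
  calc ∑ j, ‖eu (pos S b γ j) - eu (pos S b γ' j)‖ ≤ ∑ _j : Fin N, δ / (N + 1) :=
        Finset.sum_le_sum fun j _ => h2 j
    _ = N * (δ / (N + 1)) := by simp
    _ < δ := by
        rw [mul_div_assoc', div_lt_iff₀ (by positivity)]
        nlinarith

variable (S) in
/-- The pseudometric of the positions. -/
noncomputable def posPD (b : Fin N → ℕ) : PD G where
  d := pdist S b
  self γ := by
    rw [pdist_eq]
    simp
  symm γ γ' := by
    rw [pdist_eq, pdist_eq]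
    exact Finset.sum_congr rfl fun j _ => norm_sub_rev _ _
  tri γ γ' γ'' := by
    rw [pdist_eq, pdist_eq, pdist_eq, ← Finset.sum_add_distrib]
    exact Finset.sum_le_sum fun j _ => norm_sub_le_norm_sub_add_norm_sub _ _ _
  tb δ hδ := pdist_tb b δ hδ

end Pool.Agent.Helper84.GN.S3
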