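import Pool.Agent.Helper9.S3.Defs

/-!
# Project S3, block P2a: a compactness lemma for block triangular matrices

By contradiction and compactness: otherwise there are `A_n, A'_n, p_n, q_n` satisfying the hypotheses for `δ = 1/(n+1)` and not the conclusion. A subsequence converges: `A, A', p, q` (all bounded: `ns p = N`). Then `|det A| = |det A'| = 1`, `A`, `A'` vanish at `(i, j)` with `b i < b j`, `p` is unitary with `D b p = p`, `q` unitary, `A q = p A'`, so `q = A⁻¹ p A'`.
`q` vanishes at `(i, j)`, `b i < b j` (the block lower triangular invertible matrices form a group: for the inverse use `Matrix.BlockTriangular` and its lemma for inverses, `Matrix.blockTriangular_inv_of_blockTriangular`, with the order dual), and so does `q⁻¹ = qᴴ`; hence `D b q = q`. So `D b A' = D b (pᴴ A q) = pᴴ (D b A) q` (`D_mul_left`, `D_mul_right` in `Helper90/RK`).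
With `u = p`, `v = q` the three quantities `ns (p_n - p)`, `ns (q_n - q)`, `ns (D b A'_n - pᴴ (D b A_n) q)` tend to `0`: contradiction.
-/

set_option autoImplicit false

open Filter Topology Matrix
open scoped ComplexConjugate

namespace Pool.Agent.Helper84.GN.S3

open NI GVN Pool.Agent.Helper90.RK Pool.Agent.Helper96.RK

variable {G Λ : Type} [Group G] [Group Λ] {N : ℕ} {P : PH G N} {S : Sv P}

private theorem exists_lim93 {A : ℕ → MN N} {R : ℝ} (hA : ∀ n i j, ‖A n i j‖ ≤ R) (g : Ultrafilter ℕ) :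
    ∃ A0 : MN N, Tendsto A g (𝓝 A0) := by
  have hc : IsCompact (Set.univ.pi fun _ : Fin N => (Set.univ.pi fun _ : Fin N =>
      Metric.closedBall (0 : ℂ) R)) :=
    isCompact_univ_pi fun _ => isCompact_univ_pi fun _ => isCompact_closedBall 0 R
  obtain ⟨A0, -, h⟩ := hc.ultrafilter_le_nhds (g.map A) (by
    rw [le_principal_iff]
    refine Filter.eventually_map.2 (Filter.Eventually.of_forall fun n => ?_)
    refine Set.mem_univ_pi.2 fun i => Set.mem_univ_pi.2 fun j => ?_
    exact mem_closedBall_zero_iff.2 (hA n i j))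
  exact ⟨A0, h⟩

private theorem entry93 {A : ℕ → MN N} {A0 : MN N} {g : Filter ℕ} (h : Tendsto A g (𝓝 A0)) (i j : Fin N) :
    Tendsto (fun n => A n i j) g (𝓝 (A0 i j)) :=
  ((continuous_id.matrix_elem i j).tendsto A0).comp h

private theorem bd93 {A : MN N} {K : ℝ} (h : ns A ≤ K) (i j : Fin N) : ‖A i j‖ ≤ K + 1 := by
  have h1 := norm_apply_sq_le A i j
  have h2 := norm_nonneg (A i j)
  nlinarith

private theorem ns_tendsto93 {A : ℕ → MN N} {g : Filter ℕ} (h : Tendsto A g (𝓝 0)) :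
    Tendsto (fun n => ns (A n)) g (𝓝 0) := by
  have hc : Continuous fun k : MN N => ns k := by
    unfold ns
    refine continuous_finsetSum _ fun i _ => continuous_finsetSum _ fun j _ => ?_
    exact (continuous_id.matrix_elem i j).norm.pow 2
  have h1 := (hc.tendsto 0).comp h
  have h2 : ns (0 : MN N) = 0 := by simp [ns]
  rw [h2] at h1
  exact h1

private theorem zero_of93 {A : ℕ → MN N} {A0 : MN N} (h : Tendsto A (hyperfilter ℕ : Filter ℕ) (𝓝 A0)) {i j : Fin N}
    (hb : ∀ n, ‖A n i j‖ ≤ 1 / ((n : ℝ) + 1)) : A0 i j = 0 := by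
  have h1 := entry93 h i j
  have h2 : Tendsto (fun n => A n i j) (hyperfilter ℕ : Filter ℕ) (𝓝 0) := by
    refine squeeze_zero_norm hb ?_
    refine tendsto_one_div_add_atTop_nhds_zero_nat.mono_left ?_
    rw [← Nat.cofinite_eq_atTop]
    exact hyperfilter_le_cofinite
  exact tendsto_nhds_unique h1 h2

theorem tri_close {b : Fin N → ℕ} (hb : Monotone b) (K : ℝ) {ε : ℝ} (hε : 0 < ε) : ∃ δ : ℝ, 0 < δ ∧
    ∀ A A' p q : MN N, IsU p → IsU q → ns A ≤ K → ns A' ≤ K → ‖A.det‖ = 1 → ‖A'.det‖ = 1 →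
      (∀ i j, b i < b j → ‖A i j‖ ≤ δ) → (∀ i j, b i < b j → ‖A' i j‖ ≤ δ) → (∀ i j, b i ≠ b j → ‖p i j‖ ≤ δ) →
      A * q = p * A' → ∃ u v : MN N, IsU u ∧ IsU v ∧ D b u = u ∧ D b v = v ∧ ns (p - u) ≤ ε ∧ ns (q - v) ≤ ε ∧
        ns (D b A' - uᴴ * D b A * v) ≤ ε := by
  by_contra hcon
  push Not at hcon
  choose A A' p q hp hq hAK hAK' hd hd' ht ht' hpo heq hbad using
    fun n : ℕ => hcon (1 / ((n : ℝ) + 1)) Nat.one_div_pos_of_nat
  set g : Ultrafilter ℕ := hyperfilter ℕ with hg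
  obtain ⟨A0, hA0⟩ := exists_lim93 (fun n i j => bd93 (hAK n) i j) g
  obtain ⟨A1, hA1⟩ := exists_lim93 (fun n i j => bd93 (hAK' n) i j) g
  obtain ⟨p0, hp0⟩ := exists_lim93 (fun n i j => norm_entry_le_one (hp n) i j) g
  obtain ⟨q0, hq0⟩ := exists_lim93 (fun n i j => norm_entry_le_one (hq n) i j) g
  have hlim : ∀ {k : ℕ → MN N} {k0 : MN N}, (∀ n, IsU (k n)) → Tendsto k g (𝓝 k0) → IsU k0 := by
    intro k k0 hk h0
    have h1 : Tendsto (fun n => (k n)ᴴ * k n) g (𝓝 (k0ᴴ * k0)) :=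
      ((continuous_id.matrix_conjTranspose.tendsto k0).comp h0).mul h0
    have h2 : (fun n => (k n)ᴴ * k n) = fun _ => (1 : MN N) := by
      funext n
      exact hk n
    rw [h2] at h1
    exact (tendsto_nhds_unique h1 tendsto_const_nhds)
  have hpu := hlim hp hp0
  have hqu := hlim hq hq0
  have hdet : ∀ {k : ℕ → MN N} {k0 : MN N}, (∀ n, ‖(k n).det‖ = 1) → Tendsto k g (𝓝 k0) → ‖k0.det‖ = 1 := by
    intro k k0 hk h0
    have h1 : Tendsto (fun n => ‖(k n).det‖) g (𝓝 ‖k0.det‖) :=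
      (((continuous_id.matrix_det).norm).tendsto k0).comp h0
    have h2 : (fun n => ‖(k n).det‖) = fun _ => (1 : ℝ) := funext hk
    rw [h2] at h1
    exact tendsto_nhds_unique h1 tendsto_const_nhds |>.symm ▸ rfl
  have hdA := hdet hd hA0
  have hA0t : ∀ i j, b i < b j → A0 i j = 0 := fun i j hij => zero_of93 hA0 fun n => ht n i j hij
  have hA1t : ∀ i j, b i < b j → A1 i j = 0 := fun i j hij => zero_of93 hA1 fun n => ht' n i j hij
  have hp0t : ∀ i j, b i ≠ b j → p0 i j = 0 := fun i j hij => zero_of93 hp0 fun n => hpo n i j hij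
  have hDp : D b p0 = p0 := by
    ext i j
    rw [D_apply]
    split_ifs with h
    · rfl
    · exact (hp0t i j h).symm
  have heq0 : A0 * q0 = p0 * A1 := by
    have h1 : Tendsto (fun n => A n * q n) g (𝓝 (A0 * q0)) := hA0.mul hq0
    have h2 : Tendsto (fun n => p n * A' n) g (𝓝 (p0 * A1)) := hp0.mul hA1
    rw [funext heq] at h1
    exact tendsto_nhds_unique h1 h2
  have hdu : IsUnit A0.det := by
    rw [isUnit_iff_ne_zero]
    intro h
    rw [h, norm_zero] at hdA
    exact zero_ne_one hdA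
  have hq0e : q0 = A0⁻¹ * p0 * A1 := by
    rw [Matrix.mul_assoc, ← heq0, ← Matrix.mul_assoc, Matrix.nonsing_inv_mul _ hdu, Matrix.one_mul]
  let b' : Fin N → ℕᵒᵈ := fun i => OrderDual.toDual (b i)
  have hbA0 : A0.BlockTriangular b' := fun i j hij => hA0t i j hij
  have hbA1 : A1.BlockTriangular b' := fun i j hij => hA1t i j hij
  have hbp : p0.BlockTriangular b' := fun i j hij => hp0t i j (ne_of_lt (show b i < b j from hij))
  haveI : Invertible A0 := Matrix.invertibleOfIsUnitDet A0 hdu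
  have hbi : (A0⁻¹).BlockTriangular b' := Matrix.blockTriangular_inv_of_blockTriangular hbA0
  have hbq : q0.BlockTriangular b' := by
    rw [hq0e]
    exact (hbi.mul hbp).mul hbA1
  have hDq : D b q0 = q0 := unitary_tri b hqu fun i j hij => hbq (show b' j < b' i from hij)
  have hA1e : D b A1 = p0ᴴ * D b A0 * q0 := by
    have h1 : A1 = p0ᴴ * A0 * q0 := by
      have h2 : p0ᴴ * p0 = 1 := hpu
      rw [Matrix.mul_assoc, heq0, ← Matrix.mul_assoc, h2, Matrix.one_mul]
    have hDs : D b p0ᴴ = p0ᴴ := by rw [D_star, hDp]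
    conv_lhs => rw [h1]
    rw [D_mul_right b hDq, D_mul_left b hDs]
  have e1 : Tendsto (fun n => ns (p n - p0)) g (𝓝 0) := by
    apply ns_tendsto93
    have h1 := hp0.sub (tendsto_const_nhds (x := p0))
    rwa [sub_self] at h1
  have e2 : Tendsto (fun n => ns (q n - q0)) g (𝓝 0) := by
    apply ns_tendsto93
    have h1 := hq0.sub (tendsto_const_nhds (x := q0))
    rwa [sub_self] at h1
  have e3 : Tendsto (fun n => ns (D b (A' n) - p0ᴴ * D b (A n) * q0)) g (𝓝 0) := by
    apply ns_tendsto93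
    have h1 : Tendsto (fun n => D b (A' n)) g (𝓝 (D b A1)) := ((D_continuous b).tendsto A1).comp hA1
    have h2 : Tendsto (fun n => D b (A n)) g (𝓝 (D b A0)) := ((D_continuous b).tendsto A0).comp hA0
    have h3 : Tendsto (fun n => p0ᴴ * D b (A n) * q0) g (𝓝 (p0ᴴ * D b A0 * q0)) :=
      (tendsto_const_nhds.mul h2).mul tendsto_const_nhds
    have h4 := h1.sub h3
    rwa [hA1e, sub_self] at h4
  have hε' : ∀ᶠ x in 𝓝 (0 : ℝ), x < ε := gt_mem_nhds hε
  obtain ⟨n, h1, h2, h3⟩ := ((e1.eventually hε').and ((e2.eventually hε').and (e3.eventually hε'))).exists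
  exact absurd (hbad n p0 q0 hpu hqu hDp hDq h1.le h2.le) (not_lt.2 h3.le)

end Pool.Agent.Helper84.GN.S3
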