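import Pool.Agent.Helper9.S3.P1
import Pool.Agent.Helper9.S3.P2a

/-!
# Project S3, block P2: right translates of elements with close positions

Let `A = S.m 1 h γ = (kR γ)ᴴ ι(h) kR(γ h)`, `A' = S.m 1 h γ'`, `p = (kR γ)ᴴ kR γ'`, `q = (kR(γ h))ᴴ kR(γ' h)` (write `1⁻¹ * γ * h` for `γ h`). Then `A q = p A'`, `ns A = ns A' = ns (ι h)`, `|det| = 1`, `T.C 1 h γ = D T.b A`. The entries of `A`, `A'` at `(i, j)` with `b i < b j` tend to zero along `T.F n` (see `tendsto_upper` in `Helper84/GN/I2.lean` or the lemmas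
on `S.m` in `Helper90/RK/GB.lean`, `GC.lean`). For given `δ₁` (from `tri_close` for `K = ns (ι h)` and `ε / 4` say) take `δ` such that `pdist < δ` gives by `pos_close` (for `min (δ₁^2) (ε/4)`) a unitary `u₁` with `D b u₁ = u₁`, `ns (kR γ * u₁ - kR γ') ≤ δ₁^2`, so `ns (u₁ - p) ≤ δ₁^2` and the entries of `p` at `(i, j)`, `b i ≠ b j`, are at most `δ₁`.
`tri_close` gives `u`, `v`: `ns (kR γ * u - kR γ') = ns (u - p) ≤ ε` and the same for `v`, `q`. Note: `δ` does not depend on `n`, `s` does.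
-/

set_option autoImplicit false

open Filter Topology Matrix
open scoped ComplexConjugate

namespace Pool.Agent.Helper84.GN.S3

open NI GVN Pool.Agent.Helper90.RK Pool.Agent.Helper96.RK

variable {G Λ : Type} [Group G] [Group Λ] {N : ℕ} {P : PH G N} {S : Sv P}

/-- The entries of a small matrix are small. -/
private theorem h94_entry {A : MN N} {δ : ℝ} (hδ : 0 ≤ δ) (h : ns A ≤ δ ^ 2) (i j : Fin N) : ‖A i j‖ ≤ δ := by
  have h1 := norm_apply_sq_le A i j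
  exact abs_le_of_sq_le_sq' (by nlinarith) hδ |>.2

private theorem h94_nsub (A B : MN N) : ns (A - B) = ns (B - A) := by
  unfold ns
  refine Finset.sum_congr rfl fun i _ => Finset.sum_congr rfl fun j _ => ?_
  rw [Matrix.sub_apply, Matrix.sub_apply, norm_sub_rev]

/-- Close frames have close relative positions. -/
private theorem h94_rel {k k' : MN N} (hk : IsU k) (u : MN N) : ns (k * u - k') = ns (u - kᴴ * k') := by
  have h1 : k * u - k' = k * (u - kᴴ * k') := by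
    rw [mul_sub, ← mul_assoc, hk.mul_star, one_mul]
  rw [h1, ns_unitary_mul hk]

theorem pos_right (T : Str S) (h : G) {ε : ℝ} (hε : 0 < ε) : ∃ δ : ℝ, 0 < δ ∧ ∀ n : ℕ, ∃ s ∈ T.F n,
    ∀ γ ∈ s, ∀ γ' ∈ s, pdist S T.b γ γ' < δ → ∃ u v : MN N, IsU u ∧ IsU v ∧ D T.b u = u ∧ D T.b v = v ∧
      ns (S.kR γ * u - S.kR γ') ≤ ε ∧ ns (S.kR (1⁻¹ * γ * h) * v - S.kR (1⁻¹ * γ' * h)) ≤ ε ∧
      ns (T.C 1 h γ' - uᴴ * T.C 1 h γ * v) ≤ ε := by
  obtain ⟨δ₁, hδ₁, htri⟩ := tri_close T.mono (ns (P.ι h)) hε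
  obtain ⟨δ₂, hδ₂, hpos⟩ := pos_close T.b (ε := δ₁ ^ 2) (by positivity)
  refine ⟨Real.sqrt δ₂, Real.sqrt_pos.2 hδ₂, fun n => ?_⟩
  refine ⟨{γ | ∑ k, ∑ l, (if T.b k < T.b l then ‖S.m 1 h γ k l‖ else 0) < δ₁},
    (tendsto_upper T 1 h n).eventually (gt_mem_nhds hδ₁), ?_⟩
  have hup : ∀ γ, ∑ k, ∑ l, (if T.b k < T.b l then ‖S.m 1 h γ k l‖ else 0) < δ₁ →
      ∀ i j, T.b i < T.b j → ‖S.m 1 h γ i j‖ ≤ δ₁ := by
    intro γ hγ i j hij
    refine le_trans ?_ hγ.le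
    have h0 : ∀ k l, 0 ≤ (if T.b k < T.b l then ‖S.m 1 h γ k l‖ else 0) := fun k l => by
      split_ifs
      · exact norm_nonneg _
      · exact le_refl _
    calc ‖S.m 1 h γ i j‖ = (if T.b i < T.b j then ‖S.m 1 h γ i j‖ else 0) := by rw [if_pos hij]
      _ ≤ ∑ l, (if T.b i < T.b l then ‖S.m 1 h γ i l‖ else 0) :=
          Finset.single_le_sum (f := fun l => if T.b i < T.b l then ‖S.m 1 h γ i l‖ else 0)
            (fun l _ => h0 i l) (Finset.mem_univ j)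
      _ ≤ _ := Finset.single_le_sum
            (f := fun k => ∑ l, if T.b k < T.b l then ‖S.m 1 h γ k l‖ else 0)
            (fun k _ => Finset.sum_nonneg fun l _ => h0 k l) (Finset.mem_univ i)
  intro γ hγ γ' hγ' hd
  -- the positions are close
  have hp : ∀ j, ns (S.kR γ * diagonal (fun i => if T.b i = T.b j then (1 : ℂ) else 0) * (S.kR γ)ᴴ -
      S.kR γ' * diagonal (fun i => if T.b i = T.b j then (1 : ℂ) else 0) * (S.kR γ')ᴴ) ≤ δ₂ := by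
    intro j
    have h1 : Real.sqrt (ns (pos S T.b γ j - pos S T.b γ' j)) ≤ pdist S T.b γ γ' := by
      unfold pdist
      exact Finset.single_le_sum (f := fun j => Real.sqrt (ns (pos S T.b γ j - pos S T.b γ' j)))
        (fun j _ => Real.sqrt_nonneg _) (Finset.mem_univ j)
    have h2 : Real.sqrt (ns (pos S T.b γ j - pos S T.b γ' j)) < Real.sqrt δ₂ := h1.trans_lt hd
    exact ((Real.sqrt_lt_sqrt_iff_of_pos hδ₂).1 h2).le
  obtain ⟨u₁, hu₁, hDu₁, hnu₁⟩ := hpos (S.kR γ) (S.kR γ') (S.uR γ) (S.uR γ') hp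
  rw [h94_rel (S.uR γ)] at hnu₁
  have hpij : ∀ i j, T.b i ≠ T.b j → ‖((S.kR γ)ᴴ * S.kR γ') i j‖ ≤ δ₁ := by
    intro i j hij
    have h1 := h94_entry hδ₁.le hnu₁ i j
    have h2 : u₁ i j = 0 := by
      rw [← hDu₁, D_apply, if_neg hij]
    rwa [Matrix.sub_apply, h2, zero_sub, norm_neg] at h1
  have hrel : S.m 1 h γ * ((S.kR (1⁻¹ * γ * h))ᴴ * S.kR (1⁻¹ * γ' * h)) =
      (S.kR γ)ᴴ * S.kR γ' * S.m 1 h γ' := by
    unfold Sv.m
    have e1 : S.kR (1⁻¹ * γ * h) * (S.kR (1⁻¹ * γ * h))ᴴ = 1 := (S.uR _).mul_star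
    have e2 : S.kR γ' * (S.kR γ')ᴴ = 1 := (S.uR _).mul_star
    calc (S.kR γ)ᴴ * P.ι h * S.kR (1⁻¹ * γ * h) * ((S.kR (1⁻¹ * γ * h))ᴴ * S.kR (1⁻¹ * γ' * h))
        = (S.kR γ)ᴴ * P.ι h * (S.kR (1⁻¹ * γ * h) * (S.kR (1⁻¹ * γ * h))ᴴ) * S.kR (1⁻¹ * γ' * h) := by
          simp only [Matrix.mul_assoc]
      _ = (S.kR γ)ᴴ * (S.kR γ' * (S.kR γ')ᴴ) * P.ι h * S.kR (1⁻¹ * γ' * h) := by
          rw [e1, e2, Matrix.mul_one, Matrix.mul_one]
      _ = _ := by simp only [Matrix.mul_assoc]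
  obtain ⟨u, v, hu, hv, hDu, hDv, h1, h2, h3⟩ := htri (S.m 1 h γ) (S.m 1 h γ') ((S.kR γ)ᴴ * S.kR γ')
    ((S.kR (1⁻¹ * γ * h))ᴴ * S.kR (1⁻¹ * γ' * h)) ((S.uR γ).star.mul (S.uR γ'))
    ((S.uR _).star.mul (S.uR _)) (S.ns_m 1 h γ).le (S.ns_m 1 h γ').le (S.norm_det_m 1 h γ)
    (S.norm_det_m 1 h γ') (hup γ hγ) (hup γ' hγ') hpij hrel
  refine ⟨u, v, hu, hv, hDu, hDv, ?_, ?_, h3⟩
  · rw [h94_rel (S.uR γ), h94_nsub]
    exact h1
  · rw [h94_rel (S.uR _), h94_nsub]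
    exact h2

end Pool.Agent.Helper84.GN.S3
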