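import Pool.Agent.Helper9.S3.Defs

/-!
# Project S3, block E1: the untwisted cocycle over a stratum

Compare `Helper84/GN/I0.lean`, `I1.lean`, where the fibre over `γ` is trivialised by `kR γ`; here everything is conjugated back, with the fibre representation `Ψ` of ALL invertible matrices (`b = 0`; `I0` applies with `b = 0`: `fib_compact`, `fib_tendsto_sub`, `fib_scal_one`, `Kb (fun _ => 0) R r` = matrices with bounded entries and `‖det‖ ≥ r`), which is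
trivial on scalars. `M g h γ = kR γ * nrm T.b (T.C g h γ) * (kR (g⁻¹ γ h))ᴴ`. `nrm` is multiplicative and continuous on `GLb` (`nrm_mul`, `nrm_cont`, `nrm_unitary`, `nrm_bs`, `norm_det_nrm`), `T.C g h γ ∈ Kb T.b R r` eventually (`C_compact`), so `M g h γ` stays in a compact set of matrices with `‖det‖ = 1`. If `M g h γ` is not invertible for some (finitely many or
irrelevant) `γ`: `Ψ.Φ.π` is a function on ALL matrices with values in unitary operators, so the statement `hΓ` makes sense for all `γ`.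
`one`: `T.C 1 1 γ = c • 1`, `nrm (c • 1) = c • 1` (`|c| = 1`), `kR γ (c • 1) (kR γ)ᴴ = c • 1`. `cpt`: `fib_compact`. `mul`: `C_mul`, `M g h γ * M g' h' (g⁻¹ γ h) = kR γ * nrm (C C') * (kR ..)ᴴ`, `nrm` uniformly continuous on compact subsets of `GLb`. `left`: `C_left`: `T.C g 1 γ` is asymptotically unitary, so is `nrm` of it (`dt` has modulus tending to one), and
`π` of an asymptotically unitary matrix moves `v` by `o(1)` (`fib_tendsto_v`, `I0`). `cptX`: `X_compact`: `diagonal z * X γ ∈ Kb`, `nrm (diagonal z * A) = diagonal (z / |z|) * nrm A` (`nrm_bs`), so `nrm (X γ)` is in a compact set. `right`: `C_right`: `C 1 h γ * X (γ h) = c • (X γ * O γ)`, `Oᴴ O → 1`, so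
`M 1 h γ * (kR (γ h) * nrm (X (γ h))) = c' • (kR γ * nrm (X γ) * nrm (O γ))` and `π(nrm (O γ)) v - v → 0`. `nonneg`, `pos`: `Ψ.pos` and compactness as in `I1` (`coc_nonneg`, `coc_pos`), `π(kR γ * nrm (X γ)) v = π(kR γ * nrm (X γ) * (kR γ)ᴴ) v`.
-/

set_option autoImplicit false

open Filter Topology Matrix
open scoped ComplexConjugate

namespace Pool.Agent.Helper84.GN.S3

open NI GVN Pool.Agent.Helper90.RK Pool.Agent.Helper96.RK

variable {G Λ : Type} [Group G] [Group Λ] {N : ℕ} {P : PH G N} {S : Sv P}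

variable {L : Type} [NormedAddCommGroup L] [InnerProductSpace ℂ L]

section aux

private theorem D0_78 (A : MN N) : D (fun _ : Fin N => 0) A = A := by
  ext i j
  rw [D_apply, if_pos rfl]

private theorem col78 (A : MN N) (j : Fin N) : (Aᴴ * A) j j = ((∑ k, ‖A k j‖ ^ 2 : ℝ) : ℂ) := by
  rw [Matrix.mul_apply, Complex.ofReal_sum]
  refine Finset.sum_congr rfl fun k _ => ?_
  rw [Matrix.conjTranspose_apply, Complex.ofReal_pow]
  exact Complex.conj_mul' (A k j)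

private theorem col_le78 (A : MN N) (i j : Fin N) : ‖A i j‖ ^ 2 ≤ ‖(Aᴴ * A) j j‖ := by
  rw [col78, Complex.norm_real, Real.norm_of_nonneg (by positivity)]
  exact Finset.single_le_sum (f := fun k => ‖A k j‖ ^ 2) (fun k _ => by positivity)
    (Finset.mem_univ i)

private theorem U_entry78 {k : MN N} (hk : IsU k) (i j : Fin N) : ‖k i j‖ ≤ 1 := by
  have h1 := col_le78 k i j
  have h2 : kᴴ * k = 1 := hk
  rw [h2, Matrix.one_apply_eq, norm_one] at h1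
  nlinarith [norm_nonneg (k i j)]

private theorem U_Kb78 {k : MN N} (hk : IsU k) : k ∈ Kb (fun _ : Fin N => 0) 1 1 :=
  ⟨D0_78 k, fun i j => U_entry78 hk i j, hk.norm_det.ge⟩

private theorem nrm_contOn78 (b : Fin N → ℕ) : ContinuousOn (fun C => nrm b C) (GLb b) := by
  have h1 := nrm_cont b
  have hinv : ContinuousOn (fun C : MN N => C⁻¹) (GLb b) := by
    have h1 : (fun C : MN N => C⁻¹) = fun C => (C.det)⁻¹ • C.adjugate := by
      funext C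
      rw [Matrix.inv_def, Ring.inverse_eq_inv']
    rw [h1]
    have ha : ContinuousOn (fun C : MN N => C.det) (GLb b) :=
      (Continuous.matrix_det continuous_id).continuousOn
    have hb : ContinuousOn (fun C : MN N => C.adjugate) (GLb b) :=
      (Continuous.matrix_adjugate continuous_id).continuousOn
    exact (ha.inv₀ fun C hC => hC.2).smul hb
  have h2 := h1.comp hinv (fun C hC => GLb_inv b hC)
  refine h2.congr fun C hC => ?_
  show nrm b C = nrm b (C⁻¹)⁻¹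
  rw [Matrix.nonsing_inv_nonsing_inv _ (isUnit_iff_ne_zero.2 hC.2)]

private theorem nrm_Kb78 (b : Fin N → ℕ) (R : ℝ) {r : ℝ} (hr : 0 < r) :
    ∃ R' : ℝ, ∀ C ∈ Kb b R r, nrm b C ∈ Kb (fun _ : Fin N => 0) R' 1 := by
  have h1 : ContinuousOn (fun C => nrm b C) (Kb b R r) := (nrm_contOn78 b).mono (Kb_sub b hr)
  have h2 : ∀ i j : Fin N, ∃ M : ℝ, ∀ C ∈ Kb b R r, ‖nrm b C i j‖ ≤ M := by
    intro i j
    have h3 : ContinuousOn (fun C => nrm b C i j) (Kb b R r) :=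
      (continuous_apply_apply i j).comp_continuousOn h1
    exact (isCompact_Kb b R r).exists_bound_of_continuousOn h3
  choose M hM using h2
  refine ⟨∑ i, ∑ j, |M i j|, fun C hC => ⟨D0_78 _, fun i j => ?_, (norm_det_nrm b (Kb_sub b hr hC)).ge⟩⟩
  refine (hM i j C hC).trans ((le_abs_self _).trans ?_)
  refine (Finset.single_le_sum (f := fun j => |M i j|) (fun _ _ => abs_nonneg _)
    (Finset.mem_univ j)).trans ?_
  exact Finset.single_le_sum (f := fun i => ∑ j, |M i j|)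
    (fun _ _ => Finset.sum_nonneg fun _ _ => abs_nonneg _) (Finset.mem_univ i)

private theorem lim78 {b : Fin N → ℕ} {α : Type} (u : Ultrafilter α) {f : α → MN N} {R r : ℝ}
    (hf : ∀ᶠ a in (u : Filter α), f a ∈ Kb b R r) : ∃ f0 ∈ Kb b R r, Tendsto f u (𝓝 f0) := by
  obtain ⟨f0, h0, h1⟩ := (isCompact_Kb b R r).ultrafilter_le_nhds (u.map f) (by
    rw [le_principal_iff]
    exact hf)
  exact ⟨f0, h0, h1⟩

private theorem nrm_lim78 {b : Fin N → ℕ} {α : Type} {l : Filter α} {f : α → MN N} {f0 : MN N} {R r : ℝ}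
    (hr : 0 < r) (hf : ∀ᶠ a in l, f a ∈ Kb b R r) (h0 : f0 ∈ Kb b R r) (h : Tendsto f l (𝓝 f0)) :
    Tendsto (fun a => nrm b (f a)) l (𝓝 (nrm b f0)) := by
  have h1 : Tendsto f l (𝓝[GLb b] f0) :=
    tendsto_nhdsWithin_iff.2 ⟨h, hf.mono fun a ha => Kb_sub b hr ha⟩
  exact Tendsto.comp (nrm_contOn78 b f0 (Kb_sub b hr h0)) h1

private theorem nrm_unif78 {b : Fin N → ℕ} {α : Type} {l : Filter α} {A B : α → MN N} {R r : ℝ}
    (hr : 0 < r) (hA : ∀ᶠ a in l, A a ∈ Kb b R r) (hB : ∀ᶠ a in l, B a ∈ Kb b R r)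
    (h : Tendsto (fun a => A a - B a) l (𝓝 0)) :
    Tendsto (fun a => nrm b (A a) - nrm b (B a)) l (𝓝 0) := by
  rw [tendsto_iff_ultrafilter]
  intro u hu
  obtain ⟨A0, hA0, hAl⟩ := lim78 u (hA.filter_mono hu)
  obtain ⟨B0, hB0, hBl⟩ := lim78 u (hB.filter_mono hu)
  have h1 := tendsto_nhds_unique (hAl.sub hBl) (h.mono_left hu)
  have h2 : A0 = B0 := sub_eq_zero.1 h1
  have h3 := (nrm_lim78 hr (hA.filter_mono hu) hA0 hAl).sub
    (nrm_lim78 hr (hB.filter_mono hu) hB0 hBl)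
  rwa [h2, sub_self] at h3

private theorem nrm_star78 {b : Fin N → ℕ} {α : Type} {l : Filter α} {A : α → MN N} {R r : ℝ}
    (hr : 0 < r) (hA : ∀ᶠ a in l, A a ∈ Kb b R r)
    (h : Tendsto (fun a => (A a)ᴴ * A a) l (𝓝 1)) :
    Tendsto (fun a => (nrm b (A a))ᴴ * nrm b (A a)) l (𝓝 1) := by
  rw [tendsto_iff_ultrafilter]
  intro u hu
  obtain ⟨A0, hA0, hAl⟩ := lim78 u (hA.filter_mono hu)
  have hc : Continuous fun C : MN N => Cᴴ * C := by fun_prop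
  have h1 : A0ᴴ * A0 = 1 := tendsto_nhds_unique ((hc.tendsto A0).comp hAl) (h.mono_left hu)
  have h2 := (hc.tendsto _).comp (nrm_lim78 hr (hA.filter_mono hu) hA0 hAl)
  rw [nrm_unitary b (Kb_sub b hr hA0) h1, h1] at h2
  exact h2

private theorem nrm_star78' {b : Fin N → ℕ} {α : Type} {l : Filter α} {A : α → MN N} {R r : ℝ}
    (hr : 0 < r) (hA : ∀ᶠ a in l, A a ∈ Kb b R r)
    (h : Tendsto (fun a => A a * (A a)ᴴ) l (𝓝 1)) :
    Tendsto (fun a => nrm b (A a) * (nrm b (A a))ᴴ) l (𝓝 1) := by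
  rw [tendsto_iff_ultrafilter]
  intro u hu
  obtain ⟨A0, hA0, hAl⟩ := lim78 u (hA.filter_mono hu)
  have hc : Continuous fun C : MN N => C * Cᴴ := by fun_prop
  have h1 : A0 * A0ᴴ = 1 := tendsto_nhds_unique ((hc.tendsto A0).comp hAl) (h.mono_left hu)
  have h2 := (hc.tendsto _).comp (nrm_lim78 hr (hA.filter_mono hu) hA0 hAl)
  rw [nrm_unitary b (Kb_sub b hr hA0) (mul_eq_one_comm.1 h1), h1] at h2
  exact h2

private theorem conj_zero78 {α : Type} {l : Filter α} {k k' A : α → MN N} (hk : ∀ a, IsU (k a))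
    (hk' : ∀ a, IsU (k' a)) (h : Tendsto A l (𝓝 0)) :
    Tendsto (fun a => k a * A a * (k' a)ᴴ) l (𝓝 0) := by
  refine tendsto_pi_nhds.mpr fun i => tendsto_pi_nhds.mpr fun j => ?_
  change Tendsto _ _ (𝓝 ((0 : MN N) i j))
  rw [Matrix.zero_apply, tendsto_zero_iff_norm_tendsto_zero]
  have h1 : Tendsto (fun a => ∑ m : Fin N, ∑ n : Fin N, ‖A a n m‖) l (𝓝 0) := by
    have h2 : Tendsto (fun a => ∑ m : Fin N, ∑ n : Fin N, ‖A a n m‖) l
        (𝓝 (∑ _m : Fin N, ∑ _n : Fin N, (0 : ℝ))) := by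
      refine tendsto_finsetSum _ fun m _ => tendsto_finsetSum _ fun n _ => ?_
      have h3 := ((tendsto_pi_nhds.mp (tendsto_pi_nhds.mp h n)) m).norm
      rwa [show ‖(0 : MN N) n m‖ = 0 by rw [Matrix.zero_apply, norm_zero]] at h3
    simpa using h2
  refine squeeze_zero (fun a => norm_nonneg _) (fun a => ?_) h1
  rw [Matrix.mul_apply]
  refine (norm_sum_le _ _).trans (Finset.sum_le_sum fun m _ => ?_)
  rw [norm_mul, Matrix.conjTranspose_apply, norm_star, Matrix.mul_apply]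
  have h4 : ‖∑ n, k a i n * A a n m‖ ≤ ∑ n, ‖A a n m‖ := by
    refine (norm_sum_le _ _).trans (Finset.sum_le_sum fun n _ => ?_)
    rw [norm_mul]
    exact mul_le_of_le_one_left (norm_nonneg _) (U_entry78 (hk a) i n)
  calc ‖∑ n, k a i n * A a n m‖ * ‖k' a j m‖ ≤ ‖∑ n, k a i n * A a n m‖ * 1 :=
        mul_le_mul_of_nonneg_left (U_entry78 (hk' a) j m) (norm_nonneg _)
    _ ≤ _ := by rw [mul_one]; exact h4

private theorem ev78 {b : Fin N → ℕ} {α : Type} {l : Filter α} {f : α → MN N}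
    (hb : ∀ a, D b (f a) = f a)
    (h : Tendsto (fun a => (f a)ᴴ * f a) l (𝓝 1)) : ∀ᶠ a in l, f a ∈ Kb b 2 (1 / 2) := by
  have h1 : ∀ i : Fin N, ∀ᶠ a in l, ‖((f a)ᴴ * f a) i i‖ < 4 := by
    intro i
    have h2 := (tendsto_pi_nhds.1 (tendsto_pi_nhds.1 h i) i).norm
    rw [Matrix.one_apply_eq, norm_one] at h2
    exact h2.eventually (gt_mem_nhds (show (1 : ℝ) < 4 by norm_num))
  have h3 : Tendsto (fun a => ‖((f a)ᴴ * f a).det‖) l (𝓝 1) := by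
    have hc : Continuous fun C : MN N => C.det := by fun_prop
    have h4 := ((hc.tendsto 1).comp h).norm
    rw [Matrix.det_one, norm_one] at h4
    exact h4
  filter_upwards [Filter.eventually_all.2 h1,
    h3.eventually (lt_mem_nhds (show (1 / 4 : ℝ) < 1 by norm_num))] with a a0 a2
  refine ⟨hb a, fun i j => ?_, ?_⟩
  · have h5 := (col_le78 (f a) i j).trans (a0 j).le
    nlinarith [norm_nonneg (f a i j)]
  · rw [Matrix.det_mul, norm_mul, Matrix.det_conjTranspose, norm_star] at a2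
    nlinarith [norm_nonneg (f a).det]

private theorem nrm_smul78 (b : Fin N → ℕ) {c : ℂ} (hc : ‖c‖ = 1) {A : MN N} (hA : A ∈ GLb b) :
    nrm b (c • A) = c • nrm b A := by
  have hc0 : c ≠ 0 := by
    rintro rfl
    rw [norm_zero] at hc
    exact zero_ne_one hc
  have e : ∀ (z : ℂ) (B : MN N), diagonal (fun _ : Fin N => z) * B = z • B := by
    intro z B
    ext i j
    rw [Matrix.diagonal_mul, Matrix.smul_apply, smul_eq_mul]
  have h1 := nrm_bs b (z := fun _ => c) ⟨fun _ => hc0, fun _ _ _ => rfl⟩ hA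
  rw [e, hc, Complex.ofReal_one, div_one, e] at h1
  exact h1

private theorem smul_mem78 (b : Fin N → ℕ) {c : ℂ} (hc : ‖c‖ = 1) {A : MN N} {R r : ℝ}
    (hA : A ∈ Kb b R r) : c • A ∈ Kb b R r := by
  refine ⟨by rw [D_smul, hA.1], fun i j => ?_, ?_⟩
  · rw [Matrix.smul_apply, smul_eq_mul, norm_mul, hc, one_mul]
    exact hA.2.1 i j
  · rw [Matrix.det_smul, norm_mul, norm_pow, hc, one_pow, one_mul]
    exact hA.2.2

/-- conjugation of a bounded matrix by unitary matrices -/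
private theorem kKb78 {k k' A : MN N} (hk : IsU k) (hk' : IsU k') {R r : ℝ} (hr : 0 ≤ r)
    (hA : A ∈ Kb (fun _ : Fin N => 0) R r) :
    k * A * k'ᴴ ∈ Kb (fun _ : Fin N => 0) (N * (N * 1 * R) * 1) (1 * r * 1) :=
  Kb_mul (Kb_mul (U_Kb78 hk) hA zero_le_one hr) (U_Kb78 hk'.star) (by rwa [one_mul]) zero_le_one

end aux

section coc

variable (T : Str S) (Φ : Pool.Agent.Helper90.RK.Fib (fun _ : Fin N => 0) L)

/-- the untwisted matrix -/
private noncomputable def Mx78 (g h γ : G) : MN N :=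
  S.kR γ * nrm T.b (T.C g h γ) * (S.kR (g⁻¹ * γ * h))ᴴ

private theorem Mx_Kb78 (g h : G) : ∃ R : ℝ, ∀ n, ∀ᶠ γ in T.F n,
    Mx78 T g h γ ∈ Kb (fun _ : Fin N => 0) R 1 := by
  obtain ⟨R, r, hr, hK⟩ := T.C_compact g h
  obtain ⟨R', hR'⟩ := nrm_Kb78 T.b R hr
  refine ⟨N * (N * 1 * R') * 1, fun n => ?_⟩
  filter_upwards [hK n] with γ hγ
  have h1 := kKb78 (S.uR γ) (S.uR (g⁻¹ * γ * h)) zero_le_one (hR' _ hγ)
  rw [one_mul, one_mul] at h1
  exact h1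

private theorem Mx_one78 (γ : G) (w : L) : Φ.π (Mx78 T 1 1 γ) w = w := by
  obtain ⟨c, hc, h⟩ := T.C_one γ
  have h1 : Mx78 T 1 1 γ = c • (1 : MN N) := by
    unfold Mx78
    rw [h, nrm_smul78 T.b hc (GLb_one T.b), nrm_one, Matrix.mul_smul, Matrix.mul_one,
      Matrix.smul_mul, inv_one, one_mul, mul_one, (S.uR γ).mul_star]
  rw [h1, fib_scal_one Φ c hc (GLb_one _), fib_one]

private theorem Mx_mul78 (g h g' h' : G) (n : ℕ) (w : L) :
    Tendsto (fun γ => Φ.π (Mx78 T (g * g') (h * h') γ) w -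
      Φ.π (Mx78 T g h γ) (Φ.π (Mx78 T g' h' (g⁻¹ * γ * h)) w)) (T.F n) (𝓝 0) := by
  obtain ⟨R, r, hr, hK⟩ := T.C_compact g h
  obtain ⟨R', r', hr', hK'⟩ := T.C_compact g' h'
  obtain ⟨R'', r'', hr'', hK''⟩ := T.C_compact (g * g') (h * h')
  obtain ⟨n', hsh⟩ := T.shift g h n
  obtain ⟨c, hc, hcm⟩ := T.C_mul g h g' h'
  obtain ⟨P1, hP1⟩ := Mx_Kb78 T g h
  obtain ⟨P2, hP2⟩ := Mx_Kb78 T g' h'
  obtain ⟨P3, hP3⟩ := Mx_Kb78 T (g * g') (h * h')
  have e1 := hK n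
  have e2 : ∀ᶠ γ in T.F n, T.C g' h' (g⁻¹ * γ * h) ∈ Kb T.b R' r' := hsh.eventually (hK' n')
  have e3 := hK'' n
  have d1 := hP1 n
  have d2 : ∀ᶠ γ in T.F n, Mx78 T g' h' (g⁻¹ * γ * h) ∈ Kb (fun _ : Fin N => 0) P2 1 :=
    hsh.eventually (hP2 n')
  have d3 := hP3 n
  obtain ⟨RR, hRR⟩ : ∃ RR, RR = max (N * R * R') R'' := ⟨_, rfl⟩
  obtain ⟨rr, hrr⟩ : ∃ rr, rr = min (r * r') r'' := ⟨_, rfl⟩
  have hrr0 : 0 < rr := by rw [hrr]; exact lt_min (mul_pos hr hr') hr''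
  have hf : ∀ᶠ γ in T.F n, c γ • (T.C g h γ * T.C g' h' (g⁻¹ * γ * h)) ∈ Kb T.b RR rr := by
    filter_upwards [e1, e2] with γ h1 h2
    refine smul_mem78 T.b (hc γ) ?_
    rw [hRR, hrr]
    exact Kb_mono (le_max_left _ _) (min_le_left _ _) (Kb_mul h1 h2 hr.le hr'.le)
  have hg : ∀ᶠ γ in T.F n, T.C (g * g') (h * h') γ ∈ Kb T.b RR rr := by
    filter_upwards [e3] with γ h3
    rw [hRR, hrr]
    exact Kb_mono (le_max_right _ _) (min_le_right _ _) h3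
  have k1 := nrm_unif78 hrr0 hf hg (hcm n)
  have k2 := conj_zero78 (k := fun γ => S.kR γ) (k' := fun γ => S.kR ((g * g')⁻¹ * γ * (h * h')))
    (fun γ => S.uR γ) (fun γ => S.uR _) k1
  have hsg : ∀ γ : G, g'⁻¹ * (g⁻¹ * γ * h) * h' = (g * g')⁻¹ * γ * (h * h') := by
    intro γ
    rw [_root_.mul_inv_rev]
    simp only [mul_assoc]
  have hprod : ∀ᶠ γ in T.F n, S.kR γ * (nrm T.b (c γ • (T.C g h γ * T.C g' h' (g⁻¹ * γ * h))) -
      nrm T.b (T.C (g * g') (h * h') γ)) * (S.kR ((g * g')⁻¹ * γ * (h * h')))ᴴ =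
      c γ • (Mx78 T g h γ * Mx78 T g' h' (g⁻¹ * γ * h)) - Mx78 T (g * g') (h * h') γ := by
    filter_upwards [e1, e2] with γ h1 h2
    have hC := Kb_sub T.b hr h1
    have hC' := Kb_sub T.b hr' h2
    have h3 : Mx78 T g h γ * Mx78 T g' h' (g⁻¹ * γ * h) =
        S.kR γ * (nrm T.b (T.C g h γ) * nrm T.b (T.C g' h' (g⁻¹ * γ * h))) *
          (S.kR ((g * g')⁻¹ * γ * (h * h')))ᴴ := by
      unfold Mx78
      rw [hsg]
      have h4 : (S.kR (g⁻¹ * γ * h))ᴴ * S.kR (g⁻¹ * γ * h) = 1 := S.uR _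
      calc S.kR γ * nrm T.b (T.C g h γ) * (S.kR (g⁻¹ * γ * h))ᴴ *
            (S.kR (g⁻¹ * γ * h) * nrm T.b (T.C g' h' (g⁻¹ * γ * h)) *
              (S.kR ((g * g')⁻¹ * γ * (h * h')))ᴴ) =
          S.kR γ * nrm T.b (T.C g h γ) * ((S.kR (g⁻¹ * γ * h))ᴴ * S.kR (g⁻¹ * γ * h)) *
            nrm T.b (T.C g' h' (g⁻¹ * γ * h)) * (S.kR ((g * g')⁻¹ * γ * (h * h')))ᴴ := by
            simp only [Matrix.mul_assoc]
        _ = _ := by
            rw [h4, Matrix.mul_one]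
            simp only [Matrix.mul_assoc]
    rw [h3, nrm_smul78 T.b (hc γ) (GLb_mul T.b hC hC'), nrm_mul T.b hC hC']
    unfold Mx78
    rw [Matrix.mul_sub, Matrix.sub_mul, Matrix.mul_smul, Matrix.smul_mul]
  have k3 : Tendsto (fun γ => c γ • (Mx78 T g h γ * Mx78 T g' h' (g⁻¹ * γ * h)) -
      Mx78 T (g * g') (h * h') γ) (T.F n) (𝓝 0) := k2.congr' hprod
  obtain ⟨QQ, hQQ⟩ : ∃ QQ, QQ = max (N * P1 * P2) P3 := ⟨_, rfl⟩
  have hf2 : ∀ᶠ γ in T.F n, Mx78 T g h γ * Mx78 T g' h' (g⁻¹ * γ * h) ∈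
      Kb (fun _ : Fin N => 0) QQ 1 := by
    filter_upwards [d1, d2] with γ h1 h2
    rw [hQQ]
    exact Kb_mono (le_max_left _ _) (by rw [one_mul]) (Kb_mul h1 h2 zero_le_one zero_le_one)
  have hg2 : ∀ᶠ γ in T.F n, Mx78 T (g * g') (h * h') γ ∈ Kb (fun _ : Fin N => 0) QQ 1 := by
    filter_upwards [d3] with γ h3
    rw [hQQ]
    exact Kb_mono (le_max_right _ _) le_rfl h3
  have key := (fib_tendsto_sub Φ one_pos hc hf2 hg2 k3 w).neg
  rw [neg_zero] at key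
  refine key.congr' ?_
  filter_upwards [d1, d2] with γ h1 h2
  rw [Φ.mul _ _ (Kb_sub _ one_pos h1) (Kb_sub _ one_pos h2), neg_sub]

private theorem Mx_left78 (g : G) (n : ℕ) :
    Tendsto (fun γ => Φ.π (Mx78 T g 1 γ) Φ.v - Φ.v) (T.F n) (𝓝 0) := by
  obtain ⟨R, r, hr, hK⟩ := T.C_compact g 1
  have h1 := nrm_star78' hr (hK n) (T.C_left g n)
  have h2 : Tendsto (fun γ => nrm T.b (T.C g 1 γ) * (nrm T.b (T.C g 1 γ))ᴴ - 1) (T.F n) (𝓝 0) := by
    have := h1.sub_const (1 : MN N)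
    rwa [sub_self] at this
  have h3 := conj_zero78 (k := fun γ => S.kR γ) (k' := fun γ => S.kR γ)
    (fun γ => S.uR γ) (fun γ => S.uR γ) h2
  have h4 : Tendsto (fun γ => Mx78 T g 1 γ * (Mx78 T g 1 γ)ᴴ) (T.F n) (𝓝 1) := by
    have h5 := h3.add_const (1 : MN N)
    rw [zero_add] at h5
    refine h5.congr fun γ => ?_
    unfold Mx78
    rw [Matrix.conjTranspose_mul, Matrix.conjTranspose_mul, Matrix.conjTranspose_conjTranspose]
    have h6 : (S.kR (g⁻¹ * γ * 1))ᴴ * S.kR (g⁻¹ * γ * 1) = 1 := S.uR _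
    have h7 : S.kR γ * (S.kR γ)ᴴ = 1 := (S.uR γ).mul_star
    calc S.kR γ * (nrm T.b (T.C g 1 γ) * (nrm T.b (T.C g 1 γ))ᴴ - 1) * (S.kR γ)ᴴ + 1
        = S.kR γ * (nrm T.b (T.C g 1 γ) * (nrm T.b (T.C g 1 γ))ᴴ) * (S.kR γ)ᴴ := by
          rw [Matrix.mul_sub, Matrix.sub_mul, Matrix.mul_one, h7, sub_add_cancel]
      _ = S.kR γ * nrm T.b (T.C g 1 γ) * ((S.kR (g⁻¹ * γ * 1))ᴴ * S.kR (g⁻¹ * γ * 1)) *
            ((nrm T.b (T.C g 1 γ))ᴴ * (S.kR γ)ᴴ) := by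
          rw [h6, Matrix.mul_one]
          simp only [Matrix.mul_assoc]
      _ = _ := by simp only [Matrix.mul_assoc]
  have h8 := (fib_tendsto_v Φ (f := fun γ => Mx78 T g 1 γ) (fun γ => D0_78 _) h4).sub_const Φ.v
  rwa [sub_self] at h8

private theorem X_Kb78 (n : ℕ) : ∃ R : ℝ, ∀ γ ∈ T.W n,
    S.kR γ * nrm T.b (S.X γ) ∈ Kb (fun _ : Fin N => 0) R 1 := by
  obtain ⟨K, hK⟩ := T.X_compact n
  obtain ⟨R', hR'⟩ := nrm_Kb78 T.b K one_pos
  refine ⟨N * 1 * R', fun γ hγ => ?_⟩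
  obtain ⟨z, hz0, hz1, hz2⟩ := hK γ hγ
  have h1 := hR' _ hz2
  have h2 : nrm T.b (S.X γ) ∈ Kb (fun _ : Fin N => 0) R' 1 := by
    refine ⟨D0_78 _, fun i j => ?_, (norm_det_nrm T.b (T.X_mem γ)).ge⟩
    have h3 := h1.2.1 i j
    rw [nrm_bs T.b ⟨hz0, hz1⟩ (T.X_mem γ), Matrix.diagonal_mul, norm_mul, norm_div,
      Complex.norm_real, norm_norm, div_self (norm_ne_zero_iff.2 (hz0 i)), one_mul] at h3
    exact h3
  have h3 := Kb_mul (U_Kb78 (S.uR γ)) h2 zero_le_one zero_le_one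
  rwa [one_mul] at h3

private theorem Mx_cptX78 (n : ℕ) : ∃ K : Set L, IsCompact K ∧
    ∀ᶠ γ in T.F n, Φ.π (S.kR γ * nrm T.b (S.X γ)) Φ.v ∈ K := by
  obtain ⟨R, hR⟩ := X_Kb78 T n
  refine ⟨(fun C => Φ.π C Φ.v) '' Kb (fun _ : Fin N => 0) R 1, fib_compact Φ Φ.v one_pos, ?_⟩
  have hm : T.W n ∈ T.F n := T.le n (mem_principal_self _)
  filter_upwards [hm] with γ hγ
  exact ⟨_, hR γ hγ, rfl⟩

private theorem kX_mem78 (γ : G) : S.kR γ * nrm T.b (S.X γ) ∈ GLb (fun _ : Fin N => 0) := by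
  refine ⟨D0_78 _, ?_⟩
  rw [Matrix.det_mul]
  refine mul_ne_zero ?_ (nrm_mem T.b (T.X_mem γ)).2
  intro h
  have h1 := (S.uR γ).norm_det
  rw [h, norm_zero] at h1
  exact zero_ne_one h1

private theorem Mx_right78 (h : G) (n : ℕ) :
    Tendsto (fun γ => Φ.π (Mx78 T 1 h γ)
      (Φ.π (S.kR (1⁻¹ * γ * h) * nrm T.b (S.X (1⁻¹ * γ * h))) Φ.v) -
      Φ.π (S.kR γ * nrm T.b (S.X γ)) Φ.v) (T.F n) (𝓝 0) := by
  obtain ⟨O, hO0, hO1, hO2⟩ := T.C_right h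
  obtain ⟨R, r, hr, hK⟩ := T.C_compact 1 h
  obtain ⟨P1, hP1⟩ := Mx_Kb78 T 1 h
  have hOK := ev78 hO0 (hO2 n)
  have hs := nrm_star78 (by norm_num : (0 : ℝ) < 1 / 2) hOK (hO2 n)
  have hv := fib_tendsto_v' Φ (f := fun γ => nrm T.b (O γ)) (fun γ => D0_78 _) hs
  have h0 := (hv.sub_const Φ.v).norm
  rw [sub_self, norm_zero] at h0
  rw [tendsto_zero_iff_norm_tendsto_zero]
  refine h0.congr' ?_
  filter_upwards [hK n, hOK, hP1 n] with γ h1 h2 h3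
  obtain ⟨c, hc, he⟩ := hO1 γ
  have hX := T.X_mem γ
  have hX' := T.X_mem (γ * h)
  have hC := Kb_sub T.b hr h1
  have hO := Kb_sub T.b (by norm_num : (0 : ℝ) < 1 / 2) h2
  have hnO : nrm T.b (O γ) ∈ GLb (fun _ : Fin N => 0) := ⟨D0_78 _, (nrm_mem T.b hO).2⟩
  have hγ : (1 : G)⁻¹ * γ * h = γ * h := by rw [inv_one, one_mul]
  have e0 : Mx78 T 1 h γ * (S.kR (γ * h) * nrm T.b (S.X (γ * h))) =
      c • (S.kR γ * nrm T.b (S.X γ) * nrm T.b (O γ)) := by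
    unfold Mx78
    rw [hγ]
    have h6 : (S.kR (γ * h))ᴴ * S.kR (γ * h) = 1 := S.uR _
    calc S.kR γ * nrm T.b (T.C 1 h γ) * (S.kR (γ * h))ᴴ * (S.kR (γ * h) * nrm T.b (S.X (γ * h))) =
        S.kR γ * nrm T.b (T.C 1 h γ) * ((S.kR (γ * h))ᴴ * S.kR (γ * h)) * nrm T.b (S.X (γ * h)) := by
          simp only [Matrix.mul_assoc]
      _ = S.kR γ * (nrm T.b (T.C 1 h γ) * nrm T.b (S.X (γ * h))) := by
          rw [h6, Matrix.mul_one]
          simp only [Matrix.mul_assoc]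
      _ = _ := by
          rw [← nrm_mul T.b hC hX', he, nrm_smul78 T.b hc (GLb_mul T.b hX hO),
            nrm_mul T.b hX hO, Matrix.mul_smul, Matrix.mul_assoc]
  have e1 : Φ.π (Mx78 T 1 h γ) (Φ.π (S.kR (γ * h) * nrm T.b (S.X (γ * h))) Φ.v) =
      Φ.π (S.kR γ * nrm T.b (S.X γ)) (Φ.π (nrm T.b (O γ)) Φ.v) := by
    rw [← Φ.mul _ _ (Kb_sub _ one_pos h3) (kX_mem78 T (γ * h)), e0,
      fib_scal_one Φ c hc (GLb_mul _ (kX_mem78 T γ) hnO), Φ.mul _ _ (kX_mem78 T γ) hnO]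
  rw [hγ, e1, ← map_sub, LinearIsometryEquiv.norm_map]

end coc

private theorem re_symm78 (Ψ : Pool.Agent.Helper90.RK.FibM (fun _ : Fin N => 0) L) (C : MN N) :
    (inner ℂ (Ψ.Φ.π C Ψ.Φ.v) Ψ.Φ.v : ℂ).re = (inner ℂ Ψ.Φ.v (Ψ.Φ.π C Ψ.Φ.v) : ℂ).re := by
  rw [← inner_conj_symm, Complex.conj_re]

private theorem Mx_pos78 (T : Str S) (Ψ : Pool.Agent.Helper90.RK.FibM (fun _ : Fin N => 0) L) (n : ℕ) :
    ∃ c : ℝ, 0 < c ∧ ∀ γ ∈ T.W n,
      c ≤ (inner ℂ (Ψ.Φ.π (S.kR γ * nrm T.b (S.X γ)) Ψ.Φ.v) Ψ.Φ.v : ℂ).re := by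
  obtain ⟨K, hKX⟩ := X_Kb78 T n
  by_cases hne : (Kb (fun _ : Fin N => 0) K 1).Nonempty
  · have hK := isCompact_Kb (b := fun _ : Fin N => 0) K 1
    have hcont : ContinuousOn (fun C : MN N => (inner ℂ Ψ.Φ.v (Ψ.Φ.π C Ψ.Φ.v) : ℂ).re)
        (Kb (fun _ : Fin N => 0) K 1) := by
      have h1 : ContinuousOn (fun C : MN N => Ψ.Φ.π C Ψ.Φ.v) (Kb (fun _ : Fin N => 0) K 1) :=
        (Ψ.Φ.cont Ψ.Φ.v).mono (Kb_sub _ one_pos)
      have h2 : Continuous fun w : L => (inner ℂ Ψ.Φ.v w : ℂ).re :=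
        Complex.continuous_re.comp (continuous_const.inner continuous_id)
      exact h2.comp_continuousOn h1
    obtain ⟨C0, hC0, hmin⟩ := hK.exists_isMinOn hne hcont
    refine ⟨_, Ψ.pos C0 (Kb_sub _ one_pos hC0), fun γ hγ => ?_⟩
    rw [re_symm78 Ψ]
    exact hmin (hKX γ hγ)
  · refine ⟨1, one_pos, fun γ hγ => ?_⟩
    exact absurd ⟨_, hKX γ hγ⟩ hne

theorem exists_xcoc (T : Str S) (Ψ : FibM (fun _ : Fin N => 0) L) : ∃ Γ : Coc (toReg T) L,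
    (∀ g h γ, Γ.pi g h γ = Ψ.Φ.π (S.kR γ * nrm T.b (T.C g h γ) * (S.kR (g⁻¹ * γ * h))ᴴ)) ∧ Γ.v = Ψ.Φ.v ∧
      ∀ γ, Γ.vX γ = Ψ.Φ.π (S.kR γ * nrm T.b (S.X γ)) Ψ.Φ.v := by
  refine ⟨{ pi := fun g h γ => Ψ.Φ.π (Mx78 T g h γ)
            v := Ψ.Φ.v
            vX := fun γ => Ψ.Φ.π (S.kR γ * nrm T.b (S.X γ)) Ψ.Φ.v
            nv := Ψ.Φ.nv
            nvX := fun γ => by rw [LinearIsometryEquiv.norm_map, Ψ.Φ.nv]
            one := Mx_one78 T Ψ.Φ
            cpt := fun g h n w => ?_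
            mul := Mx_mul78 T Ψ.Φ
            left := Mx_left78 T Ψ.Φ
            cptX := Mx_cptX78 T Ψ.Φ
            right := Mx_right78 T Ψ.Φ
            nonneg := fun γ => ?_
            pos := Mx_pos78 T Ψ }, fun g h γ => rfl, rfl, fun γ => rfl⟩
  · obtain ⟨R, hR⟩ := Mx_Kb78 T g h
    refine ⟨(fun C => Ψ.Φ.π C w) '' Kb (fun _ : Fin N => 0) R 1, fib_compact Ψ.Φ w one_pos, ?_⟩
    refine (hR n).mono fun γ hγ => ?_
    exact ⟨_, hγ, rfl⟩
  · rw [re_symm78 Ψ]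
    exact (Ψ.pos _ (kX_mem78 T γ)).le

end Pool.Agent.Helper84.GN.S3
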