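import Pool.Agent.Helper9.S3.Defs

/-!
# Project S3, block E2: the multipliers for the untwisted cocycle

`D.mo γ t w = π(kR γ) (mu (mt A T γ t) (π((kR γ)ᴴ) w))`, `A` from `exists_AMd P Q` with `ε ^ 2` (`Helper84/GN/I3.lean`). `Hm T.b m` implies `Hm (fun _ => 0) m` (block scalars for `b = 0` are the scalars: `IsBs (fun _ => 0) z → IsBs T.b z`). `off`, `sum`, `cpt`, `left`, `right`: as in `Helper84/GN/I4.lean` (`mul_off`, `mul_sum`, `mul_cpt`, `point77`, `mul_left`, `mul_right`;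
copy what is private). For `left`, `right`: with `C' = nrm T.b (T.C g h γ)`, `M = kR γ * C' * (kR γ')ᴴ`, `π(M) = π(kR γ) π(C') π((kR γ')ᴴ)` (`C'` invertible eventually, `C_compact`): the expression is `π(kR γ) (mu (mt γ t) (π(C') f') - π(C') (mu (mt γ' t') f'))`, `f' = π((kR γ')ᴴ) f`. As in `point77` with `C'` instead of `C` (equivariance `equi` for `b = 0`) one needs
`∑_t (mt γ t (C' y) - mt γ' t' y)^2 ≤ a` for all `y` with `Gen T.b y` (use `Ψ.gsq2 T.b` and `Ψ.gsq1 T.b` instead of `sq2`, `sq1`). Here `mt γ t (C' y) = mt γ t (C y)` because `C' = diagonal z * C` with positive block scalars `z` (definition of `nrm`, `Helper90/RK/Nrm.lean`) and `Hm.hom` of `mt_hm`. So `mt_left`, `mt_right` (which are for `Gen T.b y`) apply.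
Note that after a change of variables by `C'` (block diagonal, invertible) `Gen T.b` is preserved.
-/

set_option autoImplicit false

open Filter Topology Matrix
open scoped ComplexConjugate

namespace Pool.Agent.Helper84.GN.S3

open NI GVN Pool.Agent.Helper90.RK Pool.Agent.Helper96.RK

variable {G Λ : Type} [Group G] [Group Λ] {N : ℕ} {P : PH G N} {S : Sv P}

variable {L : Type} [NormedAddCommGroup L] [InnerProductSpace ℂ L]

private theorem bs1 {b : Fin N → ℕ} {z : Fin N → ℂ} (hz : IsBs (fun _ : Fin N => 0) z) : IsBs b z :=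
  ⟨hz.1, fun i j _ => hz.2 i j rfl⟩

private theorem hmz1 {b : Fin N → ℕ} {m : YY N → ℝ} (hm : Pool.Agent.Helper90.RK.Hm b m) :
    Pool.Agent.Helper90.RK.Hm (fun _ : Fin N => 0) m :=
  ⟨hm.meas, hm.bdd, fun z hz y => hm.hom z (bs1 hz) y⟩

private theorem hm_const1 {b : Fin N → ℕ} (c : ℝ) :
    Pool.Agent.Helper90.RK.Hm b (fun _ : YY N => c) :=
  ⟨measurable_const, ⟨|c|, fun _ => le_rfl⟩, fun _ _ _ => rfl⟩

private theorem mu_zero1 {b : Fin N → ℕ} (Ψ : Pool.Agent.Helper90.RK.FibM b L) (f : L) :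
    Ψ.mu (fun _ => 0) f = 0 := by
  have h1 := Ψ.sq1 ({()} : Finset Unit) (fun _ _ => 1) (fun _ _ => hm_const1 1)
    (fun x _ => by simp) f
  have h2 := Ψ.sq1 (Finset.univ : Finset Bool) (fun b => if b then (fun _ => 1) else fun _ => 0) (by
      intro b _
      cases b
      · simpa using hm_const1 0
      · simpa using hm_const1 1) (fun x _ => by simp) f
  simp only [Finset.sum_singleton] at h1
  simp only [Fintype.sum_bool, if_true, Bool.false_eq_true, if_false] at h2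
  rw [h1] at h2
  have h3 : ‖Ψ.mu (fun _ => 0) f‖ ^ 2 = 0 := by linarith
  exact norm_eq_zero.1 (pow_eq_zero_iff (two_ne_zero)|>.1 h3)

private theorem glz1 {A : MN N} (h : A.det ≠ 0) : A ∈ GLb (fun _ : Fin N => 0) := by
  refine ⟨?_, h⟩
  ext i j
  rw [D_apply, if_pos rfl]

private theorem isu_gl1 {k : MN N} (hk : IsU k) : k ∈ GLb (fun _ : Fin N => 0) := by
  refine glz1 ?_
  intro h
  have := hk.norm_det
  rw [h, norm_zero] at this
  exact zero_ne_one this

private theorem pi_star1 (Φ : Pool.Agent.Helper90.RK.Fib (fun _ : Fin N => 0) L) {k : MN N}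
    (hk : IsU k) (w : L) : Φ.π kᴴ (Φ.π k w) = w := by
  have h1 : kᴴ * k = 1 := hk
  rw [← Φ.mul _ _ (isu_gl1 hk.star) (isu_gl1 hk), h1, fib_one]

private theorem mt_zero1 {Q : Finset G} {ε : ℝ} (T : Str S) (A : AMd P Q ε) (γ : G) {t : G}
    (ht : t ∉ A.supp) : mt A T γ t = fun _ => 0 := by
  funext y
  unfold mt
  rw [A.off _ _ ht, Real.sqrt_zero]

/-- the multiplier -/
private noncomputable def xm1 (Ψ : FibX N L) (k : MN N) (m : YY N → ℝ) : L →L[ℂ] L :=
  ((Ψ.Φ.π k).toContinuousLinearEquiv : L →L[ℂ] L).comp ((Ψ.mu m).comp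
    ((Ψ.Φ.π kᴴ).toContinuousLinearEquiv : L →L[ℂ] L))

private theorem xm_apply1 (Ψ : FibX N L) (k : MN N) (m : YY N → ℝ) (w : L) :
    xm1 Ψ k m w = Ψ.Φ.π k (Ψ.mu m (Ψ.Φ.π kᴴ w)) := rfl

private theorem compactU1 : IsCompact {k : MN N | IsU k} := by
  have h1 : IsCompact (Set.univ.pi fun _ : Fin N => (Set.univ.pi fun _ : Fin N =>
      Metric.closedBall (0 : ℂ) 1)) :=
    isCompact_univ_pi fun _ => isCompact_univ_pi fun _ => isCompact_closedBall 0 1
  have h2 : IsClosed {k : MN N | IsU k} := by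
    have : Continuous fun k : MN N => kᴴ * k := by fun_prop
    exact isClosed_eq this continuous_const
  refine IsCompact.of_isClosed_subset h1 h2 ?_
  intro k hk
  refine Set.mem_univ_pi.2 fun i => Set.mem_univ_pi.2 fun j => ?_
  rw [mem_closedBall_zero_iff]
  exact norm_entry_le_one hk i j

private theorem sqrt_sub1 {a b : ℝ} (ha : 0 ≤ a) (hb : 0 ≤ b) :
    (Real.sqrt a - Real.sqrt b) ^ 2 ≤ |a - b| := by
  have h1 : a - b = (Real.sqrt a - Real.sqrt b) * (Real.sqrt a + Real.sqrt b) := by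
    have e1 := Real.sq_sqrt ha
    have e2 := Real.sq_sqrt hb
    nlinarith
  have h2 : |Real.sqrt a - Real.sqrt b| ≤ Real.sqrt a + Real.sqrt b := by
    rw [abs_le]
    constructor <;> linarith [Real.sqrt_nonneg a, Real.sqrt_nonneg b]
  rw [h1, abs_mul, ← sq_abs, sq, abs_of_nonneg (add_nonneg (Real.sqrt_nonneg a) (Real.sqrt_nonneg b))]
  exact mul_le_mul_of_nonneg_left h2 (abs_nonneg _)

omit [InnerProductSpace ℂ L] in
/-- contractions depending continuously on a parameter, applied to a continuous function -/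
private theorem jc1 {α : Type} [TopologicalSpace α] {s : Set α} {T : α → L → L} {f : α → L}
    (h1 : ∀ a ∈ s, ∀ x y, ‖T a x - T a y‖ ≤ ‖x - y‖) (h2 : ∀ x, ContinuousOn (fun a => T a x) s)
    (hf : ContinuousOn f s) : ContinuousOn (fun a => T a (f a)) s := by
  intro a0 ha0
  have h3 : Tendsto (fun a => T a (f a) - T a (f a0)) (𝓝[s] a0) (𝓝 0) := by
    have h4 : Tendsto (fun a => ‖f a - f a0‖) (𝓝[s] a0) (𝓝 0) := by
      have := (hf a0 ha0).tendsto.sub_const (f a0)
      rw [sub_self] at this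
      simpa using this.norm
    refine squeeze_zero_norm' ?_ h4
    filter_upwards [self_mem_nhdsWithin] with a ha
    exact h1 a ha _ _
  have h5 := h3.add (h2 (f a0) a0 ha0).tendsto
  simp only [sub_add_cancel, zero_add] at h5
  exact h5

private theorem mu_contr1 (Ψ : FibX N L) {m : YY N → ℝ}
    (hm : Pool.Agent.Helper90.RK.Hm (fun _ : Fin N => 0) m) (h : ∀ y, |m y| ≤ 1) (f : L) :
    ‖Ψ.mu m f‖ ≤ ‖f‖ := by
  have h1 := Ψ.sq2 ({()} : Finset Unit) (fun _ => m) (fun _ _ => 0) 1 (fun _ _ => hm)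
    (fun _ _ => hm_const1 0) (fun x _ => by
      rw [Finset.sum_singleton, sub_zero]
      have := h x
      have h2 := sq_abs (m x)
      nlinarith [abs_nonneg (m x)]) f
  simp only [Finset.sum_singleton] at h1
  rw [mu_zero1, sub_zero, one_mul] at h1
  exact le_of_sq_le_sq h1 (norm_nonneg _)

private theorem mul_cpt1 {Q : Finset G} {ε : ℝ} (T : Str S) (Ψ : FibX N L) (A : AMd P Q ε) (t : G)
    (w : L) : ∃ K : Set L, IsCompact K ∧ ∀ γ, xm1 Ψ (S.kR γ) (mt A T γ t) w ∈ K := by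
  by_cases ht : t ∈ A.supp
  · refine ⟨(fun k : MN N => xm1 Ψ k (fun y => Real.sqrt (A.κ (k * ql (D T.b (colM y))) t)) w) ''
      {k : MN N | IsU k}, ?_, ?_⟩
    · refine compactU1.image_of_continuousOn ?_
      simp only [xm_apply1]
      have c1 : ContinuousOn (fun k : MN N => Ψ.Φ.π kᴴ w) {k : MN N | IsU k} := by
        refine (Ψ.Φ.cont w).comp (f := fun k : MN N => kᴴ) ?_ ?_
        · have : Continuous fun k : MN N => kᴴ := by fun_prop
          exact this.continuousOn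
        · intro k hk
          exact isu_gl1 (IsU.star hk)
      have c2 : ∀ x : L, ContinuousOn (fun k : MN N =>
          Ψ.mu (fun y => Real.sqrt (A.κ (k * ql (D T.b (colM y))) t)) x) {k : MN N | IsU k} := by
        intro x k0 hk0
        have hk0' : IsU k0 := hk0
        refine Metric.tendsto_nhds.2 fun e he => ?_
        -- the allowed deviation
        set e1 : ℝ := (e / (‖x‖ + 1)) ^ 2 / 2 with he1
        have hw : 0 < ‖x‖ + 1 := by positivity
        have he1p : 0 < e1 := by positivity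
        obtain ⟨d', hd', hn⟩ := A.near e1 he1p
        have hcont : ContinuousAt (fun k : MN N => ns (kᴴ * k0 - 1)) k0 := by
          have : Continuous fun k : MN N => ns (kᴴ * k0 - 1) := by
            unfold ns
            refine continuous_finsetSum _ fun i _ => continuous_finsetSum _ fun j _ => ?_
            have h5 : Continuous fun k : MN N => (kᴴ * k0 - 1) i j := by
              have : Continuous fun k : MN N => kᴴ * k0 - 1 := by fun_prop
              exact this.matrix_elem i j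
            exact h5.norm.pow 2
          exact this.continuousAt
        have hz : ns (k0ᴴ * k0 - 1) = 0 := by
          have : k0ᴴ * k0 = 1 := hk0'
          rw [this, sub_self]
          simp [ns]
        have hev : ∀ᶠ k in 𝓝[{k : MN N | IsU k}] k0, ns (kᴴ * k0 - 1) < d' ^ 2 := by
          have := hcont.tendsto
          rw [hz] at this
          exact (this.eventually (gt_mem_nhds (by positivity))).filter_mono nhdsWithin_le_nhds
        filter_upwards [hev, self_mem_nhdsWithin] with k hk hkU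
        have hkU' : IsU k := hkU
        have hmain : ∀ y : YY N,
            (Real.sqrt (A.κ (k * ql (D T.b (colM y))) t) -
              Real.sqrt (A.κ (k0 * ql (D T.b (colM y))) t)) ^ 2 ≤ e1 := by
          intro y
          have hr := ql_unitary (D T.b (colM y))
          set q := ql (D T.b (colM y)) with hq
          refine (sqrt_sub1 (A.nonneg _ _) (A.nonneg _ _)).trans ?_
          have h6 := hn (k * q) (k0 * q) (hkU'.mul hr) (hk0'.mul hr) (by
            intro i j hij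
            have h7 : ((k * q)ᴴ * (k0 * q)) i j = (qᴴ * (kᴴ * k0 - 1) * q) i j := by
              have h8 : qᴴ * (kᴴ * k0 - 1) * q = (k * q)ᴴ * (k0 * q) - 1 := by
                have hr' : qᴴ * q = 1 := hr
                rw [Matrix.conjTranspose_mul, Matrix.mul_sub, Matrix.sub_mul, Matrix.mul_one, hr']
                simp only [Matrix.mul_assoc]
              rw [h8, Matrix.sub_apply, Matrix.one_apply_ne (ne_of_lt hij), sub_zero]
            rw [h7]
            have h9 := norm_apply_sq_le (qᴴ * (kᴴ * k0 - 1) * q) i j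
            rw [ns_mul_unitary hr, ns_unitary_mul hr.star] at h9
            exact abs_le_of_sq_le_sq' (by linarith) hd'.le |>.2)
          exact (Finset.single_le_sum (f := fun t => |A.κ (k * q) t - A.κ (k0 * q) t|)
            (fun _ _ => abs_nonneg _) ht).trans h6
        have h10 := Ψ.sq2 ({()} : Finset Unit)
          (fun _ y => Real.sqrt (A.κ (k * ql (D T.b (colM y))) t))
          (fun _ y => Real.sqrt (A.κ (k0 * ql (D T.b (colM y))) t)) e1
          (fun _ _ => hmz1 (hm_k A T.mono hkU' t))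
          (fun _ _ => hmz1 (hm_k A T.mono hk0' t)) (fun x _ => by simpa using hmain x) x
        simp only [Finset.sum_singleton] at h10
        rw [dist_eq_norm]
        refine lt_of_pow_lt_pow_left₀ 2 he.le (lt_of_le_of_lt h10 ?_)
        have h11 : ‖x‖ ^ 2 ≤ (‖x‖ + 1) ^ 2 := by
          have := norm_nonneg x
          nlinarith
        calc e1 * ‖x‖ ^ 2 ≤ e1 * (‖x‖ + 1) ^ 2 := mul_le_mul_of_nonneg_left h11 he1p.le
          _ = e ^ 2 / 2 := by rw [he1]; field_simp
          _ < e ^ 2 := by nlinarith [pow_pos he 2]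
      have c3 : ContinuousOn (fun k : MN N =>
          Ψ.mu (fun y => Real.sqrt (A.κ (k * ql (D T.b (colM y))) t)) (Ψ.Φ.π kᴴ w))
          {k : MN N | IsU k} := by
        refine jc1 (T := fun (k : MN N) (x : L) =>
          Ψ.mu (fun y => Real.sqrt (A.κ (k * ql (D T.b (colM y))) t)) x) ?_ c2 c1
        intro k hk x y
        have hk' : IsU k := hk
        rw [← map_sub]
        refine mu_contr1 Ψ (hmz1 (hm_k A T.mono hk' t)) (fun y => ?_) _
        rw [abs_of_nonneg (Real.sqrt_nonneg _)]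
        exact Real.sqrt_le_one.mpr (A.kap_le_one (hk'.mul (ql_unitary _)) t)
      refine jc1 (T := fun (k : MN N) (x : L) => Ψ.Φ.π k x) ?_ ?_ c3
      · intro k _ x y
        rw [← map_sub, LinearIsometryEquiv.norm_map]
      · intro x
        exact (Ψ.Φ.cont x).mono fun k hk => isu_gl1 hk
    · intro γ
      exact ⟨S.kR γ, S.uR γ, rfl⟩
  · refine ⟨{0}, isCompact_singleton, fun γ => ?_⟩
    rw [mt_zero1 T A γ ht, xm_apply1, mu_zero1, map_zero]
    rfl

private theorem hm_comp1 {m : YY N → ℝ} (hm : Pool.Agent.Helper90.RK.Hm (fun _ : Fin N => 0) m)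
    (C : MN N) : Pool.Agent.Helper90.RK.Hm (fun _ : Fin N => 0) (fun y => m (fun j => C *ᵥ y j)) where
  meas := by
    have h : Measurable fun y : YY N => (fun j => C *ᵥ y j : YY N) := by
      refine measurable_pi_lambda _ fun j => measurable_pi_lambda _ fun i => ?_
      show Measurable fun y : YY N => ∑ k, C i k * y j k
      exact Finset.measurable_sum _ fun k _ =>
        measurable_const.mul ((measurable_pi_apply k).comp (measurable_pi_apply j))
    exact hm.meas.comp h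
  bdd := by
    obtain ⟨c, hc⟩ := hm.bdd
    exact ⟨c, fun y => hc _⟩
  hom := fun z hz y => by
    show m (fun j => C *ᵥ (z * y j)) = m (fun j => C *ᵥ y j)
    have h : (fun j => C *ᵥ (z * y j)) = fun j => z * (C *ᵥ y j) := by
      funext j i
      show ∑ k, C i k * (z k * y j k) = z i * ∑ k, C i k * y j k
      rw [Finset.mul_sum]
      refine Finset.sum_congr rfl fun k _ => ?_
      rw [hz.2 i k rfl]
      ring
    rw [h, hm.hom z hz]

private theorem om_bs1 {b : Fin N → ℕ} {C : MN N} (hC : C ∈ GLb b) :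
    IsBs b fun i => ((om b C (b i) : ℝ) : ℂ) := by
  refine ⟨fun i => ?_, fun i j h => by
    show ((om b C (b i) : ℝ) : ℂ) = ((om b C (b j) : ℝ) : ℂ)
    rw [h]⟩
  have : 0 < om b C (b i) := Real.rpow_pos_of_pos (norm_pos_iff.2 (dt_ne b hC i)) _
  exact Complex.ofReal_ne_zero.2 this.ne'

private theorem nrm_mulVec1 (b : Fin N → ℕ) (C : MN N) (y : Fin N → ℂ) :
    nrm b C *ᵥ y = (fun i => ((om b C (b i) : ℝ) : ℂ)) * (C *ᵥ y) := by
  unfold nrm
  rw [← Matrix.mulVec_mulVec]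
  funext i
  rw [Matrix.mulVec_diagonal]
  rfl

private theorem point1 {Q : Finset G} {ε : ℝ} (T : Str S) (Ψ : FibX N L) (A : AMd P Q ε)
    {γ γ' : G} {C : MN N} (hC : C ∈ GLb T.b) (s : Finset G) (k : G → G) {a : ℝ}
    (h : ∀ y : YY N, Gen T.b y →
      ∑ t ∈ s, (mt A T γ t (fun j => C *ᵥ y j) - mt A T γ' (k t) y) ^ 2 ≤ a) (v : L) :
    ∑ t ∈ s, ‖Ψ.mu (mt A T γ t) (Ψ.Φ.π (nrm T.b C) v) -
      Ψ.Φ.π (nrm T.b C) (Ψ.mu (mt A T γ' (k t)) v)‖ ^ 2 ≤ a * ‖v‖ ^ 2 := by
  have hC' := nrm_mem T.b hC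
  set E := nrm T.b C with hE
  have hu : IsUnit E.det := isUnit_iff_ne_zero.2 hC'.2
  have hCi : E⁻¹ ∈ GLb T.b := GLb_inv T.b hC'
  have h1 := Ψ.gsq2 T.b s (fun t => mt A T γ t) (fun t y => mt A T γ' (k t) (fun j => E⁻¹ *ᵥ y j)) a
    (fun t _ => hmz1 (mt_hm A T γ t)) (fun t _ => hm_comp1 (hmz1 (mt_hm A T γ' (k t))) _)
    (fun x hx => by
      have h2 := h (fun j => E⁻¹ *ᵥ x j) (Gen_mulVec hCi hx)
      refine le_trans (le_of_eq (Finset.sum_congr rfl fun t _ => ?_)) h2
      have e3 : (fun j => (fun i => ((om T.b C (T.b i) : ℝ) : ℂ)) * (C *ᵥ (E⁻¹ *ᵥ x j))) = x := by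
        funext j
        rw [← nrm_mulVec1, ← hE, Matrix.mulVec_mulVec, Matrix.mul_nonsing_inv _ hu,
          Matrix.one_mulVec]
      have e2 := (mt_hm A T γ t).hom _ (om_bs1 hC) (fun j => C *ᵥ (E⁻¹ *ᵥ x j))
      rw [e3] at e2
      rw [e2]) (Ψ.Φ.π E v)
  rw [LinearIsometryEquiv.norm_map] at h1
  refine le_trans (le_of_eq ?_) h1
  refine Finset.sum_congr rfl fun t _ => ?_
  rw [Ψ.equi _ E (hmz1 (mt_hm A T γ' (k t))) (glz1 hC'.2) v]

private theorem C_mem1 (T : Str S) (g h : G) (n : ℕ) : ∀ᶠ γ in T.F n, T.C g h γ ∈ GLb T.b := by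
  obtain ⟨R, r, hr, hc⟩ := T.C_compact g h
  filter_upwards [hc n] with γ hγ
  exact Kb_sub T.b hr hγ

/-- the point estimate for the untwisted operators -/
private theorem xpoint1 {Q : Finset G} {ε : ℝ} (T : Str S) (Ψ : FibX N L) (A : AMd P Q ε)
    {γ γ' : G} {C : MN N} (hC : C ∈ GLb T.b) (s : Finset G) (k : G → G) {a : ℝ}
    (h : ∀ y : YY N, Gen T.b y →
      ∑ t ∈ s, (mt A T γ t (fun j => C *ᵥ y j) - mt A T γ' (k t) y) ^ 2 ≤ a) (f : L) :
    ∑ t ∈ s, ‖xm1 Ψ (S.kR γ) (mt A T γ t) (Ψ.Φ.π (S.kR γ * nrm T.b C * (S.kR γ')ᴴ) f) -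
      Ψ.Φ.π (S.kR γ * nrm T.b C * (S.kR γ')ᴴ) (xm1 Ψ (S.kR γ') (mt A T γ' (k t)) f)‖ ^ 2 ≤
        a * ‖f‖ ^ 2 := by
  have hE := nrm_mem T.b hC
  have hE' : nrm T.b C ∈ GLb (fun _ : Fin N => 0) := glz1 hE.2
  have hk := isu_gl1 (S.uR γ)
  have hk' := isu_gl1 (S.uR γ').star
  have hm : ∀ w, Ψ.Φ.π (S.kR γ * nrm T.b C * (S.kR γ')ᴴ) w =
      Ψ.Φ.π (S.kR γ) (Ψ.Φ.π (nrm T.b C) (Ψ.Φ.π (S.kR γ')ᴴ w)) := by
    intro w
    rw [Ψ.Φ.mul _ _ (GLb_mul _ hk hE') hk', Ψ.Φ.mul _ _ hk hE']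
  have h1 := point1 T Ψ A hC s k h (Ψ.Φ.π (S.kR γ')ᴴ f)
  rw [LinearIsometryEquiv.norm_map] at h1
  refine le_trans (le_of_eq (Finset.sum_congr rfl fun t _ => ?_)) h1
  rw [hm, hm, xm_apply1, xm_apply1, pi_star1 Ψ.Φ (S.uR γ), pi_star1 Ψ.Φ (S.uR γ'), ← map_sub,
    LinearIsometryEquiv.norm_map]

theorem exists_xmul (T : Str S) (Ψ : FibX N L) (Γ : Coc (toReg T) L)
    (hΓ : ∀ g h γ, Γ.pi g h γ = Ψ.Φ.π (S.kR γ * nrm T.b (T.C g h γ) * (S.kR (g⁻¹ * γ * h))ᴴ))
    (Q : Finset G) {ε : ℝ} (hε : 0 < ε) : ∃ (D : Mul Γ Q ε) (A : AMd P Q (ε ^ 2)),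
      ∀ γ t w, D.mo γ t w = Ψ.Φ.π (S.kR γ) (Ψ.mu (mt A T γ t) (Ψ.Φ.π (S.kR γ)ᴴ w)) := by
  obtain ⟨A⟩ := exists_AMd P Q (pow_pos hε 2)
  refine ⟨{
    supp := A.supp
    mo := fun γ t => xm1 Ψ (S.kR γ) (mt A T γ t)
    off := ?_
    sum := ?_
    cpt := mul_cpt1 T Ψ A
    left := ?_
    right := ?_ }, A, fun γ t w => rfl⟩
  · intro γ t ht
    rw [mt_zero1 T A γ ht]
    refine ContinuousLinearMap.ext fun f => ?_
    rw [xm_apply1, mu_zero1, map_zero]
    rfl
  · intro γ f
    have h1 := Ψ.sq1 A.supp (fun t => mt A T γ t) (fun t _ => hmz1 (mt_hm A T γ t))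
      (fun y _ => mt_sum A T γ y) (Ψ.Φ.π (S.kR γ)ᴴ f)
    rw [LinearIsometryEquiv.norm_map] at h1
    rw [← h1]
    refine Finset.sum_congr rfl fun t _ => ?_
    rw [xm_apply1, LinearIsometryEquiv.norm_map]
  · intro t g n w
    by_cases ht : t ∈ A.supp
    · refine Metric.tendsto_nhds.2 fun e he => ?_
      set e1 : ℝ := (e / (‖w‖ + 1)) ^ 2 / 2 with he1
      have hw : 0 < ‖w‖ + 1 := by positivity
      have he1p : 0 < e1 := by positivity
      filter_upwards [C_mem1 T g 1 n, mt_left A T g n he1p] with γ hγ h1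
      have h2 := xpoint1 T Ψ A hγ {t} id (a := e1) (γ := γ) (γ' := g⁻¹ * γ * 1) (fun y hy => by
        rw [Finset.sum_singleton]
        exact (Finset.single_le_sum (f := fun t => (mt A T γ t (fun k => T.C g 1 γ *ᵥ y k) -
          mt A T (g⁻¹ * γ * 1) t y) ^ 2) (fun _ _ => sq_nonneg _) ht).trans (h1 y hy)) w
      rw [Finset.sum_singleton] at h2
      rw [dist_zero_right, hΓ]
      refine lt_of_pow_lt_pow_left₀ 2 he.le (lt_of_le_of_lt h2 ?_)
      have h11 : ‖w‖ ^ 2 ≤ (‖w‖ + 1) ^ 2 := by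
        have := norm_nonneg w
        nlinarith
      calc e1 * ‖w‖ ^ 2 ≤ e1 * (‖w‖ + 1) ^ 2 := mul_le_mul_of_nonneg_left h11 he1p.le
        _ = e ^ 2 / 2 := by rw [he1]; field_simp
        _ < e ^ 2 := by nlinarith [pow_pos he 2]
    · have h1 : (fun γ => xm1 Ψ (S.kR γ) (mt A T γ t) (Γ.pi g 1 γ w) -
        Γ.pi g 1 γ (xm1 Ψ (S.kR (g⁻¹ * γ * 1)) (mt A T (g⁻¹ * γ * 1) t) w)) = fun _ => 0 := by
        funext γ
        rw [mt_zero1 T A γ ht, mt_zero1 T A _ ht, xm_apply1, xm_apply1, mu_zero1, mu_zero1,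
          map_zero, map_zero, map_zero, sub_zero]
      rw [h1]
      exact tendsto_const_nhds
  · intro h hh n
    have hF : (toReg T).F n = T.F n := rfl
    rw [hF]
    filter_upwards [C_mem1 T 1 h n, mt_right A T hh n] with γ hγ h1
    intro s f
    rw [hΓ]
    exact xpoint1 T Ψ A hγ s (fun t => h⁻¹ * t) (fun y hy => h1 y hy s) f

end Pool.Agent.Helper84.GN.S3
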