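import Pool.Agent.Helper9.S3.Defs

/-!
# Project S3, block F0: singular values of the inverse

`ι(γ⁻¹)` is a unit scalar times `ι(γ)⁻¹` (`iota_inv`), and `ι(γ)⁻¹ = kR γ * diagonal (1/s) * (kL γ)ᴴ`. `perm_of_svd` gives a permutation `p` with
`S.s γ⁻¹ i ^ 2 = (S.s γ (p i))⁻¹ ^ 2`; two antitone functions on `Fin N` which differ by a permutation are equal.
-/

set_option autoImplicit false

open Filter Topology Matrix
open scoped ComplexConjugate

namespace Pool.Agent.Helper84.GN.S3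

open NI GVN Pool.Agent.Helper90.RK Pool.Agent.Helper96.RK

variable {G Λ : Type} [Group G] [Group Λ] {N : ℕ} {P : PH G N} {S : Sv P}

private theorem antitone_eq' {N : ℕ} {f g : Fin N → ℝ} (hf : Antitone f) (hg : Antitone g)
    (h : Finset.univ.val.map f = Finset.univ.val.map g) : f = g := by
  rw [Fin.univ_val_map, Fin.univ_val_map, Multiset.coe_eq_coe] at h
  exact List.ofFn_injective (h.eq_of_sortedGE hf.sortedGE_ofFn hg.sortedGE_ofFn)

theorem s_inv (S : Sv P) (γ : G) (i : Fin N) : S.s γ⁻¹ i = (S.s γ (Fin.rev i))⁻¹ := by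
  obtain ⟨c, hc, h⟩ := iota_inv P γ
  have hL : (S.kL γ)ᴴ * S.kL γ = 1 := S.uL γ
  have hR : (S.kR γ)ᴴ * S.kR γ = 1 := S.uR γ
  have hR' : S.kR γ * (S.kR γ)ᴴ = 1 := mul_eq_one_comm.1 hR
  have hL' : S.kL γ * (S.kL γ)ᴴ = 1 := mul_eq_one_comm.1 hL
  have hinv : (P.ι γ)⁻¹ = S.kR γ * diagonal (fun i => (((S.s γ i)⁻¹ : ℝ) : ℂ)) * (S.kL γ)ᴴ := by
    apply inv_eq_right_inv
    rw [S.spec γ]
    calc S.kL γ * diagonal (fun i => (S.s γ i : ℂ)) * (S.kR γ)ᴴ *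
          (S.kR γ * diagonal (fun i => (((S.s γ i)⁻¹ : ℝ) : ℂ)) * (S.kL γ)ᴴ)
        = S.kL γ * (diagonal (fun i => (S.s γ i : ℂ)) * ((S.kR γ)ᴴ * S.kR γ) *
            diagonal (fun i => (((S.s γ i)⁻¹ : ℝ) : ℂ))) * (S.kL γ)ᴴ := by simp only [Matrix.mul_assoc]
      _ = S.kL γ * 1 * (S.kL γ)ᴴ := by
          rw [hR, Matrix.mul_one, diagonal_mul_diagonal]
          congr 2
          rw [← diagonal_one]
          congr 1
          funext i
          have := (S.pos γ i).ne'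
          rw [← Complex.ofReal_mul, mul_inv_cancel₀ this]
          simp
      _ = 1 := by rw [Matrix.mul_one, hL']
  have h1 : S.kL γ⁻¹ * diagonal (fun i => (S.s γ⁻¹ i : ℂ)) * (S.kR γ⁻¹)ᴴ =
      (c • S.kR γ) * diagonal (fun i => (((fun j => (S.s γ j)⁻¹) i : ℝ) : ℂ)) * (S.kL γ)ᴴ := by
    rw [← S.spec γ⁻¹, h, hinv, Matrix.smul_mul, Matrix.smul_mul]
  obtain ⟨p, hp⟩ := perm_of_svd (S.uL γ⁻¹) (S.uR γ⁻¹).star ((S.uR γ).smul hc) (S.uL γ).star h1
  have h2 : ∀ j, S.s γ⁻¹ j = (S.s γ (p j))⁻¹ := fun j =>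
    (sq_eq_sq₀ (S.pos _ _).le (inv_pos.2 (S.pos _ _)).le).1 (hp j)
  have h3 : Finset.univ.val.map (fun j => S.s γ⁻¹ j) =
      Finset.univ.val.map (fun j => (S.s γ (Fin.rev j))⁻¹) := by
    have h4 := congrArg Finset.val (Finset.map_univ_equiv (p.trans Fin.revPerm))
    rw [Finset.map_val] at h4
    have h5 : (fun j => S.s γ⁻¹ j) = (fun j => (S.s γ (Fin.rev j))⁻¹) ∘ (p.trans Fin.revPerm) := by
      funext j
      simp only [Function.comp_apply, Equiv.trans_apply, Fin.revPerm_apply, Fin.rev_rev]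
      exact h2 j
    rw [h5, ← Multiset.map_map]
    congr 1
  have h6 := antitone_eq' (f := fun j => S.s γ⁻¹ j) (g := fun j => (S.s γ (Fin.rev j))⁻¹) ?_ ?_ h3
  · exact congrFun h6 i
  · exact S.anti γ⁻¹
  · intro a b hab
    exact inv_anti₀ (S.pos γ _) (S.anti γ (Fin.rev_le_rev.2 hab))

theorem gp_inv (S : Sv P) (γ : G) {i j : Fin N} (h : (i : ℕ) + j + 2 = N) : gp S γ⁻¹ i = gp S γ j := by
  have hi : (i : ℕ) + 1 < N := by omega
  have hj : (j : ℕ) + 1 < N := by omega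
  unfold gp
  rw [dif_pos hi, dif_pos hj, s_inv, s_inv]
  have e1 : Fin.rev i = ⟨(j : ℕ) + 1, hj⟩ := by
    apply Fin.ext
    simp only [Fin.val_rev]
    omega
  have e2 : Fin.rev ⟨(i : ℕ) + 1, hi⟩ = j := by
    apply Fin.ext
    simp only [Fin.val_rev]
    omega
  rw [e1, e2, inv_div_inv]

end Pool.Agent.Helper84.GN.S3
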