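import Pool.Agent.Helper9.S3.P0
import Pool.Agent.Helper9.S3.P2

/-!
# Project S3, block P3: the cocycle is uniformly continuous at infinity

`posPD S T.b` has `d = pdist S T.b` (`rfl`). Let `w`, `ε`. `M γ = kR γ * nrm T.b (T.C 1 h γ) * (kR (γ h))ᴴ`. There are `R, r > 0` with `T.C 1 h γ ∈ Kb T.b R r` for all `γ` in a set of `T.F n`, for every `n` (`C_compact`). The set `Kd` of all `k * nrm T.b C * k'ᴴ`, `k`, `k'` unitary, `C ∈ Kb T.b R r`, is compact, contained in `GLb (fun _ => 0)`; `A ↦ π(A) w` is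
continuous on it (`Fib.cont`), hence uniformly continuous: there is `ε₁` with `‖π(A) w - π(A') w‖ ≤ ε` for `A, A' ∈ Kd`, `ns (A - A') ≤ ε₁`. By `pos_right` for small `ε₂`: for `γ, γ' ∈ s` with `pdist < δ` there are `u`, `v` and `C' = T.C 1 h γ'` is `ε₂`-close to `uᴴ C v`; `nrm (uᴴ C v) = uᴴ * nrm C * v` (`nrm_mul`, `nrm_unitary`; `uᴴ`, `v` block diagonal unitary),
`nrm` is uniformly continuous on `Kb T.b R r` (compact, `nrm_cont`). So `M γ' = kR γ' * nrm C' * (kR (γ' h))ᴴ` is close to `kR γ u * (uᴴ nrm C v) * vᴴ (kR (γ h))ᴴ = M γ`. Take `s` = intersection with the set where `T.C 1 h γ ∈ Kb T.b R r`.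
-/

set_option autoImplicit false

open Filter Topology Matrix
open scoped ComplexConjugate

namespace Pool.Agent.Helper84.GN.S3

open NI GVN Pool.Agent.Helper90.RK Pool.Agent.Helper96.RK

/-- uniform estimates on compact sets -/
private theorem cpt42 {X : Type*} [TopologicalSpace X] {K : Set X} (hK : IsCompact K) {F G : X → ℝ}
    (hF : ContinuousOn F K) (hG : ContinuousOn G K) (h0 : ∀ x ∈ K, G x ≤ 0 → F x ≤ 0)
    {ε : ℝ} (hε : 0 < ε) : ∃ δ : ℝ, 0 < δ ∧ ∀ x ∈ K, G x ≤ δ → F x ≤ ε := by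
  have : CompactSpace K := isCompact_iff_compactSpace.1 hK
  have hF' : Continuous fun x : K => F x := continuousOn_iff_continuous_domRestrict.1 hF
  have hG' : Continuous fun x : K => G x := continuousOn_iff_continuous_domRestrict.1 hG
  have hcl : IsClosed {x : K | ε ≤ F x} := isClosed_le continuous_const hF'
  have hcp : IsCompact {x : K | ε ≤ F x} := hcl.isCompact
  rcases Set.eq_empty_or_nonempty {x : K | ε ≤ F x} with he | hne
  · refine ⟨1, one_pos, fun x hx _ => ?_⟩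
    by_contra h
    have h1 : (⟨x, hx⟩ : K) ∈ {x : K | ε ≤ F x} := (not_le.1 h).le
    rw [he] at h1
    exact h1
  · obtain ⟨x₀, hx₀, hmin⟩ := hcp.exists_isMinOn hne hG'.continuousOn
    have hpos : 0 < G x₀ := by
      by_contra h
      have h1 := h0 x₀ x₀.2 (not_lt.1 h)
      have h2 : ε ≤ F x₀ := hx₀
      linarith
    refine ⟨G x₀ / 2, by linarith, fun x hx hGx => ?_⟩
    by_contra h
    have h1 : (⟨x, hx⟩ : K) ∈ {x : K | ε ≤ F x} := (not_le.1 h).le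
    have h2 : G x₀ ≤ G x := hmin h1
    linarith

section mat

variable {N : ℕ}

private theorem compactU42 : IsCompact {k : MN N | IsU k} := by
  have h1 : IsCompact (Set.univ.pi fun _ : Fin N => (Set.univ.pi fun _ : Fin N =>
      Metric.closedBall (0 : ℂ) 1)) :=
    isCompact_univ_pi fun _ => isCompact_univ_pi fun _ => isCompact_closedBall 0 1
  have h2 : IsClosed {k : MN N | IsU k} := by
    have : Continuous fun k : MN N => kᴴ * k := by fun_prop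
    exact isClosed_eq this continuous_const
  refine IsCompact.of_isClosed_subset h1 h2 ?_
  intro k hk
  refine Set.mem_univ_pi.2 fun i => Set.mem_univ_pi.2 fun j => ?_
  rw [mem_closedBall_zero_iff]
  exact norm_entry_le_one hk i j

private theorem ns_cont42 : Continuous (ns : MN N → ℝ) := by
  unfold ns
  refine continuous_finsetSum _ fun i _ => continuous_finsetSum _ fun j _ => ?_
  exact ((continuous_id.matrix_elem i j).norm).pow 2

private theorem ns_zero42 {A : MN N} (h : ns A ≤ 0) : A = 0 := by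
  ext i j
  have h1 := norm_apply_sq_le A i j
  have h2 : ‖A i j‖ ^ 2 ≤ 0 := h1.trans h
  have h3 : ‖A i j‖ = 0 := by
    have := sq_nonneg ‖A i j‖
    exact pow_eq_zero_iff two_ne_zero |>.1 (le_antisymm h2 this)
  rw [Matrix.zero_apply]
  exact norm_eq_zero.1 h3

private theorem inv_cont42 (b : Fin N → ℕ) : ContinuousOn (fun C : MN N => C⁻¹) (GLb b) := by
  have h1 : (fun C : MN N => C⁻¹) = fun C => (C.det)⁻¹ • C.adjugate := by
    funext C
    rw [Matrix.inv_def, Ring.inverse_eq_inv']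
  rw [h1]
  have ha : ContinuousOn (fun C : MN N => C.det) (GLb b) :=
    (Continuous.matrix_det continuous_id).continuousOn
  have hb : ContinuousOn (fun C : MN N => C.adjugate) (GLb b) :=
    (Continuous.matrix_adjugate continuous_id).continuousOn
  exact (ha.inv₀ fun C hC => hC.2).smul hb

private theorem nrm_cont42 (b : Fin N → ℕ) : ContinuousOn (fun C : MN N => nrm b C) (GLb b) := by
  have h1 := (nrm_cont b).comp (inv_cont42 b) fun C hC => GLb_inv b hC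
  refine h1.congr fun C hC => ?_
  change nrm b C = nrm b (C⁻¹)⁻¹
  rw [Matrix.nonsing_inv_nonsing_inv C (isUnit_iff_ne_zero.2 hC.2)]

private theorem GLb_unitary42 (b : Fin N → ℕ) {u : MN N} (hu : IsU u) (hD : D b u = u) : u ∈ GLb b := by
  refine ⟨hD, fun h => ?_⟩
  have := hu.norm_det
  rw [h, norm_zero] at this
  exact zero_ne_one this

private theorem mem_GL0_42 {A : MN N} (h : A.det ≠ 0) : A ∈ GLb (fun _ : Fin N => 0) := by
  refine ⟨?_, h⟩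
  ext i j
  rw [D_apply, if_pos rfl]

variable {L : Type} [NormedAddCommGroup L] [InnerProductSpace ℂ L]

private theorem key42 (b : Fin N → ℕ) (Φ : Pool.Agent.Helper90.RK.Fib (fun _ : Fin N => 0) L) (w : L)
    {R r : ℝ} (hr : 0 < r) {ε : ℝ} (hε : 0 < ε) :
    ∃ δ : ℝ, 0 < δ ∧ ∀ k₁ k₁' C₁ k₂ k₂' C₂ u v : MN N, IsU k₁ → IsU k₁' → C₁ ∈ Kb b R r →
      IsU k₂ → IsU k₂' → C₂ ∈ Kb b R r → IsU u → D b u = u → IsU v → D b v = v →
      ns (k₁ * u - k₂) ≤ δ → ns (k₁' * v - k₂') ≤ δ → ns (C₂ - uᴴ * C₁ * v) ≤ δ →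
      ‖Φ.π (k₁ * nrm b C₁ * k₁'ᴴ) w - Φ.π (k₂ * nrm b C₂ * k₂'ᴴ) w‖ ≤ ε := by
  set U : Set (MN N) := {k | IsU k} with hU
  set Ub : Set (MN N) := {k | IsU k ∧ D b k = k} with hUb
  have cU : IsCompact U := compactU42
  have cUb : IsCompact Ub := by
    have h1 : IsClosed {k : MN N | D b k = k} := isClosed_eq (D_continuous b) continuous_id
    have h2 : Ub = U ∩ {k : MN N | D b k = k} := rfl
    rw [h2]
    exact cU.inter_right h1
  have cK : IsCompact (Kb b R r) := isCompact_Kb b R r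
  -- the map on triples
  set Φ₀ : MN N × MN N × MN N → L := fun x => Φ.π (x.1 * nrm b x.2.2 * (x.2.1)ᴴ) w with hΦ₀
  have hΦc : ContinuousOn Φ₀ (U ×ˢ U ×ˢ Kb b R r) := by
    have h1 : ContinuousOn (fun x : MN N × MN N × MN N => nrm b x.2.2) (U ×ˢ U ×ˢ Kb b R r) :=
      (nrm_cont42 b).comp (continuous_snd.comp continuous_snd).continuousOn
        fun x hx => Kb_sub b hr hx.2.2
    have h2 : ContinuousOn (fun x : MN N × MN N × MN N => x.1) (U ×ˢ U ×ˢ Kb b R r) :=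
      continuous_fst.continuousOn
    have h3 : ContinuousOn (fun x : MN N × MN N × MN N => (x.2.1)ᴴ) (U ×ˢ U ×ˢ Kb b R r) :=
      (continuous_fst.comp continuous_snd).matrix_conjTranspose.continuousOn
    refine (Φ.cont w).comp ((h2.mul h1).mul h3) fun x hx => ?_
    apply mem_GL0_42
    have e1 : (x.1).det ≠ 0 := (GLb_unitary42 (fun _ => 0) hx.1 (by
      ext i j
      rw [D_apply, if_pos rfl])).2
    have e2 : ((x.2.1)ᴴ).det ≠ 0 := (GLb_unitary42 (fun _ => 0) hx.2.1.star (by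
      ext i j
      rw [D_apply, if_pos rfl])).2
    have e3 : (nrm b x.2.2).det ≠ 0 := (nrm_mem b (Kb_sub b hr hx.2.2)).2
    rw [Matrix.det_mul, Matrix.det_mul]
    exact mul_ne_zero (mul_ne_zero e1 e3) e2
  set K : Set ((MN N × MN N × MN N) × (MN N × MN N) × (MN N × MN N × MN N)) :=
    (U ×ˢ U ×ˢ Kb b R r) ×ˢ (Ub ×ˢ Ub) ×ˢ (U ×ˢ U ×ˢ Kb b R r) with hK
  have cK' : IsCompact K :=
    (cU.prod (cU.prod cK)).prod ((cUb.prod cUb).prod (cU.prod (cU.prod cK)))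
  have hF : ContinuousOn (fun q : (MN N × MN N × MN N) × (MN N × MN N) × (MN N × MN N × MN N) =>
      ‖Φ₀ q.1 - Φ₀ q.2.2‖) K := by
    refine (ContinuousOn.sub ?_ ?_).norm
    · exact hΦc.comp continuous_fst.continuousOn fun q hq => hq.1
    · exact hΦc.comp (continuous_snd.comp continuous_snd).continuousOn fun q hq => hq.2.2
  have hG : Continuous (fun q : (MN N × MN N × MN N) × (MN N × MN N) × (MN N × MN N × MN N) =>
      ns (q.1.1 * q.2.1.1 - q.2.2.1) + ns (q.1.2.1 * q.2.1.2 - q.2.2.2.1) +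
        ns (q.2.2.2.2 - (q.2.1.1)ᴴ * q.1.2.2 * q.2.1.2)) := by
    refine ((ns_cont42.comp ?_).add (ns_cont42.comp ?_)).add (ns_cont42.comp ?_)
    · fun_prop
    · fun_prop
    · fun_prop
  obtain ⟨δ, hδ, hmain⟩ := cpt42 cK' hF hG.continuousOn (by
    rintro ⟨⟨k₁, k₁', C₁⟩, ⟨u, v⟩, ⟨k₂, k₂', C₂⟩⟩ ⟨⟨hk₁, hk₁', hC₁⟩, ⟨⟨hu, hu'⟩, ⟨hv, hv'⟩⟩,
      ⟨hk₂, hk₂', hC₂⟩⟩ hG0
    simp only at hG0 hk₁ hk₁' hC₁ hu hu' hv hv' hk₂ hk₂' hC₂ ⊢
    have n1 := ns_nonneg (k₁ * u - k₂)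
    have n2 := ns_nonneg (k₁' * v - k₂')
    have n3 := ns_nonneg (C₂ - uᴴ * C₁ * v)
    have z1 := sub_eq_zero.1 (ns_zero42 (A := k₁ * u - k₂) (by linarith))
    have z2 := sub_eq_zero.1 (ns_zero42 (A := k₁' * v - k₂') (by linarith))
    have z3 := sub_eq_zero.1 (ns_zero42 (A := C₂ - uᴴ * C₁ * v) (by linarith))
    have gC : C₁ ∈ GLb b := Kb_sub b hr hC₁
    have gu : uᴴ ∈ GLb b := GLb_unitary42 b hu.star (by rw [D_star, hu'])
    have gv : v ∈ GLb b := GLb_unitary42 b hv hv'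
    have hn : nrm b C₂ = uᴴ * nrm b C₁ * v := by
      rw [z3, nrm_mul b (GLb_mul b gu gC) gv, nrm_mul b gu gC, nrm_unitary b gu hu.star,
        nrm_unitary b gv hv]
    have e : k₂ * nrm b C₂ * k₂'ᴴ = k₁ * nrm b C₁ * k₁'ᴴ := by
      rw [hn, ← z1, ← z2, Matrix.conjTranspose_mul]
      have e1 := hu.mul_star
      have e2 := hv.mul_star
      calc k₁ * u * (uᴴ * nrm b C₁ * v) * (vᴴ * k₁'ᴴ)
          = k₁ * (u * uᴴ) * nrm b C₁ * (v * vᴴ) * k₁'ᴴ := by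
            simp only [Matrix.mul_assoc]
        _ = k₁ * nrm b C₁ * k₁'ᴴ := by rw [e1, e2, Matrix.mul_one, Matrix.mul_one]
    change ‖Φ.π (k₁ * nrm b C₁ * k₁'ᴴ) w - Φ.π (k₂ * nrm b C₂ * k₂'ᴴ) w‖ ≤ 0
    rw [e, sub_self, norm_zero]) hε
  refine ⟨δ / 3, by linarith, ?_⟩
  intro k₁ k₁' C₁ k₂ k₂' C₂ u v hk₁ hk₁' hC₁ hk₂ hk₂' hC₂ hu hu' hv hv' h1 h2 h3
  exact hmain ⟨⟨k₁, k₁', C₁⟩, ⟨u, v⟩, ⟨k₂, k₂', C₂⟩⟩
    ⟨⟨hk₁, hk₁', hC₁⟩, ⟨⟨hu, hu'⟩, ⟨hv, hv'⟩⟩, ⟨hk₂, hk₂', hC₂⟩⟩ (by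
      change ns (k₁ * u - k₂) + ns (k₁' * v - k₂') + ns (C₂ - uᴴ * C₁ * v) ≤ δ
      linarith)

end mat

variable {G Λ : Type} [Group G] [Group Λ] {N : ℕ} {P : PH G N} {S : Sv P}

variable {L : Type} [NormedAddCommGroup L] [InnerProductSpace ℂ L]

theorem pcf_pi (T : Str S) (Ψ : FibM (fun _ : Fin N => 0) L) (Γ : Coc (toReg T) L)
    (hΓ : ∀ g h γ, Γ.pi g h γ = Ψ.Φ.π (S.kR γ * nrm T.b (T.C g h γ) * (S.kR (g⁻¹ * γ * h))ᴴ)) (h : G) :
    PCF (toReg T) (posPD S T.b) fun γ => ((Γ.pi 1 h γ).toContinuousLinearEquiv : L →L[ℂ] L) := by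
  intro w ε hε
  obtain ⟨R, r, hr, hK⟩ := T.C_compact 1 h
  obtain ⟨δ₁, hδ₁, hkey⟩ := key42 T.b Ψ.Φ w (R := R) hr hε
  obtain ⟨δ, hδ, hpos⟩ := pos_right T h hδ₁
  refine ⟨δ, hδ, fun n => ?_⟩
  obtain ⟨s, hs, hs'⟩ := hpos n
  refine ⟨s ∩ {γ | T.C 1 h γ ∈ Kb T.b R r}, inter_mem hs (hK n), ?_⟩
  rintro γ ⟨hγ, hCγ⟩ γ' ⟨hγ', hCγ'⟩ hd
  obtain ⟨u, v, hu, hv, hu', hv', h1, h2, h3⟩ := hs' γ hγ γ' hγ' hd
  change ‖Γ.pi 1 h γ w - Γ.pi 1 h γ' w‖ ≤ ε
  rw [hΓ, hΓ]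
  exact hkey _ _ _ _ _ _ u v (S.uR _) (S.uR _) hCγ (S.uR _) (S.uR _) hCγ' hu hu' hv hv' h1 h2 h3

end Pool.Agent.Helper84.GN.S3
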