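import Pool.Agent.Helper9.S3.Defs

/-!
# Project S3, block P1: close positions

By contradiction and compactness: if there is no `δ`, for every `n` there are unitary `k_n`, `k'_n` with the projections `δ = 1/(n+1)`-close and no `u`. Put `M_n = k_nᴴ k'_n`, unitary; a subsequence converges to a unitary `M` (the set `{M | Mᴴ M = 1}` is compact: closed and bounded in the finite dimensional space of matrices). For `b i ≠ b l` the entry
`(k_nᴴ k'_n) i l` tends to `0`: with `E_l = diagonal (1_{b · = b l})`, `E_i' = diagonal(1_{b · = b i})` (`E_i' E_l = 0`): `E_i' M_n E_l = E_i' k_nᴴ (k'_n E_l k'_nᴴ - k_n E_l k_nᴴ) k'_n E_l` (since `E_i' k_nᴴ k_n E_l k_nᴴ = 0`), and `ns` is invariant under multiplication by unitary matrices and does not increase under `E_i'`. So `D b M = M`. Put `u = M`: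
`ns (k_n M - k'_n) = ns (M - M_n) → 0`, a contradiction.
-/

set_option autoImplicit false

open Filter Topology Matrix
open scoped ComplexConjugate

namespace Pool.Agent.Helper84.GN.S3

open NI GVN Pool.Agent.Helper90.RK Pool.Agent.Helper96.RK

variable {G Λ : Type} [Group G] [Group Λ] {N : ℕ} {P : PH G N} {S : Sv P}

omit [Group G] in
private theorem cont_ns : Continuous fun A : MN N => ns A := by
  unfold ns
  exact continuous_finsetSum _ fun i _ => continuous_finsetSum _ fun j _ =>
    ((continuous_id.matrix_elem i j).norm.pow 2)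

private theorem cpt_U : IsCompact {k : MN N | IsU k} := by
  have h1 : IsCompact (Set.pi Set.univ fun _ : Fin N => Set.pi Set.univ fun _ : Fin N =>
      Metric.closedBall (0 : ℂ) 1) :=
    isCompact_univ_pi fun _ => isCompact_univ_pi fun _ => isCompact_closedBall 0 1
  have h2 : IsClosed {k : MN N | IsU k} := by
    unfold IsU
    exact isClosed_eq ((continuous_id.matrix_conjTranspose).matrix_mul continuous_id)
      continuous_const
  refine IsCompact.of_isClosed_subset (X := MN N) h1 h2 ?_
  intro k hk i _ j _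
  have h3 : k ∈ Matrix.unitaryGroup (Fin N) ℂ := by
    rw [Matrix.mem_unitaryGroup_iff']
    exact hk
  rw [mem_closedBall_zero_iff]
  exact entry_norm_bound_of_unitary h3 i j

theorem pos_close (b : Fin N → ℕ) {ε : ℝ} (hε : 0 < ε) : ∃ δ : ℝ, 0 < δ ∧ ∀ k k' : MN N, IsU k → IsU k' →
    (∀ j, ns (k * diagonal (fun i => if b i = b j then (1 : ℂ) else 0) * kᴴ -
      k' * diagonal (fun i => if b i = b j then (1 : ℂ) else 0) * k'ᴴ) ≤ δ) →
    ∃ u : MN N, IsU u ∧ D b u = u ∧ ns (k * u - k') ≤ ε := by
  by_contra hcon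
  push Not at hcon
  choose k k' hk hk' hd hu using fun n : ℕ => hcon (1 / ((n : ℝ) + 1)) (by positivity)
  have hf1 : ((hyperfilter ℕ).map k : Filter (MN N)) ≤ 𝓟 {k : MN N | IsU k} := by
    rw [le_principal_iff, Ultrafilter.coe_map, mem_map]
    exact Filter.univ_mem' hk
  have hf2 : ((hyperfilter ℕ).map k' : Filter (MN N)) ≤ 𝓟 {k : MN N | IsU k} := by
    rw [le_principal_iff, Ultrafilter.coe_map, mem_map]
    exact Filter.univ_mem' hk'
  obtain ⟨a, ha, hat⟩ := cpt_U.ultrafilter_le_nhds _ hf1
  obtain ⟨a', ha', hat'⟩ := cpt_U.ultrafilter_le_nhds _ hf2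
  have t1 : Tendsto k (hyperfilter ℕ : Filter ℕ) (𝓝 a) := hat
  have t2 : Tendsto k' (hyperfilter ℕ : Filter ℕ) (𝓝 a') := hat'
  have ha1 : aᴴ * a = 1 := ha
  have ha2 : a'ᴴ * a' = 1 := ha'
  have ha3 : a * aᴴ = 1 := IsU.mul_star ha
  have t0 : Tendsto (fun n : ℕ => 1 / ((n : ℝ) + 1)) (hyperfilter ℕ : Filter ℕ) (𝓝 0) :=
    tendsto_one_div_add_atTop_nhds_zero_nat.mono_left Nat.hyperfilter_le_atTop
  have hE : ∀ j, a * diagonal (fun i => if b i = b j then (1 : ℂ) else 0) * aᴴ =
      a' * diagonal (fun i => if b i = b j then (1 : ℂ) else 0) * a'ᴴ := by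
    intro j
    set E : MN N := diagonal (fun i => if b i = b j then (1 : ℂ) else 0) with hEd
    have c1 : Continuous fun p : MN N × MN N => ns (p.1 * E * p.1ᴴ - p.2 * E * p.2ᴴ) := by
      refine cont_ns.comp (Continuous.sub ?_ ?_)
      · exact (continuous_fst.matrix_mul continuous_const).matrix_mul
          continuous_fst.matrix_conjTranspose
      · exact (continuous_snd.matrix_mul continuous_const).matrix_mul
          continuous_snd.matrix_conjTranspose
    have t3 := (c1.tendsto (a, a')).comp (t1.prodMk_nhds t2)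
    have h0 : ns (a * E * aᴴ - a' * E * a'ᴴ) ≤ 0 :=
      le_of_tendsto_of_tendsto' t3 t0 fun n => hd n j
    have h1 : ns (a * E * aᴴ - a' * E * a'ᴴ) = 0 := le_antisymm h0 (ns_nonneg _)
    have h2 : a * E * aᴴ - a' * E * a'ᴴ = 0 := by
      unfold ns at h1
      ext i l
      have h3 := (Finset.sum_eq_zero_iff_of_nonneg fun i _ =>
        Finset.sum_nonneg fun l _ => by positivity).1 h1 i (Finset.mem_univ i)
      have h4 := (Finset.sum_eq_zero_iff_of_nonneg fun l _ => by positivity).1 h3 l
        (Finset.mem_univ l)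
      have h5 : ‖(a * E * aᴴ - a' * E * a'ᴴ) i l‖ = 0 := by
        exact pow_eq_zero_iff (two_ne_zero) |>.1 h4
      rw [norm_eq_zero.1 h5]
      rfl
    exact sub_eq_zero.1 h2
  have huU : IsU (aᴴ * a') := (IsU.star ha).mul ha'
  have hcomm : ∀ j, (aᴴ * a') * diagonal (fun i => if b i = b j then (1 : ℂ) else 0) =
      diagonal (fun i => if b i = b j then (1 : ℂ) else 0) * (aᴴ * a') := by
    intro j
    have h1 := hE j
    set E : MN N := diagonal (fun i => if b i = b j then (1 : ℂ) else 0) with hEd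
    calc aᴴ * a' * E = aᴴ * (a' * E * a'ᴴ) * a' := by
          simp only [Matrix.mul_assoc, ha2, Matrix.mul_one]
      _ = aᴴ * (a * E * aᴴ) * a' := by rw [h1]
      _ = (aᴴ * a) * E * aᴴ * a' := by simp only [Matrix.mul_assoc]
      _ = E * (aᴴ * a') := by rw [ha1, Matrix.one_mul, Matrix.mul_assoc]
  have hDu : D b (aᴴ * a') = aᴴ * a' := by
    ext i j
    have h1 := congrFun (congrFun (hcomm j) i) j
    rw [Matrix.mul_diagonal, Matrix.diagonal_mul, if_pos rfl, mul_one] at h1
    unfold D
    rw [Matrix.of_apply]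
    by_cases hb : b i = b j
    · rw [if_pos hb]
    · rw [if_neg hb] at h1 ⊢
      rw [h1, zero_mul]
  have h0 : a * (aᴴ * a') - a' = 0 := by
    rw [← Matrix.mul_assoc, ha3, Matrix.one_mul, sub_self]
  generalize aᴴ * a' = u at huU hDu h0
  have c1 : Continuous fun p : MN N × MN N => ns (p.1 * u - p.2) :=
    cont_ns.comp ((continuous_fst.matrix_mul continuous_const).sub continuous_snd)
  have t4 := (c1.tendsto (a, a')).comp (t1.prodMk_nhds t2)
  have h1 : ε ≤ ns (a * u - a') := ge_of_tendsto' t4 fun n => (hu n u huU hDu).le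
  rw [h0] at h1
  have h2 : ns (0 : MN N) = 0 := by
    unfold ns
    simp
  rw [h2] at h1
  linarith

end Pool.Agent.Helper84.GN.S3
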