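import Pool.Agent.Helper9.S3.P0
import Pool.Agent.Helper9.S3.P1

/-!
# Project S3, block P4: the multipliers are uniformly continuous

For unitary `k` put `m_k y = √(A.κ (k * ql (D T.b (colM y))) t)` (`mt A T γ t = m_{kR γ}` by definition of `fr`, `Helper84/GN/I2.lean`; `hm_k` gives `Hm T.b m_k`, and `Hm T.b m → Hm (fun _ => 0) m`), `Θ k w = π(k) (mu m_k (π(kᴴ) w))`, `O γ w = Θ (kR γ) w`.
(1) `Θ (k u) = Θ k` for `u` unitary with `D T.b u = u`: `π(k u) = π(k) π(u)`, `π(u) (mu m_{ku} (π(uᴴ) x)) = mu (fun y => m_{ku} (uᴴ y)) x` (`equi` with `C = u`), and for `Gen T.b y`: `m_{ku} (uᴴ y) = m_k y` because `ql (uᴴ A)ᴴ * uᴴ * ql A` vanishes above the diagonal (`ql_rel` with `M = uᴴ`) and `kap_tri` (as in `hm_k`; `colM (uᴴ y) = uᴴ colM y`, `D b (uᴴ A) = uᴴ D b A`);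
now `Ψ.gsq2 T.b` with one function and `a = 0` shows that `mu` of the two functions is the same operator.
(2) `k ↦ Θ k w` is continuous on the compact set of unitary matrices: at `k₀`: `Θ k w - Θ k₀ w = π(k) (mu m_k (π(kᴴ) w) - mu m_{k₀} (π(k₀ᴴ) w)) + (π(k) - π(k₀)) x₀`, `x₀ = mu m_{k₀} (π(k₀ᴴ) w)` fixed; `‖mu m_k x‖ ≤ ‖x‖` (`gsq1` for the family `m_k`, `t ∈ A.supp`, or `gsq2` with `m' = 0`, `a = 1`), `‖mu m_k x - mu m_{k₀} x‖^2 ≤ a ‖x‖^2` if
`∑_t |A.κ (k ql) t - A.κ (k₀ ql) t| ≤ a`, which holds by `A.near` when `k₀ᴴ k` is near `1` (`(k ql)ᴴ (k₀ ql) = qlᴴ kᴴ k₀ ql` is near `1`). Strong continuity of `π` (`Fib.cont`). So it is uniformly continuous: for `ε` there is `δ'` with `‖Θ k w - Θ k' w‖ ≤ ε` if `ns (k - k') ≤ δ'`.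
(3) `pos_close` for `δ'`: if `pdist S T.b γ γ' < δ` (so `ns (pos γ j - pos γ' j) ≤ δ^2` for all `j`) there is `u` with `ns (kR γ u - kR γ') ≤ δ'`: `‖O γ w - O γ' w‖ = ‖Θ (kR γ u) w - Θ (kR γ') w‖ ≤ ε`. Take `s = Set.univ`. If `t ∉ A.supp` everything vanishes (`m_k = 0`).
-/

set_option autoImplicit false

open Filter Topology Matrix
open scoped ComplexConjugate

namespace Pool.Agent.Helper84.GN.S3

open NI GVN Pool.Agent.Helper90.RK Pool.Agent.Helper96.RK

variable {G Λ : Type} [Group G] [Group Λ] {N : ℕ} {P : PH G N} {S : Sv P}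

variable {L : Type} [NormedAddCommGroup L] [InnerProductSpace ℂ L]

private theorem glb66 {k : MN N} (hk : IsU k) : k ∈ GLb (fun _ : Fin N => 0) := by
  refine ⟨?_, ?_⟩
  · ext i j
    rw [D_apply, if_pos rfl]
  · intro h
    have h1 := hk.norm_det
    rw [h, norm_zero] at h1
    exact zero_ne_one h1

private theorem hm66 {b : Fin N → ℕ} {m : YY N → ℝ} (h : Pool.Agent.Helper90.RK.Hm b m) :
    Pool.Agent.Helper90.RK.Hm (fun _ : Fin N => 0) m :=
  ⟨h.meas, h.bdd, fun z hz y => h.hom z ⟨hz.1, fun i j _ => hz.2 i j rfl⟩ y⟩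

private theorem hmc66 {m : YY N → ℝ} (hm : Pool.Agent.Helper90.RK.Hm (fun _ : Fin N => 0) m) (C : MN N) :
    Pool.Agent.Helper90.RK.Hm (fun _ : Fin N => 0) (fun y => m (fun j => C *ᵥ y j)) where
  meas := by
    have h : Measurable fun y : YY N => (fun j => C *ᵥ y j : YY N) := by
      refine measurable_pi_lambda _ fun j => measurable_pi_lambda _ fun i => ?_
      change Measurable fun y : YY N => ∑ k, C i k * y j k
      exact Finset.measurable_sum _ fun k _ =>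
        measurable_const.mul ((measurable_pi_apply k).comp (measurable_pi_apply j))
    exact hm.meas.comp h
  bdd := by
    obtain ⟨c, hc⟩ := hm.bdd
    exact ⟨c, fun y => hc _⟩
  hom := fun z hz y => by
    change m (fun j => C *ᵥ (z * y j)) = m (fun j => C *ᵥ y j)
    have h : (fun j => C *ᵥ (z * y j)) = fun j => z * (C *ᵥ y j) := by
      funext j i
      change ∑ k, C i k * (z k * y j k) = z i * ∑ k, C i k * y j k
      rw [Finset.mul_sum]
      refine Finset.sum_congr rfl fun k _ => ?_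
      rw [hz.2 i k rfl]
      ring
    rw [h, hm.hom z hz]

private theorem mueq66 (Ψ : FibX N L) (b : Fin N → ℕ) {m m' : YY N → ℝ}
    (hm : Pool.Agent.Helper90.RK.Hm (fun _ : Fin N => 0) m) (hm' : Pool.Agent.Helper90.RK.Hm (fun _ : Fin N => 0) m')
    (h : ∀ y, Gen b y → m y = m' y) (f : L) : Ψ.mu m f = Ψ.mu m' f := by
  have h1 := Ψ.gsq2 b ({()} : Finset Unit) (fun _ => m) (fun _ => m') 0 (fun _ _ => hm) (fun _ _ => hm')
    (fun y hy => by rw [Finset.sum_singleton, h y hy, sub_self]; simp) f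
  rw [Finset.sum_singleton, zero_mul] at h1
  have h2 : ‖Ψ.mu m f - Ψ.mu m' f‖ ^ 2 = 0 := le_antisymm h1 (sq_nonneg _)
  exact sub_eq_zero.1 (norm_eq_zero.1 ((pow_eq_zero_iff two_ne_zero).1 h2))

private theorem pi_one66 (Ψ : FibX N L) (w : L) : Ψ.Φ.π 1 w = w := by
  have h1 : IsU (1 : MN N) := by
    unfold IsU
    rw [Matrix.conjTranspose_one, Matrix.mul_one]
  have h2 := Ψ.Φ.mul 1 1 (glb66 h1) (glb66 h1) w
  rw [Matrix.mul_one] at h2
  exact ((Ψ.Φ.π 1).injective h2).symm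

private theorem pi_star66 (Ψ : FibX N L) {k : MN N} (hk : IsU k) (w : L) : Ψ.Φ.π k (Ψ.Φ.π kᴴ w) = w := by
  rw [← Ψ.Φ.mul k kᴴ (glb66 hk) (glb66 hk.star) w, hk.mul_star, pi_one66]

variable {Q : Finset G} {ε : ℝ}

/-- the multiplier at `k` -/
private noncomputable def mk66 (A : AMd P Q ε) (b : Fin N → ℕ) (t : G) (k : MN N) (y : YY N) : ℝ :=
  Real.sqrt (A.κ (k * ql (D b (colM y))) t)

private theorem hmk66 (A : AMd P Q ε) {b : Fin N → ℕ} (hb : Monotone b) (t : G) {k : MN N} (hk : IsU k) :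
    Pool.Agent.Helper90.RK.Hm (fun _ : Fin N => 0) (mk66 A b t k) := hm66 (hm_k A hb hk t)

private theorem mk_mul66 (A : AMd P Q ε) {b : Fin N → ℕ} (t : G) {k u : MN N} (hk : IsU k)
    (hu : IsU u) (hb : D b u = u) {y : YY N} (hy : Gen b y) :
    mk66 A b t (k * u) (fun j => u⁻¹ *ᵥ y j) = mk66 A b t k y := by
  have hui : u⁻¹ = uᴴ := Matrix.inv_eq_left_inv hu
  have hbs : D b uᴴ = uᴴ := by rw [D_star, hb]
  unfold mk66
  rw [hui, colM_mulVec, D_mul_left b hbs]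
  congr 1
  have hk' : kᴴ * k = 1 := hk
  have hud : (uᴴ).det ≠ 0 := (glb66 hu.star).2
  refine A.kap_tri ((hk.mul hu).mul (ql_unitary _)) (hk.mul (ql_unitary _)) (fun i j hij => ?_) t
  have e1 : (k * u * ql (uᴴ * D b (colM y)))ᴴ * (k * ql (D b (colM y))) =
      (ql (uᴴ * D b (colM y)))ᴴ * uᴴ * ql (D b (colM y)) := by
    rw [Matrix.conjTranspose_mul, Matrix.conjTranspose_mul]
    calc (ql (uᴴ * D b (colM y)))ᴴ * (uᴴ * kᴴ) * (k * ql (D b (colM y))) =
        (ql (uᴴ * D b (colM y)))ᴴ * uᴴ * (kᴴ * k) * ql (D b (colM y)) := by simp only [Matrix.mul_assoc]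
      _ = _ := by rw [hk', Matrix.mul_one]
  rw [e1]
  exact ql_rel hy hud hij

/-- the operator at `k` -/
private noncomputable def Th66 (Ψ : FibX N L) (A : AMd P Q ε) (b : Fin N → ℕ) (t : G) (w : L) (k : MN N) : L :=
  Ψ.Φ.π k (Ψ.mu (mk66 A b t k) (Ψ.Φ.π kᴴ w))

private theorem th_mul66 (Ψ : FibX N L) (A : AMd P Q ε) {b : Fin N → ℕ} (hb : Monotone b) (t : G) (w : L)
    {k u : MN N} (hk : IsU k) (hu : IsU u) (hbu : D b u = u) : Th66 Ψ A b t w (k * u) = Th66 Ψ A b t w k := by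
  unfold Th66
  rw [Ψ.Φ.mul k u (glb66 hk) (glb66 hu), Matrix.conjTranspose_mul,
    Ψ.Φ.mul uᴴ kᴴ (glb66 hu.star) (glb66 hk.star), Ψ.equi _ u (hmk66 A hb t (hk.mul hu)) (glb66 hu),
    pi_star66 Ψ hu]
  congr 1
  exact mueq66 Ψ b (hmc66 (hmk66 A hb t (hk.mul hu)) u⁻¹) (hmk66 A hb t hk)
    (fun y hy => mk_mul66 A t hk hu hbu hy) _

private theorem mu_le66 (Ψ : FibX N L) (A : AMd P Q ε) {b : Fin N → ℕ} (hb : Monotone b) (t : G)
    {k : MN N} (hk : IsU k) (f : L) : ‖Ψ.mu (mk66 A b t k) f‖ ≤ ‖f‖ := by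
  classical
  have h1 := Ψ.gsq1 b (insert t A.supp) (fun t => mk66 A b t k) (fun t _ => hmk66 A hb t hk)
    (fun y _ => by
      have h2 : ∀ t, mk66 A b t k y ^ 2 = A.κ (k * ql (D b (colM y))) t := fun t =>
        Real.sq_sqrt (A.nonneg _ _)
      simp only [h2]
      rw [← A.sum _ (hk.mul (ql_unitary (D b (colM y))))]
      refine (Finset.sum_subset (Finset.subset_insert _ _) fun x _ hx => A.off _ _ hx).symm) f
  have h3 := Finset.single_le_sum (f := fun t => ‖Ψ.mu (mk66 A b t k) f‖ ^ 2) (fun _ _ => sq_nonneg _)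
    (Finset.mem_insert_self t A.supp)
  rw [h1] at h3
  exact (sq_le_sq₀ (norm_nonneg _) (norm_nonneg _)).1 h3

private theorem mu_near66 (Ψ : FibX N L) (A : AMd P Q ε) {b : Fin N → ℕ} (hb : Monotone b) (t : G)
    {a : ℝ} (ha : 0 < a) : ∃ d : ℝ, 0 < d ∧ ∀ k k0 : MN N, IsU k → IsU k0 → ns (k - k0) ≤ d →
      ∀ f : L, ‖Ψ.mu (mk66 A b t k) f - Ψ.mu (mk66 A b t k0) f‖ ^ 2 ≤ a * ‖f‖ ^ 2 := by
  obtain ⟨d', hd', hn⟩ := A.near a ha
  refine ⟨d' ^ 2, by positivity, fun k k0 hk hk0 hkk f => ?_⟩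
  have h10 := Ψ.gsq2 b ({()} : Finset Unit) (fun _ => mk66 A b t k) (fun _ => mk66 A b t k0) a
    (fun _ _ => hmk66 A hb t hk) (fun _ _ => hmk66 A hb t hk0) (fun y _ => ?_) f
  · simpa only [Finset.sum_singleton] using h10
  rw [Finset.sum_singleton]
  unfold mk66
  have hr := ql_unitary (D b (colM y))
  set q := ql (D b (colM y)) with hq
  refine (sqrt_sub_sq_le3 (A.nonneg _ _) (A.nonneg _ _)).trans ?_
  by_cases ht : t ∈ A.supp
  · have h6 := hn (k * q) (k0 * q) (hk.mul hr) (hk0.mul hr) (by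
      intro i j hij
      have hk' : kᴴ * k = 1 := hk
      have hr' : qᴴ * q = 1 := hr
      have h7 : ((k * q)ᴴ * (k0 * q)) i j = (qᴴ * (kᴴ * (k0 - k)) * q) i j := by
        have h8 : qᴴ * (kᴴ * (k0 - k)) * q = (k * q)ᴴ * (k0 * q) - 1 := by
          rw [Matrix.mul_sub, hk', Matrix.conjTranspose_mul, Matrix.mul_sub, Matrix.sub_mul, Matrix.mul_one, hr']
          simp only [Matrix.mul_assoc]
        rw [h8, Matrix.sub_apply, Matrix.one_apply_ne (ne_of_lt hij), sub_zero]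
      rw [h7]
      have h9 := norm_apply_sq_le (qᴴ * (kᴴ * (k0 - k)) * q) i j
      rw [ns_mul_unitary hr, ns_unitary_mul hr.star, ns_unitary_mul hk.star] at h9
      have e : ns (k0 - k) = ns (k - k0) := by
        unfold ns
        refine Finset.sum_congr rfl fun i _ => Finset.sum_congr rfl fun j _ => ?_
        rw [Matrix.sub_apply, Matrix.sub_apply, norm_sub_rev]
      rw [e] at h9
      exact abs_le_of_sq_le_sq' (h9.trans hkk) hd'.le |>.2)
    exact (Finset.single_le_sum (f := fun t => |A.κ (k * q) t - A.κ (k0 * q) t|)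
      (fun _ _ => abs_nonneg _) ht).trans h6
  · rw [A.off _ _ ht, A.off _ _ ht, sub_self, abs_zero]
    exact ha.le

private theorem compact66 : IsCompact {k : MN N | IsU k} := by
  have h1 : IsCompact (Set.univ.pi fun _ : Fin N => (Set.univ.pi fun _ : Fin N =>
      Metric.closedBall (0 : ℂ) 1)) :=
    isCompact_univ_pi fun _ => isCompact_univ_pi fun _ => isCompact_closedBall 0 1
  have h2 : IsClosed {k : MN N | IsU k} := by
    have : Continuous fun k : MN N => kᴴ * k := by fun_prop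
    exact isClosed_eq this continuous_const
  refine IsCompact.of_isClosed_subset h1 h2 ?_
  intro k hk
  refine Set.mem_univ_pi.2 fun i => Set.mem_univ_pi.2 fun j => ?_
  rw [mem_closedBall_zero_iff]
  exact norm_entry_le_one hk i j

private theorem ns_cont66 (k0 : MN N) : Continuous fun k : MN N => ns (k - k0) := by
  unfold ns
  refine continuous_finsetSum _ fun i _ => continuous_finsetSum _ fun j _ => ?_
  have h5 : Continuous fun k : MN N => (k - k0) i j := by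
    have : Continuous fun k : MN N => k - k0 := by fun_prop
    exact this.matrix_elem i j
  exact h5.norm.pow 2

private theorem th_cont66 (Ψ : FibX N L) (A : AMd P Q ε) {b : Fin N → ℕ} (hb : Monotone b) (t : G) (w : L) :
    ContinuousOn (Th66 Ψ A b t w) {k | IsU k} := by
  intro k0 hk0
  have hk0' : IsU k0 := hk0
  have c1 : ContinuousOn (fun k : MN N => Ψ.Φ.π kᴴ w) {k | IsU k} := by
    have h1 := Ψ.Φ.cont w
    exact h1.comp (by fun_prop) fun k hk => glb66 (IsU.star hk)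
  set y0 := Ψ.Φ.π k0ᴴ w with hy0
  set x0 := Ψ.mu (mk66 A b t k0) y0 with hx0
  have c2 : ContinuousWithinAt (fun k : MN N => Ψ.Φ.π k x0) {k | IsU k} k0 :=
    (Ψ.Φ.cont x0 k0 (glb66 hk0')).mono fun k hk => glb66 hk
  -- the multipliers
  have c3 : Tendsto (fun k : MN N => ‖Ψ.mu (mk66 A b t k) y0 - x0‖) (𝓝[{k | IsU k}] k0) (𝓝 0) := by
    rw [Metric.tendsto_nhds]
    intro e he
    set a : ℝ := (e / (‖y0‖ + 1)) ^ 2 / 2 with hadef
    have hw : 0 < ‖y0‖ + 1 := by positivity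
    have ha : 0 < a := by positivity
    obtain ⟨d, hd, hnear⟩ := mu_near66 Ψ A hb t ha
    have hev : ∀ᶠ k in 𝓝[{k : MN N | IsU k}] k0, ns (k - k0) < d := by
      have h1 := (ns_cont66 k0).tendsto k0
      have h2 : ns (k0 - k0) = 0 := by
        rw [sub_self]
        simp [ns]
      rw [h2] at h1
      exact (h1.eventually (gt_mem_nhds hd)).filter_mono nhdsWithin_le_nhds
    filter_upwards [hev, self_mem_nhdsWithin] with k hk hkU
    have h10 := hnear k k0 hkU hk0' hk.le y0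
    rw [Real.dist_0_eq_abs, abs_norm]
    refine lt_of_pow_lt_pow_left₀ 2 he.le (lt_of_le_of_lt h10 ?_)
    have h11 : ‖y0‖ ^ 2 ≤ (‖y0‖ + 1) ^ 2 := by
      have := norm_nonneg y0
      nlinarith
    calc a * ‖y0‖ ^ 2 ≤ a * (‖y0‖ + 1) ^ 2 := mul_le_mul_of_nonneg_left h11 ha.le
      _ = e ^ 2 / 2 := by rw [hadef]; field_simp
      _ < e ^ 2 := by nlinarith [pow_pos he 2]
  have c1' : Tendsto (fun k : MN N => ‖Ψ.Φ.π kᴴ w - y0‖) (𝓝[{k | IsU k}] k0) (𝓝 0) := by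
    have h1 := ((c1 k0 hk0).sub_const y0).norm
    rwa [sub_self, norm_zero] at h1
  have c2' : Tendsto (fun k : MN N => ‖Ψ.Φ.π k x0 - Ψ.Φ.π k0 x0‖) (𝓝[{k | IsU k}] k0) (𝓝 0) := by
    have h1 := (Filter.Tendsto.sub_const c2 (Ψ.Φ.π k0 x0)).norm
    rwa [sub_self, norm_zero] at h1
  change Tendsto (Th66 Ψ A b t w) (𝓝[{k | IsU k}] k0) (𝓝 (Th66 Ψ A b t w k0))
  rw [tendsto_iff_norm_sub_tendsto_zero]
  have hsum := (c1'.add c3).add c2'
  rw [add_zero, add_zero] at hsum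
  refine squeeze_zero' (Eventually.of_forall fun _ => norm_nonneg _) ?_ hsum
  filter_upwards [self_mem_nhdsWithin] with k hkU
  have hkU' : IsU k := hkU
  have e1 : Th66 Ψ A b t w k - Th66 Ψ A b t w k0 =
      Ψ.Φ.π k (Ψ.mu (mk66 A b t k) (Ψ.Φ.π kᴴ w - y0) + (Ψ.mu (mk66 A b t k) y0 - x0)) +
      (Ψ.Φ.π k x0 - Ψ.Φ.π k0 x0) := by
    unfold Th66
    rw [map_sub (Ψ.mu (mk66 A b t k)), sub_add_sub_cancel, map_sub (Ψ.Φ.π k), sub_add_sub_cancel]
  rw [e1]
  refine (norm_add_le _ _).trans (add_le_add ?_ le_rfl)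
  rw [LinearIsometryEquiv.norm_map]
  refine (norm_add_le _ _).trans (add_le_add (mu_le66 Ψ A hb t hkU' _) le_rfl)

private theorem th_unif66 (Ψ : FibX N L) (A : AMd P Q ε) {b : Fin N → ℕ} (hb : Monotone b) (t : G) (w : L)
    {e : ℝ} (he : 0 < e) : ∃ d : ℝ, 0 < d ∧ ∀ k k' : MN N, IsU k → IsU k' → ns (k - k') ≤ d →
      ‖Th66 Ψ A b t w k - Th66 Ψ A b t w k'‖ ≤ e := by
  by_contra hcon
  push Not at hcon
  choose k k' hk hk' hd hlt using fun n : ℕ => hcon (1 / ((n : ℝ) + 1)) Nat.one_div_pos_of_nat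
  have : FirstCountableTopology (MN N) := inferInstanceAs (FirstCountableTopology (Fin N → Fin N → ℂ))
  obtain ⟨k0, hk0, φ, hφ, hlim⟩ := compact66.tendsto_subseq hk
  have hlim0 : Tendsto (fun n => ns (k (φ n) - k' (φ n))) atTop (𝓝 0) := by
    refine squeeze_zero (fun n => ns_nonneg _) (fun n => hd (φ n)) ?_
    exact tendsto_one_div_add_atTop_nhds_zero_nat.comp hφ.tendsto_atTop
  have hlim' : Tendsto (fun n => k' (φ n)) atTop (𝓝 k0) := by
    have h1 : Tendsto (fun n => k (φ n) - k' (φ n)) atTop (𝓝 (0 : MN N)) := by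
      refine tendsto_pi_nhds.2 fun i => tendsto_pi_nhds.2 fun j => ?_
      refine squeeze_zero_norm (a := fun n => Real.sqrt (ns (k (φ n) - k' (φ n)))) (fun n => ?_) ?_
      · exact Real.le_sqrt_of_sq_le (norm_apply_sq_le _ i j)
      · have h2 := (Real.continuous_sqrt.tendsto 0).comp hlim0
        rwa [Real.sqrt_zero] at h2
    have h2 := hlim.sub h1
    rw [sub_zero] at h2
    refine h2.congr fun n => ?_
    simp
  have hc := th_cont66 Ψ A hb t w k0 hk0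
  have t1 : Tendsto (fun n => Th66 Ψ A b t w (k (φ n))) atTop (𝓝 (Th66 Ψ A b t w k0)) :=
    hc.tendsto.comp (tendsto_nhdsWithin_iff.2 ⟨hlim, Eventually.of_forall fun n => hk (φ n)⟩)
  have t2 : Tendsto (fun n => Th66 Ψ A b t w (k' (φ n))) atTop (𝓝 (Th66 Ψ A b t w k0)) :=
    hc.tendsto.comp (tendsto_nhdsWithin_iff.2 ⟨hlim', Eventually.of_forall fun n => hk' (φ n)⟩)
  have t3 := (t1.sub t2).norm
  rw [sub_self, norm_zero] at t3
  have t4 := (t3.eventually (gt_mem_nhds he)).exists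
  obtain ⟨n, hn⟩ := t4
  exact absurd hn (not_lt.2 (hlt (φ n)).le)

theorem pcf_mo (T : Str S) (Ψ : FibX N L) {Q : Finset G} {ε : ℝ} (A : AMd P Q ε) (t : G)
    (O : G → (L →L[ℂ] L)) (hO : ∀ γ w, O γ w = Ψ.Φ.π (S.kR γ) (Ψ.mu (mt A T γ t) (Ψ.Φ.π (S.kR γ)ᴴ w))) :
    PCF (toReg T) (posPD S T.b) O := by
  intro w e he
  obtain ⟨d', hd', h1⟩ := th_unif66 Ψ A T.mono t w he
  obtain ⟨d, hd, h2⟩ := pos_close T.b hd'
  refine ⟨Real.sqrt d, Real.sqrt_pos.2 hd, fun n => ⟨Set.univ, Filter.univ_mem, fun γ _ γ' _ hγ => ?_⟩⟩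
  have h3 : ∀ j, ns (pos S T.b γ j - pos S T.b γ' j) ≤ d := by
    intro j
    have h4 : Real.sqrt (ns (pos S T.b γ j - pos S T.b γ' j)) ≤ pdist S T.b γ γ' :=
      Finset.single_le_sum (f := fun j => Real.sqrt (ns (pos S T.b γ j - pos S T.b γ' j)))
        (fun _ _ => Real.sqrt_nonneg _) (Finset.mem_univ j)
    have h5 := h4.trans_lt hγ
    exact ((Real.sqrt_lt_sqrt_iff (ns_nonneg _)).1 h5).le
  obtain ⟨u, hu, hbu, hk⟩ := h2 (S.kR γ) (S.kR γ') (S.uR γ) (S.uR γ') h3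
  have e1 : ∀ γ, O γ w = Th66 Ψ A T.b t w (S.kR γ) := fun γ => hO γ w
  rw [e1, e1, ← th_mul66 Ψ A T.mono t w (S.uR γ) hu hbu]
  exact h1 _ _ ((S.uR γ).mul hu) (S.uR γ') hk

end Pool.Agent.Helper84.GN.S3
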