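import Pool.Agent.Helper9.S3.A5a

/-!
# Project S3, block A5b: descent of operators and representations

`nn_ext`: the span of the vectors `Dn D l x` is dense in `nn D` (its closure in `K2` is `nn D`). `exists_hat`: on a finite sum `∑_{l ∈ F} D l (k l)` the value is `∑ D l (N (k l))`; `desc_le` with `s = {()}`, `c = ‖N‖` gives `‖∑ D l (N (k l))‖ ≤ ‖N‖ ‖∑ D l (k l)‖`: well defined and bounded on the span (work with
`Λ →₀ K1` and the linear map `k ↦ ∑ D l (k l)`, or with a `LinearMap` on its range), extend by continuity. `hat_le`, `hat_eq`: closed conditions, true on the dense set of the finite sums by `desc_le`, `desc_eq` (`Submodule.span_induction` or: every element of the span is such a finite sum).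
`exists_rep`: `B' g` = the operator of `exists_hat` for `B g`, multiplicative and `B' 1 = 1` by `nn_ext`, isometric by `hat_eq` with one operator; inverse `B' g⁻¹`.
-/

set_option autoImplicit false

open Filter Topology Matrix
open scoped ComplexConjugate

namespace Pool.Agent.Helper84.GN.S3

open NI GVN Pool.Agent.Helper90.RK Pool.Agent.Helper96.RK

variable {G Λ : Type} [Group G] [Group Λ]

variable {K1 K2 : Type} [NormedAddCommGroup K1] [InnerProductSpace ℂ K1] [CompleteSpace K1]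
  [NormedAddCommGroup K2] [InnerProductSpace ℂ K2] [CompleteSpace K2]

omit [Group Λ] [CompleteSpace K1] [CompleteSpace K2] in
/-- Finite sums. -/
private noncomputable def fs63 (D : Λ → (K1 →L[ℂ] K2)) : (Λ →₀ K1) →ₗ[ℂ] nn D :=
  Finsupp.lsum ℂ (fun l => ((Dn D l : K1 →L[ℂ] nn D) : K1 →ₗ[ℂ] nn D))

omit [Group Λ] [CompleteSpace K1] [CompleteSpace K2] in
private theorem fs63_single (D : Λ → (K1 →L[ℂ] K2)) (l : Λ) (x : K1) :
    fs63 D (Finsupp.single l x) = Dn D l x := by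
  unfold fs63
  rw [Finsupp.lsum_single]
  rfl

omit [Group Λ] [CompleteSpace K1] [CompleteSpace K2] in
private theorem fs63_eq (D : Λ → (K1 →L[ℂ] K2)) (k : Λ →₀ K1) :
    fs63 D k = ∑ l ∈ k.support, Dn D l (k l) := by
  unfold fs63
  rw [Finsupp.lsum_apply]
  rfl

omit [Group Λ] [CompleteSpace K1] [CompleteSpace K2] in
private theorem coe_fs63 (D : Λ → (K1 →L[ℂ] K2)) (k : Λ →₀ K1) :
    (fs63 D k : K2) = ∑ l ∈ k.support, D l (k l) := by
  rw [fs63_eq, Submodule.coe_sum]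
  rfl

omit [Group Λ] [CompleteSpace K1] [CompleteSpace K2] in
private theorem dense63 (D : Λ → (K1 →L[ℂ] K2)) : DenseRange (fs63 D) := by
  intro y
  rw [closure_subtype]
  have h1 : (y : K2) ∈ closure ((Submodule.span ℂ {y | ∃ (l : Λ) (x : K1), y = D l x} : Submodule ℂ K2) : Set K2) :=
    y.2
  refine closure_mono ?_ h1
  have h2 : Submodule.span ℂ {y | ∃ (l : Λ) (x : K1), y = D l x} ≤
      (LinearMap.range (fs63 D)).map (nn D).subtype := by
    rw [Submodule.span_le]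
    rintro z ⟨l, x, rfl⟩
    exact ⟨Dn D l x, ⟨Finsupp.single l x, fs63_single D l x⟩, rfl⟩
  intro z hz
  obtain ⟨w, hw, rfl⟩ := h2 hz
  obtain ⟨k, rfl⟩ := hw
  exact ⟨_, ⟨k, rfl⟩, rfl⟩

omit [Group Λ] in
theorem nn_ext (D : Λ → (K1 →L[ℂ] K2)) {Y : Type} [NormedAddCommGroup Y] [NormedSpace ℂ Y] {S T : nn D →L[ℂ] Y}
    (h : ∀ l x, S (Dn D l x) = T (Dn D l x)) : S = T := by
  have h1 : (S : nn D → Y) ∘ fs63 D = (T : nn D → Y) ∘ fs63 D := by
    funext k
    rw [Function.comp_apply, Function.comp_apply, fs63_eq, map_sum, map_sum]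
    exact Finset.sum_congr rfl fun l _ => h l _
  have h2 := (dense63 D).equalizer S.continuous T.continuous h1
  exact ContinuousLinearMap.ext fun y => congrFun h2 y

omit [Group Λ] [CompleteSpace K1] [CompleteSpace K2] in
private theorem hat63 (D : Λ → (K1 →L[ℂ] K2)) {N : K1 →L[ℂ] K1} {N' : nn D →L[ℂ] nn D}
    (h : ∀ l x, N' (Dn D l x) = Dn D l (N x)) (k : Λ →₀ K1) :
    ‖N' (fs63 D k)‖ = ‖∑ l ∈ k.support, D l (N (k l))‖ := by
  rw [← Submodule.norm_coe, fs63_eq, map_sum, Submodule.coe_sum]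
  refine congrArg _ (Finset.sum_congr rfl fun l _ => ?_)
  rw [h]
  rfl

omit [Group Λ] in
theorem exists_hat (D : Λ → (K1 →L[ℂ] K2)) {N : K1 →L[ℂ] K1} (hN : CommD D N) :
    ∃ N' : nn D →L[ℂ] nn D, ∀ l x, N' (Dn D l x) = Dn D l (N x) := by
  let f : (Λ →₀ K1) →ₗ[ℂ] nn D := (fs63 D).comp (Finsupp.mapRange.linearMap (N : K1 →ₗ[ℂ] K1))
  have hf : ∀ l x, f (Finsupp.single l x) = Dn D l (N x) := by
    intro l x
    change fs63 D (Finsupp.mapRange.linearMap (N : K1 →ₗ[ℂ] K1) (Finsupp.single l x)) = _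
    rw [Finsupp.mapRange.linearMap_apply, Finsupp.mapRange_single, fs63_single]
    rfl
  have hf2 : ∀ k : Λ →₀ K1, f k = ∑ l ∈ k.support, Dn D l (N (k l)) := by
    intro k
    conv_lhs => rw [← Finsupp.sum_single k]
    rw [Finsupp.sum, map_sum]
    exact Finset.sum_congr rfl fun l _ => hf l _
  have hb : ∀ k, ‖f k‖ ≤ ‖N‖ * ‖fs63 D k‖ := by
    intro k
    have h1 := desc_le D ({()} : Finset Unit) (fun _ => N) (c := ‖N‖) (fun _ _ => hN)
      (fun x => by
        rw [Finset.sum_singleton, ← mul_pow]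
        exact pow_le_pow_left₀ (norm_nonneg _) (N.le_opNorm x) 2) k.support k
    rw [Finset.sum_singleton, ← mul_pow] at h1
    have h2 := (pow_le_pow_iff_left₀ (norm_nonneg _) (by positivity) two_ne_zero).1 h1
    rw [← Submodule.norm_coe, ← Submodule.norm_coe, coe_fs63, hf2, Submodule.coe_sum]
    exact h2
  refine ⟨f.extendOfNorm (fs63 D), fun l x => ?_⟩
  rw [← fs63_single D l x, LinearMap.extendOfNorm_eq (dense63 D) ⟨‖N‖, hb⟩, hf]

omit [Group Λ] in
theorem hat_le (D : Λ → (K1 →L[ℂ] K2)) {ι : Type} (s : Finset ι) (N : ι → (K1 →L[ℂ] K1)) (N' : ι → (nn D →L[ℂ] nn D))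
    {c : ℝ} (hN : ∀ i ∈ s, CommD D (N i)) (hN' : ∀ i ∈ s, ∀ l x, N' i (Dn D l x) = Dn D l (N i x))
    (hc : ∀ x, ∑ i ∈ s, ‖N i x‖ ^ 2 ≤ c ^ 2 * ‖x‖ ^ 2) (y : nn D) : ∑ i ∈ s, ‖N' i y‖ ^ 2 ≤ c ^ 2 * ‖y‖ ^ 2 := by
  refine (dense63 D).induction (P := fun y => ∑ i ∈ s, ‖N' i y‖ ^ 2 ≤ c ^ 2 * ‖y‖ ^ 2) ?_
    (isClosed_le (by fun_prop) (by fun_prop)) y
  rintro _ ⟨k, rfl⟩
  have h1 := desc_le D s N hN hc k.support k
  have h2 : ‖fs63 D k‖ = ‖∑ l ∈ k.support, D l (k l)‖ := by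
    rw [← Submodule.norm_coe, coe_fs63]
  rw [h2]
  refine le_trans (le_of_eq (Finset.sum_congr rfl fun i hi => ?_)) h1
  rw [hat63 D (hN' i hi)]

omit [Group Λ] in
theorem hat_eq (D : Λ → (K1 →L[ℂ] K2)) {ι : Type} (s : Finset ι) (N : ι → (K1 →L[ℂ] K1)) (N' : ι → (nn D →L[ℂ] nn D))
    (hN : ∀ i ∈ s, CommD D (N i)) (hN' : ∀ i ∈ s, ∀ l x, N' i (Dn D l x) = Dn D l (N i x))
    (hc : ∀ x, ∑ i ∈ s, ‖N i x‖ ^ 2 = ‖x‖ ^ 2) (y : nn D) : ∑ i ∈ s, ‖N' i y‖ ^ 2 = ‖y‖ ^ 2 := by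
  refine (dense63 D).induction (P := fun y => ∑ i ∈ s, ‖N' i y‖ ^ 2 = ‖y‖ ^ 2) ?_
    (isClosed_eq (by fun_prop) (by fun_prop)) y
  rintro _ ⟨k, rfl⟩
  have h1 := desc_eq D s N hN hc k.support k
  have h2 : ‖fs63 D k‖ = ‖∑ l ∈ k.support, D l (k l)‖ := by
    rw [← Submodule.norm_coe, coe_fs63]
  rw [h2, ← h1]
  refine Finset.sum_congr rfl fun i hi => ?_
  rw [hat63 D (hN' i hi)]

omit [Group Λ] in
/-- A unitary representation commuting with the operators `D m* D l` descends. -/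
theorem exists_rep (D : Λ → (K1 →L[ℂ] K2)) (B : G →* (K1 ≃ₗᵢ[ℂ] K1))
    (hB : ∀ g, CommD D ((B g).toContinuousLinearEquiv : K1 →L[ℂ] K1)) :
    ∃ B' : G →* (nn D ≃ₗᵢ[ℂ] nn D), ∀ g l x, B' g (Dn D l x) = Dn D l (B g x) := by
  choose N' hN' using fun g => exists_hat D (hB g)
  have hN'' : ∀ g l x, N' g (Dn D l x) = Dn D l (B g x) := fun g l x => hN' g l x
  have hmul : ∀ g h, N' (g * h) = (N' g).comp (N' h) := by
    intro g h
    refine nn_ext D fun l x => ?_
    rw [ContinuousLinearMap.comp_apply, hN'', hN'', hN'', map_mul]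
    rfl
  have hone : N' 1 = ContinuousLinearMap.id ℂ _ := by
    refine nn_ext D fun l x => ?_
    rw [hN'', map_one]
    rfl
  have hnorm : ∀ g y, ‖N' g y‖ = ‖y‖ := by
    intro g y
    have h1 := hat_eq D ({()} : Finset Unit) (fun _ => ((B g).toContinuousLinearEquiv : K1 →L[ℂ] K1))
      (fun _ => N' g) (fun _ _ => hB g) (fun _ _ => hN' g)
      (fun x => by
        rw [Finset.sum_singleton]
        change ‖B g x‖ ^ 2 = ‖x‖ ^ 2
        rw [LinearIsometryEquiv.norm_map]) y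
    rw [Finset.sum_singleton] at h1
    exact (pow_left_inj₀ (norm_nonneg _) (norm_nonneg _) two_ne_zero).1 h1
  have hinv : ∀ g h : G, g * h = 1 → ∀ y, N' g (N' h y) = y := by
    intro g h hgh y
    have h1 := hmul g h
    rw [hgh, hone] at h1
    exact (congrArg (fun T : nn D →L[ℂ] nn D => T y) h1).symm
  refine ⟨{ toFun := fun g => ⟨LinearEquiv.ofLinearMap (N' g : nn D →ₗ[ℂ] nn D) (N' g⁻¹ : nn D →ₗ[ℂ] nn D)
              (LinearMap.ext fun y => hinv g g⁻¹ (mul_inv_cancel g) y)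
              (LinearMap.ext fun y => hinv g⁻¹ g (inv_mul_cancel g) y), hnorm g⟩
            map_one' := ?_
            map_mul' := ?_ }, fun g l x => hN'' g l x⟩
  · refine LinearIsometryEquiv.ext fun y => ?_
    change N' 1 y = y
    rw [hone]
    rfl
  · intro g h
    refine LinearIsometryEquiv.ext fun y => ?_
    change N' (g * h) y = N' g (N' h y)
    rw [hmul]
    rfl

end Pool.Agent.Helper84.GN.S3
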