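import Pool.Agent.Helper9.S3.Defs

/-!
# Project S3, block A4a: ℓ²(G; L) as a tensor product

`τ.t f w = mulF (fun _ => w) f` (`mulF_apply`, `Helper84/NI/Vec.lean`), bilinear. `inner_t`: `lv_inner`, `⟪f γ • v, g γ • w⟫ = conj (f γ) g γ ⟪v, w⟫`, `HasSum.mul_right`. `dense`: take `f = dl γ`: `⟪τ.t (dl γ) w, x⟫ = ⟪w, x γ⟫ = 0` for all `w`, so `x γ = 0` for all `γ` (`lv_ext`).
-/

set_option autoImplicit false

open Filter Topology Matrix
open scoped ComplexConjugate

namespace Pool.Agent.Helper84.GN.S3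

open NI GVN Pool.Agent.Helper90.RK Pool.Agent.Helper96.RK

variable {G Λ : Type} [Group G] [Group Λ]

variable (G) in
theorem exists_tG (L : Type) [NormedAddCommGroup L] [InnerProductSpace ℂ L] :
    ∃ τ : Tens (L2 G) L (Lv G L), ∀ f w γ, τ.t f w γ = f γ • w := by
  have hb : ∀ (w : L) (i : G), ‖(fun _ : G => w) i‖ ≤ ‖w‖ := fun w i => le_rfl
  have happ : ∀ (w : L) (f : L2 G) (γ : G), mulF (fun _ : G => w) f γ = f γ • w := fun w f γ =>
    mulF_apply (hb w) f γ
  refine ⟨⟨LinearMap.mk₂ ℂ (fun (f : L2 G) (w : L) => mulF (fun _ : G => w) f) ?_ ?_ ?_ ?_, ?_, ?_⟩, ?_⟩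
  · intro f g w
    exact map_add _ f g
  · intro c f w
    exact map_smul _ c f
  · intro f v w
    refine lv_ext fun γ => ?_
    change mulF (fun _ : G => v + w) f γ = mulF (fun _ : G => v) f γ + mulF (fun _ : G => w) f γ
    rw [happ, happ, happ, smul_add]
  · intro c f w
    refine lv_ext fun γ => ?_
    change mulF (fun _ : G => c • w) f γ = c • mulF (fun _ : G => w) f γ
    rw [happ, happ, smul_comm]
  · intro a b v w
    rw [LinearMap.mk₂_apply, LinearMap.mk₂_apply]
    have h1 := lv_inner (mulF (fun _ : G => v) a) (mulF (fun _ : G => w) b)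
    have h2 := (lp.hasSum_inner (𝕜 := ℂ) a b).mul_right (inner ℂ v w)
    have e : (fun γ => inner ℂ (mulF (fun _ : G => v) a γ) (mulF (fun _ : G => w) b γ)) =
        fun γ => inner ℂ (a γ) (b γ) * inner ℂ v w := by
      funext γ
      rw [happ, happ, inner_smul_left, inner_smul_right]
      simp only [RCLike.inner_apply]
      ring
    rw [e] at h1
    exact h1.unique h2
  · intro x hx
    refine lv_ext fun γ => ?_
    have h1 := hx (dl γ) (x γ)
    rw [LinearMap.mk₂_apply] at h1
    have h2 := lv_inner (mulF (fun _ : G => x γ) (dl γ)) x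
    rw [h1] at h2
    have h3 : HasSum (fun γ' => inner ℂ (mulF (fun _ : G => x γ) (dl γ) γ') (x γ'))
        (inner ℂ (mulF (fun _ : G => x γ) (dl γ) γ) (x γ)) := by
      refine hasSum_single γ fun γ' hne => ?_
      rw [happ, dl_apply, if_neg hne, zero_smul, inner_zero_left]
    have h4 := h3.unique h2
    rw [happ, dl_self, one_smul] at h4
    exact inner_self_eq_zero.1 h4
  · intro f w γ
    exact happ w f γ

end Pool.Agent.Helper84.GN.S3
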