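import Pool.Agent.Helper9.S3.A3b
import Pool.Agent.Helper9.S3.A4a

/-!
# Project S3, block A6a: the representation V of Λ on ℓ²(G; L)

`V l` = the operator `tm τ τ (jjU (E.conj.U l))`, with inverse `tm τ τ (jjU (E.conj.U l⁻¹))` (`jjU_mul`, `jjU_one`, `tens_ext`), isometric (`norm_tm_le` for it and for its inverse). Multiplicative: `jjU_mul`, `map_mul`, `tens_ext`.
Dense: the vectors `τ.t (dl k) w` are bounded with constant `‖w‖`: `∑ a_l V l (τ.t (dl k) w) = τ.t (∑ a_l jjU (E.conj.U l) (dl k)) w` and the vectors `jjU (E.conj.U l) (dl k)`, `l ∈ Λ`, are orthonormal: for `u` commuting with the right translations `jjU u` commutes with `lamU` (`CommR.jjU_lam`), so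
`⟪jjU (U_l) (dl k), jjU (U_m) (dl k)⟫ = ⟪dl 1, jjU (U_{l⁻¹ m}) (dl 1)⟫ = jjU (U_{l⁻¹ m}) (dl 1) 1 = conj (cf (U_{l⁻¹ m}) 1)` (`jjU_dl_one`) `= 0` for `l ≠ m` (`E.conj.tr`). Their span is dense by `τ.dense` (`⟪τ.t (dl k) w, x⟫ = 0` for all `k`, `w` gives `⟪τ.t f w, x⟫ = 0` for all `f`
since `f ↦ τ.t f w` is continuous and `hasSum_dl`), and `BddSub V` is a submodule.
-/

set_option autoImplicit false
set_option linter.unusedSectionVars false

open Filter Topology Matrix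
open scoped ComplexConjugate

namespace Pool.Agent.Helper84.GN.S3

open NI GVN Pool.Agent.Helper90.RK Pool.Agent.Helper96.RK

variable {G Λ : Type} [Group G] [Group Λ]

variable {L : Type} [NormedAddCommGroup L] [InnerProductSpace ℂ L] [CompleteSpace L]

omit [Group G] in
private theorem norm_clm_le (u : L2 G ≃ₗᵢ[ℂ] L2 G) : ‖(u.toContinuousLinearEquiv : L2 G →L[ℂ] L2 G)‖ ≤ 1 :=
  ContinuousLinearMap.opNorm_le_bound _ zero_le_one fun x => by
    rw [one_mul]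
    exact (u.norm_map x).le

/-- `u ⊗ 1`. -/
private noncomputable def tV (τ : Tens (L2 G) L (Lv G L)) (u : L2 G ≃ₗᵢ[ℂ] L2 G) : Lv G L →L[ℂ] Lv G L :=
  tm τ τ (u.toContinuousLinearEquiv : L2 G →L[ℂ] L2 G)

omit [Group G] in
private theorem tV_t (τ : Tens (L2 G) L (Lv G L)) (u : L2 G ≃ₗᵢ[ℂ] L2 G) (f : L2 G) (w : L) :
    tV τ u (τ.t f w) = τ.t (u f) w := tm_t τ τ _ f w

private theorem tV_mul (τ : Tens (L2 G) L (Lv G L)) (u v : L2 G ≃ₗᵢ[ℂ] L2 G) (x : Lv G L) :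
    tV τ (u * v) x = tV τ u (tV τ v x) := by
  have h : tV τ (u * v) = (tV τ u).comp (tV τ v) := by
    refine tens_ext τ fun a w => ?_
    rw [ContinuousLinearMap.comp_apply, tV_t, tV_t, tV_t]
    rfl
  rw [h]
  rfl

private theorem tV_one (τ : Tens (L2 G) L (Lv G L)) (x : Lv G L) : tV τ 1 x = x := by
  have h : tV τ (1 : L2 G ≃ₗᵢ[ℂ] L2 G) = ContinuousLinearMap.id ℂ _ := by
    refine tens_ext τ fun a w => ?_
    rw [tV_t]
    rfl
  rw [h]
  rfl

private theorem norm_tV_le (τ : Tens (L2 G) L (Lv G L)) (u : L2 G ≃ₗᵢ[ℂ] L2 G) (x : Lv G L) :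
    ‖tV τ u x‖ ≤ ‖x‖ :=
  (norm_tm_le τ τ _ x).trans (mul_le_of_le_one_left (norm_nonneg _) (norm_clm_le u))

private theorem tV_inv (τ : Tens (L2 G) L (Lv G L)) (u : L2 G ≃ₗᵢ[ℂ] L2 G) (x : Lv G L) :
    tV τ u⁻¹ (tV τ u x) = x := by
  rw [← tV_mul, inv_mul_cancel, tV_one]

private theorem tV_inv' (τ : Tens (L2 G) L (Lv G L)) (u : L2 G ≃ₗᵢ[ℂ] L2 G) (x : Lv G L) :
    tV τ u (tV τ u⁻¹ x) = x := by
  rw [← tV_mul, mul_inv_cancel, tV_one]

private theorem norm_tV (τ : Tens (L2 G) L (Lv G L)) (u : L2 G ≃ₗᵢ[ℂ] L2 G) (x : Lv G L) :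
    ‖tV τ u x‖ = ‖x‖ := by
  refine le_antisymm (norm_tV_le τ u x) ?_
  have h := norm_tV_le τ u⁻¹ (tV τ u x)
  rwa [tV_inv] at h

private noncomputable def VU (τ : Tens (L2 G) L (Lv G L)) : (L2 G ≃ₗᵢ[ℂ] L2 G) →* (Lv G L ≃ₗᵢ[ℂ] Lv G L) where
  toFun u :=
    { toFun := tV τ u
      invFun := tV τ u⁻¹
      left_inv := fun x => tV_inv τ u x
      right_inv := fun x => tV_inv' τ u x
      map_add' := fun x y => map_add _ x y
      map_smul' := fun c x => map_smul _ c x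
      norm_map' := fun x => norm_tV τ u x }
  map_one' := by
    ext x : 1
    exact tV_one τ x
  map_mul' u v := by
    ext x : 1
    exact tV_mul τ u v x

private theorem VU_apply (τ : Tens (L2 G) L (Lv G L)) (u : L2 G ≃ₗᵢ[ℂ] L2 G) (x : Lv G L) :
    VU τ u x = tV τ u x := rfl

private noncomputable def jjH : (L2 G ≃ₗᵢ[ℂ] L2 G) →* (L2 G ≃ₗᵢ[ℂ] L2 G) where
  toFun := jjU
  map_one' := jjU_one
  map_mul' := jjU_mul

private theorem jj_orth (E : Emb Λ G) (k : G) : Orthonormal ℂ fun l : Λ => jjU (E.conj.U l) (dl k) := by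
  refine ⟨fun l => ?_, fun l m hlm => ?_⟩
  · rw [LinearIsometryEquiv.norm_map, norm_dl]
  · have h1 : E.conj.U m = E.conj.U l * E.conj.U (l⁻¹ * m) := by
      rw [← map_mul, mul_inv_cancel_left]
    have h2 : l⁻¹ * m ≠ 1 := fun h => hlm (by rw [inv_mul_eq_one] at h; exact h)
    have h3 := E.conj.tr _ h2
    have h4 : (dl k : L2 G) = lamU k (dl 1) := by rw [lamU_dl, mul_one]
    show inner ℂ (jjU (E.conj.U l) (dl k)) (jjU (E.conj.U m) (dl k)) = 0
    rw [h1, jjU_mul]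
    show inner ℂ (jjU (E.conj.U l) (dl k)) (jjU (E.conj.U l) (jjU (E.conj.U (l⁻¹ * m)) (dl k))) = 0
    rw [LinearIsometryEquiv.inner_map_map, inner_dl_left, h4, (E.conj.comm _).jjU_lam, lamU_apply, inv_mul_cancel,
      jjU_dl_one, inv_one, h3, map_zero]

omit [Group G] [CompleteSpace L] in
private theorem norm_t (τ : Tens (L2 G) L (Lv G L)) (f : L2 G) (w : L) : ‖τ.t f w‖ ^ 2 = ‖w‖ ^ 2 * ‖f‖ ^ 2 := by
  have h := τ.inner_t f f w w
  rw [inner_self_eq_norm_sq_to_K, inner_self_eq_norm_sq_to_K, inner_self_eq_norm_sq_to_K] at h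
  rw [mul_comm]
  exact_mod_cast h

private theorem bdd_t (E : Emb Λ G) (τ : Tens (L2 G) L (Lv G L)) (k : G) (w : L) :
    Bdd (((VU τ).comp jjH).comp E.conj.U) ‖w‖ (τ.t (dl k) w) := by
  refine ⟨norm_nonneg _, fun s a => ?_⟩
  have h1 : ∑ g ∈ s, a g • (((VU τ).comp jjH).comp E.conj.U) g (τ.t (dl k) w) =
      τ.t (∑ g ∈ s, a g • jjU (E.conj.U g) (dl k)) w := by
    rw [map_sum, LinearMap.sum_apply]
    refine Finset.sum_congr rfl fun g _ => ?_
    rw [map_smul, LinearMap.smul_apply]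
    congr 1
    exact tV_t τ _ _ _
  rw [h1, norm_t]
  refine mul_le_mul_of_nonneg_left (le_of_eq ?_) (sq_nonneg _)
  have h2 := (jj_orth E k).inner_sum a a s
  rw [inner_self_eq_norm_sq_to_K] at h2
  have h3 : ∑ i ∈ s, conj (a i) * a i = ((∑ i ∈ s, ‖a i‖ ^ 2 : ℝ) : ℂ) := by
    push_cast
    exact Finset.sum_congr rfl fun i _ => Complex.conj_mul' _
  rw [h3] at h2
  exact Complex.ofReal_injective ((Complex.ofReal_pow _ _).trans h2)

private theorem dense_aux (τ : Tens (L2 G) L (Lv G L)) (x : Lv G L) (h : ∀ k w, inner ℂ (τ.t (dl k) w) x = 0) :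
    x = 0 := by
  refine τ.dense x fun a v => ?_
  let S0 : L2 G →L[ℂ] Lv G L := LinearMap.mkContinuous (τ.t.flip v) ‖v‖ fun f => by
    have h1 := norm_t τ f v
    rw [← mul_pow] at h1
    exact le_of_eq ((pow_left_inj₀ (norm_nonneg _) (by positivity) two_ne_zero).1 h1)
  have h0 : ∀ f, S0 f = τ.t f v := fun f => rfl
  have h2 : (innerSL ℂ x).comp S0 = 0 := by
    apply clm_ext
    intro k
    rw [ContinuousLinearMap.comp_apply, h0, innerSL_apply_apply, _root_.zero_apply]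
    exact inner_eq_zero_symm.1 (h k v)
  have h3 := DFunLike.congr_fun h2 a
  rw [ContinuousLinearMap.comp_apply, h0, innerSL_apply_apply, _root_.zero_apply] at h3
  exact inner_eq_zero_symm.1 h3

theorem exists_V (E : Emb Λ G) (τ : Tens (L2 G) L (Lv G L)) :
    ∃ V : Λ →* (Lv G L ≃ₗᵢ[ℂ] Lv G L), (∀ l f w, V l (τ.t f w) = τ.t (jjU (E.conj.U l) f) w) ∧
      Dense (BddSub V : Set (Lv G L)) := by
  refine ⟨((VU τ).comp jjH).comp E.conj.U, fun l f w => tV_t τ _ f w, ?_⟩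
  rw [Submodule.dense_iff_topologicalClosure_eq_top, Submodule.topologicalClosure_eq_top_iff, Submodule.eq_bot_iff]
  intro x hx
  refine dense_aux τ x fun k w => ?_
  exact (Submodule.mem_orthogonal _ x).1 hx _ ⟨_, bdd_t E τ k w⟩

end Pool.Agent.Helper84.GN.S3
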