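import Pool.Agent.Helper9.S3.F2

/-!
# Project S3, block F4: the type of the product

`γ = g h⁻¹`. `s_1(γ) ≤ s_0(g) / s_{N-2}(h)`: the span of the first two right singular vectors of `ι γ` contains a unit vector `u` orthogonal to `y_h` (last column of `kL h`), `‖ι(γ) u‖ ≥ s_1(γ)`, and `‖ι(h)⁻¹ u‖ ≤ 1 / s_{N-2}(h)` for `u ⊥ y_h`. With `prod_top`: `s_0(γ) / s_1(γ) ≥ c s_0(g) s_0(h)^(N-1) s_{N-2}(h) / s_0(g) ≥ (c/r) s_0(h)^N`. For `h ∈ Te S r L`, `L ≥ 1`: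
`s_{N-1}(h) ≥ s_0(h)^(-(N-1))` (the product of the `s_i` is `1`), `s_0(h) ≥ s_{N-2}(h) ≥ L s_{N-1}(h)`, so `s_0(h)^N ≥ L`. So the first gap of `γ` (index `0`, `0 + 2 ≠ N`) is at least `c L / r`. The last gap of `γ` (index `N-2`) is the first gap of `γ⁻¹ = h g⁻¹` (`gp_inv`), at least `c L / r` by the same argument (`pdist` symmetric). Take `L` with `c L / r > R`. `Te S r L ⊆ Te S r 1`.
-/

set_option autoImplicit false

open Filter Topology Matrix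
open scoped ComplexConjugate

namespace Pool.Agent.Helper84.GN.S3

open NI GVN Pool.Agent.Helper90.RK Pool.Agent.Helper96.RK

variable {G Λ : Type} [Group G] [Group Λ] {N : ℕ} {P : PH G N} {S : Sv P}

private theorem nrm_unit_h5 {k : MN N} (hk : IsU k) (x : Fin N → ℂ) :
    ∑ i, ‖(k *ᵥ x) i‖ ^ 2 = ∑ i, ‖x i‖ ^ 2 := by
  have hk' : IsU kᴴ := by
    unfold IsU
    rw [Matrix.conjTranspose_conjTranspose]
    exact mul_eq_one_comm.1 hk
  have h := sum_mulVec_unitary hk' x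
  rwa [Matrix.conjTranspose_conjTranspose] at h

private theorem nrm_iota_h5 (S : Sv P) (γ : G) (w : Fin N → ℂ) :
    ∑ i, ‖(P.ι γ *ᵥ w) i‖ ^ 2 = ∑ i, S.s γ i ^ 2 * ‖((S.kR γ)ᴴ *ᵥ w) i‖ ^ 2 := by
  rw [S.spec γ, ← Matrix.mulVec_mulVec, ← Matrix.mulVec_mulVec, nrm_unit_h5 (S.uL γ)]
  refine Finset.sum_congr rfl fun i _ => ?_
  rw [Matrix.mulVec_diagonal, norm_mul, mul_pow, Complex.norm_real, Real.norm_of_nonneg (S.pos γ i).le]

private theorem s_one_le_h5 (S : Sv P) (g h : G) (i0 i1 j k : Fin N) (h0 : (i0 : ℕ) = 0)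
    (h1 : (i1 : ℕ) = 1) (hj : (j : ℕ) + 2 = N) (hk : (k : ℕ) + 1 = N) :
    S.s (g * h⁻¹) i1 * S.s h j ≤ S.s g i0 := by
  obtain ⟨c, hc, hmul⟩ := P.mul' (g * h⁻¹) h
  rw [inv_mul_cancel_right] at hmul
  set γ := g * h⁻¹ with hγ
  set M : MN N := (S.kL h)ᴴ * S.kR γ with hM
  have hMu : IsU M := by
    unfold IsU
    rw [hM, Matrix.conjTranspose_mul, Matrix.conjTranspose_conjTranspose]
    have e : S.kL h * (S.kL h)ᴴ = 1 := mul_eq_one_comm.1 (S.uL h)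
    calc (S.kR γ)ᴴ * S.kL h * ((S.kL h)ᴴ * S.kR γ) = (S.kR γ)ᴴ * (S.kL h * (S.kL h)ᴴ) * S.kR γ := by
          simp only [Matrix.mul_assoc]
      _ = 1 := by
          rw [e, Matrix.mul_one]
          exact S.uR γ
  have h01 : i0 ≠ i1 := by
    intro e
    rw [e, h1] at h0
    omega
  -- the vector
  obtain ⟨v, hv0, hvs, hvk⟩ : ∃ v : Fin N → ℂ, v ≠ 0 ∧ (∀ i, i ≠ i0 → i ≠ i1 → v i = 0) ∧ (M *ᵥ v) k = 0 := by
    by_cases hz : M k i1 = 0
    · refine ⟨Pi.single i1 1, ?_, ?_, ?_⟩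
      · intro e
        have := congrFun e i1
        simp at this
      · intro i _ hi
        rw [Pi.single_eq_of_ne hi]
      · rw [Matrix.mulVec_single_one]
        exact hz
    · refine ⟨fun i => if i = i0 then M k i1 else if i = i1 then -M k i0 else 0, ?_, ?_, ?_⟩
      · intro e
        have := congrFun e i0
        simp at this
        exact hz this
      · intro i hi hi'
        simp [hi, hi']
      · rw [Matrix.mulVec, dotProduct, ← Finset.add_sum_erase _ _ (Finset.mem_univ i0),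
          ← Finset.add_sum_erase _ _ (Finset.mem_erase.2 ⟨h01.symm, Finset.mem_univ i1⟩)]
        rw [Finset.sum_eq_zero]
        · simp only [if_pos, if_neg h01.symm]
          ring
        · intro i hi
          rw [Finset.mem_erase, Finset.mem_erase] at hi
          rw [if_neg hi.2.1, if_neg hi.1, mul_zero]
  set u : Fin N → ℂ := S.kR γ *ᵥ v with hu
  set x : Fin N → ℂ := M *ᵥ v with hx
  have hxu : (S.kL h)ᴴ *ᵥ u = x := by
    rw [hu, Matrix.mulVec_mulVec]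
  set w : Fin N → ℂ := S.kR h *ᵥ (fun i => ((S.s h i)⁻¹ : ℂ) * x i) with hw
  have hRw : (S.kR h)ᴴ *ᵥ w = fun i => ((S.s h i)⁻¹ : ℂ) * x i := by
    have e : (S.kR h)ᴴ * S.kR h = 1 := S.uR h
    rw [hw, Matrix.mulVec_mulVec, e, Matrix.one_mulVec]
  have hιw : P.ι h *ᵥ w = u := by
    rw [S.spec h, ← Matrix.mulVec_mulVec, ← Matrix.mulVec_mulVec, hRw]
    have e1 : (diagonal (fun i => (S.s h i : ℂ)) *ᵥ fun i => ((S.s h i)⁻¹ : ℂ) * x i) = x := by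
      funext i
      rw [Matrix.mulVec_diagonal, ← mul_assoc, mul_inv_cancel₀ (S.ofReal_ne h i), one_mul]
    rw [e1, ← hxu, Matrix.mulVec_mulVec]
    have e2 : S.kL h * (S.kL h)ᴴ = 1 := mul_eq_one_comm.1 (S.uL h)
    rw [e2, Matrix.one_mulVec]
  have hgw : P.ι g *ᵥ w = c • (P.ι γ *ᵥ u) := by
    rw [hmul, Matrix.smul_mulVec, ← Matrix.mulVec_mulVec, hιw]
  have hn1 : ∑ i, ‖(P.ι g *ᵥ w) i‖ ^ 2 = ∑ i, ‖(P.ι γ *ᵥ u) i‖ ^ 2 := by
    rw [hgw]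
    refine Finset.sum_congr rfl fun i _ => ?_
    rw [Pi.smul_apply, norm_smul, hc, one_mul]
  have hn2 : ∑ i, ‖(P.ι γ *ᵥ u) i‖ ^ 2 = ∑ i, S.s γ i ^ 2 * ‖v i‖ ^ 2 := by
    rw [nrm_iota_h5]
    have e : (S.kR γ)ᴴ *ᵥ u = v := by
      have e1 : (S.kR γ)ᴴ * S.kR γ = 1 := S.uR γ
      rw [hu, Matrix.mulVec_mulVec, e1, Matrix.one_mulVec]
    rw [e]
  have hlow : S.s γ i1 ^ 2 * ∑ i, ‖v i‖ ^ 2 ≤ ∑ i, S.s γ i ^ 2 * ‖v i‖ ^ 2 := by
    rw [Finset.mul_sum]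
    refine Finset.sum_le_sum fun i _ => ?_
    by_cases hi : i = i0 ∨ i = i1
    · have hle : i ≤ i1 := by
        rw [Fin.le_def]
        rcases hi with rfl | rfl
        · omega
        · exact le_rfl
      have := S.anti γ hle
      have hp := S.pos γ i1
      gcongr
    · push Not at hi
      rw [hvs i hi.1 hi.2]
      simp
  have hup : ∑ i, ‖(P.ι g *ᵥ w) i‖ ^ 2 ≤ S.s g i0 ^ 2 * ∑ i, ‖w i‖ ^ 2 := by
    rw [nrm_iota_h5, ← sum_mulVec_unitary (S.uR g) w, Finset.mul_sum]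
    refine Finset.sum_le_sum fun i _ => ?_
    have hle : i0 ≤ i := by
      rw [Fin.le_def]
      omega
    have := S.anti g hle
    have hp := S.pos g i
    gcongr
  have hwn : S.s h j ^ 2 * ∑ i, ‖w i‖ ^ 2 ≤ ∑ i, ‖v i‖ ^ 2 := by
    rw [← sum_mulVec_unitary (S.uR h) w, hRw, ← nrm_unit_h5 hMu v, Finset.mul_sum]
    refine Finset.sum_le_sum fun i _ => ?_
    change S.s h j ^ 2 * ‖((S.s h i)⁻¹ : ℂ) * x i‖ ^ 2 ≤ ‖x i‖ ^ 2
    by_cases hi : i = k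
    · have e : x i = 0 := by rw [hi]; exact hvk
      rw [e]
      simp
    · have hle : i ≤ j := by
        rw [Fin.le_def]
        have := i.2
        have : (i : ℕ) ≠ k := fun e => hi (Fin.ext e)
        omega
      have h3 := S.anti h hle
      have hp := S.pos h i
      have hpj := S.pos h j
      rw [norm_mul, norm_inv, Complex.norm_real, Real.norm_of_nonneg hp.le, mul_pow, ← mul_assoc,
        ← mul_pow]
      have h4 : S.s h j * (S.s h i)⁻¹ ≤ 1 := by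
        rw [← div_eq_mul_inv, div_le_one hp]
        exact h3
      have h5 : (S.s h j * (S.s h i)⁻¹) ^ 2 ≤ 1 := pow_le_one₀ (by positivity) h4
      calc (S.s h j * (S.s h i)⁻¹) ^ 2 * ‖x i‖ ^ 2 ≤ 1 * ‖x i‖ ^ 2 :=
            mul_le_mul_of_nonneg_right h5 (by positivity)
        _ = ‖x i‖ ^ 2 := one_mul _
  have hvpos : 0 < ∑ i, ‖v i‖ ^ 2 := by
    obtain ⟨i, hi⟩ := Function.ne_iff.mp hv0
    refine Finset.sum_pos' (fun _ _ => by positivity) ⟨i, Finset.mem_univ i, ?_⟩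
    have : 0 < ‖v i‖ := norm_pos_iff.2 hi
    positivity
  have hfin : (S.s γ i1 * S.s h j) ^ 2 * ∑ i, ‖v i‖ ^ 2 ≤ S.s g i0 ^ 2 * ∑ i, ‖v i‖ ^ 2 := by
    have e1 : S.s γ i1 ^ 2 * ∑ i, ‖v i‖ ^ 2 ≤ S.s g i0 ^ 2 * ∑ i, ‖w i‖ ^ 2 := by
      calc S.s γ i1 ^ 2 * ∑ i, ‖v i‖ ^ 2 ≤ ∑ i, S.s γ i ^ 2 * ‖v i‖ ^ 2 := hlow
        _ = ∑ i, ‖(P.ι g *ᵥ w) i‖ ^ 2 := by rw [hn1, hn2]
        _ ≤ _ := hup
    calc (S.s γ i1 * S.s h j) ^ 2 * ∑ i, ‖v i‖ ^ 2 = S.s h j ^ 2 * (S.s γ i1 ^ 2 * ∑ i, ‖v i‖ ^ 2) := by ring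
      _ ≤ S.s h j ^ 2 * (S.s g i0 ^ 2 * ∑ i, ‖w i‖ ^ 2) := mul_le_mul_of_nonneg_left e1 (by positivity)
      _ = S.s g i0 ^ 2 * (S.s h j ^ 2 * ∑ i, ‖w i‖ ^ 2) := by ring
      _ ≤ S.s g i0 ^ 2 * ∑ i, ‖v i‖ ^ 2 := mul_le_mul_of_nonneg_left hwn (by positivity)
  have hfin2 := le_of_mul_le_mul_right hfin hvpos
  exact le_of_sq_le_sq hfin2 (S.pos g i0).le

private theorem pow_ge_h5 (hN : 3 ≤ N) (S : Sv P) {r L : ℝ} (hL : 1 ≤ L) {h : G} (hh : h ∈ Te S r L)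
    (i0 : Fin N) (h0 : (i0 : ℕ) = 0) : L ≤ S.s h i0 ^ N := by
  have hj : ((⟨N - 2, by omega⟩ : Fin N) : ℕ) + 2 = N := by
    change N - 2 + 2 = N
    omega
  have hk : ((⟨N - 1, by omega⟩ : Fin N) : ℕ) + 1 = N := by
    change N - 1 + 1 = N
    omega
  set j : Fin N := ⟨N - 2, by omega⟩ with hjd
  set k : Fin N := ⟨N - 1, by omega⟩ with hkd
  have h1 := (hh i0 j k h0 hj hk).2
  have h2 : S.s h j ≤ S.s h i0 := S.anti h (by
    rw [Fin.le_def]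
    omega)
  have hprod := S.prod_s h
  have h3 : 1 ≤ S.s h i0 ^ (N - 1) * S.s h k := by
    rw [← Finset.prod_erase_mul _ _ (Finset.mem_univ k)] at hprod
    rw [← hprod]
    refine mul_le_mul_of_nonneg_right ?_ (S.pos h k).le
    have hcard : (Finset.univ.erase k : Finset (Fin N)).card = N - 1 := by
      rw [Finset.card_erase_of_mem (Finset.mem_univ k), Finset.card_univ, Fintype.card_fin]
    calc ∏ i ∈ Finset.univ.erase k, S.s h i ≤ ∏ _i ∈ Finset.univ.erase k, S.s h i0 :=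
          Finset.prod_le_prod (fun i _ => (S.pos h i).le) fun i _ => S.anti h (by
            rw [Fin.le_def]
            omega)
      _ = S.s h i0 ^ (N - 1) := by rw [Finset.prod_const, hcard]
  have hp := S.pos h i0
  calc L = L * 1 := (mul_one L).symm
    _ ≤ L * (S.s h i0 ^ (N - 1) * S.s h k) := mul_le_mul_of_nonneg_left h3 (by linarith)
    _ = S.s h i0 ^ (N - 1) * (L * S.s h k) := by ring
    _ ≤ S.s h i0 ^ (N - 1) * S.s h i0 := mul_le_mul_of_nonneg_left (h1.trans h2) (by positivity)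
    _ = S.s h i0 ^ N := by
        rw [← pow_succ, Nat.sub_add_cancel (by omega : 1 ≤ N)]

private theorem Te_mono_h5 (S : Sv P) {r L : ℝ} (hL : 1 ≤ L) {h : G} (hh : h ∈ Te S r L) : h ∈ Te S r 1 := by
  intro i j k hi hj hk
  obtain ⟨h1, h2⟩ := hh i j k hi hj hk
  refine ⟨h1, le_trans ?_ h2⟩
  exact mul_le_mul_of_nonneg_right hL (S.pos h k).le

private theorem gap_h5 (hN : 3 ≤ N) (S : Sv P) {r δ : ℝ} (hr : 1 ≤ r) (hδ : 0 < δ) : ∃ c : ℝ, 0 < c ∧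
    ∀ L : ℝ, 1 ≤ L → ∀ g h : G, g ∈ Te S r L → h ∈ Te S r L → δ ≤ pdist S (Sm S).b g h →
      ∀ i0 : Fin N, (i0 : ℕ) = 0 → c * L ≤ gp S (g * h⁻¹) i0 := by
  obtain ⟨c, hc, H⟩ := prod_top hN S hr hδ
  refine ⟨c / r, by positivity, fun L hL g h hg hh hd i0 h0 => ?_⟩
  have ht := (H g h (Te_mono_h5 S hL hg) (Te_mono_h5 S hL hh) hd i0 h0).1
  have hj : ((⟨N - 2, by omega⟩ : Fin N) : ℕ) + 2 = N := by
    change N - 2 + 2 = N
    omega
  have hk : ((⟨N - 1, by omega⟩ : Fin N) : ℕ) + 1 = N := by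
    change N - 1 + 1 = N
    omega
  have hi1 : ((⟨(i0 : ℕ) + 1, by omega⟩ : Fin N) : ℕ) = 1 := by
    change (i0 : ℕ) + 1 = 1
    omega
  have hb := s_one_le_h5 S g h i0 ⟨(i0 : ℕ) + 1, by omega⟩ ⟨N - 2, by omega⟩ ⟨N - 1, by omega⟩ h0 hi1 hj hk
  have hr1 := (hh i0 _ _ h0 hj hk).1
  have hpow := pow_ge_h5 hN S hL hh i0 h0
  unfold gp
  have hlt : (i0 : ℕ) + 1 < N := by omega
  rw [dif_pos hlt]
  set γ := g * h⁻¹
  set a := S.s γ i0 with ha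
  set b := S.s γ ⟨(i0 : ℕ) + 1, by omega⟩ with hbd
  set p := S.s g i0 with hp
  set q := S.s h i0 with hq
  set t := S.s h ⟨N - 2, by omega⟩ with htd
  have hb0 : 0 < b := S.pos _ _
  have hp0 : 0 < p := S.pos _ _
  have hq0 : 0 < q := S.pos _ _
  have ht0 : 0 < t := S.pos _ _
  have hr0 : 0 < r := by linarith
  rw [le_div_iff₀ hb0]
  -- ht : c * (p * q ^ (N - 1)) ≤ a, hb : b * t ≤ p, hr1 : q ≤ r * t
  have e1 : L ≤ q ^ (N - 1) * (r * t) := by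
    calc L ≤ q ^ N := hpow
      _ = q ^ (N - 1) * q := by
          rw [← pow_succ, Nat.sub_add_cancel (by omega : 1 ≤ N)]
      _ ≤ q ^ (N - 1) * (r * t) := mul_le_mul_of_nonneg_left hr1 (by positivity)
  calc c / r * L * b ≤ c / r * (q ^ (N - 1) * (r * t)) * b := by gcongr
    _ = c * (b * t * q ^ (N - 1)) := by
        field_simp
    _ ≤ c * (p * q ^ (N - 1)) := by gcongr
    _ ≤ a := ht

private theorem pdist_comm_h5 (S : Sv P) (b : Fin N → ℕ) (g h : G) : pdist S b g h = pdist S b h g := by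
  unfold pdist
  refine Finset.sum_congr rfl fun j _ => ?_
  congr 1
  unfold ns
  refine Finset.sum_congr rfl fun i _ => Finset.sum_congr rfl fun l _ => ?_
  rw [Matrix.sub_apply, Matrix.sub_apply, norm_sub_rev]

theorem prod_bad (hN : 3 ≤ N) (S : Sv P) {r δ : ℝ} (hr : 1 ≤ r) (hδ : 0 < δ) (R : ℝ) : ∃ L : ℝ, 1 ≤ L ∧ ∀ g h : G,
    g ∈ Te S r L → h ∈ Te S r L → δ ≤ pdist S (Sm S).b g h → g * h⁻¹ ∈ Bad S R := by
  obtain ⟨c, hc, H⟩ := gap_h5 hN S hr hδ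
  refine ⟨max 1 ((|R| + 1) / c), le_max_left _ _, fun g h hg hh hd => ?_⟩
  have hL : |R| + 1 ≤ c * max 1 ((|R| + 1) / c) := by
    calc |R| + 1 = c * ((|R| + 1) / c) := by field_simp
      _ ≤ _ := mul_le_mul_of_nonneg_left (le_max_right _ _) hc.le
  have hR : R < |R| + 1 := lt_of_le_of_lt (le_abs_self R) (lt_add_one _)
  have hj : ((⟨N - 2, by omega⟩ : Fin N) : ℕ) + 2 = N := by
    change N - 2 + 2 = N
    omega
  refine ⟨⟨0, by omega⟩, ⟨N - 2, by omega⟩, hj, ?_, ?_, ?_⟩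
  · change 0 + 2 ≠ N
    omega
  · exact lt_of_lt_of_le hR (hL.trans (H _ (le_max_left _ _) g h hg hh hd ⟨0, by omega⟩ rfl))
  · have h1 := H _ (le_max_left _ _) h g hh hg (by rwa [pdist_comm_h5]) ⟨0, by omega⟩ rfl
    have h2 : (g * h⁻¹)⁻¹ = h * g⁻¹ := by group
    have h3 : gp S (g * h⁻¹)⁻¹ (⟨0, by omega⟩ : Fin N) = gp S (g * h⁻¹) (⟨N - 2, by omega⟩ : Fin N) :=
      gp_inv S (g * h⁻¹) (by
        change 0 + (N - 2) + 2 = N
        omega)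
    rw [h2] at h3
    rw [← h3]
    exact lt_of_lt_of_le hR (hL.trans h1)

end Pool.Agent.Helper84.GN.S3
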