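import Pool.Agent.Helper9.S3.Defs

/-!
# Project S3, block F5: finite to one products

`w (dl h) g = cf w (g * h⁻¹)` (`cf w = w (dl 1)`, `w` commutes with the right translations `rhoU`). First for `b`, `b'` finitely supported (`F` resp. `F'`): `⟪b, w b'⟫ = ∑_{g ∈ F} ∑_{h ∈ F'} conj (b g) * b' h * cf w (g h⁻¹) = ∑_{x ∈ X} cf w x * c x`, `X` the finite set of the `g h⁻¹` with `g ∈ F ∩ A`, `h ∈ F' ∩ B` (a subset of `C`), `c x = ∑_{(g, h), g h⁻¹ = x} conj (b g) b' h`.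
For given `x` the pairs `(g, h)` in the sum, `g ∈ A`, `h ∈ B`, are at most `H.card` (if `(g', h')` is one of them the map `g ↦ g'⁻¹ g ∈ H` is injective, and `h = x⁻¹ g`), so `|c x|^2 ≤ H.card * ∑_{pairs} |b g|^2 |b' h|^2` (`Finset.inner_mul_le_norm_mul_norm` / `inner_mul_le..`, `sq_sum_le_card_mul_sum_sq`), `∑_x |c x|^2 ≤ H.card ‖b‖^2 ‖b'‖^2`, and Cauchy-Schwarz:
`|⟪b, w b'⟫| ≤ (∑_{x ∈ X} |cf w x|^2)^(1/2) (∑ |c x|^2)^(1/2)`. General case: the truncations `ind F b → b` along finite sets (`HasSum`, `hasSum_dl` or similar), both sides continuous, `‖ind F b‖ ≤ ‖b‖`.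
-/

set_option autoImplicit false

open Filter Topology Matrix
open scoped ComplexConjugate

namespace Pool.Agent.Helper84.GN.S3

open NI GVN Pool.Agent.Helper90.RK Pool.Agent.Helper96.RK

variable {G Λ : Type} [Group G] [Group Λ] {N : ℕ} {P : PH G N} {S : Sv P}

private theorem sum_sq_le_h40 (f : L2 G) (T : Finset G) : ∑ x ∈ T, ‖f x‖ ^ 2 ≤ ‖f‖ ^ 2 :=
  sum_le_hasSum T (fun x _ => sq_nonneg _) (hasSum_sq f)

private theorem pairs_le_h40 {A B C : Set G} {H : Finset G}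
    (hH : ∀ g h g' h' : G, g ∈ A → h ∈ B → g' ∈ A → h' ∈ B → g * h⁻¹ = g' * h'⁻¹ → g'⁻¹ * g ∈ H)
    (hC : ∀ g h : G, g ∈ A → h ∈ B → g * h⁻¹ ∈ C) (c : L2 G) (S : Finset (G × G))
    (hS : ∀ p ∈ S, p.1 ∈ A ∧ p.2 ∈ B) :
    ∑ p ∈ S, ‖c (p.1 * p.2⁻¹)‖ ^ 2 ≤ (H.card : ℝ) * ‖(ind ℂ C c : L2 G)‖ ^ 2 := by
  classical
  have h1 : ∑ p ∈ S, ‖c (p.1 * p.2⁻¹)‖ ^ 2 = ∑ x ∈ S.image (fun p => p.1 * p.2⁻¹),
      (S.filter fun p => p.1 * p.2⁻¹ = x).card • ‖c x‖ ^ 2 :=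
    Finset.sum_comp (fun x => ‖c x‖ ^ 2) (fun p : G × G => p.1 * p.2⁻¹)
  rw [h1]
  have h2 : ∀ x ∈ S.image (fun p => p.1 * p.2⁻¹),
      (S.filter fun p => p.1 * p.2⁻¹ = x).card • ‖c x‖ ^ 2 ≤
        (H.card : ℝ) * ‖(ind ℂ C c : L2 G) x‖ ^ 2 := by
    intro x hx
    obtain ⟨p₀, hp₀, hp₀x⟩ := Finset.mem_image.1 hx
    have hxC : x ∈ C := by
      rw [← hp₀x]
      exact hC _ _ (hS p₀ hp₀).1 (hS p₀ hp₀).2
    have h3 : (ind ℂ C c : L2 G) x = c x := by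
      rw [ind_apply, if_pos hxC]
    rw [h3, nsmul_eq_mul]
    refine mul_le_mul_of_nonneg_right ?_ (sq_nonneg _)
    refine Nat.cast_le.2 (Finset.card_le_card_of_injOn (fun p => p₀.1⁻¹ * p.1) ?_ ?_)
    · intro p hp
      have hp' := Finset.mem_filter.1 (Finset.mem_coe.1 hp)
      exact hH _ _ _ _ (hS p hp'.1).1 (hS p hp'.1).2 (hS p₀ hp₀).1 (hS p₀ hp₀).2
        (hp'.2.trans hp₀x.symm)
    · intro p hp q hq hpq
      have hp' := Finset.mem_filter.1 (Finset.mem_coe.1 hp)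
      have hq' := Finset.mem_filter.1 (Finset.mem_coe.1 hq)
      have e1 : p.1 = q.1 := mul_left_cancel hpq
      have e2 : p.1 * p.2⁻¹ = q.1 * q.2⁻¹ := hp'.2.trans hq'.2.symm
      rw [e1] at e2
      exact Prod.ext e1 (inv_injective (mul_left_cancel e2))
  calc ∑ x ∈ S.image (fun p => p.1 * p.2⁻¹), (S.filter fun p => p.1 * p.2⁻¹ = x).card • ‖c x‖ ^ 2
      ≤ ∑ x ∈ S.image (fun p => p.1 * p.2⁻¹), (H.card : ℝ) * ‖(ind ℂ C c : L2 G) x‖ ^ 2 :=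
        Finset.sum_le_sum h2
    _ = (H.card : ℝ) * ∑ x ∈ S.image (fun p => p.1 * p.2⁻¹), ‖(ind ℂ C c : L2 G) x‖ ^ 2 := by
        rw [Finset.mul_sum]
    _ ≤ (H.card : ℝ) * ‖(ind ℂ C c : L2 G)‖ ^ 2 :=
        mul_le_mul_of_nonneg_left (sum_sq_le_h40 _ _) (Nat.cast_nonneg _)

theorem fin_to_one {A B C : Set G} {H : Finset G}
    (hH : ∀ g h g' h' : G, g ∈ A → h ∈ B → g' ∈ A → h' ∈ B → g * h⁻¹ = g' * h'⁻¹ → g'⁻¹ * g ∈ H)
    (hC : ∀ g h : G, g ∈ A → h ∈ B → g * h⁻¹ ∈ C) {w : L2 G ≃ₗᵢ[ℂ] L2 G} (hw : CommR w) {b b' : L2 G}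
    (hb : ∀ γ, γ ∉ A → b γ = 0) (hb' : ∀ γ, γ ∉ B → b' γ = 0) :
    ‖inner ℂ b (w b')‖ ≤ Real.sqrt H.card * ‖b‖ * ‖b'‖ * ‖ind ℂ C (cf w)‖ := by
  classical
  have h1 := hasSum_dl b
  have h2 := hasSum_dl b'
  unfold HasSum at h1 h2
  rw [SummationFilter.unconditional_filter] at h1 h2
  have h3 : Tendsto (fun F : Finset G => inner ℂ (∑ g ∈ F, b g • (dl g : L2 G))
      (w (∑ h ∈ F, b' h • (dl h : L2 G)))) atTop (𝓝 (inner ℂ b (w b'))) :=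
    Filter.Tendsto.inner h1 ((w.continuous.tendsto b').comp h2)
  refine le_of_tendsto h3.norm (Filter.Eventually.of_forall fun F => ?_)
  have h4 : inner ℂ (∑ g ∈ F, b g • (dl g : L2 G)) (w (∑ h ∈ F, b' h • (dl h : L2 G))) =
      ∑ p ∈ F ×ˢ F, conj (b p.1) * (b' p.2 * cf w (p.1 * p.2⁻¹)) := by
    rw [map_sum, sum_inner, Finset.sum_product]
    refine Finset.sum_congr rfl fun g _ => ?_
    rw [inner_sum]
    refine Finset.sum_congr rfl fun h _ => ?_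
    rw [map_smul, inner_smul_left, inner_smul_right, inner_dl_left, hw.apply_dl]
  obtain ⟨S, hS⟩ : ∃ S : Finset (G × G), S = (F ×ˢ F).filter (fun p => p.1 ∈ A ∧ p.2 ∈ B) := ⟨_, rfl⟩
  have h5 : ∑ p ∈ F ×ˢ F, conj (b p.1) * (b' p.2 * cf w (p.1 * p.2⁻¹)) =
      ∑ p ∈ S, conj (b p.1) * (b' p.2 * cf w (p.1 * p.2⁻¹)) := by
    rw [hS]
    symm
    apply Finset.sum_filter_of_ne
    intro p _ hne
    refine ⟨?_, ?_⟩
    · by_contra h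
      apply hne
      rw [hb _ h, map_zero, zero_mul]
    · by_contra h
      apply hne
      rw [hb' _ h, zero_mul, mul_zero]
  rw [h4, h5]
  have hSprop : ∀ p ∈ S, p.1 ∈ A ∧ p.2 ∈ B := fun p hp => by
    rw [hS] at hp
    exact (Finset.mem_filter.1 hp).2
  have h6 := pairs_le_h40 hH hC (cf w) S hSprop
  have h7 : ∑ p ∈ S, (‖b p.1‖ * ‖b' p.2‖) ^ 2 ≤ (‖b‖ * ‖b'‖) ^ 2 := by
    calc ∑ p ∈ S, (‖b p.1‖ * ‖b' p.2‖) ^ 2 ≤ ∑ p ∈ F ×ˢ F, (‖b p.1‖ * ‖b' p.2‖) ^ 2 := by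
          rw [hS]
          exact Finset.sum_le_sum_of_subset_of_nonneg (Finset.filter_subset _ _)
            (fun _ _ _ => sq_nonneg _)
      _ = (∑ g ∈ F, ‖b g‖ ^ 2) * ∑ h ∈ F, ‖b' h‖ ^ 2 := by
          rw [Finset.sum_product, Finset.sum_mul]
          refine Finset.sum_congr rfl fun g _ => ?_
          rw [Finset.mul_sum]
          refine Finset.sum_congr rfl fun h _ => ?_
          rw [mul_pow]
      _ ≤ ‖b‖ ^ 2 * ‖b'‖ ^ 2 := mul_le_mul (sum_sq_le_h40 _ _) (sum_sq_le_h40 _ _)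
          (Finset.sum_nonneg fun _ _ => sq_nonneg _) (sq_nonneg _)
      _ = (‖b‖ * ‖b'‖) ^ 2 := by rw [mul_pow]
  calc ‖∑ p ∈ S, conj (b p.1) * (b' p.2 * cf w (p.1 * p.2⁻¹))‖
      ≤ ∑ p ∈ S, (‖b p.1‖ * ‖b' p.2‖) * ‖cf w (p.1 * p.2⁻¹)‖ := by
        refine (norm_sum_le _ _).trans (Finset.sum_le_sum fun p _ => ?_)
        rw [norm_mul, norm_mul, RCLike.norm_conj, mul_assoc]
    _ ≤ Real.sqrt (∑ p ∈ S, (‖b p.1‖ * ‖b' p.2‖) ^ 2) *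
          Real.sqrt (∑ p ∈ S, ‖cf w (p.1 * p.2⁻¹)‖ ^ 2) := Real.sum_mul_le_sqrt_mul_sqrt _ _ _
    _ ≤ Real.sqrt ((‖b‖ * ‖b'‖) ^ 2) *
          Real.sqrt ((H.card : ℝ) * ‖(ind ℂ C (cf w) : L2 G)‖ ^ 2) :=
        mul_le_mul (Real.sqrt_le_sqrt h7) (Real.sqrt_le_sqrt h6) (Real.sqrt_nonneg _)
          (Real.sqrt_nonneg _)
    _ = Real.sqrt H.card * ‖b‖ * ‖b'‖ * ‖(ind ℂ C (cf w) : L2 G)‖ := by
        rw [Real.sqrt_sq (mul_nonneg (norm_nonneg _) (norm_nonneg _)),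
          Real.sqrt_mul (Nat.cast_nonneg _), Real.sqrt_sq (norm_nonneg _)]
        ring

end Pool.Agent.Helper84.GN.S3
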