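import Pool.Agent.Helper9.S3.F3
import Pool.Agent.Helper9.S3.F4
import Pool.Agent.Helper9.S3.F5

/-!
# Project S3, block F6: the estimate for two vectors with separated positions

`H` from `fin_one`, `C = √H.card`. For `R` let `L` from `prod_bad`. `fin_to_one` with the sets `A ∩ Te S r L`, `B ∩ Te S r L`, `Bad S R`; `Te S r L ⊆ Te S r 1` since `1 ≤ L` and `S.pos`.
-/

set_option autoImplicit false

open Filter Topology Matrix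
open scoped ComplexConjugate

namespace Pool.Agent.Helper84.GN.S3

open NI GVN Pool.Agent.Helper90.RK Pool.Agent.Helper96.RK

variable {G Λ : Type} [Group G] [Group Λ] {N : ℕ} {P : PH G N} {S : Sv P}

theorem fl (hN : 3 ≤ N) (S : Sv P) {r δ : ℝ} (hr : 1 ≤ r) (hδ : 0 < δ) : ∃ C : ℝ, 0 ≤ C ∧ ∀ R : ℝ, ∃ L : ℝ, 1 ≤ L ∧
    ∀ (A B : Set G), (∀ γ ∈ A, ∀ γ' ∈ B, δ ≤ pdist S (Sm S).b γ γ') → ∀ (w : L2 G ≃ₗᵢ[ℂ] L2 G), CommR w →
      ∀ b b' : L2 G, (∀ γ, γ ∉ A ∩ Te S r L → b γ = 0) → (∀ γ, γ ∉ B ∩ Te S r L → b' γ = 0) →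
        ‖inner ℂ b (w b')‖ ≤ C * ‖b‖ * ‖b'‖ * ‖ind ℂ (Bad S R) (cf w)‖ := by
  obtain ⟨H, hH⟩ := fin_one hN S hr hδ
  refine ⟨Real.sqrt H.card, Real.sqrt_nonneg _, fun R => ?_⟩
  obtain ⟨L, hL, hbad⟩ := prod_bad hN S hr hδ R
  refine ⟨L, hL, fun A B hAB w hw b b' hb hb' => ?_⟩
  have hsub : ∀ γ, γ ∈ Te S r L → γ ∈ Te S r 1 := by
    intro γ hγ i j k hi hj hk
    obtain ⟨h1, h2⟩ := hγ i j k hi hj hk
    refine ⟨h1, ?_⟩
    rw [one_mul]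
    have h3 := S.pos γ k
    nlinarith
  exact fin_to_one (A := A ∩ Te S r L) (B := B ∩ Te S r L) (C := Bad S R) (H := H)
    (fun g h g' h' hg hh hg' hh' he => hH g h g' h' (hsub _ hg.2) (hsub _ hh.2) (hsub _ hg'.2)
      (hsub _ hh'.2) (hAB g hg.1 h hh.1) (hAB g' hg'.1 h' hh'.1) he)
    (fun g h hg hh => hbad g h hg.2 hh.2 (hAB g hg.1 h hh.1)) hw hb hb'

end Pool.Agent.Helper84.GN.S3
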