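import Pool.Agent.Helper9.S3.Defs

/-!
# Project S3, block L2: the regions of the stratum

`γ ∈ WC S (Jm N) n`: all gaps except the one after `N-2` are at most `e^n`: `s_0 ≤ (e^n)^N s_{N-2}` (`ratio_le` in `Helper96/RK/Ty1.lean`, or the field `cpt` of `chStr`), so `r = (e^n)^N`. `γ ∈ TC S [Jm N] m`: the gap after `N-2 ∉ Jm N` has `lg ≥ m (1 + ..) ≥ m`, so `s_{N-2} ≥ e^m s_{N-1}`; take `m ≥ log L` (`m ≥ L` is enough: `e^m ≥ m`).
-/

set_option autoImplicit false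

open Filter Topology Matrix
open scoped ComplexConjugate

namespace Pool.Agent.Helper84.GN.S3

open NI GVN Pool.Agent.Helper90.RK Pool.Agent.Helper96.RK

variable {G Λ : Type} [Group G] [Group Λ] {N : ℕ} {P : PH G N} {S : Sv P}

theorem WC_Te (hN : 3 ≤ N) (S : Sv P) (n : ℕ) : ∃ r : ℝ, 1 ≤ r ∧ ∀ L : ℝ, ∃ m : ℕ,
    WC S (Jm N) n ∩ TC S [Jm N] m ⊆ Te S r L := by
  have hM : (1 : ℝ) ≤ Real.exp n := Real.one_le_exp (Nat.cast_nonneg n)
  refine ⟨Real.exp n ^ N, one_le_pow₀ hM, fun L => ⟨⌈L⌉₊, ?_⟩⟩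
  rintro γ ⟨hW, hT⟩ i j k hi hj hk
  constructor
  · refine ratio_le S γ hM i j fun q _ hqj => ?_
    have hq : q ∈ Jm N := by
      unfold Jm
      rw [Finset.mem_filter]
      refine ⟨Finset.mem_univ _, ?_⟩
      have := Fin.lt_def.1 hqj
      omega
    have h1 : lg S γ q ≤ n := hW q hq
    unfold lg at h1
    have h2 : 0 < gp S γ q := lt_of_lt_of_le one_pos (one_le_gp S γ q)
    rw [← Real.exp_log h2]
    exact Real.exp_le_exp.2 h1
  · have hjJ : j ∉ Jm N := by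
      unfold Jm
      rw [Finset.mem_filter]
      rintro ⟨_, h⟩
      exact h hj
    have h1 := hT (Jm N) (List.mem_singleton.2 rfl) j hjJ
    have h0 := sum_lg_nonneg S γ (Jm N)
    have hm0 : (0 : ℝ) ≤ (⌈L⌉₊ : ℝ) := Nat.cast_nonneg _
    have h2 : (⌈L⌉₊ : ℝ) ≤ lg S γ j := by nlinarith
    unfold lg at h2
    have h3 : 0 < gp S γ j := lt_of_lt_of_le one_pos (one_le_gp S γ j)
    have h4 : L ≤ gp S γ j := by
      calc L ≤ (⌈L⌉₊ : ℝ) := Nat.le_ceil L
        _ ≤ Real.log (gp S γ j) := h2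
        _ ≤ gp S γ j - 1 := Real.log_le_sub_one_of_pos h3
        _ ≤ gp S γ j := by linarith
    unfold gp at h4
    have hj1 : (j : ℕ) + 1 < N := by omega
    rw [dif_pos hj1] at h4
    have e : (⟨(j : ℕ) + 1, hj1⟩ : Fin N) = k := Fin.ext (by
      change (j : ℕ) + 1 = k
      omega)
    rw [e, le_div_iff₀ (S.pos _ _)] at h4
    exact h4

end Pool.Agent.Helper84.GN.S3
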