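import Pool.Agent.Helper9.S3.Defs

/-!
# Project S3, block A1: an invariant vector from the convex hull

COPY `hull` of `Helper84/NI/HU.lean` with `L l` replaced by `V l` (and no `VB A'`). `R l = ext B E.conj l`, `σ l = V l ∘ R l`; `V l` commutes with `R m` (`map_ext` with `T = V l`). `σ m (σ l η₀) = σ (m * l) η₀`.
The set `C = {ξ ∈ VB B | Bdd B 1 ξ, c ≤ Re ⟪ξ, ξ₀⟫}` is closed and convex and contains the orbit `σ l η₀` (`ext_bdd`, `Bdd.map` with `T = V l` of norm at most one, hypothesis `h`). The point `η` of least norm of the closed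
convex hull of the orbit is fixed by all `σ m` (contractions). `η ≠ 0` since `Re ⟪η, ξ₀⟫ ≥ c`. From `V l (R l η) = η`: `R l⁻¹ η = R l⁻¹ (V l (R l η)) = V l (R l⁻¹ (R l η)) = V l η` (`ext_mul`, `ext_one_apply`).
-/

set_option autoImplicit false

open Filter Topology Matrix
open scoped ComplexConjugate

namespace Pool.Agent.Helper84.GN.S3

open NI GVN Pool.Agent.Helper90.RK Pool.Agent.Helper96.RK

variable {G Λ : Type} [Group G] [Group Λ]

variable {K : Type} [NormedAddCommGroup K] [InnerProductSpace ℂ K] [CompleteSpace K]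

/-- Contractions preserving a closed convex set of a Hilbert space fix its point of least norm. -/
private theorem hu_fix26 {F : Type} [NormedAddCommGroup F] [InnerProductSpace ℝ F] [CompleteSpace F]
    {ι : Type} (T : ι → F → F) (C : Set F) (hne : C.Nonempty) (hcl : IsClosed C)
    (hconv : Convex ℝ C) (hT : ∀ i, ∀ x ∈ C, T i x ∈ C) (hn : ∀ i x, ‖T i x‖ ≤ ‖x‖) :
    ∃ η ∈ C, ∀ i, T i η = η := by
  obtain ⟨η, hη, hmin⟩ := exists_norm_eq_iInf_of_complete_convex hne hcl.isComplete hconv 0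
  have hle : ∀ w ∈ C, ‖η‖ ≤ ‖w‖ := by
    intro w hw
    have h1 : (⨅ w : C, ‖(0 : F) - w‖) ≤ ‖(0 : F) - (⟨w, hw⟩ : C)‖ :=
      ciInf_le ⟨0, Set.forall_mem_range.2 fun _ => norm_nonneg _⟩ (⟨w, hw⟩ : C)
    rw [← hmin, zero_sub, zero_sub, norm_neg, norm_neg] at h1
    exact h1
  refine ⟨η, hη, fun i => ?_⟩
  have hw := hT i η hη
  have h1 : ‖T i η‖ = ‖η‖ := le_antisymm (hn i η) (hle _ hw)
  generalize T i η = w at hw h1
  have h2 := hle _ (hconv hw hη (a := 1 / 2) (b := 1 / 2) (by norm_num) (by norm_num)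
    (by norm_num))
  have h3 : ‖(1 / 2 : ℝ) • w + (1 / 2 : ℝ) • η‖ = (1 / 2) * ‖w + η‖ := by
    rw [← smul_add, norm_smul, Real.norm_of_nonneg (by norm_num)]
  rw [h3] at h2
  have h4 := parallelogram_law_with_norm ℝ w η
  rw [h1] at h4
  have h5 : ‖w - η‖ ^ 2 ≤ 0 := by
    nlinarith [norm_nonneg η, norm_nonneg (w + η)]
  have h6 : ‖w - η‖ = 0 := by
    have := le_antisymm h5 (by positivity)
    exact pow_eq_zero_iff two_ne_zero |>.1 this
  exact sub_eq_zero.1 (norm_eq_zero.1 h6)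

omit [Group Λ] in
/-- The set of vectors bounded with constant one is closed. -/
private theorem hu_closed26 (B' : G →* (K ≃ₗᵢ[ℂ] K)) : IsClosed {ξ : K | Bdd B' 1 ξ} := by
  have h : {ξ : K | Bdd B' 1 ξ} = ⋂ (s : Finset G) (a : G → ℂ),
      {ξ : K | ‖∑ g ∈ s, a g • B' g ξ‖ ^ 2 ≤ 1 ^ 2 * ∑ g ∈ s, ‖a g‖ ^ 2} := by
    ext ξ
    simp only [Set.mem_ofPred_eq, Set.mem_iInter, Bdd]
    exact ⟨fun h => h.2, fun h => ⟨zero_le_one, h⟩⟩
  rw [h]
  refine isClosed_iInter fun s => isClosed_iInter fun a => ?_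
  refine isClosed_le (Continuous.pow (Continuous.norm ?_) 2) continuous_const
  exact continuous_finsetSum s fun g _ => ((B' g).continuous).const_smul _

theorem hull2 {B : G →* (K ≃ₗᵢ[ℂ] K)} {V : Λ →* (K ≃ₗᵢ[ℂ] K)} (hVB : ∀ l g x, V l (B g x) = B g (V l x))
    (E : Emb Λ G) {η₀ ξ₀ : K} (h0 : Bdd B 1 η₀) {c : ℝ} (hc : 0 < c)
    (h : ∀ l, c ≤ (inner ℂ (V l (ext B E.conj l η₀)) ξ₀).re) :
    ∃ η : K, η ≠ 0 ∧ Bdd B 1 η ∧ ∀ l, V l η = ext B E.conj l⁻¹ η := by
  let L : Λ → (K →L[ℂ] K) := fun l => ((V l).toContinuousLinearEquiv : K →L[ℂ] K)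
  let R : Λ → (K →L[ℂ] K) := ext B E.conj
  have hL : ∀ l x, L l x = V l x := fun l x => rfl
  have hLB : ∀ l g x, L l (B g x) = B g (L l x) := hVB
  have hLR : ∀ l m x, L l (R m x) = R m (L l x) := fun l m x =>
    map_ext (T := L l) (hLB l) E.conj m x
  have hLn : ∀ l x, ‖L l x‖ ≤ ‖x‖ := fun l x => le_of_eq ((V l).norm_map x)
  have hRn : ∀ l x, ‖R l x‖ ≤ ‖x‖ := fun l x => norm_ext_le B E.conj l x
  let σ : Λ → (K →L[ℂ] K) := fun l => (L l).comp (R l)
  have hσ : ∀ l x, σ l x = L l (R l x) := fun l x => rfl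
  -- the large closed convex set
  let C : Set K := {ξ | Bdd B 1 ξ ∧ c ≤ (inner ℂ ξ ξ₀).re}
  have hCcl : IsClosed C := by
    refine (hu_closed26 B).inter ?_
    exact isClosed_le continuous_const
      (Complex.continuous_re.comp (continuous_id.inner continuous_const))
  have hCconv : Convex ℝ C := by
    rintro x ⟨x3, x4⟩ y ⟨y3, y4⟩ a b ha hb hab
    have ea : a • x = (a : ℂ) • x := rfl
    have eb : b • y = (b : ℂ) • y := rfl
    rw [ea, eb]
    refine ⟨?_, ?_⟩
    · refine ((x3.smul (a : ℂ)).add (y3.smul (b : ℂ))).mono ?_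
      rw [Complex.norm_real, Complex.norm_real, Real.norm_of_nonneg ha, Real.norm_of_nonneg hb,
        mul_one, mul_one, hab]
    · rw [inner_add_left, inner_smul_left, inner_smul_left, Complex.conj_ofReal,
        Complex.conj_ofReal, Complex.add_re, Complex.re_ofReal_mul, Complex.re_ofReal_mul]
      have h1 := mul_le_mul_of_nonneg_left x4 ha
      have h2 := mul_le_mul_of_nonneg_left y4 hb
      have h3 : a * c + b * c = c := by rw [← add_mul, hab, one_mul]
      linarith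
  have horb : ∀ l, σ l η₀ ∈ C := by
    intro l
    refine ⟨?_, ?_⟩
    · rw [hσ]
      have h1 : Bdd B 1 (R l η₀) := ext_bdd E.conj l h0
      refine (Bdd.map (T := L l) (hLB l) h1).mono ?_
      rw [mul_one]
      refine (L l).opNorm_le_bound zero_le_one fun x => ?_
      rw [one_mul]
      exact hLn l x
    · exact h l
  -- the orbit and its closed convex hull
  let O : Set K := Set.range fun l => σ l η₀
  let C0 : Set K := closure (convexHull ℝ O)
  have hC0C : C0 ⊆ C := by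
    refine closure_minimal (convexHull_min ?_ hCconv) hCcl
    rintro _ ⟨l, rfl⟩
    exact horb l
  have hC0conv : Convex ℝ C0 := (convex_convexHull ℝ O).closure
  have hσO : ∀ m l, σ m (σ l η₀) = σ (m * l) η₀ := by
    intro m l
    rw [hσ, hσ, hσ, ← hLR l m]
    have e1 : L (m * l) (R (m * l) η₀) = L m (L l (R (m * l) η₀)) := by
      rw [hL, hL, hL, map_mul]
      rfl
    have e2 : R (m * l) η₀ = R m (R l η₀) := ext_mul B E.conj m l _
    rw [e1, e2]
  have hσC0 : ∀ m, ∀ x ∈ C0, σ m x ∈ C0 := by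
    intro m
    have h1 : C0 ⊆ (σ m) ⁻¹' C0 := by
      refine closure_minimal (convexHull_min ?_ ?_) (isClosed_closure.preimage (σ m).continuous)
      · rintro _ ⟨l, rfl⟩
        change σ m (σ l η₀) ∈ C0
        rw [hσO]
        exact subset_closure (subset_convexHull ℝ O ⟨m * l, rfl⟩)
      · intro x hx y hy a b ha hb hab
        change σ m (a • x + b • y) ∈ C0
        have ea : a • x = (a : ℂ) • x := rfl
        have eb : b • y = (b : ℂ) • y := rfl
        rw [ea, eb, map_add, map_smul, map_smul]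
        exact hC0conv hx hy ha hb hab
    exact fun x hx => h1 hx
  obtain ⟨η, hη, hfix⟩ : ∃ η ∈ C0, ∀ m, σ m η = η := by
    let _ : InnerProductSpace ℝ K := InnerProductSpace.complexToReal
    exact hu_fix26 (fun m x => σ m x) C0
      ⟨σ 1 η₀, subset_closure (subset_convexHull ℝ O ⟨1, rfl⟩)⟩ isClosed_closure hC0conv hσC0
      (fun m x => (hLn m _).trans (hRn m x))
  obtain ⟨k3, k4⟩ := hC0C hη
  refine ⟨η, ?_, k3, ?_⟩
  · rintro rfl
    rw [inner_zero_left] at k4
    simp only [Complex.zero_re] at k4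
    linarith
  · intro l
    have e1 : R l⁻¹ (σ l η) = R l⁻¹ η := by rw [hfix]
    rw [hσ, ← hLR] at e1
    have e2 : R l⁻¹ (R l η) = R (l⁻¹ * l) η := (ext_mul B E.conj l⁻¹ l η).symm
    rw [e2, inv_mul_cancel] at e1
    have e3 : R 1 η = η := ext_one_apply E.conj k3.mem_VB
    rw [e3] at e1
    exact e1

end Pool.Agent.Helper84.GN.S3
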