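import Pool.Agent.Helper9.S3.A2a

/-!
# Project S3, block A2: almost invariant vectors in the regular representation

COPY `almost_inv` of `Helper84/NI/F3.lean` (with its private lemmas `f3_core`, `f3_qf`, to be copied too): `ext A E l η` is replaced by `V l η = ext B E.conj l⁻¹ η`, `exists_J` by the given isometry `J`, `VB A` by everything,
`qf_main` by `qf_main2` (block A2a), and `qf_ext` (see `Helper84/NI/F1b.lean`) by the same computation for `V l`: `qf J B M S f (V l ξ) (V l ξ') = ∑_t ∑'_p f(p.1) conj(Φ_t (V l ξ) p) Φ_t (V l ξ') p` with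
`Φ_t ξ = J (B t⁻¹ (M t ξ))`, `Φ_t (V l ξ) (m, x) = Φ_t ξ (l⁻¹ m, x)` since `M t`, `B t⁻¹` commute with `V l`, so it is `qf` with `f (l * ·)` (reindex `m = l m'`).
-/

set_option autoImplicit false

open Filter Topology Matrix
open scoped ComplexConjugate

namespace Pool.Agent.Helper84.GN.S3

open NI GVN Pool.Agent.Helper90.RK Pool.Agent.Helper96.RK

variable {G Λ : Type} [Group G] [Group Λ]

variable {K : Type} [NormedAddCommGroup K] [InnerProductSpace ℂ K] [CompleteSpace K]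

private theorem f3_sqrt50 (a b : ℝ) (ha : 0 ≤ a) (hb : 0 ≤ b) : (√a - √b) ^ 2 ≤ |a - b| := by
  have h1 : a - b = (√a - √b) * (√a + √b) := by
    have e1 := Real.mul_self_sqrt ha
    have e2 := Real.mul_self_sqrt hb
    nlinarith
  have hp : 0 ≤ √a + √b := add_nonneg (Real.sqrt_nonneg _) (Real.sqrt_nonneg _)
  rw [h1, abs_mul, abs_of_nonneg hp, ← sq_abs, sq]
  refine mul_le_mul_of_nonneg_left ?_ (abs_nonneg _)
  rw [abs_le]
  constructor <;> linarith [Real.sqrt_nonneg a, Real.sqrt_nonneg b]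

/-- From an almost invariant density to almost invariant vectors. -/
private theorem f3_core50 {X : Type} {w : Λ × X → ℝ} (hw : ∀ p, 0 ≤ w p) {N : ℝ} (hN : 0 < N)
    (hs : HasSum w N) {F : Finset Λ} {ε : ℝ} (hε : 0 < ε)
    (h : ∀ l ∈ F, ∀ f : Λ → ℝ, (∀ m, |f m| ≤ 1) →
      |(∑' p : Λ × X, f (l * p.1) * w p) - ∑' p : Λ × X, f p.1 * w p| ≤ ε ^ 2 * N) :
    ∃ q : L2 Λ, ‖q‖ = 1 ∧ ∀ l ∈ F, ‖lamU l q - q‖ ≤ ε := by
  classical
  set P : Λ → ℝ := fun m => ∑' x, w (m, x) with hP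
  have hP0 : ∀ m, 0 ≤ P m := fun m => tsum_nonneg fun x => hw _
  have hPs : HasSum P N := hs.prod_fiberwise fun m => (hs.summable.prod_factor m).hasSum
  have hfs : ∀ f : Λ → ℝ, (∀ m, |f m| ≤ 1) → Summable fun p : Λ × X => f p.1 * w p := by
    intro f hf
    refine Summable.of_norm_bounded hs.summable fun p => ?_
    rw [Real.norm_eq_abs, abs_mul, abs_of_nonneg (hw p)]
    calc |f p.1| * w p ≤ 1 * w p := mul_le_mul_of_nonneg_right (hf _) (hw p)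
      _ = w p := one_mul _
  have hfP : ∀ f : Λ → ℝ, (∀ m, |f m| ≤ 1) → ∑' p : Λ × X, f p.1 * w p = ∑' m, f m * P m := by
    intro f hf
    rw [(hfs f hf).tsum_prod]
    refine tsum_congr fun m => ?_
    exact tsum_mul_left (f := fun x => w (m, x)) (a := f m)
  have hPl : ∀ l : Λ, HasSum (fun m => P (l⁻¹ * m)) N := fun l =>
    (Equiv.mulLeft l⁻¹).hasSum_iff.2 hPs
  have hdiff : ∀ l ∈ F, Summable (fun m => |P (l⁻¹ * m) - P m|) ∧
      ∑' m, |P (l⁻¹ * m) - P m| ≤ ε ^ 2 * N := by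
    intro l hl
    have hsum : Summable (fun m => |P (l⁻¹ * m) - P m|) :=
      ((hPl l).summable.sub hPs.summable).abs
    refine ⟨hsum, ?_⟩
    set f : Λ → ℝ := fun m => if 0 ≤ P (l⁻¹ * m) - P m then 1 else -1 with hf
    have hf1 : ∀ m, |f m| ≤ 1 := by
      intro m
      rw [hf]
      dsimp only
      split_ifs <;> simp
    have h1 := h l hl f hf1
    have e1 : ∑' p : Λ × X, f (l * p.1) * w p = ∑' m, f (l * m) * P m :=
      hfP (fun m => f (l * m)) fun m => hf1 _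
    have e2 : ∑' m, f (l * m) * P m = ∑' m, f m * P (l⁻¹ * m) := by
      have := Equiv.tsum_eq (Equiv.mulLeft l) (fun m => f m * P (l⁻¹ * m))
      rw [← this]
      refine tsum_congr fun m => ?_
      simp
    rw [e1, e2, hfP f hf1] at h1
    have hb : ∀ g : Λ → ℝ, (∀ m, 0 ≤ g m) → Summable g → Summable fun m => f m * g m := by
      intro g hg hgs
      refine Summable.of_norm_bounded hgs fun m => ?_
      rw [Real.norm_eq_abs, abs_mul, abs_of_nonneg (hg m)]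
      calc |f m| * g m ≤ 1 * g m := mul_le_mul_of_nonneg_right (hf1 _) (hg m)
        _ = g m := one_mul _
    rw [← (hb _ (fun m => hP0 _) (hPl l).summable).tsum_sub (hb _ hP0 hPs.summable)] at h1
    refine le_trans (le_of_eq ?_) ((le_abs_self _).trans h1)
    refine tsum_congr fun m => ?_
    rw [← mul_sub, hf]
    dsimp only
    split_ifs with hc
    · rw [one_mul, abs_of_nonneg hc]
    · rw [abs_of_neg (not_le.1 hc)]
      ring
  have hq2 : Summable fun m => ‖((√(P m / N) : ℝ) : ℂ)‖ ^ 2 := by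
    have : (fun m => ‖((√(P m / N) : ℝ) : ℂ)‖ ^ 2) = fun m => P m / N := by
      funext m
      rw [Complex.norm_real, Real.norm_eq_abs, sq_abs, Real.sq_sqrt (div_nonneg (hP0 m) hN.le)]
    rw [this]
    exact hPs.summable.div_const N
  let q : L2 Λ := ⟨fun m => ((√(P m / N) : ℝ) : ℂ), memL2 hq2⟩
  have hqa : ∀ m, q m = ((√(P m / N) : ℝ) : ℂ) := fun m => rfl
  refine ⟨q, ?_, ?_⟩
  · have h1 : ‖q‖ ^ 2 = 1 := by
      rw [norm_sq_eq]
      have : (fun m => ‖q m‖ ^ 2) = fun m => P m / N := by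
        funext m
        rw [hqa, Complex.norm_real, Real.norm_eq_abs, sq_abs,
          Real.sq_sqrt (div_nonneg (hP0 m) hN.le)]
      rw [this, (hPs.div_const N).tsum_eq, div_self hN.ne']
    have h2 : ‖q‖ ^ 2 = 1 ^ 2 := by rw [h1, one_pow]
    exact (sq_eq_sq₀ (norm_nonneg _) zero_le_one).1 h2
  · intro l hl
    obtain ⟨hd1, hd2⟩ := hdiff l hl
    have h2 : ‖lamU l q - q‖ ^ 2 ≤ ε ^ 2 := by
      rw [norm_sq_eq]
      have h3 : ∀ m, ‖(lamU l q - q) m‖ ^ 2 ≤ |P (l⁻¹ * m) - P m| / N := by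
        intro m
        rw [lp.coeFn_sub, Pi.sub_apply, lamU_apply, hqa, hqa, ← Complex.ofReal_sub,
          Complex.norm_real, Real.norm_eq_abs, sq_abs]
        refine (f3_sqrt50 _ _ (div_nonneg (hP0 _) hN.le) (div_nonneg (hP0 _) hN.le)).trans ?_
        rw [← sub_div, abs_div, abs_of_pos hN]
      calc ∑' m, ‖(lamU l q - q) m‖ ^ 2 ≤ ∑' m, |P (l⁻¹ * m) - P m| / N :=
            (summable_sq _).tsum_le_tsum h3 (hd1.div_const N)
        _ = (∑' m, |P (l⁻¹ * m) - P m|) / N := tsum_div_const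
        _ ≤ ε ^ 2 := by
          rw [div_le_iff₀ hN]
          exact hd2
    exact (sq_le_sq₀ (norm_nonneg _) hε.le).1 h2

omit [Group Λ] [CompleteSpace K] in
private theorem f3_qf50 {X : Type} {J : K →L[ℂ] L2 (Λ × X)} {B : G →* (K ≃ₗᵢ[ℂ] K)}
    {M : G → (K →L[ℂ] K)} {S : Finset G} (η : K) {f : Λ → ℝ} (hf : ∀ l, |f l| ≤ 1) :
    qf J B M S f η η =
      ((∑' p : Λ × X, f p.1 * ∑ t ∈ S, ‖J (B t⁻¹ (M t η)) p‖ ^ 2 : ℝ) : ℂ) := by
  unfold qf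
  have h1 : ∀ t : G, ∑' p : Λ × X, (f p.1 : ℂ) * (conj (J (B t⁻¹ (M t η)) p) * J (B t⁻¹ (M t η)) p) =
      ((∑' p : Λ × X, f p.1 * ‖J (B t⁻¹ (M t η)) p‖ ^ 2 : ℝ) : ℂ) := by
    intro t
    rw [Complex.ofReal_tsum]
    refine tsum_congr fun p => ?_
    rw [Complex.conj_mul']
    push_cast
    ring
  simp only [h1]
  rw [← Complex.ofReal_sum]
  congr 1
  have h2 : ∀ t ∈ S, Summable fun p : Λ × X => f p.1 * ‖J (B t⁻¹ (M t η)) p‖ ^ 2 := by
    intro t _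
    refine Summable.of_norm_bounded (summable_sq (J (B t⁻¹ (M t η)))) fun p => ?_
    rw [Real.norm_eq_abs, abs_mul, abs_of_nonneg (sq_nonneg ‖J (B t⁻¹ (M t η)) p‖)]
    calc |f p.1| * ‖J (B t⁻¹ (M t η)) p‖ ^ 2 ≤ 1 * ‖J (B t⁻¹ (M t η)) p‖ ^ 2 :=
          mul_le_mul_of_nonneg_right (hf _) (sq_nonneg _)
      _ = _ := one_mul _
  rw [← Summable.tsum_finsetSum h2]
  refine tsum_congr fun p => ?_
  rw [Finset.mul_sum]

omit [CompleteSpace K] in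
private theorem qf_V50 {B : G →* (K ≃ₗᵢ[ℂ] K)} {V : Λ →* (K ≃ₗᵢ[ℂ] K)}
    (hVB : ∀ l g x, V l (B g x) = B g (V l x)) {X : Type} {J : K →L[ℂ] L2 (Λ × X)}
    (hJ : ∀ (m : Λ) (v : K) (l : Λ) (x : X), J (V m v) (l, x) = J v (m⁻¹ * l, x))
    {M : G → (K →L[ℂ] K)} (hM : ∀ t l x, M t (V l x) = V l (M t x)) (S : Finset G) (f : Λ → ℝ)
    (l : Λ) (ξ ξ' : K) :
    qf J B M S f (V l ξ) (V l ξ') = qf J B M S (fun m => f (l * m)) ξ ξ' := by
  have hk : ∀ (t : G) (x : K), J (B t⁻¹ (M t (V l x))) = J (V l (B t⁻¹ (M t x))) := by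
    intro t x
    rw [hM, hVB]
  unfold qf
  refine Finset.sum_congr rfl fun t _ => ?_
  rw [← ((Equiv.mulLeft l).prodCongr (Equiv.refl X)).tsum_eq]
  congr 1
  funext p
  obtain ⟨m, x⟩ := p
  show (f (l * m) : ℂ) * (conj (J (B t⁻¹ (M t (V l ξ))) (l * m, x)) * J (B t⁻¹ (M t (V l ξ'))) (l * m, x)) =
    (f (l * m) : ℂ) * (conj (J (B t⁻¹ (M t ξ)) (m, x)) * J (B t⁻¹ (M t ξ')) (m, x))
  rw [hk, hk, hJ, hJ, inv_mul_cancel_left]

theorem almost_inv2 {B : G →* (K ≃ₗᵢ[ℂ] K)} {V : Λ →* (K ≃ₗᵢ[ℂ] K)} (hVB : ∀ l g x, V l (B g x) = B g (V l x))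
    {E : Emb Λ G} {η : K} (h0 : η ≠ 0) (hB : Bdd B 1 η) (hc : ∀ l, V l η = ext B E.conj l⁻¹ η)
    {X : Type} (J : K →ₗᵢ[ℂ] L2 (Λ × X)) (hJ : ∀ (m : Λ) (v : K) (l : Λ) (x : X), J (V m v) (l, x) = J v (m⁻¹ * l, x))
    (hApx : ∀ (Q : Finset G) (ε : ℝ), 0 < ε → ∃ (S : Finset G) (M : G → (K →L[ℂ] K)),
      (∀ t l x, M t (V l x) = V l (M t x)) ∧ (∀ t, t ∉ S → M t = 0) ∧ (∀ x, ∑ t ∈ S, ‖M t x‖ ^ 2 = ‖x‖ ^ 2) ∧
      ∀ h ∈ Q, ∀ x, ∀ S' : Finset G, ∑ t ∈ S', ‖M t (B h x) - B h (M (h⁻¹ * t) x)‖ ^ 2 ≤ ε ^ 2 * ‖x‖ ^ 2)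
    (F : Finset Λ) {ε : ℝ} (hε : 0 < ε) : ∃ q : L2 Λ, ‖q‖ = 1 ∧ ∀ l ∈ F, ‖lamU l q - q‖ ≤ ε := by
  classical
  set J' : K →L[ℂ] L2 (Λ × X) := J.toContinuousLinearMap with hJ'
  have hJn : ∀ x, ‖J' x‖ = ‖x‖ := fun x => J.norm_map x
  have hJ3 : ∀ (m : Λ) (v : K) (l : Λ) (x : X), J' (V m v) (l, x) = J' v (m⁻¹ * l, x) := hJ
  have hN : 0 < ‖η‖ ^ 2 := pow_pos (norm_pos_iff.2 h0) 2
  have hε₁ : 0 < ε ^ 2 * ‖η‖ ^ 2 := mul_pos (pow_pos hε 2) hN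
  have hmain := fun l : Λ => qf_main2 (E := E) hB (fun x => (hJn x).le) l hε₁
  choose Q δ hδ hQ using hmain
  -- a common `δ`
  obtain ⟨δ₀, hδ₀, hδ₀'⟩ : ∃ δ₀ : ℝ, 0 < δ₀ ∧ ∀ l ∈ F, δ₀ ≤ δ l := by
    clear hJ'
    induction F using Finset.induction_on with
    | empty => exact ⟨1, one_pos, fun l hl => absurd hl (Finset.notMem_empty l)⟩
    | insert a s _ ih =>
      obtain ⟨d, hd, hd'⟩ := ih
      refine ⟨min d (δ a), lt_min hd (hδ a), fun l hl => ?_⟩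
      rcases Finset.mem_insert.1 hl with rfl | hl
      · exact min_le_right _ _
      · exact (min_le_left _ _).trans (hd' l hl)
  obtain ⟨S, M, hM1, hM2, hM3, hM4⟩ := hApx (F.biUnion Q) δ₀ hδ₀
  have hkey : ∀ l ∈ F, ∀ f : Λ → ℝ, (∀ m, |f m| ≤ 1) →
      ‖qf J' B M S f (V l η) (V l η) - qf J' B M S f η η‖ ≤ ε ^ 2 * ‖η‖ ^ 2 := by
    intro l hl f hf
    rw [hc l]
    refine hQ l S M hM2 hM3 (fun h hh x S' => ?_) f hf
    refine (hM4 h (Finset.mem_biUnion.2 ⟨l, hl, hh⟩) x S').trans ?_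
    exact mul_le_mul_of_nonneg_right (pow_le_pow_left₀ hδ₀.le (hδ₀' l hl) 2) (sq_nonneg _)
  set w : Λ × X → ℝ := fun p => ∑ t ∈ S, ‖J' (B t⁻¹ (M t η)) p‖ ^ 2 with hw
  have hw0 : ∀ p, 0 ≤ w p := fun p => Finset.sum_nonneg fun t _ => sq_nonneg _
  have hws : HasSum w (‖η‖ ^ 2) := by
    have h1 : HasSum w (∑ t ∈ S, ‖J' (B t⁻¹ (M t η))‖ ^ 2) :=
      hasSum_sum fun t _ => hasSum_sq (J' (B t⁻¹ (M t η)))
    have h2 : ∑ t ∈ S, ‖J' (B t⁻¹ (M t η))‖ ^ 2 = ‖η‖ ^ 2 := by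
      rw [← hM3 η]
      refine Finset.sum_congr rfl fun t _ => ?_
      rw [hJn, LinearIsometryEquiv.norm_map]
    rw [h2] at h1
    exact h1
  refine f3_core50 hw0 hN hws hε fun l hl f hf => ?_
  have h1 := hkey l hl f hf
  rw [qf_V50 hVB hJ3 hM1 S f l η η, f3_qf50 η (fun m => hf (l * m)), f3_qf50 η hf,
    ← Complex.ofReal_sub, Complex.norm_real, Real.norm_eq_abs] at h1
  exact h1

end Pool.Agent.Helper84.GN.S3
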