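import Pool.Agent.Helper9.S3.Defs

/-!
# Project S3, block A2a: the main estimate for the forms qf

COPY `qf_main` of `Helper84/NI/F2.lean`: there `θ = ext A E l η = ext B E.conj l⁻¹ η` and only the second expression is used; `‖θ‖ = ‖η‖` is now `norm_ext E.conj l⁻¹ hB.mem_VB`.
`f2_cf_inv`, `f2_tail`, `f2_sub_left`, `f2_sub_right`, `f2_sum_left`, `f2_sum_right`, `qf_move`, `qf_bound` can be cited (namespace `NI`).
-/

set_option autoImplicit false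

open Filter Topology Matrix
open scoped ComplexConjugate

namespace Pool.Agent.Helper84.GN.S3

open NI GVN Pool.Agent.Helper90.RK Pool.Agent.Helper96.RK

variable {G Λ : Type} [Group G] [Group Λ]

variable {K : Type} [NormedAddCommGroup K] [InnerProductSpace ℂ K] [CompleteSpace K]

theorem qf_main2 {X : Type} {B : G →* (K ≃ₗᵢ[ℂ] K)} {E : Emb Λ G} {η : K} (hB : Bdd B 1 η)
    {J : K →L[ℂ] L2 (Λ × X)} (hJ : ∀ x, ‖J x‖ ≤ ‖x‖) (l : Λ) {ε₁ : ℝ} (hε₁ : 0 < ε₁) :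
    ∃ (Q : Finset G) (ε : ℝ), 0 < ε ∧ ∀ (S : Finset G) (M : G → (K →L[ℂ] K)),
      (∀ t, t ∉ S → M t = 0) → (∀ x, ∑ t ∈ S, ‖M t x‖ ^ 2 = ‖x‖ ^ 2) →
      (∀ h ∈ Q, ∀ x, ∀ S' : Finset G,
        ∑ t ∈ S', ‖M t (B h x) - B h (M (h⁻¹ * t) x)‖ ^ 2 ≤ ε ^ 2 * ‖x‖ ^ 2) →
      ∀ f : Λ → ℝ, (∀ m, |f m| ≤ 1) →
        ‖qf J B M S f (ext B E.conj l⁻¹ η) (ext B E.conj l⁻¹ η) - qf J B M S f η η‖ ≤ ε₁ := by
  classical
  set θ := ext B E.conj l⁻¹ η with hθ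
  have hθB : θ = ext B E.conj l⁻¹ η := rfl
  have hnθ : ‖θ‖ = ‖η‖ := norm_ext E.conj l⁻¹ hB.mem_VB
  have hBθ : Bdd B 1 θ := by
    rw [hθB]
    exact ext_bdd E.conj l⁻¹ hB
  let c : G → ℂ := fun g => cf (E.conj.U l⁻¹) g
  have hs1 : HasSum (fun g => c g • B g η) θ := by
    rw [hθB]
    exact hasSum_ext E.conj l⁻¹ hB
  have hηθ : ext B E.conj l θ = η := by
    rw [hθB, ← ext_mul, mul_inv_cancel, ext_one_apply E.conj hB.mem_VB]
  have hs2 : HasSum (fun g => conj (c g) • B g⁻¹ θ) η := by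
    have h1 := hasSum_ext E.conj l hBθ
    rw [hηθ] at h1
    have h2 := (Equiv.hasSum_iff (Equiv.inv G)).2 h1
    convert! h2 using 2 with g
    simp only [Function.comp_apply, Equiv.inv_apply]
    have h3 : conj (c g) = cf (E.conj.U l) g⁻¹ := by
      have h4 := f2_cf_inv (E.conj.comm l) g⁻¹
      rw [inv_inv, ← map_inv] at h4
      show conj (cf (E.conj.U l⁻¹) g) = _
      rw [h4, Complex.conj_conj]
    rw [h3]
  -- the finite set
  set δ : ℝ := ε₁ / (4 * (‖η‖ + 1)) with hδ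
  have hη0 := norm_nonneg η
  have hδ0 : 0 < δ := by positivity
  obtain ⟨F, hF⟩ := summable_iff_vanishing_norm.1 (summable_sq (cf (E.conj.U l⁻¹))) (δ ^ 2)
    (by positivity)
  have hF' : ∀ t : Finset G, Disjoint t F → ∑ g ∈ t, ‖c g‖ ^ 2 ≤ δ ^ 2 := by
    intro t ht
    have h1 := hF t ht
    rw [Real.norm_of_nonneg (Finset.sum_nonneg fun g _ => by positivity)] at h1
    exact h1.le
  have hP : ‖θ - ∑ g ∈ F, c g • B g η‖ ≤ δ := by
    refine f2_tail hs1 hδ0.le (fun s => ?_) hF'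
    have := hB.norm_le s c
    rwa [one_mul] at this
  have hP' : ‖η - ∑ g ∈ F, conj (c g) • B g⁻¹ θ‖ ≤ δ := by
    refine f2_tail hs2 hδ0.le (w := fun g => ‖c g‖ ^ 2) (fun s => ?_) hF'
    have h1 := hBθ.norm_le (s.map (Equiv.inv G).toEmbedding) (fun g => conj (c g⁻¹))
    rw [one_mul, Finset.sum_map, Finset.sum_map] at h1
    simpa only [Equiv.coe_toEmbedding, Equiv.inv_apply, inv_inv, RCLike.norm_conj] using h1
  set σ : ℝ := ∑ g ∈ F, ‖c g‖ with hσ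
  have hσ0 : 0 ≤ σ := Finset.sum_nonneg fun g _ => norm_nonneg _
  set ε : ℝ := ε₁ / (4 * (‖η‖ ^ 2 + 1) * (σ + 1)) with hε
  have hε0 : 0 < ε := by positivity
  refine ⟨F ∪ F.image (fun g => g⁻¹), ε, hε0, fun S M h0 hM hQ f hf => ?_⟩
  set q : K → K → ℂ := fun x y => qf J B M S f x y with hq
  have hmove : ∀ g ∈ F, ‖q (B g η) θ - q η (B g⁻¹ θ)‖ ≤ 2 * ε * ‖η‖ * ‖θ‖ := by
    intro g hg
    refine qf_move hJ h0 hM hε0 (hQ g (Finset.mem_union_left _ hg)) (fun x S' => ?_) hf η θ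
    have h1 := hQ g⁻¹ (Finset.mem_union_right _ (Finset.mem_image_of_mem _ hg)) x S'
    rwa [inv_inv] at h1
  set P := ∑ g ∈ F, c g • B g η with hPdef
  set P' := ∑ g ∈ F, conj (c g) • B g⁻¹ θ with hP'def
  have e1 : q θ θ - q η η = q (θ - P) θ + (q P θ - q η P') - q η (η - P') := by
    simp only [hq]
    rw [f2_sub_left J B M S hf, f2_sub_right J B M S hf]
    ring
  have b1 : ‖q (θ - P) θ‖ ≤ δ * ‖η‖ := by
    refine (qf_bound hJ B hM hf _ _).trans ?_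
    rw [hnθ]
    exact mul_le_mul_of_nonneg_right hP hη0
  have b3 : ‖q η (η - P')‖ ≤ ‖η‖ * δ :=
    (qf_bound hJ B hM hf _ _).trans (mul_le_mul_of_nonneg_left hP' hη0)
  have b2 : ‖q P θ - q η P'‖ ≤ σ * (2 * ε * ‖η‖ * ‖η‖) := by
    have e2 : q P θ - q η P' = ∑ g ∈ F, conj (c g) * (q (B g η) θ - q η (B g⁻¹ θ)) := by
      simp only [hq, hPdef, hP'def]
      rw [f2_sum_left J B M S hf, f2_sum_right J B M S hf, ← Finset.sum_sub_distrib]
      exact Finset.sum_congr rfl fun g _ => by ring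
    rw [e2, hσ, Finset.sum_mul]
    refine (norm_sum_le _ _).trans (Finset.sum_le_sum fun g hg => ?_)
    rw [norm_mul, RCLike.norm_conj]
    refine mul_le_mul_of_nonneg_left ?_ (norm_nonneg _)
    have := hmove g hg
    rwa [hnθ] at this
  have hδη : 2 * (δ * ‖η‖) ≤ ε₁ / 2 := by
    have h1 : δ * (4 * (‖η‖ + 1)) = ε₁ := by
      rw [hδ]
      field_simp
    nlinarith
  have hεη : σ * (2 * ε * ‖η‖ * ‖η‖) ≤ ε₁ / 2 := by
    have h1 : ε * (4 * (‖η‖ ^ 2 + 1) * (σ + 1)) = ε₁ := by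
      rw [hε]
      field_simp
    have h2 : σ * (2 * ε * ‖η‖ * ‖η‖) = 2 * ε * (σ * ‖η‖ ^ 2) := by ring
    have h3 : σ * ‖η‖ ^ 2 ≤ (‖η‖ ^ 2 + 1) * (σ + 1) := by nlinarith [sq_nonneg ‖η‖]
    have h4 : 2 * ε * (σ * ‖η‖ ^ 2) ≤ 2 * ε * ((‖η‖ ^ 2 + 1) * (σ + 1)) :=
      mul_le_mul_of_nonneg_left h3 (by positivity)
    rw [h2]
    linarith
  calc ‖q θ θ - q η η‖ = ‖q (θ - P) θ + (q P θ - q η P') - q η (η - P')‖ := by rw [e1]
    _ ≤ ‖q (θ - P) θ‖ + ‖q P θ - q η P'‖ + ‖q η (η - P')‖ :=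
        (norm_sub_le _ _).trans (add_le_add (norm_add_le _ _) le_rfl)
    _ ≤ δ * ‖η‖ + σ * (2 * ε * ‖η‖ * ‖η‖) + ‖η‖ * δ := add_le_add (add_le_add b1 b2) b3
    _ ≤ ε₁ := by linarith

end Pool.Agent.Helper84.GN.S3
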