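import Pool.Agent.Helper9.S3.Defs

/-!
# Project S3, block A3: tensor products of operators with 1

`tens_ext`: `S - T` vanishes on the span of the elementary tensors, whose orthogonal complement is zero (`τ.dense`), so the span is dense (`Submodule.topologicalClosure_eq_top_iff` or `Submodule.orthogonal_eq_bot_iff`, `K` complete).
`exists_tm`: for a finite sum `x = ∑_{i ∈ s} τ.t (a i) (v i)` put `y = ∑ τ'.t (T (a i)) (v i)`. Claim `‖y‖ ≤ ‖T‖ ‖x‖`: take an orthonormal basis `e_j` of the (finite dimensional) span of the `v i` (`stdOrthonormalBasis`), `v i = ∑_j c_ij e_j`,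
`a'_j = ∑_i c_ij a_i`; then `x = ∑_j τ.t a'_j e_j`, `y = ∑_j τ'.t (T a'_j) e_j`, and by `inner_t` `‖x‖^2 = ∑_j ‖a'_j‖^2`, `‖y‖^2 = ∑_j ‖T a'_j‖^2 ≤ ‖T‖^2 ‖x‖^2`. Alternatively with Gram matrices, or with `TensorProduct ℂ H L` (`TensorProduct.lift τ.t`)
and Mathlib's inner product on tensor products (`Mathlib/Analysis/InnerProductSpace/TensorProduct.lean`). So the map is well defined and bounded on the dense span, extend it by continuity (`LinearMap.extend...`, `ContinuousLinearMap.extend`, or define it on the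
range of `TensorProduct.lift τ.t`).
-/

set_option autoImplicit false

open Filter Topology Matrix
open scoped ComplexConjugate TensorProduct

namespace Pool.Agent.Helper84.GN.S3

open NI GVN Pool.Agent.Helper90.RK Pool.Agent.Helper96.RK

variable {H H' L K K' : Type} [NormedAddCommGroup H] [InnerProductSpace ℂ H] [NormedAddCommGroup H'] [InnerProductSpace ℂ H']
  [NormedAddCommGroup L] [InnerProductSpace ℂ L] [NormedAddCommGroup K] [InnerProductSpace ℂ K] [CompleteSpace K]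
  [NormedAddCommGroup K'] [InnerProductSpace ℂ K'] [CompleteSpace K']

omit [CompleteSpace K] in
private theorem norm_sq14 (τ : Tens H L K) {m : ℕ} (a : Fin m → H) (e : Fin m → L) (he : Orthonormal ℂ e) :
    ‖∑ j, τ.t (a j) (e j)‖ ^ 2 = ∑ j, ‖a j‖ ^ 2 := by
  have h1 : inner ℂ (∑ j, τ.t (a j) (e j)) (∑ j, τ.t (a j) (e j)) = ∑ j, inner ℂ (a j) (a j) := by
    rw [sum_inner]
    refine Finset.sum_congr rfl fun j _ => ?_
    rw [inner_sum, Finset.sum_eq_single j]
    · rw [τ.inner_t, orthonormal_iff_ite.1 he, if_pos rfl, mul_one]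
    · intro k _ hk
      rw [τ.inner_t, orthonormal_iff_ite.1 he, if_neg (Ne.symm hk), mul_zero]
    · intro h
      exact absurd (Finset.mem_univ j) h
  have h2 : ((‖∑ j, τ.t (a j) (e j)‖ ^ 2 : ℝ) : ℂ) = ((∑ j, ‖a j‖ ^ 2 : ℝ) : ℂ) := by
    have h3 : inner ℂ (∑ j, τ.t (a j) (e j)) (∑ j, τ.t (a j) (e j)) =
        ((‖∑ j, τ.t (a j) (e j)‖ : ℝ) : ℂ) ^ 2 := inner_self_eq_norm_sq_to_K _
    have h4 : ∀ j, inner ℂ (a j) (a j) = ((‖a j‖ : ℝ) : ℂ) ^ 2 := fun j => inner_self_eq_norm_sq_to_K _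
    push_cast
    rw [← h3, h1]
    exact Finset.sum_congr rfl fun j _ => h4 j
  exact_mod_cast h2

private theorem exists_onb14 (z : TensorProduct ℂ H L) :
    ∃ (m : ℕ) (a : Fin m → H) (e : Fin m → L), Orthonormal ℂ e ∧ z = ∑ j, a j ⊗ₜ[ℂ] e j := by
  obtain ⟨S, hS⟩ := TensorProduct.exists_finset z
  let F : Submodule ℂ L := Submodule.span ℂ (Prod.snd '' (S : Set (H × L)))
  haveI : FiniteDimensional ℂ F := FiniteDimensional.span_of_finite ℂ (S.finite_toSet.image _)
  let b := stdOrthonormalBasis ℂ F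
  have hmem : ∀ i ∈ S, i.2 ∈ F := fun i hi => Submodule.subset_span ⟨i, hi, rfl⟩
  have hrep : ∀ v ∈ F, v = ∑ j, inner ℂ (b j : L) v • (b j : L) := by
    intro v hv
    have h1 := congrArg F.subtype (b.sum_repr' ⟨v, hv⟩)
    rw [map_sum] at h1
    simp only [map_smul, Submodule.subtype_apply] at h1
    exact h1.symm
  refine ⟨Module.finrank ℂ F, fun j => ∑ i ∈ S, inner ℂ (b j : L) i.2 • i.1, fun j => (b j : L), ?_, ?_⟩
  · have h1 := b.orthonormal
    rw [orthonormal_iff_ite] at h1 ⊢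
    exact h1
  · rw [hS]
    simp only [TensorProduct.sum_tmul]
    rw [Finset.sum_comm]
    refine Finset.sum_congr rfl fun i hi => ?_
    conv_lhs => rw [hrep i.2 (hmem i hi), TensorProduct.tmul_sum]
    refine Finset.sum_congr rfl fun j _ => ?_
    rw [TensorProduct.tmul_smul, TensorProduct.smul_tmul']

private theorem dense14 (τ : Tens H L K) : Dense (Submodule.span ℂ {y : K | ∃ a v, y = τ.t a v} : Set K) := by
  rw [Submodule.dense_iff_topologicalClosure_eq_top, Submodule.topologicalClosure_eq_top_iff, Submodule.eq_bot_iff]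
  intro x hx
  refine τ.dense x fun a v => ?_
  exact hx _ (Submodule.subset_span ⟨a, v, rfl⟩)

private theorem denseRange14 (τ : Tens H L K) : DenseRange (TensorProduct.lift τ.t) := by
  have h1 : (Submodule.span ℂ {y : K | ∃ a v, y = τ.t a v} : Set K) ⊆ Set.range (TensorProduct.lift τ.t) := by
    have h2 : Submodule.span ℂ {y : K | ∃ a v, y = τ.t a v} ≤ LinearMap.range (TensorProduct.lift τ.t) := by
      rw [Submodule.span_le]
      rintro y ⟨a, v, rfl⟩
      exact ⟨a ⊗ₜ v, TensorProduct.lift.tmul _ _⟩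
    exact h2
  exact (dense14 τ).mono h1

/-- Operators on a tensor product are determined by their values on elementary tensors. -/
theorem tens_ext (τ : Tens H L K) {Y : Type} [NormedAddCommGroup Y] [NormedSpace ℂ Y] {S T : K →L[ℂ] Y}
    (h : ∀ a v, S (τ.t a v) = T (τ.t a v)) : S = T := by
  refine ContinuousLinearMap.ext_on (dense14 τ) ?_
  rintro y ⟨a, v, rfl⟩
  exact h a v

theorem exists_tm (τ : Tens H L K) (τ' : Tens H' L K') (T : H →L[ℂ] H') :
    ∃ T' : K →L[ℂ] K', (∀ a v, T' (τ.t a v) = τ'.t (T a) v) ∧ ∀ x, ‖T' x‖ ≤ ‖T‖ * ‖x‖ := by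
  let e : TensorProduct ℂ H L →ₗ[ℂ] K := TensorProduct.lift τ.t
  let f : TensorProduct ℂ H L →ₗ[ℂ] K' := TensorProduct.lift τ'.t ∘ₗ TensorProduct.map T.toLinearMap LinearMap.id
  have hd : DenseRange e := denseRange14 τ
  have hn : ∀ z, ‖f z‖ ≤ ‖T‖ * ‖e z‖ := by
    intro z
    obtain ⟨m, a, u, hu, rfl⟩ := exists_onb14 z
    have h1 : e (∑ j, a j ⊗ₜ[ℂ] u j) = ∑ j, τ.t (a j) (u j) := by
      rw [map_sum]
      exact Finset.sum_congr rfl fun j _ => TensorProduct.lift.tmul _ _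
    have h2 : f (∑ j, a j ⊗ₜ[ℂ] u j) = ∑ j, τ'.t (T (a j)) (u j) := by
      rw [map_sum]
      refine Finset.sum_congr rfl fun j _ => ?_
      change TensorProduct.lift τ'.t (TensorProduct.map T.toLinearMap LinearMap.id (a j ⊗ₜ[ℂ] u j)) = _
      rw [TensorProduct.map_tmul, TensorProduct.lift.tmul]
      rfl
    rw [h1, h2]
    refine (sq_le_sq₀ (norm_nonneg _) (mul_nonneg (norm_nonneg _) (norm_nonneg _))).1 ?_
    rw [mul_pow, norm_sq14 τ' _ _ hu, norm_sq14 τ _ _ hu, Finset.mul_sum]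
    refine Finset.sum_le_sum fun j _ => ?_
    rw [← mul_pow]
    exact pow_le_pow_left₀ (norm_nonneg _) (T.le_opNorm (a j)) 2
  refine ⟨f.extendOfNorm e, fun a v => ?_, LinearMap.norm_extendOfNorm_apply_le hd _ hn⟩
  have h1 := LinearMap.extendOfNorm_eq hd ⟨‖T‖, hn⟩ (a ⊗ₜ[ℂ] v)
  have h2 : e (a ⊗ₜ[ℂ] v) = τ.t a v := TensorProduct.lift.tmul _ _
  rw [h2] at h1
  rw [h1]
  change TensorProduct.lift τ'.t (TensorProduct.map T.toLinearMap LinearMap.id (a ⊗ₜ[ℂ] v)) = _
  rw [TensorProduct.map_tmul, TensorProduct.lift.tmul]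
  rfl

/-- `T ⊗ 1`. -/
noncomputable def tm (τ : Tens H L K) (τ' : Tens H' L K') (T : H →L[ℂ] H') : K →L[ℂ] K' :=
  (exists_tm τ τ' T).choose

theorem tm_t (τ : Tens H L K) (τ' : Tens H' L K') (T : H →L[ℂ] H') (a : H) (v : L) :
    tm τ τ' T (τ.t a v) = τ'.t (T a) v := (exists_tm τ τ' T).choose_spec.1 a v

theorem norm_tm_le (τ : Tens H L K) (τ' : Tens H' L K') (T : H →L[ℂ] H') (x : K) :
    ‖tm τ τ' T x‖ ≤ ‖T‖ * ‖x‖ := (exists_tm τ τ' T).choose_spec.2 x

end Pool.Agent.Helper84.GN.S3
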