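import Pool.Agent.Helper9.S3.A3

/-!
# Project S3, block A3b: adjoints of T ⊗ 1

By `tens_ext` it is enough to compare on elementary tensors: for all `b`, `w` and all `a`, `v`: `⟪τ.t a v, adjoint (tm T) (τ'.t b w)⟫ = ⟪τ'.t (T a) v, τ'.t b w⟫ = ⟪T a, b⟫ ⟪v, w⟫ = ⟪a, T* b⟫ ⟪v, w⟫ = ⟪τ.t a v, τ.t (T* b) w⟫`, and vectors are determined by their
inner products with elementary tensors (`τ.dense` applied to the difference).
-/

set_option autoImplicit false

open Filter Topology Matrix
open scoped ComplexConjugate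

namespace Pool.Agent.Helper84.GN.S3

open NI GVN Pool.Agent.Helper90.RK Pool.Agent.Helper96.RK

variable {H H' L K K' : Type} [NormedAddCommGroup H] [InnerProductSpace ℂ H] [NormedAddCommGroup H'] [InnerProductSpace ℂ H']
  [NormedAddCommGroup L] [InnerProductSpace ℂ L] [NormedAddCommGroup K] [InnerProductSpace ℂ K] [CompleteSpace K]
  [NormedAddCommGroup K'] [InnerProductSpace ℂ K'] [CompleteSpace K']

theorem tm_adjoint [CompleteSpace H] [CompleteSpace H'] (τ : Tens H L K) (τ' : Tens H' L K') (T : H →L[ℂ] H') :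
    ContinuousLinearMap.adjoint (tm τ τ' T) = tm τ' τ (ContinuousLinearMap.adjoint T) := by
  refine tens_ext τ' fun b w => ?_
  rw [tm_t, ← sub_eq_zero]
  refine τ.dense _ fun a v => ?_
  rw [inner_sub_right, ContinuousLinearMap.adjoint_inner_right, tm_t, τ'.inner_t, τ.inner_t,
    ContinuousLinearMap.adjoint_inner_right, sub_self]

end Pool.Agent.Helper84.GN.S3
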