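import Pool.Agent.Helper9.S3.Defs

/-!
# Project S3, block A4b: Vp as a tensor product

`τ.t a w = ⟨UP.map (mulF fun _ => w) a, _⟩`. Bilinear: additivity in `w`: `mulF (fun _ => w + w') = mulF (fun _ => w) + mulF (fun _ => w')`, `UP.map_add`. `inner_t`: identity between bounded operators, pass to the ultrapower with `UP.ext_fun` twice (compare the proof of `inner_TL_TR` in
`Helper84/GN/SE.lean`): on sequences `⟪mulF v x, mulF w y⟫ = ⟪x, y⟫ ⟪v, w⟫` in `ℓ²(G; L)`, limits are unique. `dense`: `R.Vp L` is the closure of the span of these vectors: a vector `x` of `R.Vp L` orthogonal to all of them is orthogonal to their closed span, so to itself.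
-/

set_option autoImplicit false

open Filter Topology Matrix
open scoped ComplexConjugate

namespace Pool.Agent.Helper84.GN.S3

open NI GVN Pool.Agent.Helper90.RK Pool.Agent.Helper96.RK

variable {G Λ : Type} [Group G] [Group Λ]

private theorem mem67 (R : Reg G) {L : Type} [NormedAddCommGroup L] [InnerProductSpace ℂ L] (w : L) (a : R.Ua) :
    UP.map (mulF fun _ => w) (a : UP (L2 G)) ∈ R.Vp L :=
  Submodule.le_topologicalClosure _ (Submodule.subset_span ⟨w, a, a.2, rfl⟩)

omit [Group G] in
private theorem mulF_add67 {L : Type} [NormedAddCommGroup L] [InnerProductSpace ℂ L] (w w' : L) :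
    (mulF (fun _ : G => w + w') : L2 G →L[ℂ] Lv G L) = mulF (fun _ => w) + mulF (fun _ => w') := by
  ext f : 1
  refine lv_ext fun γ => ?_
  change mulF (fun _ => w + w') f γ = mulF (fun _ => w) f γ + mulF (fun _ => w') f γ
  rw [mulF_apply (F := fun _ : G => w + w') (C := ‖w + w'‖) (fun _ => le_rfl),
    mulF_apply (F := fun _ : G => w) (C := ‖w‖) (fun _ => le_rfl),
    mulF_apply (F := fun _ : G => w') (C := ‖w'‖) (fun _ => le_rfl), smul_add]

omit [Group G] in
private theorem mulF_smul67 {L : Type} [NormedAddCommGroup L] [InnerProductSpace ℂ L] (c : ℂ) (w : L) :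
    (mulF (fun _ : G => c • w) : L2 G →L[ℂ] Lv G L) = c • mulF (fun _ => w) := by
  ext f : 1
  refine lv_ext fun γ => ?_
  change mulF (fun _ => c • w) f γ = c • mulF (fun _ => w) f γ
  rw [mulF_apply (F := fun _ : G => c • w) (C := ‖c • w‖) (fun _ => le_rfl),
    mulF_apply (F := fun _ : G => w) (C := ‖w‖) (fun _ => le_rfl), smul_comm]

omit [Group G] in
private theorem inner67 {L : Type} [NormedAddCommGroup L] [InnerProductSpace ℂ L] (v w : L) (a b : UP (L2 G)) :
    inner ℂ (UP.map (mulF fun _ => v) a : UP (Lv G L)) (UP.map (mulF fun _ => w) b) = inner ℂ a b * inner ℂ v w := by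
  have key : ∀ x y : L2 G, inner ℂ (mulF (fun _ : G => v) x) (mulF (fun _ : G => w) y) =
      inner ℂ x y * inner ℂ v w := by
    intro x y
    refine (lv_inner _ _).unique ?_
    have e : (fun γ => inner ℂ (mulF (fun _ : G => v) x γ) (mulF (fun _ : G => w) y γ)) =
        fun γ => inner ℂ (x γ) (y γ) * inner ℂ v w := by
      funext γ
      rw [mulF_apply (F := fun _ : G => v) (C := ‖v‖) (fun _ => le_rfl),
        mulF_apply (F := fun _ : G => w) (C := ‖w‖) (fun _ => le_rfl), inner_smul_left, inner_smul_right,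
        RCLike.inner_apply]
      ring
    rw [e]
    exact (lv_inner x y).mul_right _
  refine UP.ext_fun (f := fun ξ => inner ℂ (UP.map (mulF fun _ => v) ξ : UP (Lv G L))
    (UP.map (mulF fun _ => w) b)) (g := fun ξ => inner ℂ ξ b * inner ℂ v w)
    (by fun_prop) (by fun_prop) (fun x => ?_) a
  refine UP.ext_fun (f := fun η => inner ℂ (UP.map (mulF fun _ => v) (UP.mk x) : UP (Lv G L))
    (UP.map (mulF fun _ => w) η)) (g := fun η => inner ℂ (UP.mk x) η * inner ℂ v w)
    (by fun_prop) (by fun_prop) (fun y => ?_) b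
  simp only [UP.map_mk]
  refine tendsto_nhds_unique (UP.tendsto_inner _ _) (((UP.tendsto_inner _ _).mul_const _).congr fun n => ?_)
  exact (key (x.1 n) (y.1 n)).symm

theorem exists_tU (R : Reg G) (L : Type) [NormedAddCommGroup L] [InnerProductSpace ℂ L] :
    ∃ τ : Tens R.Ua L (R.Vp L), ∀ (a : R.Ua) (w : L), ((τ.t a w : R.Vp L) : UP (Lv G L)) =
      UP.map (mulF fun _ => w) (a : UP (L2 G)) := by
  refine ⟨⟨LinearMap.mk₂ ℂ (fun (a : R.Ua) (w : L) => (⟨UP.map (mulF fun _ => w) (a : UP (L2 G)), mem67 R w a⟩ : R.Vp L))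
    (fun a a' w => Subtype.ext (map_add (UP.map (mulF fun _ => w)) _ _))
    (fun c a w => Subtype.ext (map_smul (UP.map (mulF fun _ => w)) _ _))
    (fun a w w' => Subtype.ext ?_) (fun c a w => Subtype.ext ?_), ?_, ?_⟩, fun a w => rfl⟩
  · change UP.map (mulF fun _ => w + w') (a : UP (L2 G)) = UP.map (mulF fun _ => w) (a : UP (L2 G)) +
      UP.map (mulF fun _ => w') (a : UP (L2 G))
    rw [← UP.map_add, mulF_add67]
  · change UP.map (mulF fun _ => c • w) (a : UP (L2 G)) = c • UP.map (mulF fun _ => w) (a : UP (L2 G))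
    rw [← UP.map_smul, mulF_smul67]
  · intro a b v w
    exact inner67 v w (a : UP (L2 G)) (b : UP (L2 G))
  · intro x hx
    have h1 : (x : UP (Lv G L)) ∈ (Submodule.span ℂ {ξ | ∃ (w : L) (a : UP (L2 G)), a ∈ R.Ua ∧
        ξ = UP.map (mulF fun _ => w) a})ᗮ := by
      rw [Submodule.mem_orthogonal]
      intro u hu
      induction hu using Submodule.span_induction with
      | mem y hy =>
        obtain ⟨w, a, ha, rfl⟩ := hy
        exact hx ⟨a, ha⟩ w
      | zero => exact inner_zero_left _
      | add y z _ _ hy hz => rw [inner_add_left, hy, hz, add_zero]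
      | smul c y _ hy => rw [inner_smul_left, hy, mul_zero]
    rw [← Submodule.orthogonal_closure] at h1
    have h2 : inner ℂ (x : UP (Lv G L)) (x : UP (Lv G L)) = 0 := Submodule.inner_right_of_mem_orthogonal x.2 h1
    exact Subtype.ext (inner_self_eq_zero.1 h2)

end Pool.Agent.Helper84.GN.S3
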