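import Pool.Agent.Helper9.S3.Defs

/-!
# Project S3, block A5a: descent of operators, inequality

`A = c^2 • 1 - ∑_{i ∈ s} (N i)* (N i)` is a positive operator on `K1` (hypothesis `hc`: `re ⟪A x, x⟫ ≥ 0`), `P = CFC.sqrt A` (see `Helper84/NI/J3.lean` for the same use of `CFC.sqrt` and of `Commute`). `X_{lm} = (D m)* D l` satisfies `X_{lm}* = X_{ml}`, so `(N i)*` commutes with all the `X_{lm}` too, hence `A` and `P` do. With
`z = ∑_{l ∈ F} D l (k l)`: `‖∑_l D l (P (k l))‖^2 = ∑_{l,m} ⟪D l P k_l, D m P k_m⟫ = ∑ ⟪X_{lm} P k_l, P k_m⟫ = ∑ ⟪P X_{lm} k_l, P k_m⟫ = ∑ ⟪X_{lm} k_l, A k_m⟫ = c^2 ‖z‖^2 - ∑_i ∑_{l,m} ⟪N i X_{lm} k_l, N i k_m⟫ = c^2 ‖z‖^2 - ∑_i ‖∑_l D l (N i (k l))‖^2`.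
`desc_eq`: polarisation: `∑_i ⟪N i x, N i y⟫ = ⟪x, y⟫` for all `x`, `y` (that is `∑ (N i)* N i = 1`: both sides are operators with the same quadratic form, `ContinuousLinearMap` of a complex space; `inner_map_self_eq_zero` or polarization), then the same computation: `∑_i ∑_{l,m} ⟪N i X_{lm} k_l, N i k_m⟫ = ∑ ⟪X_{lm} k_l, k_m⟫ = ‖z‖^2`.
-/

set_option autoImplicit false

open Filter Topology Matrix
open scoped ComplexConjugate

namespace Pool.Agent.Helper84.GN.S3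

open NI GVN Pool.Agent.Helper90.RK Pool.Agent.Helper96.RK

variable {G Λ : Type} [Group G] [Group Λ]

variable {K1 K2 : Type} [NormedAddCommGroup K1] [InnerProductSpace ℂ K1] [CompleteSpace K1]
  [NormedAddCommGroup K2] [InnerProductSpace ℂ K2] [CompleteSpace K2]

omit [Group Λ] in
private theorem a5_star (D : Λ → (K1 →L[ℂ] K2)) {N : K1 →L[ℂ] K1} (h : CommD D N) :
    CommD D (ContinuousLinearMap.adjoint N) := by
  intro l m x
  apply ext_inner_left ℂ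
  intro u
  rw [ContinuousLinearMap.adjoint_inner_right, ContinuousLinearMap.adjoint_inner_right,
    ContinuousLinearMap.adjoint_inner_right, ← ContinuousLinearMap.adjoint_inner_left (D l),
    ← h m l u, ← ContinuousLinearMap.adjoint_inner_left (D l), ContinuousLinearMap.adjoint_inner_right N]

/-- the form `Q` -/
private noncomputable def a5Q (D : Λ → (K1 →L[ℂ] K2)) (F : Finset Λ) (k : Λ → K1) (B : K1 →L[ℂ] K1) : ℂ :=
  ∑ l ∈ F, ∑ m ∈ F, inner ℂ (ContinuousLinearMap.adjoint (D m) (D l (k l))) (B (k m))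

omit [Group Λ] in
private theorem a5_Q (D : Λ → (K1 →L[ℂ] K2)) (F : Finset Λ) (k : Λ → K1) {T : K1 →L[ℂ] K1} (h : CommD D T) :
    ((‖∑ l ∈ F, D l (T (k l))‖ ^ 2 : ℝ) : ℂ) = a5Q D F k (ContinuousLinearMap.adjoint T * T) := by
  have h0 : ((‖∑ l ∈ F, D l (T (k l))‖ ^ 2 : ℝ) : ℂ)
      = inner ℂ (∑ l ∈ F, D l (T (k l))) (∑ m ∈ F, D m (T (k m))) := by
    rw [inner_self_eq_norm_sq_to_K]
    push_cast
    rfl
  rw [h0, sum_inner]
  unfold a5Q
  refine Finset.sum_congr rfl (fun l _ => ?_)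
  rw [inner_sum]
  refine Finset.sum_congr rfl (fun m _ => ?_)
  rw [← ContinuousLinearMap.adjoint_inner_left (D m), ← h l m (k l)]
  exact (ContinuousLinearMap.adjoint_inner_right T _ _).symm

omit [Group Λ] in
private theorem a5Q_sub (D : Λ → (K1 →L[ℂ] K2)) (F : Finset Λ) (k : Λ → K1) (B B' : K1 →L[ℂ] K1) :
    a5Q D F k (B - B') = a5Q D F k B - a5Q D F k B' := by
  unfold a5Q
  rw [← Finset.sum_sub_distrib]
  refine Finset.sum_congr rfl (fun l _ => ?_)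
  rw [← Finset.sum_sub_distrib]
  refine Finset.sum_congr rfl (fun m _ => ?_)
  rw [← inner_sub_right]
  rfl

omit [Group Λ] in
private theorem a5Q_smul (D : Λ → (K1 →L[ℂ] K2)) (F : Finset Λ) (k : Λ → K1) (B : K1 →L[ℂ] K1) (a : ℂ) :
    a5Q D F k (a • B) = a * a5Q D F k B := by
  unfold a5Q
  rw [Finset.mul_sum]
  refine Finset.sum_congr rfl (fun l _ => ?_)
  rw [Finset.mul_sum]
  refine Finset.sum_congr rfl (fun m _ => ?_)
  rw [← inner_smul_right]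
  rfl

omit [Group Λ] in
private theorem a5Q_sum (D : Λ → (K1 →L[ℂ] K2)) (F : Finset Λ) (k : Λ → K1) {ι : Type} (s : Finset ι)
    (B : ι → K1 →L[ℂ] K1) :
    a5Q D F k (∑ i ∈ s, B i) = ∑ i ∈ s, a5Q D F k (B i) := by
  unfold a5Q
  rw [Finset.sum_comm (s := s) (t := F)]
  refine Finset.sum_congr rfl (fun l _ => ?_)
  rw [Finset.sum_comm (s := s) (t := F)]
  refine Finset.sum_congr rfl (fun m _ => ?_)
  rw [_root_.sum_apply, inner_sum]

private theorem a5_form {ι : Type} (s : Finset ι) (N : ι → (K1 →L[ℂ] K1)) (x : K1) :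
    inner ℂ ((∑ i ∈ s, ContinuousLinearMap.adjoint (N i) * N i) x) x
      = ((∑ i ∈ s, ‖N i x‖ ^ 2 : ℝ) : ℂ) := by
  rw [_root_.sum_apply, sum_inner]
  push_cast
  refine Finset.sum_congr rfl (fun i _ => ?_)
  have h1 : inner ℂ ((ContinuousLinearMap.adjoint (N i) * N i) x) x = inner ℂ (N i x) (N i x) :=
    ContinuousLinearMap.adjoint_inner_left (N i) _ _
  refine h1.trans ?_
  rw [inner_self_eq_norm_sq_to_K]
  rfl

omit [Group Λ] in
private theorem a5_one (D : Λ → (K1 →L[ℂ] K2)) (F : Finset Λ) (k : Λ → K1) :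
    ((‖∑ l ∈ F, D l (k l)‖ ^ 2 : ℝ) : ℂ) = a5Q D F k 1 := by
  have h := a5_Q D F k (T := (1 : K1 →L[ℂ] K1)) (fun l m x => rfl)
  have h2 : ContinuousLinearMap.adjoint (1 : K1 →L[ℂ] K1) * 1 = 1 := by
    rw [mul_one]
    exact star_one _
  rw [h2] at h
  exact h

omit [Group Λ] in
theorem desc_le (D : Λ → (K1 →L[ℂ] K2)) {ι : Type} (s : Finset ι) (N : ι → (K1 →L[ℂ] K1)) {c : ℝ}
    (hN : ∀ i ∈ s, CommD D (N i)) (hc : ∀ x, ∑ i ∈ s, ‖N i x‖ ^ 2 ≤ c ^ 2 * ‖x‖ ^ 2) (F : Finset Λ) (k : Λ → K1) :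
    ∑ i ∈ s, ‖∑ l ∈ F, D l (N i (k l))‖ ^ 2 ≤ c ^ 2 * ‖∑ l ∈ F, D l (k l)‖ ^ 2 := by
  let S : K1 →L[ℂ] K1 := ∑ i ∈ s, ContinuousLinearMap.adjoint (N i) * N i
  let A : K1 →L[ℂ] K1 := ((c ^ 2 : ℝ) : ℂ) • (1 : K1 →L[ℂ] K1) - S
  have hform : ∀ x, inner ℂ (A x) x = ((c ^ 2 * ‖x‖ ^ 2 - ∑ i ∈ s, ‖N i x‖ ^ 2 : ℝ) : ℂ) := by
    intro x
    have h1 : A x = ((c ^ 2 : ℝ) : ℂ) • x - S x := rfl
    rw [h1, inner_sub_left, inner_smul_left, a5_form, inner_self_eq_norm_sq_to_K, Complex.conj_ofReal]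
    push_cast
    rfl
  have hA : 0 ≤ A := by
    rw [ContinuousLinearMap.nonneg_iff_isPositive]
    rw [ContinuousLinearMap.isPositive_iff_complex]
    intro x
    rw [hform]
    refine ⟨?_, ?_⟩
    · rw [RCLike.re_to_complex, Complex.ofReal_re]
    · rw [RCLike.re_to_complex, Complex.ofReal_re]
      have := hc x
      linarith
  let P : K1 →L[ℂ] K1 := CFC.sqrt A
  have hPP : P * P = A := CFC.sqrt_mul_sqrt_self A hA
  have hPp : 0 ≤ P := CFC.sqrt_nonneg A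
  have hPs : ContinuousLinearMap.adjoint P = P := (IsSelfAdjoint.of_nonneg hPp).adjoint_eq
  have hPC : CommD D P := by
    intro l m x
    have h1 : Commute A (ContinuousLinearMap.adjoint (D m) ∘L D l) := by
      refine Commute.sub_left (Commute.smul_left (Commute.one_left _) _) ?_
      refine Commute.sum_left _ _ _ (fun i hi => ?_)
      refine Commute.mul_left ?_ ?_
      · change _ * _ = _ * _
        ext y
        exact a5_star D (hN i hi) l m y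
      · change _ * _ = _ * _
        ext y
        exact hN i hi l m y
    have h2 : Commute P (ContinuousLinearMap.adjoint (D m) ∘L D l) := h1.cfcₙ_nnreal _
    exact congrArg (fun T : K1 →L[ℂ] K1 => T x) h2.eq
  have h1 := a5_Q D F k hPC
  rw [hPs, hPP] at h1
  have h2 : a5Q D F k A = ((c ^ 2 : ℝ) : ℂ) * ((‖∑ l ∈ F, D l (k l)‖ ^ 2 : ℝ) : ℂ)
      - ∑ i ∈ s, ((‖∑ l ∈ F, D l (N i (k l))‖ ^ 2 : ℝ) : ℂ) := by
    change a5Q D F k (((c ^ 2 : ℝ) : ℂ) • (1 : K1 →L[ℂ] K1) - S) = _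
    rw [a5Q_sub, a5Q_smul, ← a5_one]
    congr 1
    change a5Q D F k (∑ i ∈ s, ContinuousLinearMap.adjoint (N i) * N i) = _
    rw [a5Q_sum]
    refine Finset.sum_congr rfl (fun i hi => ?_)
    rw [← a5_Q D F k (hN i hi)]
  rw [h2] at h1
  have h3 : ‖∑ l ∈ F, D l (P (k l))‖ ^ 2 = c ^ 2 * ‖∑ l ∈ F, D l (k l)‖ ^ 2
      - ∑ i ∈ s, ‖∑ l ∈ F, D l (N i (k l))‖ ^ 2 := by
    exact_mod_cast h1
  have h4 : 0 ≤ ‖∑ l ∈ F, D l (P (k l))‖ ^ 2 := by positivity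
  linarith

omit [Group Λ] in
theorem desc_eq (D : Λ → (K1 →L[ℂ] K2)) {ι : Type} (s : Finset ι) (N : ι → (K1 →L[ℂ] K1))
    (hN : ∀ i ∈ s, CommD D (N i)) (hc : ∀ x, ∑ i ∈ s, ‖N i x‖ ^ 2 = ‖x‖ ^ 2) (F : Finset Λ) (k : Λ → K1) :
    ∑ i ∈ s, ‖∑ l ∈ F, D l (N i (k l))‖ ^ 2 = ‖∑ l ∈ F, D l (k l)‖ ^ 2 := by
  have hS : (∑ i ∈ s, ContinuousLinearMap.adjoint (N i) * N i : K1 →L[ℂ] K1) = 1 := by
    have h1 : ((∑ i ∈ s, ContinuousLinearMap.adjoint (N i) * N i : K1 →L[ℂ] K1) : K1 →ₗ[ℂ] K1)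
        = ((1 : K1 →L[ℂ] K1) : K1 →ₗ[ℂ] K1) := by
      rw [← ext_inner_map]
      intro x
      have h2 := a5_form s N x
      rw [hc x] at h2
      refine h2.trans ?_
      change _ = inner ℂ x x
      rw [inner_self_eq_norm_sq_to_K]
      push_cast
      rfl
    exact ContinuousLinearMap.coe_injective h1
  have h1 : ∑ i ∈ s, ((‖∑ l ∈ F, D l (N i (k l))‖ ^ 2 : ℝ) : ℂ) = ((‖∑ l ∈ F, D l (k l)‖ ^ 2 : ℝ) : ℂ) := by
    rw [a5_one, ← hS, a5Q_sum]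
    refine Finset.sum_congr rfl (fun i hi => ?_)
    rw [← a5_Q D F k (hN i hi)]
  exact_mod_cast h1

end Pool.Agent.Helper84.GN.S3
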