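import Pool.Agent.Helper9.S3.Defs

/-!
# Project S3, block A6b: the operators T l

`T l` is the operator of `exists_kop` (`Helper84/NI/E1.lean`) for the vector `ext (BU R) E.conj l a`, bounded with constant one (`ext_bdd`). Last claim: `ext (BU R) E.conj l a = T 1 (cf (E.conj.U l))` (`ext_kop`; `ext (BU R) E.conj 1 a = a` by `ext_one_apply`), so
`T l (dl k) = BU R k (T 1 (cf u)) = T 1 (lamU k (cf u)) = T 1 (jjU u⁻¹ (dl k))` with `u = E.conj.U l` (`jj_dl`, `Helper84/NI/E2.lean`). Hence `T l = T 1 ∘ jjU u⁻¹` (`clm_ext`) and `T l (jjU u f) = T 1 (jjU (u⁻¹ * u) f) = T 1 f` (`jjU_mul`, `jjU_one`).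
-/

set_option autoImplicit false

open Filter Topology Matrix
open scoped ComplexConjugate

namespace Pool.Agent.Helper84.GN.S3

open NI GVN Pool.Agent.Helper90.RK Pool.Agent.Helper96.RK

variable {G Λ : Type} [Group G] [Group Λ]

theorem exists_T (R : Reg G) (E : Emb Λ G) {a : R.Ua} (ha : Bdd (BU R) 1 a) :
    ∃ T : Λ → (L2 G →L[ℂ] R.Ua), (∀ l k, T l (dl k) = BU R k (ext (BU R) E.conj l a)) ∧
      (∀ l f, ‖T l f‖ ≤ ‖f‖) ∧ (∀ l g f, T l (lamU g f) = BU R g (T l f)) ∧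
      ∀ l f, T l (jjU (E.conj.U l) f) = T 1 f := by
  choose T hT1 hT2 hT3 _ using fun l : Λ => exists_kop (ext_bdd E.conj l ha)
  have e1 : ext (BU R) E.conj 1 a = a := ext_one_apply E.conj ha.mem_VB
  have h1 : ∀ g, T 1 (dl g) = BU R g a := by
    intro g
    rw [hT2, e1]
  refine ⟨T, fun l k => hT2 l k, fun l f => by rw [← one_mul ‖f‖]; exact hT1 l f, fun l g f => hT3 l g f, ?_⟩
  intro l f
  have hu := E.conj.comm l
  have e2 : ext (BU R) E.conj l a = T 1 (cf (E.conj.U l)) := ext_kop E.conj l ha h1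
  have e3 : T l = (T 1).comp ((jjU (E.conj.U l)⁻¹).toContinuousLinearEquiv : L2 G →L[ℂ] L2 G) := by
    refine clm_ext fun k => ?_
    have e4 : ((T 1).comp ((jjU (E.conj.U l)⁻¹).toContinuousLinearEquiv : L2 G →L[ℂ] L2 G)) (dl k) =
        T 1 (jjU (E.conj.U l)⁻¹ (dl k)) := rfl
    rw [e4, jj_dl hu, hT3, ← e2, hT2]
  have e5 : T l (jjU (E.conj.U l) f) = T 1 (jjU (E.conj.U l)⁻¹ (jjU (E.conj.U l) f)) := by
    conv_lhs => rw [e3]
    rfl
  have e6 : jjU (E.conj.U l)⁻¹ (jjU (E.conj.U l) f) = (jjU (E.conj.U l)⁻¹ * jjU (E.conj.U l)) f := rfl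
  rw [e5, e6, ← jjU_mul, inv_mul_cancel, jjU_one]
  rfl

end Pool.Agent.Helper84.GN.S3
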