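import Pool.Agent.Helper9.S3.Defs

/-!
# Project S3, block A7a: local operators commute with uniformly continuous functions

`mulop_mem`: as `ind_mem_Ua` in `Helper84/GN/SA.lean`: `ind A` and `mulop f` commute (pointwise, `dg_apply`; if `f` is not bounded `mulop f = 0`).
`loc_scalar`: first for real valued `f`, `|f| ≤ C` (then real and imaginary part; they are `UC` too). For `m : ℕ` let `A_j = {γ | j ≤ m f γ < j + 1}`, `j` in the finite set `Z` of integers with `|j| ≤ m C + 1`, and `g = ∑_{j ∈ Z} (j/m) 1_{A_j}`, `|f - g| ≤ 1/m`. For `|i - j| ≥ 2` we have `|f γ - f γ'| ≥ 1/m` for `γ ∈ A_i`, `γ' ∈ A_j`, so by `hf`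
the sets are at a positive distance and `iU (A_i) X iU (A_j) = 0` (`hX`). `∑_j iU (A_j) = 1`, orthogonal projections. So `X g - g X = ∑_{i, j} iU_i (X g - g X) iU_j = ∑_{|i-j| ≤ 1} ((j - i)/m) iU_i X iU_j`, and `‖∑_i iU_i X iU_{i+1} x‖^2 = ∑_i ‖iU_i X iU_{i+1} x‖^2 ≤ ‖X‖^2 ∑ ‖iU_{i+1} x‖^2 ≤ ‖X‖^2 ‖x‖^2`. Hence
`‖(X f - f X) x‖ ≤ (2 ‖X‖ / m + 2 ‖X‖ / m) ‖x‖` for all `m`.
-/

set_option autoImplicit false

open Filter Topology Matrix
open scoped ComplexConjugate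

namespace Pool.Agent.Helper84.GN.S3

open NI GVN Pool.Agent.Helper90.RK Pool.Agent.Helper96.RK

variable {G Λ : Type} [Group G] [Group Λ]

variable {R : Reg G} {pd : PD G}

private theorem ext97 {E : Type} [NormedAddCommGroup E] [InnerProductSpace ℂ E] (R : Reg G)
    (T : UP (L2 G) →L[ℂ] E) (V : Submodule ℂ E) (hV : IsClosed (V : Set E))
    (h : ∀ a ∈ R.UaSet, T a ∈ V) {a : UP (L2 G)} (ha : a ∈ R.Ua) : T a ∈ V := by
  have h1 : R.Ua ≤ V.comap T.toLinearMap := by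
    unfold Reg.Ua
    refine Submodule.topologicalClosure_minimal _ ?_ ?_
    · rw [Submodule.span_le]
      intro b hb
      exact h b hb
    · exact hV.preimage T.continuous
  exact h1 ha

omit [Group G] in
private theorem mulop_apply97 {f : G → ℂ} {C : ℝ} (hC : ∀ γ, ‖f γ‖ ≤ C) (x : L2 G) (γ : G) :
    mulop f x γ = f γ * x γ := by
  unfold mulop
  rw [dg_apply (C := C) (fun i y => by
    rw [_root_.smul_apply, norm_smul]
    exact mul_le_mul_of_nonneg_right (hC i) (norm_nonneg _))]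
  rw [_root_.smul_apply, ContinuousLinearMap.id_apply, smul_eq_mul]

omit [Group G] in
private theorem norm_mulop97 {f : G → ℂ} {C : ℝ} (hC0 : 0 ≤ C) (hC : ∀ γ, ‖f γ‖ ≤ C) (x : L2 G) :
    ‖mulop f x‖ ≤ C * ‖x‖ := by
  unfold mulop
  exact norm_dg_le hC0 (fun i y => by
    rw [_root_.smul_apply, norm_smul]
    exact mul_le_mul_of_nonneg_right (hC i) (norm_nonneg _)) x

omit [Group G] in
private theorem mulop_zero97 {f : G → ℂ} (h : ¬ ∃ C : ℝ, ∀ γ, ‖f γ‖ ≤ C) : mulop f = 0 := by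
  unfold mulop dg
  rw [dif_neg]
  rintro ⟨C, hC⟩
  apply h
  refine ⟨C, fun γ => ?_⟩
  have := hC γ 1
  rw [_root_.smul_apply, norm_smul, ContinuousLinearMap.id_apply, norm_one, mul_one, mul_one] at this
  exact this

omit [Group G] in
private theorem ind_mulop97 (s : Set G) (f : G → ℂ) (a : UP (L2 G)) :
    UP.map (ind ℂ s) (UP.map (mulop f) a) = UP.map (mulop f) (UP.map (ind ℂ s) a) := by
  classical
  by_cases h : ∃ C : ℝ, ∀ γ, ‖f γ‖ ≤ C
  · obtain ⟨C, hC⟩ := h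
    rw [← UP.map_comp, ← UP.map_comp]
    refine congrArg (fun T => UP.map T a) ?_
    ext x : 1
    apply lv_ext
    intro i
    rw [ContinuousLinearMap.comp_apply, ContinuousLinearMap.comp_apply, ind_apply, mulop_apply97 hC,
      mulop_apply97 hC, ind_apply]
    by_cases h1 : i ∈ s
    · rw [if_pos h1, if_pos h1]
    · rw [if_neg h1, if_neg h1, mul_zero]
  · rw [mulop_zero97 h, UP.map_zero, UP.map_zero, _root_.map_zero]

/-- Multiplication by a bounded function on `R.Ua`. -/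
theorem mulop_mem (R : Reg G) {f : G → ℂ} {a : UP (L2 G)} (ha : a ∈ R.Ua) : UP.map (mulop f) a ∈ R.Ua := by
  refine ext97 R (UP.map (mulop f)) R.Ua (Submodule.isClosed_topologicalClosure _) ?_ ha
  intro b hb
  refine Submodule.le_topologicalClosure _ (Submodule.subset_span ?_)
  obtain ⟨n, hn⟩ := hb
  refine ⟨n, fun s hs => ?_⟩
  rw [ind_mulop97, hn s hs]

section Abs

variable {H : Type} [NormedAddCommGroup H] [InnerProductSpace ℂ H]

private theorem orth97 {p : ℤ → H →L[ℂ] H} (hsa : ∀ i x y, inner ℂ (p i x) y = inner ℂ x (p i y))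
    (hpp : ∀ i j x, p i (p j x) = if i = j then p i x else 0) (Z : Finset ℤ) (y : ℤ → H) :
    ‖∑ i ∈ Z, p i (y i)‖ ^ 2 = ∑ i ∈ Z, ‖p i (y i)‖ ^ 2 := by
  have h : inner ℂ (∑ i ∈ Z, p i (y i)) (∑ i ∈ Z, p i (y i)) =
      ((∑ i ∈ Z, ‖p i (y i)‖ ^ 2 : ℝ) : ℂ) := by
    rw [sum_inner, Complex.ofReal_sum]
    refine Finset.sum_congr rfl fun i hi => ?_
    rw [inner_sum, Finset.sum_eq_single i]
    · rw [inner_self_eq_norm_sq_to_K]
      norm_cast
    · intro j _ hj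
      rw [hsa, hpp, if_neg (Ne.symm hj), inner_zero_right]
    · intro h
      exact absurd hi h
  rw [← inner_self_eq_norm_sq (𝕜 := ℂ), h]
  exact Complex.ofReal_re _

private theorem bessel97 {p : ℤ → H →L[ℂ] H} (hsa : ∀ i x y, inner ℂ (p i x) y = inner ℂ x (p i y))
    (hpp : ∀ i j x, p i (p j x) = if i = j then p i x else 0) (Z : Finset ℤ) (x : H) :
    ∑ i ∈ Z, ‖p i x‖ ^ 2 ≤ ‖x‖ ^ 2 := by
  have h1 := orth97 hsa hpp Z (fun _ => x)
  have h2 : inner ℂ x (∑ i ∈ Z, p i x) = ((∑ i ∈ Z, ‖p i x‖ ^ 2 : ℝ) : ℂ) := by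
    rw [inner_sum, Complex.ofReal_sum]
    refine Finset.sum_congr rfl fun i _ => ?_
    have h3 : inner ℂ x (p i x) = inner ℂ (p i x) (p i x) := by
      rw [hsa, hpp, if_pos rfl]
    rw [h3, inner_self_eq_norm_sq_to_K]
    norm_cast
  have h4 : ‖inner ℂ x (∑ i ∈ Z, p i x)‖ ≤ ‖x‖ * ‖∑ i ∈ Z, p i x‖ := norm_inner_le_norm _ _
  rw [h2, ← h1] at h4
  rw [← h1]
  rw [Complex.norm_real, Real.norm_eq_abs, abs_of_nonneg (sq_nonneg _)] at h4
  have h5 : ‖∑ i ∈ Z, p i x‖ ≤ ‖x‖ := by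
    by_contra hcon
    push Not at hcon
    nlinarith [norm_nonneg (∑ i ∈ Z, p i x), norm_nonneg x]
  exact pow_le_pow_left₀ (norm_nonneg _) h5 2

private theorem shift97 {p : ℤ → H →L[ℂ] H} (hsa : ∀ i x y, inner ℂ (p i x) y = inner ℂ x (p i y))
    (hpp : ∀ i j x, p i (p j x) = if i = j then p i x else 0) (Z : Finset ℤ) (X : H →L[ℂ] H)
    (k : ℤ) (x : H) : ‖∑ j ∈ Z, p j (X (p (j + k) x))‖ ≤ ‖X‖ * ‖x‖ := by
  refine (sq_le_sq₀ (norm_nonneg _) (mul_nonneg (norm_nonneg _) (norm_nonneg _))).1 ?_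
  rw [orth97 hsa hpp Z (fun j => X (p (j + k) x)), mul_pow]
  have h1 : ∀ j y, ‖p j y‖ ≤ ‖y‖ := by
    intro j y
    have := bessel97 hsa hpp {j} y
    rw [Finset.sum_singleton] at this
    exact (sq_le_sq₀ (norm_nonneg _) (norm_nonneg _)).1 this
  have h2 : ∑ j ∈ Z, ‖p (j + k) x‖ ^ 2 ≤ ‖x‖ ^ 2 := by
    have h3 := bessel97 hsa hpp (Z.map (Equiv.addRight k).toEmbedding) x
    rw [Finset.sum_map] at h3
    exact h3
  calc ∑ j ∈ Z, ‖p j (X (p (j + k) x))‖ ^ 2 ≤ ∑ j ∈ Z, ‖X‖ ^ 2 * ‖p (j + k) x‖ ^ 2 := by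
        refine Finset.sum_le_sum fun j _ => ?_
        rw [← mul_pow]
        exact pow_le_pow_left₀ (norm_nonneg _) ((h1 _ _).trans (X.le_opNorm _)) 2
    _ = ‖X‖ ^ 2 * ∑ j ∈ Z, ‖p (j + k) x‖ ^ 2 := by rw [Finset.mul_sum]
    _ ≤ ‖X‖ ^ 2 * ‖x‖ ^ 2 := mul_le_mul_of_nonneg_left h2 (sq_nonneg _)

private theorem comm97 {p : ℤ → H →L[ℂ] H} (hsa : ∀ i x y, inner ℂ (p i x) y = inner ℂ x (p i y))
    (hpp : ∀ i j x, p i (p j x) = if i = j then p i x else 0) (Z : Finset ℤ)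
    (hZ : ∀ x, ∑ i ∈ Z, p i x = x) (X : H →L[ℂ] H)
    (hX : ∀ i j, 2 ≤ |i - j| → ∀ x, p j (X (p i x)) = 0) (x : H) :
    ‖X (∑ i ∈ Z, (i : ℂ) • p i x) - ∑ i ∈ Z, (i : ℂ) • p i (X x)‖ ≤ 2 * ‖X‖ * ‖x‖ := by
  have hout : ∀ i, i ∉ Z → ∀ x, p i x = 0 := by
    intro i hi x
    have h1 := congrArg (p i) (hZ x)
    rw [map_sum] at h1
    rw [← h1]
    refine Finset.sum_eq_zero fun j hj => ?_
    rw [hpp, if_neg]
    intro h
    exact hi (h ▸ hj)
  have e1 : X (∑ i ∈ Z, (i : ℂ) • p i x) = ∑ j ∈ Z, ∑ i ∈ Z, (i : ℂ) • p j (X (p i x)) := by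
    rw [map_sum, Finset.sum_comm]
    refine Finset.sum_congr rfl fun i _ => ?_
    rw [_root_.map_smul, ← Finset.smul_sum, hZ]
  have e2 : ∑ j ∈ Z, (j : ℂ) • p j (X x) = ∑ j ∈ Z, ∑ i ∈ Z, (j : ℂ) • p j (X (p i x)) := by
    refine Finset.sum_congr rfl fun j _ => ?_
    rw [← Finset.smul_sum, ← map_sum, ← map_sum, hZ]
  have e3 : X (∑ i ∈ Z, (i : ℂ) • p i x) - ∑ i ∈ Z, (i : ℂ) • p i (X x) =
      ∑ j ∈ Z, p j (X (p (j + 1) x)) - ∑ j ∈ Z, p j (X (p (j + (-1)) x)) := by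
    rw [e1, e2, ← Finset.sum_sub_distrib, ← Finset.sum_sub_distrib]
    refine Finset.sum_congr rfl fun j _ => ?_
    rw [← Finset.sum_sub_distrib]
    have s1 : ∑ i ∈ Z, ((i : ℂ) • p j (X (p i x)) - (j : ℂ) • p j (X (p i x))) =
        ∑ i ∈ Z ∪ {j + (-1), j + 1}, ((i : ℂ) • p j (X (p i x)) - (j : ℂ) • p j (X (p i x))) := by
      refine Finset.sum_subset Finset.subset_union_left fun i _ hi => ?_
      rw [hout i hi, _root_.map_zero, _root_.map_zero, smul_zero, smul_zero, sub_zero]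
    have s2 : ∑ i ∈ ({j + (-1), j + 1} : Finset ℤ), ((i : ℂ) • p j (X (p i x)) - (j : ℂ) • p j (X (p i x))) =
        ∑ i ∈ Z ∪ {j + (-1), j + 1}, ((i : ℂ) • p j (X (p i x)) - (j : ℂ) • p j (X (p i x))) := by
      refine Finset.sum_subset Finset.subset_union_right fun i _ hi => ?_
      rw [← sub_smul]
      by_cases hij : i = j
      · rw [hij, sub_self, zero_smul]
      · rw [hX i j ?_, smul_zero]
        rw [Finset.mem_insert, Finset.mem_singleton, not_or] at hi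
        obtain ⟨h1, h2⟩ := hi
        rw [le_abs]
        omega
    rw [s1, ← s2, Finset.sum_pair (by omega), ← sub_smul, ← sub_smul]
    push_cast
    rw [show ((j : ℂ) + (-1) - j) = -1 by ring, show ((j : ℂ) + 1 - j) = 1 by ring, neg_one_smul, one_smul]
    abel
  rw [e3]
  refine (norm_sub_le _ _).trans ?_
  have b1 := shift97 hsa hpp Z X 1 x
  have b2 := shift97 hsa hpp Z X (-1) x
  linarith

end Abs

private theorem iU_sa97 (A : Set G) (x y : R.Ua) : inner ℂ (iU R A x) y = inner ℂ x (iU R A y) := by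
  change inner ℂ (UP.map (ind ℂ A) (x : UP (L2 G))) (y : UP (L2 G)) =
    inner ℂ (x : UP (L2 G)) (UP.map (ind ℂ A) (y : UP (L2 G)))
  exact inner_ind A _ _

private theorem iU_iU97 (A B : Set G) (x : R.Ua) : iU R A (iU R B x) = iU R (A ∩ B) x := by
  apply Subtype.ext
  rw [coe_iU, coe_iU, coe_iU, ind_ind]

omit [Group G] in
private theorem ind_empty97 (a : UP (L2 G)) : UP.map (ind ℂ (∅ : Set G)) a = 0 := by
  classical
  have h : ind ℂ (∅ : Set G) = 0 := by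
    ext x : 1
    apply lv_ext
    intro i
    rw [ind_apply, if_neg (Set.notMem_empty i)]
    rfl
  rw [h, UP.map_zero]

/-- level sets -/
private def lev97 (f : G → ℝ) (m : ℕ) (j : ℤ) : Set G := {γ | ⌊(m : ℝ) * f γ⌋ = j}

private theorem real97 {X : R.Ua →L[ℂ] R.Ua} (hX : Loc R pd X) {f : G → ℝ} (hf : UC pd (fun γ => (f γ : ℂ)))
    {C : ℝ} (hC : ∀ γ, |f γ| ≤ C) (x : R.Ua) :
    ((X ⟨UP.map (mulop fun γ => (f γ : ℂ)) (x : UP (L2 G)), mulop_mem R x.2⟩ : R.Ua) : UP (L2 G)) =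
      UP.map (mulop fun γ => (f γ : ℂ)) ((X x : R.Ua) : UP (L2 G)) := by
  classical
  have hC0 : 0 ≤ C := (abs_nonneg _).trans (hC 1)
  have hCc : ∀ γ, ‖((f γ : ℝ) : ℂ)‖ ≤ C := fun γ => by
    rw [Complex.norm_real]
    exact hC γ
  set M : R.Ua →L[ℂ] R.Ua := ((UP.map (mulop fun γ => (f γ : ℂ))).comp R.Ua.subtypeL).codRestrict R.Ua
    (fun x => mulop_mem R x.2) with hM
  have hMc : ∀ y : R.Ua, ((M y : R.Ua) : UP (L2 G)) = UP.map (mulop fun γ => (f γ : ℂ)) (y : UP (L2 G)) :=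
    fun y => rfl
  suffices hmain : X (M x) = M (X x) by
    have h := congrArg (fun y : R.Ua => (y : UP (L2 G))) hmain
    exact h
  -- the bound for all `m`
  have key : ∀ m : ℕ, 0 < m → ‖X (M x) - M (X x)‖ ≤ (4 * ‖X‖ * ‖x‖) / m := by
    intro m hm
    have hm0 : (0 : ℝ) < m := by exact_mod_cast hm
    set p : ℤ → R.Ua →L[ℂ] R.Ua := fun j => iU R (lev97 f m j) with hp
    obtain ⟨N, hN⟩ := exists_nat_gt ((m : ℝ) * C + 1)
    set Z : Finset ℤ := Finset.Icc (-(N : ℤ)) N with hZdef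
    have hmem : ∀ γ, ⌊(m : ℝ) * f γ⌋ ∈ Z := by
      intro γ
      have h1 := abs_le.1 (hC γ)
      rw [hZdef, Finset.mem_Icc]
      constructor
      · rw [Int.le_floor]
        push_cast
        nlinarith [h1.1]
      · have h2 : ((⌊(m : ℝ) * f γ⌋ : ℤ) : ℝ) ≤ (m : ℝ) * f γ := Int.floor_le _
        have h3 : ((⌊(m : ℝ) * f γ⌋ : ℤ) : ℝ) ≤ (N : ℝ) := by nlinarith [h1.2]
        exact_mod_cast h3
    have hsa : ∀ i x y, inner ℂ (p i x) y = inner ℂ x (p i y) := fun i x y => iU_sa97 _ x y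
    have hpp : ∀ i j x, p i (p j x) = if i = j then p i x else 0 := by
      intro i j x
      rw [hp]
      simp only
      rw [iU_iU97]
      by_cases h : i = j
      · rw [if_pos h, h, Set.inter_self]
      · rw [if_neg h]
        have h1 : lev97 f m i ∩ lev97 f m j = (∅ : Set G) := by
          rw [Set.eq_empty_iff_forall_notMem]
          rintro γ ⟨h2, h3⟩
          exact h (h2.symm.trans h3)
        apply Subtype.ext
        rw [h1, coe_iU, ind_empty97]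
        rfl
    -- the approximation
    have happ : ∀ (c : ℤ → ℂ) (a : L2 G) (γ : G), (∑ i ∈ Z, c i • ind ℂ (lev97 f m i)) a γ =
        c ⌊(m : ℝ) * f γ⌋ * a γ := by
      intro c a γ
      rw [_root_.sum_apply, lp.coeFn_sum, Finset.sum_apply, Finset.sum_eq_single ⌊(m : ℝ) * f γ⌋]
      · rw [_root_.smul_apply, lp.coeFn_smul, Pi.smul_apply, ind_apply, if_pos (show γ ∈ lev97 f m _ from rfl),
          smul_eq_mul]
      · intro j _ hj
        rw [_root_.smul_apply, lp.coeFn_smul, Pi.smul_apply, ind_apply,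
          if_neg (show γ ∉ lev97 f m j from fun h => hj h.symm), smul_zero]
      · intro h
        exact absurd (hmem γ) h
    have hsum : ∀ (c : ℤ → ℂ) (y : R.Ua), ((∑ i ∈ Z, c i • p i y : R.Ua) : UP (L2 G)) =
        UP.map (∑ i ∈ Z, c i • ind ℂ (lev97 f m i)) (y : UP (L2 G)) := by
      intro c y
      rw [UP.map_sum, Submodule.coe_sum]
      refine Finset.sum_congr rfl fun i _ => ?_
      rw [UP.map_smul, Submodule.coe_smul, hp]
      rfl
    have hZ : ∀ x, ∑ i ∈ Z, p i x = x := by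
      intro y
      have h1 := hsum (fun _ => 1) y
      simp only [one_smul] at h1
      apply Subtype.ext
      rw [h1]
      have h2 : (∑ i ∈ Z, ind ℂ (lev97 f m i)) = ContinuousLinearMap.id ℂ (L2 G) := by
        ext a : 1
        apply lv_ext
        intro γ
        have h3 := happ (fun _ => 1) a γ
        simp only [one_smul, one_mul] at h3
        rw [h3]
        rfl
      rw [h2, UP.map_id]
    have hXX : ∀ i j, 2 ≤ |i - j| → ∀ x, p j (X (p i x)) = 0 := by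
      intro i j hij y
      obtain ⟨δ, hδ, h1⟩ := hf (1 / (2 * m)) (by positivity)
      refine hX _ _ δ hδ ?_ y
      intro γ hγ γ' hγ'
      by_contra hcon
      push Not at hcon
      have h2 := h1 γ γ' hcon
      rw [← Complex.ofReal_sub, Complex.norm_real, Real.norm_eq_abs] at h2
      have h3 : |(m : ℝ) * f γ - m * f γ'| ≤ 1 / 2 := by
        rw [← mul_sub, abs_mul, abs_of_pos hm0]
        calc (m : ℝ) * |f γ - f γ'| ≤ m * (1 / (2 * m)) := mul_le_mul_of_nonneg_left h2 hm0.le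
          _ = 1 / 2 := by field_simp
      have g1 : ⌊(m : ℝ) * f γ⌋ = i := hγ
      have g2 : ⌊(m : ℝ) * f γ'⌋ = j := hγ'
      have a1 := Int.floor_le ((m : ℝ) * f γ)
      have a2 := Int.lt_floor_add_one ((m : ℝ) * f γ)
      have a3 := Int.floor_le ((m : ℝ) * f γ')
      have a4 := Int.lt_floor_add_one ((m : ℝ) * f γ')
      rw [g1] at a1 a2
      rw [g2] at a3 a4
      have h4 := abs_le.1 h3
      have h5 : (2 : ℝ) ≤ |(i : ℝ) - j| := by exact_mod_cast hij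
      rcases le_abs.1 h5 with h6 | h6
      · linarith [h4.1, h4.2]
      · linarith [h4.1, h4.2]
    have hc := comm97 hsa hpp Z hZ X hXX x
    set D : R.Ua → R.Ua := fun y => ∑ i ∈ Z, (i : ℂ) • p i y with hD
    have happr : ∀ y : R.Ua, ‖((m : ℂ)) • M y - D y‖ ≤ ‖y‖ := by
      intro y
      have h1 : (((m : ℂ) • M y - D y : R.Ua) : UP (L2 G)) =
          UP.map (mulop fun γ => (((m : ℝ) * f γ - ⌊(m : ℝ) * f γ⌋ : ℝ) : ℂ)) (y : UP (L2 G)) := by
        rw [Submodule.coe_sub, Submodule.coe_smul, hMc, hD, hsum (fun i => (i : ℂ)) y, ← UP.map_smul,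
          ← UP.map_sub]
        refine congrArg (fun T => UP.map T (y : UP (L2 G))) ?_
        ext a : 1
        apply lv_ext
        intro γ
        rw [_root_.sub_apply, lp.coeFn_sub, Pi.sub_apply, happ, _root_.smul_apply, lp.coeFn_smul, Pi.smul_apply,
          mulop_apply97 hCc, mulop_apply97 (C := 1)]
        · push_cast
          rw [smul_eq_mul]
          ring
        · intro γ
          rw [Complex.norm_real, Real.norm_eq_abs, abs_of_nonneg (sub_nonneg.2 (Int.floor_le _))]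
          linarith [Int.lt_floor_add_one ((m : ℝ) * f γ)]
      change ‖(((m : ℂ) • M y - D y : R.Ua) : UP (L2 G))‖ ≤ ‖(y : UP (L2 G))‖
      rw [h1]
      have h2 := UP.norm_map_le_of (T := mulop fun γ : G => (((m : ℝ) * f γ - ⌊(m : ℝ) * f γ⌋ : ℝ) : ℂ)) (C := 1)
        zero_le_one (fun a => norm_mulop97 zero_le_one (fun γ => by
          rw [Complex.norm_real, Real.norm_eq_abs, abs_of_nonneg (sub_nonneg.2 (Int.floor_le _))]
          linarith [Int.lt_floor_add_one ((m : ℝ) * f γ)]) a) (y : UP (L2 G))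
      rwa [one_mul] at h2
    have hfin : (m : ℂ) • (X (M x) - M (X x)) = X ((m : ℂ) • M x - D x) + (X (D x) - D (X x)) -
        ((m : ℂ) • M (X x) - D (X x)) := by
      rw [map_sub, _root_.map_smul, smul_sub]
      abel
    have hn : (m : ℝ) * ‖X (M x) - M (X x)‖ ≤ 4 * ‖X‖ * ‖x‖ := by
      have h1 : (m : ℝ) * ‖X (M x) - M (X x)‖ = ‖(m : ℂ) • (X (M x) - M (X x))‖ := by
        rw [norm_smul, Complex.norm_natCast]
      rw [h1, hfin]
      have t1 := norm_sub_le (X ((m : ℂ) • M x - D x) + (X (D x) - D (X x))) ((m : ℂ) • M (X x) - D (X x))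
      have t2 := norm_add_le (X ((m : ℂ) • M x - D x)) (X (D x) - D (X x))
      have t3 : ‖X ((m : ℂ) • M x - D x)‖ ≤ ‖X‖ * ‖x‖ :=
        (X.le_opNorm _).trans (mul_le_mul_of_nonneg_left (happr x) (norm_nonneg _))
      have t4 : ‖(m : ℂ) • M (X x) - D (X x)‖ ≤ ‖X‖ * ‖x‖ := (happr _).trans (X.le_opNorm _)
      have t5 : ‖X (D x) - D (X x)‖ ≤ 2 * ‖X‖ * ‖x‖ := hc
      linarith
    rw [le_div_iff₀ hm0]
    linarith
  have hzero : ‖X (M x) - M (X x)‖ ≤ 0 := by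
    refine ge_of_tendsto (tendsto_const_div_atTop_nhds_zero_nat (4 * ‖X‖ * ‖x‖)) ?_
    filter_upwards [eventually_gt_atTop 0] with m hm
    exact key m hm
  exact sub_eq_zero.1 (norm_eq_zero.1 (le_antisymm hzero (norm_nonneg _)))

theorem loc_scalar {X : R.Ua →L[ℂ] R.Ua} (hX : Loc R pd X) {f : G → ℂ} (hf : UC pd f) {C : ℝ} (hC : ∀ γ, ‖f γ‖ ≤ C)
    (x : R.Ua) : ((X ⟨UP.map (mulop f) (x : UP (L2 G)), mulop_mem R x.2⟩ : R.Ua) : UP (L2 G)) =
      UP.map (mulop f) ((X x : R.Ua) : UP (L2 G)) := by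
  have hre : UC pd (fun γ => (((f γ).re : ℝ) : ℂ)) := by
    intro ε hε
    obtain ⟨δ, hδ, h⟩ := hf ε hε
    refine ⟨δ, hδ, fun γ γ' hg => ?_⟩
    rw [← Complex.ofReal_sub, Complex.norm_real, ← Complex.sub_re]
    exact (Complex.abs_re_le_norm _).trans (h γ γ' hg)
  have him : UC pd (fun γ => (((f γ).im : ℝ) : ℂ)) := by
    intro ε hε
    obtain ⟨δ, hδ, h⟩ := hf ε hε
    refine ⟨δ, hδ, fun γ γ' hg => ?_⟩
    rw [← Complex.ofReal_sub, Complex.norm_real, ← Complex.sub_im]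
    exact (Complex.abs_im_le_norm _).trans (h γ γ' hg)
  have cre : ∀ γ, |(f γ).re| ≤ C := fun γ => (Complex.abs_re_le_norm _).trans (hC γ)
  have cim : ∀ γ, |(f γ).im| ≤ C := fun γ => (Complex.abs_im_le_norm _).trans (hC γ)
  have hdec : ∀ a : UP (L2 G), UP.map (mulop f) a = UP.map (mulop fun γ => (((f γ).re : ℝ) : ℂ)) a +
      Complex.I • UP.map (mulop fun γ => (((f γ).im : ℝ) : ℂ)) a := by
    intro a
    rw [← UP.map_smul, ← UP.map_add]
    refine congrArg (fun T => UP.map T a) ?_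
    ext b : 1
    apply lv_ext
    intro γ
    rw [_root_.add_apply, lp.coeFn_add, Pi.add_apply, _root_.smul_apply, lp.coeFn_smul, Pi.smul_apply,
      mulop_apply97 hC, mulop_apply97 (C := C) (fun γ => by rw [Complex.norm_real]; exact cre γ),
      mulop_apply97 (C := C) (fun γ => by rw [Complex.norm_real]; exact cim γ), smul_eq_mul]
    conv_lhs => rw [← Complex.re_add_im (f γ)]
    ring
  have h1 := real97 hX hre cre x
  have h2 := real97 hX him cim x
  have e1 : (⟨UP.map (mulop f) (x : UP (L2 G)), mulop_mem R x.2⟩ : R.Ua) =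
      ⟨UP.map (mulop fun γ => (((f γ).re : ℝ) : ℂ)) (x : UP (L2 G)), mulop_mem R x.2⟩ +
      Complex.I • ⟨UP.map (mulop fun γ => (((f γ).im : ℝ) : ℂ)) (x : UP (L2 G)), mulop_mem R x.2⟩ := by
    apply Subtype.ext
    rw [Submodule.coe_add, Submodule.coe_smul]
    exact hdec _
  rw [e1, map_add, _root_.map_smul, Submodule.coe_add, Submodule.coe_smul, h1, h2, hdec]

end Pool.Agent.Helper84.GN.S3
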