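import Pool.Agent.Helper9.S3.A7b
import Pool.Agent.Helper9.S3.A3b

/-!
# Project S3, block A7c: local operators commute with the right action on Vp

`BV Γ h` is the restriction of `UP.mapU (What Γ 1 h)` and `What Γ 1 h ξ γ = pi 1 h γ (ξ (1⁻¹ * γ * h))` (`What_apply`). Let `ρ = tm τ τ (BU R h)`, a unitary of `R.Vp L` with inverse `ρ' = tm τ τ (BU R h⁻¹)`; on elementary tensors (`hτ`), hence everywhere, it is the ultrapower of the translation `ξ ↦ (γ ↦ ξ (1⁻¹ * γ * h))` (`Blim_apply`, `permV (tr 1 h)`).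
`M = BV Γ h ∘ ρ'` is multiplication by the field `O γ = pi 1 h γ`: `M x = UP.map (dg O) x`. By `loc_field` (`C = 1`) `tm X` commutes with `M`, and with `ρ` since `X` commutes with `BU R h` (`tens_ext`, `tm_t`). `BV Γ h = M ∘ ρ`.
-/

set_option autoImplicit false

open Filter Topology Matrix
open scoped ComplexConjugate

namespace Pool.Agent.Helper84.GN.S3

open NI GVN Pool.Agent.Helper90.RK Pool.Agent.Helper96.RK

variable {G Λ : Type} [Group G] [Group Λ]

variable {R : Reg G} {pd : PD G}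

variable {L : Type} [NormedAddCommGroup L] [InnerProductSpace ℂ L] [CompleteSpace L]

/-- the translation, as a continuous linear map -/
private noncomputable def pm75 (G L : Type) [Group G] [NormedAddCommGroup L] [InnerProductSpace ℂ L] (h : G) :
    Lv G L →L[ℂ] Lv G L :=
  ((permV (tr 1 h) : Lv G L ≃ₗᵢ[ℂ] Lv G L).toContinuousLinearEquiv : Lv G L →L[ℂ] Lv G L)

omit [CompleteSpace L] in
private theorem pm75_apply (h : G) (ξ : Lv G L) (γ : G) : pm75 G L h ξ γ = ξ (1⁻¹ * γ * h) := rfl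

/-- the right translation on `R.Ua`, as a continuous linear map -/
private noncomputable def bu75 (R : Reg G) (h : G) : R.Ua →L[ℂ] R.Ua :=
  ((BU R h).toContinuousLinearEquiv : R.Ua →L[ℂ] R.Ua)

private theorem bu75_apply (h : G) (a : R.Ua) : bu75 R h a = BU R h a := rfl

omit [CompleteSpace L] in
private theorem pm75_mulF (h : G) (w : L) (a : UP (L2 G)) :
    UP.map (mulF fun _ : G => w) (Blim G h a) = UP.map (pm75 G L h) (UP.map (mulF fun _ : G => w) a) := by
  rw [Blim_apply, ← UP.map_comp, ← UP.map_comp]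
  refine congrArg (fun T => UP.map T a) ?_
  ext f : 1
  refine lv_ext fun γ => ?_
  have hw : ∀ _ : G, ‖w‖ ≤ ‖w‖ := fun _ => le_rfl
  rw [ContinuousLinearMap.comp_apply, ContinuousLinearMap.comp_apply, mulF_apply hw, pm75_apply, mulF_apply hw]
  rfl

/-- the translation on the tensor product -/
private theorem rho75 (τ : Tens R.Ua L (R.Vp L)) (hτ : ∀ (a : R.Ua) (w : L), ((τ.t a w : R.Vp L) : UP (Lv G L)) =
      UP.map (mulF fun _ => w) (a : UP (L2 G))) (h : G) (x : R.Vp L) :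
    ((tm τ τ (bu75 R h) x : R.Vp L) : UP (Lv G L)) = UP.map (pm75 G L h) (x : UP (Lv G L)) := by
  have key : ((R.Vp L).subtypeL).comp (tm τ τ (bu75 R h)) = (UP.map (pm75 G L h)).comp ((R.Vp L).subtypeL) := by
    refine tens_ext τ fun a w => ?_
    change ((tm τ τ (bu75 R h) (τ.t a w) : R.Vp L) : UP (Lv G L)) = UP.map (pm75 G L h) ((τ.t a w : R.Vp L) : UP (Lv G L))
    rw [tm_t, hτ, hτ, ← pm75_mulF]
    rfl
  exact congrArg (fun T : R.Vp L →L[ℂ] UP (Lv G L) => T x) key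

private theorem inv75 (τ : Tens R.Ua L (R.Vp L)) (h : G) (x : R.Vp L) :
    tm τ τ (bu75 R h⁻¹) (tm τ τ (bu75 R h) x) = x := by
  have key : (tm τ τ (bu75 R h⁻¹)).comp (tm τ τ (bu75 R h)) = ContinuousLinearMap.id ℂ (R.Vp L) := by
    refine tens_ext τ fun a w => ?_
    rw [ContinuousLinearMap.comp_apply, tm_t, tm_t, ContinuousLinearMap.id_apply, bu75_apply, bu75_apply]
    have e : BU R h⁻¹ (BU R h a) = a := by
      have h1 : (BU R h⁻¹ * BU R h) a = a := by
        rw [← map_mul, inv_mul_cancel, map_one]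
        rfl
      exact h1
    rw [e]
  exact congrArg (fun T : R.Vp L →L[ℂ] R.Vp L => T x) key

private theorem comm75 (τ : Tens R.Ua L (R.Vp L)) {X : R.Ua →L[ℂ] R.Ua} {h : G}
    (hXB : ∀ x, X (BU R h x) = BU R h (X x)) (x : R.Vp L) :
    tm τ τ X (tm τ τ (bu75 R h) x) = tm τ τ (bu75 R h) (tm τ τ X x) := by
  have key : (tm τ τ X).comp (tm τ τ (bu75 R h)) = (tm τ τ (bu75 R h)).comp (tm τ τ X) := by
    refine tens_ext τ fun a w => ?_
    rw [ContinuousLinearMap.comp_apply, ContinuousLinearMap.comp_apply, tm_t, tm_t, tm_t, tm_t, bu75_apply, bu75_apply, hXB]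
  exact congrArg (fun T : R.Vp L →L[ℂ] R.Vp L => T x) key

theorem commD_BV (Γ : Coc R L) (τ : Tens R.Ua L (R.Vp L)) (hτ : ∀ (a : R.Ua) (w : L), ((τ.t a w : R.Vp L) : UP (Lv G L)) =
      UP.map (mulF fun _ => w) (a : UP (L2 G))) {X : R.Ua →L[ℂ] R.Ua} (hX : Loc R pd X) {h : G}
    (hXB : ∀ x, X (BU R h x) = BU R h (X x))
    (hO : PCF R pd fun γ => ((Γ.pi 1 h γ).toContinuousLinearEquiv : L →L[ℂ] L)) (x : R.Vp L) :
    tm τ τ X (BV Γ h x) = BV Γ h (tm τ τ X x) := by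
  let O : G → (L →L[ℂ] L) := fun γ => ((Γ.pi 1 h γ).toContinuousLinearEquiv : L →L[ℂ] L)
  have hC : ∀ γ x, ‖O γ x‖ ≤ 1 * ‖x‖ := fun γ x => by
    rw [one_mul]
    exact le_of_eq ((Γ.pi 1 h γ).norm_map x)
  let M : R.Vp L →L[ℂ] R.Vp L :=
    (((BV Γ h).toContinuousLinearEquiv : R.Vp L →L[ℂ] R.Vp L)).comp (tm τ τ (bu75 R h⁻¹))
  have hMx : ∀ y, M y = BV Γ h (tm τ τ (bu75 R h⁻¹) y) := fun _ => rfl
  have hM : ∀ y : R.Vp L, ((M y : R.Vp L) : UP (Lv G L)) = UP.map (dg O) (y : UP (Lv G L)) := by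
    intro y
    rw [hMx, coe_BV, rho75 τ hτ, UP.mapU_apply, ← UP.map_comp]
    refine congrArg (fun T => UP.map T (y : UP (Lv G L))) ?_
    ext f : 1
    refine lv_ext fun γ => ?_
    rw [dg_apply hC]
    change What Γ 1 h (pm75 G L h⁻¹ f) γ = _
    rw [What_apply, pm75_apply]
    have e : (1 : G)⁻¹ * (1⁻¹ * γ * h) * h⁻¹ = γ := by group
    rw [e]
    rfl
  have hB : ∀ y, BV Γ h y = M (tm τ τ (bu75 R h) y) := fun y => by rw [hMx, inv75]
  rw [hB, hB, loc_field τ hτ hX hO hC M hM, comm75 τ hXB]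

end Pool.Agent.Helper84.GN.S3
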