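import Pool.Agent.Helper9.S3.A1
import Pool.Agent.Helper9.S3.A2
import Pool.Agent.Helper9.S3.A3b
import Pool.Agent.Helper9.S3.A4a
import Pool.Agent.Helper9.S3.A4b
import Pool.Agent.Helper9.S3.A5b
import Pool.Agent.Helper9.S3.A6a
import Pool.Agent.Helper9.S3.A6b
import Pool.Agent.Helper9.S3.A7c
import Pool.Agent.Helper9.S3.A7d

/-!
# Project S3, block A9: the dilation theorem

Let `τG` (`exists_tG`), `τ` (`exists_tU`), `V`, `Dense (BddSub V)` (`exists_V`), `X`, `J0 : Lv G L →ₗᵢ L2 (Λ × X)` with `J0 (V m x) (l, y) = J0 x (m⁻¹ * l, y)` (`exists_J0`, `Helper84/NI/J3.lean`). `T` is the family of `exists_T` (`clm_ext`). `D l : R.Vp L →L Lv G L` = adjoint of `tm τG τ (T l)` `= tm τ τG (T l)*` (`tm_adjoint`). Facts: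
(1) `D l = V l ∘ D 1`: from `T l (jjU (E.conj.U l) f) = T 1 f`, i.e. `tm (T l) ∘ V l = tm (T 1)` (`tens_ext`), take adjoints (`V l` unitary). So `V m (D l x) = D (m * l) x` and `V` restricts to a representation of `Λ` on `nn D` (`restrictRep` with `Submodule.topologicalClosure`), `‖D l x‖ ≤ ‖x‖`.
(2) `(D m)* (D l x) = tm τ τ (T m ∘ (T l)*) x` (`tens_ext`); by `hloc`, `commD_BV` (`T m (T l)*` commutes with `BU R h`: `T l (lamU h f) = BU R h (T l f)`), `hpi`: `CommD D (BV Γ h)`; by `loc_field` and `exists_mul_ops`: `CommD D (M t)` for the multipliers of `D' : Mul Γ Q ε` from `hD` (`C = 1`: `‖mo γ t f‖ ≤ ‖f‖` from `sum`, `off`).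
(3) `B'` = the representation of `G` on `nn D` (`exists_rep`); it commutes with `V` (`nn_ext`). (4) `η₀ = Dn D 1 (TL Γ a)`: `Bdd B' 1 η₀` (`Bdd.map` twice: `TL_B`, then `Dn D 1` intertwines `BV Γ`, `B'` and has norm at most one), `ext B' E.conj l η₀ = Dn D 1 (TL Γ (ext (BU R) E.conj l a))` (`map_ext` twice). So `V l (ext B' E.conj l η₀) = Dn D l (TL Γ a_l)`,
`a_l = ext (BU R) E.conj l a`. (5) `ξ₀` = orthogonal projection to `nn D` of `τG.t (dl 1) Γ.v`: `⟪Dn D l (TL a_l), ξ₀⟫ = ⟪TL a_l, tm (T l) (τG.t (dl 1) v)⟫ = ⟪TL a_l, τ.t (T l (dl 1)) v⟫ = ⟪TL a_l, TR a_l⟫` (`T l (dl 1) = a_l`; `TR Γ a = τ.t a v`). (6) `hull2` gives `η`; `hat_eq`, `hat_le` (with `N t = M t ∘ BV h - BV h ∘ M (h⁻¹ t)`) and `exists_hat` give the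
approximation hypothesis of `almost_inv2` on `nn D`: the operators `M' t` commute with `V l` (`nn_ext`), `M' t = 0` off the support. (7) `almost_inv2` for `J = J0` restricted to `nn D` contradicts `NonAm Λ` (as at the end of `escape` in `Helper84/GN/Esc.lean`).
-/

set_option autoImplicit false

open Filter Topology Matrix
open scoped ComplexConjugate

namespace Pool.Agent.Helper84.GN.S3

open NI GVN Pool.Agent.Helper90.RK Pool.Agent.Helper96.RK

variable {G Λ : Type} [Group G] [Group Λ]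

section Aux

variable {K1 K2 : Type} [NormedAddCommGroup K1] [InnerProductSpace ℂ K1] [CompleteSpace K1]
  [NormedAddCommGroup K2] [InnerProductSpace ℂ K2] [CompleteSpace K2]

omit [Group Λ] in
private theorem a9_comp {D : Λ → (K1 →L[ℂ] K2)} {N N' : K1 →L[ℂ] K1} (h : CommD D N)
    (h' : CommD D N') : CommD D (N.comp N') := by
  intro l m x
  rw [ContinuousLinearMap.comp_apply, h' l m x, h l m (N' x)]
  rfl

omit [Group Λ] in
private theorem a9_sub {D : Λ → (K1 →L[ℂ] K2)} {N N' : K1 →L[ℂ] K1} (h : CommD D N)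
    (h' : CommD D N') : CommD D (N - N') := by
  intro l m x
  rw [_root_.sub_apply, h l m x, h' l m x, _root_.sub_apply, map_sub, map_sub]

end Aux

/-- Tensoring is multiplicative. -/
private theorem a9_tm_comp {H H' H'' L K K' K'' : Type} [NormedAddCommGroup H] [InnerProductSpace ℂ H]
    [NormedAddCommGroup H'] [InnerProductSpace ℂ H'] [NormedAddCommGroup H''] [InnerProductSpace ℂ H'']
    [NormedAddCommGroup L] [InnerProductSpace ℂ L] [NormedAddCommGroup K] [InnerProductSpace ℂ K]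
    [CompleteSpace K] [NormedAddCommGroup K'] [InnerProductSpace ℂ K'] [CompleteSpace K']
    [NormedAddCommGroup K''] [InnerProductSpace ℂ K''] [CompleteSpace K'']
    (τ : Tens H L K) (τ' : Tens H' L K') (τ'' : Tens H'' L K'') (S : H' →L[ℂ] H'') (T : H →L[ℂ] H')
    (x : K) : tm τ' τ'' S (tm τ τ' T x) = tm τ τ'' (S.comp T) x := by
  have h : (tm τ' τ'' S).comp (tm τ τ' T) = tm τ τ'' (S.comp T) := by
    refine tens_ext τ fun a v => ?_
    rw [ContinuousLinearMap.comp_apply, tm_t, tm_t, tm_t]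
    rfl
  exact DFunLike.congr_fun h x

variable {R : Reg G} {pd : PD G}

variable {L : Type} [NormedAddCommGroup L] [InnerProductSpace ℂ L] [CompleteSpace L]

/-- The dilation theorem. -/
theorem dilation (Γ : Coc R L) (E : Emb Λ G) {a : R.Ua} (ha : Bdd (BU R) 1 a)
    (T : Λ → (L2 G →L[ℂ] R.Ua)) (hT : ∀ l k, T l (dl k) = BU R k (ext (BU R) E.conj l a))
    (hloc : ∀ l m, Loc R pd ((T m).comp (ContinuousLinearMap.adjoint (T l))))
    (hpi : ∀ h, PCF R pd fun γ => ((Γ.pi 1 h γ).toContinuousLinearEquiv : L →L[ℂ] L))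
    (hD : ∀ (Q : Finset G) (ε : ℝ), 0 < ε → ∃ D : Mul Γ Q ε, ∀ t, PCF R pd fun γ => D.mo γ t)
    {c : ℝ} (hc : 0 < c)
    (hlow : ∀ l, c ≤ (inner ℂ (TL Γ (ext (BU R) E.conj l a)) (TR Γ (ext (BU R) E.conj l a)) : ℂ).re) :
    ¬ NonAm Λ := by
  intro hΛ
  obtain ⟨τG, hτG⟩ := exists_tG G L
  obtain ⟨τ, hτ⟩ := exists_tU R L
  obtain ⟨V, hV, hVd⟩ := exists_V E τG
  obtain ⟨X, J0, hJ0⟩ := exists_J0 V hVd
  obtain ⟨T', t1, t2, t3, t4⟩ := exists_T R E ha
  have hTT : T = T' := funext fun l => clm_ext fun k => by rw [hT, t1]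
  subst hTT
  -- the operators `D l`
  let D : Λ → (R.Vp L →L[ℂ] Lv G L) := fun l => tm τ τG (ContinuousLinearMap.adjoint (T l))
  have hDt : ∀ l (b : R.Ua) w, D l (τ.t b w) = τG.t (ContinuousLinearMap.adjoint (T l) b) w :=
    fun l b w => tm_t τ τG _ b w
  have hDadj : ∀ l, ContinuousLinearMap.adjoint (D l) = tm τG τ (T l) := by
    intro l
    rw [tm_adjoint, ContinuousLinearMap.adjoint_adjoint]
  have hTn : ∀ l, ‖T l‖ ≤ 1 := fun l => (T l).opNorm_le_bound zero_le_one fun f => by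
    rw [one_mul]
    exact t2 l f
  have hDn : ∀ l x, ‖D l x‖ ≤ ‖x‖ := by
    intro l x
    refine (norm_tm_le τ τG _ x).trans ?_
    rw [LinearIsometryEquiv.norm_map]
    calc ‖T l‖ * ‖x‖ ≤ 1 * ‖x‖ := mul_le_mul_of_nonneg_right (hTn l) (norm_nonneg x)
      _ = ‖x‖ := one_mul _
  -- `V` and `D`
  have hTml : ∀ m l f, T (m * l) (jjU (E.conj.U m) f) = T l f := by
    intro m l f
    obtain ⟨g, rfl⟩ := (jjU (E.conj.U l)).surjective f
    have e1 : jjU (E.conj.U m) (jjU (E.conj.U l) g) = jjU (E.conj.U (m * l)) g := by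
      rw [map_mul, jjU_mul]
      rfl
    rw [e1, t4, t4]
  have hjT : ∀ m l (b : R.Ua), jjU (E.conj.U m) (ContinuousLinearMap.adjoint (T l) b) =
      ContinuousLinearMap.adjoint (T (m * l)) b := by
    intro m l b
    refine ext_inner_right ℂ fun f => ?_
    obtain ⟨g, rfl⟩ := (jjU (E.conj.U m)).surjective f
    rw [LinearIsometryEquiv.inner_map_map, ContinuousLinearMap.adjoint_inner_left,
      ContinuousLinearMap.adjoint_inner_left, hTml]
  have hVD : ∀ m l x, V m (D l x) = D (m * l) x := by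
    intro m l x
    have h : (((V m).toContinuousLinearEquiv : Lv G L →L[ℂ] Lv G L)).comp (D l) = D (m * l) := by
      refine tens_ext τ fun b w => ?_
      rw [ContinuousLinearMap.comp_apply, hDt, hDt, ← hjT]
      exact hV m _ w
    exact DFunLike.congr_fun h x
  -- operators commuting with `D m* D l`
  have hDD : ∀ l m x, ContinuousLinearMap.adjoint (D m) (D l x) =
      tm τ τ ((T m).comp (ContinuousLinearMap.adjoint (T l))) x := by
    intro l m x
    rw [hDadj]
    exact a9_tm_comp τ τG τ _ _ x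
  have hTadj : ∀ l g (b : R.Ua), ContinuousLinearMap.adjoint (T l) (BU R g b) =
      lamU g (ContinuousLinearMap.adjoint (T l) b) := by
    intro l g b
    refine ext_inner_right ℂ fun f => ?_
    obtain ⟨f, rfl⟩ := (lamU g).surjective f
    rw [LinearIsometryEquiv.inner_map_map, ContinuousLinearMap.adjoint_inner_left,
      ContinuousLinearMap.adjoint_inner_left, t3, LinearIsometryEquiv.inner_map_map]
  have hBc : ∀ h, CommD D ((BV Γ h).toContinuousLinearEquiv : R.Vp L →L[ℂ] R.Vp L) := by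
    intro h l m x
    rw [hDD]
    have e := commD_BV Γ τ hτ (hloc l m) (h := h) (fun x => by
      rw [ContinuousLinearMap.comp_apply, hTadj, t3]
      rfl) (hpi h) x
    exact e.symm.trans (hDD l m _).symm
  have hMc : ∀ {Q : Finset G} {ε : ℝ} (D' : Mul Γ Q ε), (∀ t, PCF R pd fun γ => D'.mo γ t) →
      ∀ M : G → (R.Vp L →L[ℂ] R.Vp L),
      (∀ t (x : R.Vp L), ((M t x : R.Vp L) : UP (Lv G L)) = UP.map (dg fun γ => D'.mo γ t) (x : UP (Lv G L))) →
      ∀ t, CommD D (M t) := by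
    intro Q ε D' hP M hM t l m x
    have hb : ∀ γ (f : L), ‖D'.mo γ t f‖ ≤ 1 * ‖f‖ := by
      intro γ f
      by_cases ht : t ∈ D'.supp
      · have h := Finset.single_le_sum (f := fun t => ‖D'.mo γ t f‖ ^ 2) (fun _ _ => sq_nonneg _) ht
        rw [D'.sum] at h
        rw [one_mul]
        exact (sq_le_sq₀ (norm_nonneg _) (norm_nonneg _)).1 h
      · rw [D'.off γ t ht, _root_.zero_apply, norm_zero, one_mul]
        exact norm_nonneg _
    rw [hDD, hDD]
    exact (loc_field τ hτ (hloc l m) (hP t) hb (M t) (hM t) x).symm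
  -- the representations on `nn D`
  obtain ⟨B', hB'⟩ := exists_rep D (BV Γ) hBc
  have hVnn : ∀ m, ∀ y ∈ nn D, V m y ∈ nn D := by
    intro m
    have hle : nn D ≤ (nn D).comap (((V m).toContinuousLinearEquiv : Lv G L →L[ℂ] Lv G L) :
        Lv G L →ₗ[ℂ] Lv G L) := by
      refine Submodule.topologicalClosure_minimal _ (Submodule.span_le.2 ?_) ?_
      · rintro _ ⟨l, x, rfl⟩
        change V m (D l x) ∈ nn D
        rw [hVD]
        exact mem_nn D _ _
      · exact (Submodule.isClosed_topologicalClosure _).preimage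
          ((V m).toContinuousLinearEquiv : Lv G L →L[ℂ] Lv G L).continuous
    exact fun y hy => hle hy
  let V' : Λ →* (nn D ≃ₗᵢ[ℂ] nn D) := restrictRep V (nn D) hVnn
  have hV' : ∀ m l x, V' m (Dn D l x) = Dn D (m * l) x := by
    intro m l x
    apply Subtype.ext
    exact hVD m l x
  have hVB : ∀ m g y, V' m (B' g y) = B' g (V' m y) := by
    intro m g y
    have h : (((V' m).toContinuousLinearEquiv : nn D →L[ℂ] nn D)).comp
        ((B' g).toContinuousLinearEquiv : nn D →L[ℂ] nn D) =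
        (((B' g).toContinuousLinearEquiv : nn D →L[ℂ] nn D)).comp
        ((V' m).toContinuousLinearEquiv : nn D →L[ℂ] nn D) := by
      refine nn_ext D fun l x => ?_
      change V' m (B' g (Dn D l x)) = B' g (V' m (Dn D l x))
      rw [hB', hV', hV', hB']
    exact DFunLike.congr_fun h y
  -- the vector `η₀`
  let η₀ : nn D := Dn D 1 (TL Γ a)
  have hη₀ : Bdd B' 1 η₀ := by
    have h1 := Bdd.map (T := (TL Γ).toContinuousLinearMap) (fun g x => TL_B Γ g x) ha
    have h2 : Bdd (BV Γ) 1 (TL Γ a) := by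
      refine h1.mono ?_
      rw [mul_one]
      exact (TL Γ).norm_toContinuousLinearMap_le
    have h3 := Bdd.map (T := Dn D 1) (A' := B') (fun g x => (hB' g 1 x).symm) h2
    refine h3.mono ?_
    rw [mul_one]
    refine (Dn D 1).opNorm_le_bound zero_le_one fun x => ?_
    rw [one_mul]
    exact hDn 1 x
  have hext : ∀ l, ext B' E.conj l η₀ = Dn D 1 (TL Γ (ext (BU R) E.conj l a)) := by
    intro l
    have h1 := map_ext (T := (TL Γ).toContinuousLinearMap) (fun g x => TL_B Γ g x) E.conj l a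
    have h3 := map_ext (T := Dn D 1) (A' := B') (fun g x => (hB' g 1 x).symm) E.conj l (TL Γ a)
    have h1' : TL Γ (ext (BU R) E.conj l a) = ext (BV Γ) E.conj l (TL Γ a) := h1
    rw [h1']
    exact h3.symm
  have hone : ∀ l, T l (dl 1) = ext (BU R) E.conj l a := by
    intro l
    rw [t1, map_one]
    rfl
  have hTR : ∀ b : R.Ua, τ.t b Γ.v = TR Γ b := by
    intro b
    apply Subtype.ext
    rw [hτ]
    rfl
  let ξ₀ : nn D := (nn D).orthogonalProjectionOnto (τG.t (dl 1) Γ.v)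
  have hinner : ∀ l, inner ℂ (V' l (ext B' E.conj l η₀)) ξ₀ =
      (inner ℂ (TL Γ (ext (BU R) E.conj l a)) (TR Γ (ext (BU R) E.conj l a)) : ℂ) := by
    intro l
    rw [hext, hV', mul_one]
    have h1 : inner ℂ (Dn D l (TL Γ (ext (BU R) E.conj l a))) ξ₀ =
        (inner ℂ (D l (TL Γ (ext (BU R) E.conj l a))) (τG.t (dl 1) Γ.v) : ℂ) := by
      have h2 := (Submodule.mem_orthogonal _ _).1 (Submodule.sub_starProjection_mem_orthogonal
        (K := nn D) (τG.t (dl 1) Γ.v)) (D l (TL Γ (ext (BU R) E.conj l a))) (mem_nn D _ _)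
      rw [inner_sub_right, sub_eq_zero] at h2
      exact h2.symm
    rw [h1, ← ContinuousLinearMap.adjoint_inner_right, hDadj, tm_t, hone, hTR]
  obtain ⟨η, e1, e2, e3⟩ := hull2 hVB E hη₀ hc (ξ₀ := ξ₀) (fun l => by
    rw [hinner]
    exact hlow l)
  -- almost invariant vectors
  have hapx : ∀ (Q : Finset G) (ε : ℝ), 0 < ε → ∃ (S : Finset G) (M : G → (nn D →L[ℂ] nn D)),
      (∀ t l x, M t (V' l x) = V' l (M t x)) ∧ (∀ t, t ∉ S → M t = 0) ∧
      (∀ x, ∑ t ∈ S, ‖M t x‖ ^ 2 = ‖x‖ ^ 2) ∧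
      ∀ h ∈ Q, ∀ x, ∀ S' : Finset G,
        ∑ t ∈ S', ‖M t (B' h x) - B' h (M (h⁻¹ * t) x)‖ ^ 2 ≤ ε ^ 2 * ‖x‖ ^ 2 := by
    intro Q ε hε
    obtain ⟨D', hD'⟩ := hD Q ε hε
    obtain ⟨M, m1, m2, m3, m4⟩ := exists_mul_ops Γ D'
    have hMC := hMc D' hD' M m1
    choose M' hM' using fun t => exists_hat D (hMC t)
    refine ⟨D'.supp, M', ?_, ?_, ?_, ?_⟩
    · intro t l x
      have h : (M' t).comp ((V' l).toContinuousLinearEquiv : nn D →L[ℂ] nn D) =
          (((V' l).toContinuousLinearEquiv : nn D →L[ℂ] nn D)).comp (M' t) := by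
        refine nn_ext D fun m x => ?_
        change M' t (V' l (Dn D m x)) = V' l (M' t (Dn D m x))
        rw [hV', hM', hM', hV']
      exact DFunLike.congr_fun h x
    · intro t ht
      refine nn_ext D fun m x => ?_
      rw [hM', m2 t ht, _root_.zero_apply, _root_.zero_apply, map_zero]
    · intro x
      exact hat_eq D D'.supp M M' (fun t _ => hMC t) (fun t _ => hM' t) m3 x
    · intro h hh x S'
      let B1 : R.Vp L →L[ℂ] R.Vp L := ((BV Γ h).toContinuousLinearEquiv : R.Vp L →L[ℂ] R.Vp L)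
      let B2 : nn D →L[ℂ] nn D := ((B' h).toContinuousLinearEquiv : nn D →L[ℂ] nn D)
      exact hat_le D S' (fun t => (M t).comp B1 - B1.comp (M (h⁻¹ * t)))
        (fun t => (M' t).comp B2 - B2.comp (M' (h⁻¹ * t)))
        (fun t _ => a9_sub (a9_comp (hMC t) (hBc h)) (a9_comp (hBc h) (hMC _)))
        (fun t _ l x => by
          change M' t (B' h (Dn D l x)) - B' h (M' (h⁻¹ * t) (Dn D l x)) =
            Dn D l (M t (BV Γ h x) - BV Γ h (M (h⁻¹ * t) x))
          rw [hB', hM', hM', hB', map_sub])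
        (fun x => m4 h hh x S') x
  obtain ⟨F, ε₀, hε₀, hF⟩ := hΛ
  obtain ⟨q, hq, hq2⟩ := almost_inv2 hVB e1 e2 e3 (J0.comp (nn D).subtypeₗᵢ)
    (fun m v l x => hJ0 m (v : Lv G L) l x) hapx F (half_pos hε₀)
  obtain ⟨g, hg, hg2⟩ := hF q hq
  have h5 := hq2 g hg
  linarith

end Pool.Agent.Helper84.GN.S3
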