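import Pool.Agent.Helper9.S3.Defs

/-!
# Project S3, block E0: fibre representation of GL(N)

COPY `exists_fibM` of `Helper90/RK/FB.lean` for `b = fun _ => 0` (`LR`, `pR`, `muR`, `exists_ball`, ... of `Helper90/RK` can be cited). The two additional fields: `mop_sq1`, `mop_sq2` (`Helper90/RK/FMul.lean`) hold for every block function `b` (the condition holds for almost all `y`), so `gsq1`, `gsq2` are proved exactly
as `sq1`, `sq2` there. (Build the structure `FibX` directly: `{ Φ := .., mu := .., pos := .., sq1 := .., sq2 := .., equi := .., gsq1 := .., gsq2 := .. }`.)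
-/

set_option autoImplicit false

open Filter Topology Matrix
open scoped ComplexConjugate

namespace Pool.Agent.Helper84.GN.S3

open NI GVN Pool.Agent.Helper90.RK Pool.Agent.Helper96.RK

variable (N : ℕ)

theorem exists_fibX : ∃ (L : Type) (_ : NormedAddCommGroup L) (_ : InnerProductSpace ℂ L)
    (_ : CompleteSpace L), Nonempty (FibX N L) := by
  obtain ⟨v, hv1, hv2, hv3, hv4⟩ := exists_ball (fun _ : Fin N => 0)
  refine ⟨LR (fun _ : Fin N => 0), inferInstance, inferInstance, inferInstance, ⟨?_⟩⟩
  let Φ : Fib (fun _ : Fin N => 0) (LR (fun _ : Fin N => 0)) :=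
    { π := pR (fun _ : Fin N => 0)
      mul := by
        intro C E hC hE w
        apply Subtype.ext
        rw [pR_coe (fun _ : Fin N => 0) (GLb_mul (fun _ : Fin N => 0) hC hE), pR_coe (fun _ : Fin N => 0) hC, pR_coe (fun _ : Fin N => 0) hE, sig_mul (fun _ : Fin N => 0) hC hE]
      scal := by
        intro z C hz hC
        ext1 w
        apply Subtype.ext
        rw [pR_coe (fun _ : Fin N => 0) (GLb_mul (fun _ : Fin N => 0) (bs_mem (fun _ : Fin N => 0) hz) hC), pR_coe (fun _ : Fin N => 0) hC]
        exact sig_scal (fun _ : Fin N => 0) hz hC w.1 w.2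
      cont := by
        intro w
        have h : ContinuousOn (fun C => ((pR (fun _ : Fin N => 0) C w : LR (fun _ : Fin N => 0)) : LL N)) (GLb (fun _ : Fin N => 0)) := by
          refine (sig_cont (fun _ : Fin N => 0) w.1).congr fun C hC => ?_
          exact pR_coe (fun _ : Fin N => 0) hC w
        exact continuousOn_iff_continuous_domRestrict.2
          (Continuous.subtype_mk (continuousOn_iff_continuous_domRestrict.1 h) _)
      v := ⟨v, hv2⟩
      nv := hv1
      inv := by
        intro k hk hu
        apply Subtype.ext
        rw [pR_coe (fun _ : Fin N => 0) hk]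
        exact hv3 k hk hu }
  exact
    { Φ := Φ
      mu := muR (fun _ : Fin N => 0)
      pos := by
        intro C hC
        have h := hv4 C hC
        rw [← pR_coe (fun _ : Fin N => 0) hC ⟨v, hv2⟩] at h
        exact h
      sq1 := by
        intro ι S m hm h1 f
        have h := mop_sq1 S m (fun t ht => (hm t ht).meas) (fun t ht => (hm t ht).bdd) h1 f.1
        rw [← Submodule.coe_norm] at h
        rw [← h]
        refine Finset.sum_congr rfl fun t ht => ?_
        rw [← muR_coe (fun _ : Fin N => 0) (hm t ht), Submodule.coe_norm]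
      sq2 := by
        intro ι S m m' a hm hm' h1 f
        have h := mop_sq2 S m m' a (fun t ht => (hm t ht).meas) (fun t ht => (hm t ht).bdd)
          (fun t ht => (hm' t ht).meas) (fun t ht => (hm' t ht).bdd) h1 f.1
        rw [← Submodule.coe_norm] at h
        refine le_trans (le_of_eq ?_) h
        refine Finset.sum_congr rfl fun t ht => ?_
        rw [← muR_coe (fun _ : Fin N => 0) (hm t ht), ← muR_coe (fun _ : Fin N => 0) (hm' t ht), ← Submodule.coe_sub, Submodule.coe_norm]
      equi := by
        intro m C h hC f
        apply Subtype.ext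
        change ((pR (fun _ : Fin N => 0) C (muR (fun _ : Fin N => 0) m f) : LR (fun _ : Fin N => 0)) : LL N) =
          ((muR (fun _ : Fin N => 0) (fun y => m fun j => C⁻¹ *ᵥ y j) (pR (fun _ : Fin N => 0) C f) : LR (fun _ : Fin N => 0)) : LL N)
        rw [pR_coe (fun _ : Fin N => 0) hC, muR_coe (fun _ : Fin N => 0) h, muR_coe (fun _ : Fin N => 0) (Hm.comp_GLb h (GLb_inv (fun _ : Fin N => 0) hC).1), pR_coe (fun _ : Fin N => 0) hC]
        exact mop_sig (fun _ : Fin N => 0) h hC f.1
      gsq1 := by
        intro b ι S m hm h1 f
        have h := mop_sq1 S m (fun t ht => (hm t ht).meas) (fun t ht => (hm t ht).bdd) h1 f.1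
        rw [← Submodule.coe_norm] at h
        rw [← h]
        refine Finset.sum_congr rfl fun t ht => ?_
        rw [← muR_coe (fun _ : Fin N => 0) (hm t ht), Submodule.coe_norm]
      gsq2 := by
        intro b ι S m m' a hm hm' h1 f
        have h := mop_sq2 S m m' a (fun t ht => (hm t ht).meas) (fun t ht => (hm t ht).bdd)
          (fun t ht => (hm' t ht).meas) (fun t ht => (hm' t ht).bdd) h1 f.1
        rw [← Submodule.coe_norm] at h
        refine le_trans (le_of_eq ?_) h
        refine Finset.sum_congr rfl fun t ht => ?_
        rw [← muR_coe (fun _ : Fin N => 0) (hm t ht), ← muR_coe (fun _ : Fin N => 0) (hm' t ht),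
          ← Submodule.coe_sub, Submodule.coe_norm] }

end Pool.Agent.Helper84.GN.S3
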