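import Pool.Agent.Helper9.S3.Defs

/-!
# Project S3, block F1: separated lines

`(Sm S).b = bJ (Jm N)`, which is equal on `0, ..., N-2` and different at `N-1` (`exists_of_bJ_lt`, `mem_of_bJ_eq` in `Helper96/RK/Ty1.lean`; the only index not in `Jm N` is `N-2`). So `pos γ j` for the last index `j = k` is `p_γ` = the orthogonal projection on the last column `x_γ` of `kR γ`, and `1 - p_γ` for all the other `j`. Hence `pdist g h = N * √(ns (p_g - p_h))`, and
`ns (p_g - p_h) = 2 (1 - |⟪x_g, x_h⟫|^2) = 2 ∑_{i ≠ k} |((kR g)ᴴ kR h) i k|^2` (the last column of the unitary matrix `(kR g)ᴴ kR h` is a unit vector, `⟪x_g, x_h⟫ = ((kR g)ᴴ kR h) k k`). So `c = δ / (N √2)` works.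
-/

set_option autoImplicit false

open Filter Topology Matrix
open scoped ComplexConjugate

namespace Pool.Agent.Helper84.GN.S3

open NI GVN Pool.Agent.Helper90.RK Pool.Agent.Helper96.RK

variable {G Λ : Type} [Group G] [Group Λ] {N : ℕ} {P : PH G N} {S : Sv P}

private theorem ns_neg61 (A : MN N) : ns (-A) = ns A := by
  unfold ns
  simp only [Matrix.neg_apply, norm_neg]

private theorem split61 (f : Fin N → ℝ) (k : Fin N) :
    ∑ j, f j = (∑ j, if j = k then 0 else f j) + f k := by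
  have h : ∀ j, f j = (if j = k then 0 else f j) + (if j = k then f j else 0) := by
    intro j
    by_cases hj : j = k
    · rw [if_pos hj, if_pos hj, zero_add]
    · rw [if_neg hj, if_neg hj, add_zero]
  rw [Finset.sum_congr rfl fun j _ => h j, Finset.sum_add_distrib, Finset.sum_ite_eq' Finset.univ k f,
    if_pos (Finset.mem_univ k)]

private theorem col61 {C : MN N} (hC : IsU C) (k : Fin N) : ∑ i, ‖C i k‖ ^ 2 = 1 := by
  have h1 : (Cᴴ * C) k k = 1 := by
    rw [show Cᴴ * C = 1 from hC, Matrix.one_apply_eq]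
  rw [Matrix.mul_apply] at h1
  have h2 : ((∑ i, ‖C i k‖ ^ 2 : ℝ) : ℂ) = 1 := by
    rw [← h1]
    push_cast
    refine Finset.sum_congr rfl fun i _ => ?_
    rw [Matrix.conjTranspose_apply, RCLike.star_def, RCLike.conj_mul]
    norm_cast
  exact_mod_cast h2

private theorem row61 {C : MN N} (hC : IsU C) (k : Fin N) : ∑ i, ‖C k i‖ ^ 2 = 1 := by
  rw [← col61 hC.star k]
  refine Finset.sum_congr rfl fun i _ => ?_
  rw [Matrix.conjTranspose_apply, norm_star]

/-- the projection on the `k`-th coordinate -/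
private noncomputable def E61 (k : Fin N) : MN N := diagonal fun i => if i = k then (1 : ℂ) else 0

private theorem ns_comm61 {C : MN N} (hC : IsU C) (k : Fin N) :
    ns (E61 k * C - C * E61 k) = 2 * ∑ i, (if i = k then 0 else ‖C i k‖ ^ 2) := by
  have h1 : ∀ i j, ‖(E61 k * C - C * E61 k) i j‖ ^ 2 =
      (if i = k then (if j = k then 0 else ‖C k j‖ ^ 2) else 0) +
      (if j = k then (if i = k then 0 else ‖C i k‖ ^ 2) else 0) := by
    intro i j
    unfold E61
    rw [Matrix.sub_apply, Matrix.diagonal_mul, Matrix.mul_diagonal]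
    by_cases hi : i = k
    · by_cases hj : j = k
      · rw [if_pos hi, if_pos hj, if_pos hi, if_pos hj, if_pos hj, if_pos hi, one_mul, mul_one,
          sub_self, norm_zero]
        norm_num
      · rw [if_pos hi, if_neg hj, if_pos hi, if_neg hj, if_neg hj, one_mul, mul_zero, sub_zero,
          add_zero, hi]
    · by_cases hj : j = k
      · rw [if_neg hi, if_pos hj, if_neg hi, if_pos hj, if_neg hi, zero_mul, mul_one, zero_sub,
          norm_neg, zero_add, hj]
      · rw [if_neg hi, if_neg hj, if_neg hi, if_neg hj, zero_mul, mul_zero, sub_zero, norm_zero,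
          add_zero]
        norm_num
  unfold ns
  rw [Finset.sum_congr rfl fun i _ => Finset.sum_congr rfl fun j _ => h1 i j]
  simp only [Finset.sum_add_distrib]
  have h2 : ∑ i, ∑ j, (if i = k then (if j = k then 0 else ‖C k j‖ ^ 2) else 0) =
      ∑ j, (if j = k then 0 else ‖C k j‖ ^ 2) := by
    rw [Finset.sum_comm]
    refine Finset.sum_congr rfl fun j _ => ?_
    rw [Finset.sum_ite_eq' Finset.univ k, if_pos (Finset.mem_univ k)]
  have h3 : ∑ i, ∑ j, (if j = k then (if i = k then 0 else ‖C i k‖ ^ 2) else 0) =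
      ∑ i, (if i = k then 0 else ‖C i k‖ ^ 2) := by
    refine Finset.sum_congr rfl fun i _ => ?_
    rw [Finset.sum_ite_eq' Finset.univ k, if_pos (Finset.mem_univ k)]
  rw [h2, h3]
  have h4 := split61 (fun j => ‖C k j‖ ^ 2) k
  have h5 := split61 (fun i => ‖C i k‖ ^ 2) k
  rw [row61 hC] at h4
  rw [col61 hC] at h5
  linarith

private theorem ns_line61 {A B : MN N} (hA : IsU A) (hB : IsU B) (k : Fin N) :
    ns (A * E61 k * Aᴴ - B * E61 k * Bᴴ) = 2 * ∑ i, (if i = k then 0 else ‖(Aᴴ * B) i k‖ ^ 2) := by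
  rw [← ns_comm61 (hA.star.mul hB) k, ← ns_unitary_mul hA.star (A * E61 k * Aᴴ - B * E61 k * Bᴴ),
    ← ns_mul_unitary hB (Aᴴ * (A * E61 k * Aᴴ - B * E61 k * Bᴴ))]
  congr 1
  have hA' : Aᴴ * A = 1 := hA
  have hB' : Bᴴ * B = 1 := hB
  calc Aᴴ * (A * E61 k * Aᴴ - B * E61 k * Bᴴ) * B
      = (Aᴴ * A) * E61 k * (Aᴴ * B) - Aᴴ * B * E61 k * (Bᴴ * B) := by
        simp only [Matrix.mul_sub, Matrix.sub_mul, Matrix.mul_assoc]
    _ = _ := by rw [hA', hB', Matrix.one_mul, Matrix.mul_one]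

private theorem bJ_Jm61 (hN : 3 ≤ N) (i : Fin N) : bJ (Jm N) i = if (i : ℕ) + 1 = N then 1 else 0 := by
  unfold bJ
  by_cases hi : (i : ℕ) + 1 = N
  · rw [if_pos hi, Finset.card_eq_one]
    refine ⟨⟨N - 2, by omega⟩, ?_⟩
    ext l
    rw [Finset.mem_filter, Finset.mem_singleton]
    unfold Jm
    rw [Finset.mem_filter, Fin.lt_def, Fin.ext_iff]
    simp only [Finset.mem_univ, true_and, not_not]
    constructor
    · rintro ⟨-, h⟩
      omega
    · intro h
      constructor <;> omega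
  · rw [if_neg hi, Finset.card_eq_zero, Finset.filter_eq_empty_iff]
    intro l _
    unfold Jm
    rw [Finset.mem_filter, Fin.lt_def]
    simp only [Finset.mem_univ, true_and, not_not]
    rintro ⟨h1, h2⟩
    have := i.2
    omega

private theorem pos61 (hN : 3 ≤ N) (S : Sv P) {k : Fin N} (hk : (k : ℕ) + 1 = N) (j : Fin N) :
    (∀ γ, pos S (bJ (Jm N)) γ j = S.kR γ * E61 k * (S.kR γ)ᴴ) ∨
    ∀ γ, pos S (bJ (Jm N)) γ j = 1 - S.kR γ * E61 k * (S.kR γ)ᴴ := by
  by_cases hj : (j : ℕ) + 1 = N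
  · left
    intro γ
    unfold pos E61
    congr 3
    funext i
    rw [bJ_Jm61 hN, bJ_Jm61 hN, if_pos hj]
    by_cases hi : (i : ℕ) + 1 = N
    · rw [if_pos hi, if_pos rfl, if_pos (Fin.ext (by omega))]
    · rw [if_neg hi, if_neg zero_ne_one, if_neg (fun h => hi (by rw [h]; exact hk))]
  · right
    intro γ
    have h1 : diagonal (fun i => if bJ (Jm N) i = bJ (Jm N) j then (1 : ℂ) else 0) = (1 - E61 k : MN N) := by
      unfold E61
      rw [← Matrix.diagonal_one, Matrix.diagonal_sub]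
      congr 1
      funext i
      rw [bJ_Jm61 hN, bJ_Jm61 hN, if_neg hj]
      by_cases hi : (i : ℕ) + 1 = N
      · rw [if_pos hi, if_neg one_ne_zero, if_pos (Fin.ext (by omega)), sub_self]
      · rw [if_neg hi, if_pos rfl, if_neg (fun h => hi (by rw [h]; exact hk)), sub_zero]
    unfold pos
    rw [h1, Matrix.mul_sub, Matrix.sub_mul, Matrix.mul_one, (S.uR γ).mul_star]

/-- The lines are `δ`-separated. -/
theorem sep_line (hN : 3 ≤ N) (S : Sv P) {δ : ℝ} (hδ : 0 < δ) : ∃ c : ℝ, 0 < c ∧ ∀ g h : G,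
    δ ≤ pdist S (Sm S).b g h → ∀ k : Fin N, (k : ℕ) + 1 = N →
      ∑ i, (if i = k then 0 else ‖((S.kR g)ᴴ * S.kR h) i k‖ ^ 2) ≥ c ^ 2 := by
  have hN0 : (0 : ℝ) < N := by
    have : 0 < N := by omega
    exact_mod_cast this
  refine ⟨δ / (N * Real.sqrt 2), by positivity, fun g h hd k hk => ?_⟩
  have hns : ∀ j, ns (pos S (bJ (Jm N)) g j - pos S (bJ (Jm N)) h j) =
      2 * ∑ i, (if i = k then 0 else ‖((S.kR g)ᴴ * S.kR h) i k‖ ^ 2) := by
    intro j
    rw [← ns_line61 (S.uR g) (S.uR h) k]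
    rcases pos61 hN S hk j with h1 | h1
    · rw [h1, h1]
    · rw [h1, h1, ← ns_neg61]
      congr 1
      abel
  have hT0 : 0 ≤ ∑ i, (if i = k then 0 else ‖((S.kR g)ᴴ * S.kR h) i k‖ ^ 2) :=
    Finset.sum_nonneg fun i _ => by
      split_ifs
      · exact le_rfl
      · positivity
  have hd' : δ ≤ N * Real.sqrt (2 * ∑ i, (if i = k then 0 else ‖((S.kR g)ᴴ * S.kR h) i k‖ ^ 2)) := by
    have h1 : pdist S (Sm S).b g h = ∑ j, Real.sqrt (ns (pos S (bJ (Jm N)) g j - pos S (bJ (Jm N)) h j)) := rfl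
    rw [h1, Finset.sum_congr rfl fun j _ => by rw [hns j], Finset.sum_const, Finset.card_univ,
      Fintype.card_fin, nsmul_eq_mul] at hd
    exact hd
  have h2 : δ ^ 2 ≤ N ^ 2 * (2 * ∑ i, (if i = k then 0 else ‖((S.kR g)ᴴ * S.kR h) i k‖ ^ 2)) := by
    have h3 := pow_le_pow_left₀ hδ.le hd' 2
    rw [mul_pow, Real.sq_sqrt (by positivity)] at h3
    exact h3
  rw [ge_iff_le, div_pow, mul_pow, Real.sq_sqrt (by norm_num), div_le_iff₀ (by positivity)]
  linarith

end Pool.Agent.Helper84.GN.S3
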