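import Pool.Agent.Helper9.S3.F0
import Pool.Agent.Helper9.S3.F1

/-!
# Project S3, block F2: size of the product

Notation: `k` last index, `x_g` = last column of `kR g`, `y_g` = last column of `kL g`. `ι(g h⁻¹) = c • ι(g) ι(h)⁻¹`, `|c| = 1`, `ι(h)⁻¹ y_h = (s h k)⁻¹ x_h`, and `‖ι(g) x‖^2 = ∑ i, (s g i)^2 |((kR g)ᴴ x) i|^2 ≥ (s g (N-2))^2 ∑_{i ≠ k} |((kR g)ᴴ x) i|^2`. With `x = x_h` and `sep_line` (constant `c₀`): `‖ι(g h⁻¹) y_h‖ ≥ c₀ s_{N-2}(g) / s_{N-1}(h)`, and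
`s_0(γ)` is the operator norm of `ι γ` (`‖ι(γ) x‖ ≤ s_0(γ) ‖x‖`). In `Te S r 1`: `s_{N-2}(g) ≥ s_0(g) / r`, and `1 / s_{N-1}(h) = ∏_{i ≤ N-2} s_i(h)` (the product of all the `s_i` is `|det| = 1`) lies between `s_{N-2}(h)^(N-1) ≥ (s_0(h) / r)^(N-1)` and `s_0(h)^(N-1)`. Upper bound: `s_0(g h⁻¹) ≤ s_0(g) s_0(h⁻¹) = s_0(g) / s_{N-1}(h)` (`s_inv`). `c = c₀ / r^N`.
-/

set_option autoImplicit false

open Filter Topology Matrix
open scoped ComplexConjugate

namespace Pool.Agent.Helper84.GN.S3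

open NI GVN Pool.Agent.Helper90.RK Pool.Agent.Helper96.RK

variable {G Λ : Type} [Group G] [Group Λ] {N : ℕ} {P : PH G N} {S : Sv P}

private theorem le_of_sq_le_sq_h54 {a b : ℝ} (h : a ^ 2 ≤ b ^ 2) (hb : 0 ≤ b) : a ≤ b := by
  nlinarith [abs_le_of_sq_le_sq' h hb]

/-- squared norm of a column -/
private noncomputable def cn (M : MN N) (j : Fin N) : ℝ := ∑ i, ‖M i j‖ ^ 2

private theorem cn_nonneg (M : MN N) (j : Fin N) : 0 ≤ cn M j :=
  Finset.sum_nonneg fun _ _ => by positivity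

private theorem cn_smul {c : ℂ} (hc : ‖c‖ = 1) (M : MN N) (j : Fin N) : cn (c • M) j = cn M j := by
  unfold cn
  refine Finset.sum_congr rfl fun i _ => ?_
  rw [Matrix.smul_apply, smul_eq_mul, norm_mul, hc, one_mul]

private theorem cn_unitary {k : MN N} (hk : IsU k) (M : MN N) (j : Fin N) :
    cn (k * M) j = cn M j := by
  have h1 := ns_unitary_mul hk (Matrix.of fun (i : Fin N) (_ : Unit) => M i j)
  unfold ns at h1
  simp only [Finset.univ_unique, Finset.sum_singleton, Matrix.mul_apply, Matrix.of_apply] at h1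
  unfold cn
  simp only [Matrix.mul_apply]
  exact h1

private theorem cn_U {k : MN N} (hk : IsU k) (j : Fin N) : cn k j = 1 := by
  have h1 := cn_unitary hk 1 j
  rw [Matrix.mul_one] at h1
  rw [h1]
  unfold cn
  rw [Finset.sum_eq_single j]
  · rw [Matrix.one_apply_eq, norm_one, one_pow]
  · intro i _ hi
    rw [Matrix.one_apply_ne hi, norm_zero]
    norm_num
  · intro hj
    exact absurd (Finset.mem_univ j) hj

private theorem cn_diag_le (d : Fin N → ℝ) {B : ℝ} (hd : ∀ i, 0 ≤ d i ∧ d i ≤ B) (M : MN N) (j : Fin N) :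
    cn (diagonal (fun i => (d i : ℂ)) * M) j ≤ B ^ 2 * cn M j := by
  unfold cn
  rw [Finset.mul_sum]
  refine Finset.sum_le_sum fun i _ => ?_
  rw [Matrix.diagonal_mul, norm_mul, mul_pow, Complex.norm_real, Real.norm_of_nonneg (hd i).1]
  exact mul_le_mul_of_nonneg_right (pow_le_pow_left₀ (hd i).1 (hd i).2 2) (by positivity)

private theorem prod_bd (S : Sv P) (h : G) (i j k : Fin N) (hi : (i : ℕ) = 0)
    (hj : (j : ℕ) + 2 = N) (hk : (k : ℕ) + 1 = N) :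
    (S.s h k)⁻¹ ≤ S.s h i ^ (N - 1) ∧ S.s h j ^ (N - 1) ≤ (S.s h k)⁻¹ := by
  have h1 := S.prod_s h
  rw [← Finset.mul_prod_erase _ _ (Finset.mem_univ k)] at h1
  have h2 : (S.s h k)⁻¹ = ∏ l ∈ Finset.univ.erase k, S.s h l := by
    have := (S.pos h k).ne'
    field_simp
    linarith
  have hcard : (Finset.univ.erase k : Finset (Fin N)).card = N - 1 := by
    rw [Finset.card_erase_of_mem (Finset.mem_univ _), Finset.card_univ, Fintype.card_fin]
  rw [h2]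
  constructor
  · have h3 : ∏ l ∈ Finset.univ.erase k, S.s h l ≤ ∏ _l ∈ Finset.univ.erase k, S.s h i :=
      Finset.prod_le_prod (fun l _ => (S.pos h l).le) fun l _ =>
        S.anti h (Fin.le_def.2 (by omega))
    rwa [Finset.prod_const, hcard] at h3
  · have h3 : ∏ _l ∈ Finset.univ.erase k, S.s h j ≤ ∏ l ∈ Finset.univ.erase k, S.s h l := by
      refine Finset.prod_le_prod (fun l _ => (S.pos h j).le) fun l hl => S.anti h ?_
      have h4 : l ≠ k := Finset.ne_of_mem_erase hl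
      have h5 : (l : ℕ) ≠ k := fun e => h4 (Fin.ext e)
      have h6 := l.2
      exact Fin.le_def.2 (by omega)
    rwa [Finset.prod_const, hcard] at h3

theorem prod_top (hN : 3 ≤ N) (S : Sv P) {r δ : ℝ} (hr : 1 ≤ r) (hδ : 0 < δ) : ∃ c : ℝ, 0 < c ∧ ∀ g h : G,
    g ∈ Te S r 1 → h ∈ Te S r 1 → δ ≤ pdist S (Sm S).b g h → ∀ i : Fin N, (i : ℕ) = 0 →
      c * (S.s g i * S.s h i ^ (N - 1)) ≤ S.s (g * h⁻¹) i ∧ S.s (g * h⁻¹) i ≤ S.s g i * S.s h i ^ (N - 1) := by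
  obtain ⟨c₀, hc₀, hsep⟩ := sep_line hN S hδ
  have hr0 : 0 < r := by linarith
  refine ⟨c₀ / r ^ N, by positivity, ?_⟩
  intro g h hg hh hgh i hi
  obtain ⟨j, hj⟩ : ∃ j : Fin N, (j : ℕ) + 2 = N := ⟨⟨N - 2, by omega⟩, by simp only; omega⟩
  obtain ⟨k, hk⟩ : ∃ k : Fin N, (k : ℕ) + 1 = N := ⟨⟨N - 1, by omega⟩, by simp only; omega⟩
  have hgT := hg i j k hi hj hk
  have hhT := hh i j k hi hj hk
  have hsp := hsep g h hgh k hk
  obtain ⟨hp1, hp2⟩ := prod_bd S h i j k hi hj hk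
  set γ : G := g * h⁻¹ with hγ
  obtain ⟨c, hc, hm⟩ := P.mul' γ h
  rw [hγ, inv_mul_cancel_right, ← hγ] at hm
  have hc0 := ne_zero_of_norm_one hc
  set U : MN N := (S.kR g)ᴴ * S.kR h with hU
  set A : MN N := (S.kL g)ᴴ * S.kL γ with hA
  set B : MN N := (S.kR γ)ᴴ * S.kL h with hB
  have hUU : IsU U := (S.uR g).star.mul (S.uR h)
  have hAU : IsU A := (S.uL g).star.mul (S.uL γ)
  have hBU : IsU B := (S.uR γ).star.mul (S.uL h)
  set Dg : MN N := diagonal (fun i => (S.s g i : ℂ)) with hDg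
  set Dγ : MN N := diagonal (fun i => (S.s γ i : ℂ)) with hDγ
  set Dh : MN N := diagonal (fun i => (S.s h i : ℂ)) with hDh
  set Eh : MN N := diagonal (fun i => (((S.s h i)⁻¹ : ℝ) : ℂ)) with hEh
  have hDE : Dh * Eh = 1 := by
    rw [hDh, hEh, Matrix.diagonal_mul_diagonal, ← Matrix.diagonal_one]
    congr 1
    funext l
    push_cast
    exact mul_inv_cancel₀ (S.ofReal_ne h l)
  have hk1 : Dg * U = c • (A * Dγ * B * Dh) := by
    have e1 : (S.kL g)ᴴ * P.ι g * S.kR h = Dg * U := by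
      have hL : (S.kL g)ᴴ * S.kL g = 1 := S.uL g
      rw [S.spec g]
      calc (S.kL g)ᴴ * (S.kL g * diagonal (fun i => (S.s g i : ℂ)) * (S.kR g)ᴴ) * S.kR h
          = ((S.kL g)ᴴ * S.kL g) * Dg * ((S.kR g)ᴴ * S.kR h) := by simp only [Matrix.mul_assoc, hDg]
        _ = Dg * U := by rw [hL, Matrix.one_mul]
    have e2 : (S.kL g)ᴴ * (c • (P.ι γ * P.ι h)) * S.kR h = c • (A * Dγ * B * Dh) := by
      have hR : (S.kR h)ᴴ * S.kR h = 1 := S.uR h
      rw [Matrix.mul_smul, Matrix.smul_mul, S.spec γ, S.spec h]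
      congr 1
      calc (S.kL g)ᴴ * (S.kL γ * diagonal (fun i => (S.s γ i : ℂ)) * (S.kR γ)ᴴ *
            (S.kL h * diagonal (fun i => (S.s h i : ℂ)) * (S.kR h)ᴴ)) * S.kR h
          = A * Dγ * B * Dh * ((S.kR h)ᴴ * S.kR h) := by
            simp only [Matrix.mul_assoc, hA, hB, hDγ, hDh]
        _ = A * Dγ * B * Dh := by rw [hR, Matrix.mul_one]
    rw [← e1, ← e2, ← hm]
  have hk2 : c • (A * (Dγ * B)) = Dg * U * Eh := by
    rw [hk1, Matrix.smul_mul, Matrix.mul_assoc _ Dh Eh, hDE, Matrix.mul_one, Matrix.mul_assoc A]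
  have hk3 : c • (A * Dγ) = Dg * (U * (Eh * Bᴴ)) := by
    have hBB : B * Bᴴ = 1 := hBU.mul_star
    calc c • (A * Dγ) = (c • (A * (Dγ * B))) * Bᴴ := by
          rw [Matrix.smul_mul, Matrix.mul_assoc A, Matrix.mul_assoc Dγ, hBB, Matrix.mul_one]
      _ = Dg * (U * (Eh * Bᴴ)) := by rw [hk2]; simp only [Matrix.mul_assoc]
  have anti0 : ∀ (x : G) (l : Fin N), 0 ≤ S.s x l ∧ S.s x l ≤ S.s x i := fun x l =>
    ⟨(S.pos x l).le, S.anti x (Fin.le_def.2 (by omega))⟩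
  have antik : ∀ (l : Fin N), 0 ≤ (S.s h l)⁻¹ ∧ (S.s h l)⁻¹ ≤ (S.s h k)⁻¹ := fun l =>
    ⟨inv_nonneg.2 (S.pos h l).le, inv_anti₀ (S.pos h k) (S.anti h (Fin.le_def.2 (by
      have := l.2
      omega)))⟩
  have hgi := S.pos g i
  have hgj := S.pos g j
  have hhi := S.pos h i
  have hhj := S.pos h j
  have hhk := S.pos h k
  have hγi := S.pos γ i
  constructor
  · -- lower bound
    have l1 : cn (Dγ * B) k ≤ S.s γ i ^ 2 * cn B k := cn_diag_le (S.s γ) (anti0 γ) B k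
    rw [cn_U hBU, mul_one] at l1
    have l2 : cn (Dγ * B) k = cn (Dg * U * Eh) k := by
      rw [← hk2, cn_smul hc, cn_unitary hAU]
    have l3 : S.s g j ^ 2 * (c₀ ^ 2 * ((S.s h k)⁻¹) ^ 2) ≤ cn (Dg * U * Eh) k := by
      have l4 : S.s g j ^ 2 * (S.s h k)⁻¹ ^ 2 * ∑ l, (if l = k then 0 else ‖U l k‖ ^ 2) ≤
          cn (Dg * U * Eh) k := by
        unfold cn
        rw [Finset.mul_sum]
        refine Finset.sum_le_sum fun l _ => ?_
        rw [hEh, Matrix.mul_diagonal, hDg, Matrix.diagonal_mul, norm_mul, norm_mul,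
          Complex.norm_real, Complex.norm_real, Real.norm_of_nonneg (antik k).1,
          Real.norm_of_nonneg (S.pos g l).le]
        by_cases hlk : l = k
        · rw [if_pos hlk, mul_zero]
          positivity
        · rw [if_neg hlk]
          have h5 : (l : ℕ) ≠ k := fun e => hlk (Fin.ext e)
          have h6 := l.2
          have h7 : S.s g j ≤ S.s g l := S.anti g (Fin.le_def.2 (by omega))
          calc S.s g j ^ 2 * (S.s h k)⁻¹ ^ 2 * ‖U l k‖ ^ 2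
              ≤ S.s g l ^ 2 * (S.s h k)⁻¹ ^ 2 * ‖U l k‖ ^ 2 := by
                have := pow_le_pow_left₀ hgj.le h7 2
                gcongr
            _ = (S.s g l * ‖U l k‖ * (S.s h k)⁻¹) ^ 2 := by ring
      have l5 : S.s g j ^ 2 * (S.s h k)⁻¹ ^ 2 * c₀ ^ 2 ≤
          S.s g j ^ 2 * (S.s h k)⁻¹ ^ 2 * ∑ l, (if l = k then 0 else ‖U l k‖ ^ 2) :=
        mul_le_mul_of_nonneg_left hsp (by positivity)
      calc S.s g j ^ 2 * (c₀ ^ 2 * ((S.s h k)⁻¹) ^ 2) = S.s g j ^ 2 * (S.s h k)⁻¹ ^ 2 * c₀ ^ 2 := by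
            ring
        _ ≤ _ := l5.trans l4
    have l6 : (S.s g j * c₀ * (S.s h k)⁻¹) ^ 2 ≤ S.s γ i ^ 2 := by
      calc (S.s g j * c₀ * (S.s h k)⁻¹) ^ 2 = S.s g j ^ 2 * (c₀ ^ 2 * ((S.s h k)⁻¹) ^ 2) := by ring
        _ ≤ cn (Dg * U * Eh) k := l3
        _ = cn (Dγ * B) k := l2.symm
        _ ≤ S.s γ i ^ 2 := l1
    have l7 : S.s g j * c₀ * (S.s h k)⁻¹ ≤ S.s γ i := le_of_sq_le_sq_h54 l6 hγi.le
    have l8 : S.s g i / r ≤ S.s g j := by
      rw [div_le_iff₀ hr0]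
      linarith [hgT.1]
    have l9 : S.s h i / r ≤ S.s h j := by
      rw [div_le_iff₀ hr0]
      linarith [hhT.1]
    have l10 : (S.s h i / r) ^ (N - 1) ≤ (S.s h k)⁻¹ :=
      (pow_le_pow_left₀ (by positivity) l9 _).trans hp2
    calc c₀ / r ^ N * (S.s g i * S.s h i ^ (N - 1))
        = (S.s g i / r) * c₀ * (S.s h i / r) ^ (N - 1) := by
          have e : r ^ N = r * r ^ (N - 1) := by
            rw [← pow_succ']
            congr 1
            omega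
          rw [e, div_pow]
          field_simp
      _ ≤ S.s g j * c₀ * (S.s h k)⁻¹ := by gcongr
      _ ≤ S.s γ i := l7
  · -- upper bound
    have u1 : cn (Dg * (U * (Eh * Bᴴ))) i ≤ S.s g i ^ 2 * cn (U * (Eh * Bᴴ)) i :=
      cn_diag_le (S.s g) (anti0 g) _ i
    rw [cn_unitary hUU] at u1
    have u2 : cn (Eh * Bᴴ) i ≤ (S.s h k)⁻¹ ^ 2 * cn Bᴴ i :=
      cn_diag_le (fun l => (S.s h l)⁻¹) antik _ i
    rw [cn_U hBU.star, mul_one] at u2
    have u3 : cn Dγ i = S.s γ i ^ 2 := by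
      unfold cn
      rw [Finset.sum_eq_single i]
      · rw [hDγ, Matrix.diagonal_apply_eq, Complex.norm_real, Real.norm_of_nonneg hγi.le]
      · intro l _ hl
        rw [hDγ, Matrix.diagonal_apply_ne _ hl, norm_zero]
        norm_num
      · intro hi
        exact absurd (Finset.mem_univ i) hi
    have u4 : cn Dγ i = cn (Dg * (U * (Eh * Bᴴ))) i := by
      rw [← hk3, cn_smul hc, cn_unitary hAU]
    have u5 : S.s γ i ^ 2 ≤ (S.s g i * (S.s h k)⁻¹) ^ 2 := by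
      rw [← u3, u4, mul_pow]
      exact u1.trans (mul_le_mul_of_nonneg_left u2 (by positivity))
    have u6 : S.s γ i ≤ S.s g i * (S.s h k)⁻¹ := le_of_sq_le_sq_h54 u5 (by positivity)
    exact u6.trans (mul_le_mul_of_nonneg_left hp1 hgi.le)

end Pool.Agent.Helper84.GN.S3
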