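import Pool.Agent.Helper9.S3.F2

/-!
# Project S3, block F3: finiteness

Let `p = s_0(g)`, `q = s_0(h)`, `p'`, `q'` the same for `g'`, `h'` and `C ≥ 1` the inverse of the constant of `prod_top`. `prod_top` for `(g, h)` and `(g', h')` (same product): `p q^(N-1) ≤ C p' q'^(N-1)` and conversely; for `(h, g)` and `(h', g')` (`h g⁻¹ = (g h⁻¹)⁻¹ = h' g'⁻¹`; `pdist` is symmetric): `q p^(N-1) ≤ C q' p'^(N-1)` and conversely. With logarithms
`a = log (p/p')`, `b = log (q/q')`: `|a + (N-1) b| ≤ log C`, `|b + (N-1) a| ≤ log C`, hence `((N-1)^2 - 1) |a| ≤ N log C` and the same for `b`: `p/p'`, `q/q'` are between `1/C₁` and `C₁`. Let `t = g'⁻¹ g = h'⁻¹ h`. For a unit vector `u`: `‖ι(g') (ι(t) u)‖ = ‖ι(g) u‖ ≤ p` and `‖ι(g') w‖ ≥ (p'/r) ‖w^⊥‖`, `w^⊥` = component of `w` orthogonal to `x_{g'}` (as in block F2).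
So the component of `w = ι(t) u` orthogonal to `x_{g'}` has norm at most `r C₁`, and the one orthogonal to `x_{h'}` as well. `w = α x_{g'} + w₁`, `‖w₁‖ ≤ r C₁`, so the component of `α x_{g'}` orthogonal to `x_{h'}` has norm at most `2 r C₁` and at least `|α| c₀` (`sep_line` for `(h', g')`). So `‖w‖ ≤ r C₁ (1 + 2 / c₀)`: `ns (ι t) ≤ N (..)^2` and `P.fin` gives the finite set `H`.
-/

set_option autoImplicit false

open Filter Topology Matrix
open scoped ComplexConjugate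

namespace Pool.Agent.Helper84.GN.S3

open NI GVN Pool.Agent.Helper90.RK Pool.Agent.Helper96.RK

variable {G Λ : Type} [Group G] [Group Λ] {N : ℕ} {P : PH G N} {S : Sv P}

private lemma ratio_h12 {c p q p' q' : ℝ} {m : ℕ} (hm : 2 ≤ m) (hc : 0 < c) (hp : 0 < p) (hq : 0 < q)
    (hp' : 0 < p') (hq' : 0 < q') (h1 : c * (q * p ^ m) ≤ q' * p' ^ m)
    (h2 : c * (p' * q' ^ m) ≤ p * q ^ m) : p / p' ≤ (max 1 (1 / c)) ^ (m + 1) := by
  set C : ℝ := max 1 (1 / c) with hC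
  have hC1 : 1 ≤ C := le_max_left _ _
  have hC0 : 0 < C := lt_of_lt_of_le one_pos hC1
  have hCc : 1 ≤ C * c := by
    have : 1 / c ≤ C := le_max_right _ _
    rwa [div_le_iff₀ hc] at this
  set a : ℝ := p / p' with ha
  set b : ℝ := q / q' with hb
  have ha0 : 0 < a := div_pos hp hp'
  have hb0 : 0 < b := div_pos hq hq'
  have hpa : p = a * p' := by rw [ha]; field_simp
  have hqb : q = b * q' := by rw [hb]; field_simp
  have e1 : a ^ m * b ≤ C := by
    rw [hpa, hqb, mul_pow] at h1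
    have hD : 0 < q' * p' ^ m := by positivity
    have h3 : c * (a ^ m * b) ≤ 1 := by
      have h4 : (c * (a ^ m * b)) * (q' * p' ^ m) ≤ 1 * (q' * p' ^ m) := by
        calc (c * (a ^ m * b)) * (q' * p' ^ m) = c * (b * q' * (a ^ m * p' ^ m)) := by ring
          _ ≤ 1 * (q' * p' ^ m) := by linarith
      exact le_of_mul_le_mul_right h4 hD
    calc a ^ m * b = 1 * (a ^ m * b) := (one_mul _).symm
      _ ≤ (C * c) * (a ^ m * b) := mul_le_mul_of_nonneg_right hCc (by positivity)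
      _ = C * (c * (a ^ m * b)) := by ring
      _ ≤ C * 1 := mul_le_mul_of_nonneg_left h3 hC0.le
      _ = C := mul_one C
  have e2 : 1 ≤ C * (a * b ^ m) := by
    rw [hpa, hqb, mul_pow] at h2
    have hD : 0 < p' * q' ^ m := by positivity
    have h3 : c ≤ a * b ^ m := by
      have h4 : c * (p' * q' ^ m) ≤ (a * b ^ m) * (p' * q' ^ m) := by
        calc c * (p' * q' ^ m) ≤ a * p' * (b ^ m * q' ^ m) := h2
          _ = (a * b ^ m) * (p' * q' ^ m) := by ring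
      exact le_of_mul_le_mul_right h4 hD
    calc 1 ≤ C * c := hCc
      _ ≤ C * (a * b ^ m) := mul_le_mul_of_nonneg_left h3 hC0.le
  rcases le_or_gt a 1 with h | h
  · exact h.trans (one_le_pow₀ hC1)
  · have h5 : a ^ (m * m - 1) ≤ C ^ (m + 1) := by
      have hmm : m * m - 1 + 1 = m * m := Nat.sub_add_cancel (by nlinarith)
      calc a ^ (m * m - 1) = a ^ (m * m - 1) * 1 := (mul_one _).symm
        _ ≤ a ^ (m * m - 1) * (C * (a * b ^ m)) := mul_le_mul_of_nonneg_left e2 (by positivity)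
        _ = C * (a ^ (m * m - 1 + 1) * b ^ m) := by ring
        _ = C * (a ^ m * b) ^ m := by rw [hmm, mul_pow, ← pow_mul]
        _ ≤ C * C ^ m := mul_le_mul_of_nonneg_left (pow_le_pow_left₀ (by positivity) e1 m) hC0.le
        _ = C ^ (m + 1) := by ring
    have h6 : m * m - 1 ≠ 0 := by
      have : 2 * 2 ≤ m * m := Nat.mul_le_mul hm hm
      omega
    exact (le_self_pow₀ h.le h6).trans h5

private lemma split_h12 (A : MN N) (k : Fin N) :
    ns A = (∑ j, ‖A k j‖ ^ 2) + ∑ i, ∑ j, (if i = k then (0 : ℝ) else ‖A i j‖ ^ 2) := by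
  have h1 : ∀ i, ∑ j, ‖A i j‖ ^ 2 = (if i = k then ∑ j, ‖A k j‖ ^ 2 else 0) +
      ∑ j, (if i = k then (0 : ℝ) else ‖A i j‖ ^ 2) := by
    intro i
    by_cases hi : i = k
    · subst hi
      simp
    · simp [hi]
  unfold ns
  rw [Finset.sum_congr rfl fun i _ => h1 i, Finset.sum_add_distrib, Finset.sum_ite_eq' Finset.univ,
    if_pos (Finset.mem_univ _)]

private lemma comb_h12 {U A : MN N} (hU : IsU U) (k : Fin N) {M c : ℝ} (hc : 0 < c)
    (h1 : ∑ i, ∑ j, (if i = k then (0 : ℝ) else ‖A i j‖ ^ 2) ≤ M)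
    (h2 : ∑ i, ∑ j, (if i = k then (0 : ℝ) else ‖(U * A) i j‖ ^ 2) ≤ M)
    (h3 : c ^ 2 ≤ ∑ i, (if i = k then (0 : ℝ) else ‖U i k‖ ^ 2)) :
    ns A ≤ 4 * M / c ^ 2 + M := by
  set A' : MN N := Matrix.of fun i j => if i = k then 0 else A i j with hA'
  have hns : ns (U * A') ≤ M := by
    rw [ns_unitary_mul hU]
    refine le_trans (le_of_eq ?_) h1
    unfold ns
    refine Finset.sum_congr rfl fun i _ => Finset.sum_congr rfl fun j _ => ?_
    rw [hA', Matrix.of_apply]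
    split_ifs <;> simp
  have hsum : ∀ i j, (U * A) i j = U i k * A k j + (U * A') i j := by
    intro i j
    rw [Matrix.mul_apply, Matrix.mul_apply,
      ← Finset.add_sum_erase Finset.univ (fun l => U i l * A l j) (Finset.mem_univ k),
      ← Finset.add_sum_erase Finset.univ (fun l => U i l * A' l j) (Finset.mem_univ k)]
    have e1 : A' k j = 0 := by
      rw [hA', Matrix.of_apply, if_pos rfl]
    rw [e1, mul_zero, zero_add]
    congr 1
    refine Finset.sum_congr rfl fun l hl => ?_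
    rw [hA', Matrix.of_apply, if_neg (Finset.ne_of_mem_erase hl)]
  have hpt : ∀ i j, (if i = k then (0 : ℝ) else ‖U i k‖ ^ 2) * ‖A k j‖ ^ 2 ≤
      2 * (if i = k then (0 : ℝ) else ‖(U * A) i j‖ ^ 2) + 2 * ‖(U * A') i j‖ ^ 2 := by
    intro i j
    by_cases hi : i = k
    · rw [if_pos hi, if_pos hi, zero_mul, mul_zero, zero_add]
      positivity
    · rw [if_neg hi, if_neg hi, ← mul_pow, ← norm_mul]
      have e1 : U i k * A k j = (U * A) i j - (U * A') i j := by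
        rw [hsum i j]
        ring
      rw [e1]
      have e2 := norm_sub_le ((U * A) i j) ((U * A') i j)
      have e3 := norm_nonneg ((U * A) i j - (U * A') i j)
      nlinarith [sq_nonneg (‖(U * A) i j‖ - ‖(U * A') i j‖), norm_nonneg ((U * A) i j),
        norm_nonneg ((U * A') i j)]
  have h4 : c ^ 2 * ∑ j, ‖A k j‖ ^ 2 ≤ 4 * M := by
    calc c ^ 2 * ∑ j, ‖A k j‖ ^ 2
        ≤ (∑ i, (if i = k then (0 : ℝ) else ‖U i k‖ ^ 2)) * ∑ j, ‖A k j‖ ^ 2 :=
          mul_le_mul_of_nonneg_right h3 (Finset.sum_nonneg fun _ _ => by positivity)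
      _ = ∑ i, ∑ j, (if i = k then (0 : ℝ) else ‖U i k‖ ^ 2) * ‖A k j‖ ^ 2 := by
          rw [Finset.sum_mul]
          exact Finset.sum_congr rfl fun i _ => Finset.mul_sum _ _ _
      _ ≤ ∑ i, ∑ j, (2 * (if i = k then (0 : ℝ) else ‖(U * A) i j‖ ^ 2) +
            2 * ‖(U * A') i j‖ ^ 2) :=
          Finset.sum_le_sum fun i _ => Finset.sum_le_sum fun j _ => hpt i j
      _ = 2 * (∑ i, ∑ j, (if i = k then (0 : ℝ) else ‖(U * A) i j‖ ^ 2)) + 2 * ns (U * A') := by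
          unfold ns
          rw [Finset.mul_sum, Finset.mul_sum, ← Finset.sum_add_distrib]
          refine Finset.sum_congr rfl fun i _ => ?_
          rw [Finset.mul_sum, Finset.mul_sum, ← Finset.sum_add_distrib]
      _ ≤ 4 * M := by linarith
  rw [split_h12 A k]
  refine add_le_add ?_ h1
  rw [le_div_iff₀ (by positivity)]
  linarith

private lemma key_h12 (S : Sv P) {r : ℝ} (hr : 1 ≤ r) {g t g' : G} (hg' : g' ∈ Te S r 1)
    (hgt : g' * t = g) {i0 j0 k : Fin N} (hi0 : (i0 : ℕ) = 0) (hj0 : (j0 : ℕ) + 2 = N)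
    (hk : (k : ℕ) + 1 = N) {C : ℝ} (hC : S.s g i0 / S.s g' i0 ≤ C) :
    ∑ i, ∑ j, (if i = k then (0 : ℝ) else ‖((S.kR g')ᴴ * P.ι t) i j‖ ^ 2) ≤ N * (r * C) ^ 2 := by
  have hp := S.pos g i0
  have hp' := S.pos g' i0
  have hr0 : 0 < r := lt_of_lt_of_le one_pos hr
  have hC0 : 0 < C := lt_of_lt_of_le (div_pos hp hp') hC
  -- the norm of `ι g`
  have h1 : ns (P.ι g) ≤ N * S.s g i0 ^ 2 := by
    rw [S.ns_iota]
    calc ∑ i, S.s g i ^ 2 ≤ ∑ _i : Fin N, S.s g i0 ^ 2 :=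
          Finset.sum_le_sum fun i _ => pow_le_pow_left₀ (S.pos g i).le
            (S.anti g (Fin.le_def.2 (by omega))) 2
      _ = N * S.s g i0 ^ 2 := by
          rw [Finset.sum_const, Finset.card_univ, Fintype.card_fin, nsmul_eq_mul]
  -- expansion
  have h2 : ns (P.ι g) = ∑ i, ∑ j, S.s g' i ^ 2 * ‖((S.kR g')ᴴ * P.ι t) i j‖ ^ 2 := by
    obtain ⟨c, hc, h⟩ := P.mul' g' t
    rw [← hgt, h, ns_smul, hc, one_pow, one_mul, S.spec g']
    have e1 : S.kL g' * diagonal (fun i => (S.s g' i : ℂ)) * (S.kR g')ᴴ * P.ι t =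
        S.kL g' * (diagonal (fun i => (S.s g' i : ℂ)) * ((S.kR g')ᴴ * P.ι t)) := by
      simp only [Matrix.mul_assoc]
    rw [e1, ns_unitary_mul (S.uL g')]
    unfold ns
    refine Finset.sum_congr rfl fun i _ => Finset.sum_congr rfl fun j _ => ?_
    rw [Matrix.diagonal_mul, norm_mul, mul_pow, Complex.norm_real,
      Real.norm_of_nonneg (S.pos g' i).le]
  have hTe := (hg' i0 j0 k hi0 hj0 hk).1
  have h3 : (∑ i, ∑ j, (if i = k then (0 : ℝ) else ‖((S.kR g')ᴴ * P.ι t) i j‖ ^ 2)) *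
      (S.s g' i0 / r) ^ 2 ≤ ns (P.ι g) := by
    rw [h2, Finset.sum_mul]
    refine Finset.sum_le_sum fun i _ => ?_
    rw [Finset.sum_mul]
    refine Finset.sum_le_sum fun j _ => ?_
    by_cases hi : i = k
    · rw [if_pos hi, zero_mul]
      positivity
    · rw [if_neg hi, mul_comm]
      refine mul_le_mul_of_nonneg_right (pow_le_pow_left₀ (div_pos hp' hr0).le ?_ 2) (by positivity)
      rw [div_le_iff₀ hr0]
      have h4 : S.s g' j0 ≤ S.s g' i := by
        apply S.anti g'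
        rw [Fin.le_def]
        have h5 : (i : ℕ) ≠ k := fun h => hi (Fin.ext h)
        have h6 := i.2
        omega
      calc S.s g' i0 ≤ r * S.s g' j0 := hTe
        _ ≤ r * S.s g' i := mul_le_mul_of_nonneg_left h4 hr0.le
        _ = S.s g' i * r := mul_comm _ _
  have h5 := h3.trans h1
  have h6 : 0 < (S.s g' i0 / r) ^ 2 := by positivity
  rw [← le_div_iff₀ h6] at h5
  refine h5.trans ?_
  have h7 : N * S.s g i0 ^ 2 / (S.s g' i0 / r) ^ 2 = N * (r * (S.s g i0 / S.s g' i0)) ^ 2 := by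
    field_simp
  rw [h7]
  refine mul_le_mul_of_nonneg_left (pow_le_pow_left₀ (by positivity) ?_ 2) (Nat.cast_nonneg _)
  exact mul_le_mul_of_nonneg_left hC hr0.le

private lemma pdist_symm_h12 (S : Sv P) (b : Fin N → ℕ) (g h : G) :
    pdist S b g h = pdist S b h g := by
  unfold pdist
  refine Finset.sum_congr rfl fun j _ => ?_
  congr 1
  unfold ns
  refine Finset.sum_congr rfl fun i _ => Finset.sum_congr rfl fun l _ => ?_
  rw [Matrix.sub_apply, Matrix.sub_apply, norm_sub_rev]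

theorem fin_one (hN : 3 ≤ N) (S : Sv P) {r δ : ℝ} (hr : 1 ≤ r) (hδ : 0 < δ) : ∃ H : Finset G, ∀ g h g' h' : G,
    g ∈ Te S r 1 → h ∈ Te S r 1 → g' ∈ Te S r 1 → h' ∈ Te S r 1 → δ ≤ pdist S (Sm S).b g h →
      δ ≤ pdist S (Sm S).b g' h' → g * h⁻¹ = g' * h'⁻¹ → g'⁻¹ * g ∈ H := by
  obtain ⟨c, hc, hprod⟩ := prod_top hN S hr hδ
  obtain ⟨c0, hc0, hsep⟩ := sep_line hN S hδ
  set C : ℝ := (max 1 (1 / c)) ^ (N - 1 + 1) with hC
  set M : ℝ := N * (r * C) ^ 2 with hM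
  refine ⟨(P.fin (4 * M / c0 ^ 2 + M)).toFinset, fun g h g' h' hg hh hg' hh' hd hd' heq => ?_⟩
  rw [Set.Finite.mem_toFinset]
  change ns (P.ι (g'⁻¹ * g)) ≤ _
  obtain ⟨i0, hi0⟩ : ∃ i0 : Fin N, (i0 : ℕ) = 0 := ⟨⟨0, by omega⟩, rfl⟩
  obtain ⟨j0, hj0⟩ : ∃ j0 : Fin N, (j0 : ℕ) + 2 = N := ⟨⟨N - 2, by omega⟩, by simp; omega⟩
  obtain ⟨k, hk⟩ : ∃ k : Fin N, (k : ℕ) + 1 = N := ⟨⟨N - 1, by omega⟩, by simp; omega⟩
  have hds : δ ≤ pdist S (Sm S).b h g := by rw [pdist_symm_h12]; exact hd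
  have hds' : δ ≤ pdist S (Sm S).b h' g' := by rw [pdist_symm_h12]; exact hd'
  have heq' : h * g⁻¹ = h' * g'⁻¹ := by
    have := congrArg (·⁻¹) heq
    simpa using this
  have ht : g'⁻¹ * g = h'⁻¹ * h := by
    have h1 : g = g' * h'⁻¹ * h := by rw [← heq]; group
    rw [h1]
    group
  have p1 := S.pos g i0
  have p2 := S.pos h i0
  have p3 := S.pos g' i0
  have p4 := S.pos h' i0
  obtain ⟨a1, a2⟩ := hprod g h hg hh hd i0 hi0
  obtain ⟨a3, a4⟩ := hprod g' h' hg' hh' hd' i0 hi0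
  obtain ⟨a5, a6⟩ := hprod h g hh hg hds i0 hi0
  obtain ⟨a7, a8⟩ := hprod h' g' hh' hg' hds' i0 hi0
  rw [heq] at a1 a2
  rw [heq'] at a5 a6
  have hra : S.s g i0 / S.s g' i0 ≤ C :=
    ratio_h12 (by omega) hc p1 p2 p3 p4 (a5.trans a8) (a3.trans a2)
  have hrb : S.s h i0 / S.s h' i0 ≤ C :=
    ratio_h12 (by omega) hc p2 p1 p4 p3 (a1.trans a4) (a7.trans a6)
  have k1 := key_h12 S hr (t := g'⁻¹ * g) hg' (by group) hi0 hj0 hk hra
  have k2 := key_h12 S hr (t := g'⁻¹ * g) hh' (by rw [ht]; group) hi0 hj0 hk hrb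
  have hU : IsU ((S.kR h')ᴴ * S.kR g') := (S.uR h').star.mul (S.uR g')
  have hUA : ((S.kR h')ᴴ * S.kR g') * ((S.kR g')ᴴ * P.ι (g'⁻¹ * g)) =
      (S.kR h')ᴴ * P.ι (g'⁻¹ * g) := by
    have e1 : S.kR g' * (S.kR g')ᴴ = 1 := (S.uR g').mul_star
    calc ((S.kR h')ᴴ * S.kR g') * ((S.kR g')ᴴ * P.ι (g'⁻¹ * g))
        = (S.kR h')ᴴ * (S.kR g' * (S.kR g')ᴴ) * P.ι (g'⁻¹ * g) := by
          simp only [Matrix.mul_assoc]
      _ = _ := by rw [e1, Matrix.mul_one]
  have h3 := hsep h' g' hds' k hk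
  rw [← ns_unitary_mul (S.uR g').star]
  refine comb_h12 hU k hc0 k1 ?_ h3
  rw [hUA]
  exact k2

end Pool.Agent.Helper84.GN.S3
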