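import Pool.Agent.Helper9.S3.Defs

/-!
# Project S3, block L1: vectors carried by the regions

`x` is within `ε` of a finite sum `y` of elements of `UaSet` (closure of the span; `UaSet` is closed under scalars), which is carried by all the sets of one filter `F r` (`monoF`: if `s ∈ F r` then `s ∈ F n` for `n ≤ r`): `UP.map (ind s) y = y` for all `s ∈ FC S J [] r`. Write `y = UP.mk c` (`UP.mk_surjective` or similar). For every `m`, `s_m = WC S J r ∩ TC S [J] m ∈ F r` (`mem_FC`), so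
`‖c_n - ind s_m c_n‖ → 0` along the ultrafilter (`UP.tendsto_norm`). Let `k(n)` be the largest `k ≤ n` with `‖c_n - ind s_j c_n‖ ≤ 1/(j+1)` for all `j ≤ k` (`0` if there is none) and `b_n = ind s_{k(n)} c_n` if the condition holds for `k(n)`, else `0`. For every `m`: `k(n) ≥ m` for almost all `n` (finitely many conditions), so `‖c_n - b_n‖ ≤ 1/(m+1)`: `UP.mk b = UP.mk c`.
The sets `s_m` decrease with `m` (`TC_anti`), so `b_n` vanishes outside `s_m` for almost all `n`. (Compare `carrier` in `Helper84/GN/SX.lean`, which may be cited or copied.)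
-/

set_option autoImplicit false

open Filter Topology Matrix
open scoped ComplexConjugate

namespace Pool.Agent.Helper84.GN.S3

open NI GVN Pool.Agent.Helper90.RK Pool.Agent.Helper96.RK

variable {G Λ : Type} [Group G] [Group Λ] {N : ℕ} {P : PH G N} {S : Sv P}

omit [Group Λ] in
private theorem l1_F_le26 {R : Reg G} {m n : ℕ} (h : m ≤ n) : R.F m ≤ R.F n := by
  induction n, h using Nat.le_induction with
  | base => exact le_rfl
  | succ n _ ih => exact ih.trans (R.monoF n)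

/-- A vector of the span is carried by the sets of one filter. -/
private theorem l1_span26 {R : Reg G} {b : UP (L2 G)} (hb : b ∈ Submodule.span ℂ R.UaSet) :
    ∃ n : ℕ, ∀ s ∈ R.F n, UP.map (ind ℂ s) b = b := by
  induction hb using Submodule.span_induction with
  | mem x hx => exact hx
  | zero => exact ⟨0, fun s _ => by rw [_root_.map_zero]⟩
  | add x y _ _ hx hy =>
    obtain ⟨n, hn⟩ := hx
    obtain ⟨m, hm⟩ := hy
    refine ⟨max n m, fun s hs => ?_⟩
    rw [_root_.map_add, hn s (l1_F_le26 (le_max_left _ _) hs), hm s (l1_F_le26 (le_max_right _ _) hs)]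
  | smul c x _ hx =>
    obtain ⟨n, hn⟩ := hx
    exact ⟨n, fun s hs => by rw [_root_.map_smul, hn s hs]⟩

private theorem l1_mk_sub26 {H : Type} [NormedAddCommGroup H] [InnerProductSpace ℂ H] (x y : BSeq H) :
    UP.mk (x - y) = UP.mk x - UP.mk y := by
  have h := UP.mk_add (x - y) y
  rw [sub_add_cancel] at h
  rw [h, add_sub_cancel_right]

private theorem l1_congr26 {H : Type} [NormedAddCommGroup H] [InnerProductSpace ℂ H] {x y : BSeq H}
    (h : ∀ᶠ n in (hyperfilter ℕ : Filter ℕ), x.1 n = y.1 n) : UP.mk x = UP.mk y := by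
  have h1 := UP.tendsto_norm (x - y)
  have h2 : Tendsto (fun n => ‖(x - y).1 n‖) (hyperfilter ℕ : Filter ℕ) (𝓝 0) := by
    refine tendsto_const_nhds.congr' ?_
    filter_upwards [h] with n hn
    have e : (x - y).1 n = x.1 n - y.1 n := rfl
    rw [e, hn, sub_self, norm_zero]
  have h3 := tendsto_nhds_unique h1 h2
  rw [l1_mk_sub26, norm_eq_zero] at h3
  exact sub_eq_zero.1 h3

theorem exists_carrier (S : Sv P) (J : Finset (Fin N)) (x : (toReg (chStr S J [])).Ua) {ε : ℝ} (hε : 0 < ε) :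
    ∃ (r : ℕ) (b : BSeq (L2 G)) (hb : UP.mk b ∈ (toReg (chStr S J [])).Ua),
      ‖x - ⟨UP.mk b, hb⟩‖ < ε ∧ ∀ m : ℕ, ∀ᶠ n in (hyperfilter ℕ : Filter ℕ), ∀ γ,
        γ ∉ WC S J r ∩ TC S [J] m → b.1 n γ = 0 := by
  classical
  have hx : (x : UP (L2 G)) ∈ closure ((Submodule.span ℂ (toReg (chStr S J [])).UaSet :
      Submodule ℂ (UP (L2 G))) : Set (UP (L2 G))) := x.2
  obtain ⟨y, hy, hxy⟩ := Metric.mem_closure_iff.1 hx (ε / 8) (by positivity)
  obtain ⟨r, hr⟩ := l1_span26 hy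
  obtain ⟨c, hc⟩ := UP.dense.exists_dist_lt y (show (0 : ℝ) < ε / 8 by positivity)
  rw [dist_eq_norm] at hxy hc
  let s : ℕ → Set G := fun m => WC S J r ∩ TC S [J] m
  have hs : ∀ m, s m ∈ (toReg (chStr S J [])).F r := fun m => (mem_FC S).2 ⟨m, subset_rfl⟩
  have hanti : ∀ {m m' : ℕ}, m ≤ m' → s m' ⊆ s m := fun h =>
    Set.inter_subset_inter_right _ (TC_anti S _ h)
  -- the remainders
  have hrem : ∀ m, ∀ᶠ n in (hyperfilter ℕ : Filter ℕ), ‖c.1 n - ind ℂ (s m) (c.1 n)‖ < ε / 2 := by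
    intro m
    have h1 := UP.tendsto_norm (c - BSeq.map (ind ℂ (s m)) c)
    have h2 : ‖UP.mk (c - BSeq.map (ind ℂ (s m)) c)‖ < ε / 2 := by
      rw [l1_mk_sub26, ← UP.map_mk]
      have h3 : UP.mk c - UP.map (ind ℂ (s m)) (UP.mk c) =
          UP.map (ind ℂ (s m)) (y - UP.mk c) - (y - UP.mk c) := by
        rw [_root_.map_sub, hr _ (hs m)]
        abel
      rw [h3]
      have h4 := norm_sub_le (UP.map (ind ℂ (s m)) (y - UP.mk c)) (y - UP.mk c)
      have h5 := norm_ind_le (s m) (y - UP.mk c)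
      linarith
    exact h1.eventually (gt_mem_nhds h2)
  let k : ℕ → ℕ := fun n =>
    Nat.findGreatest (fun j => ‖c.1 n - ind ℂ (s j) (c.1 n)‖ < ε / 2) n
  obtain ⟨C, hC⟩ := c.2
  have hb0 : ∃ C, ∀ n, ‖ind ℂ (s (k n)) (c.1 n)‖ ≤ C := ⟨C, fun n => (norm_ind2 _ _).trans (hC n)⟩
  let b : BSeq (L2 G) := ⟨fun n => ind ℂ (s (k n)) (c.1 n), hb0⟩
  have hk : ∀ m, ∀ᶠ n in (hyperfilter ℕ : Filter ℕ), m ≤ k n := by
    intro m
    have h1 : ∀ᶠ n in (hyperfilter ℕ : Filter ℕ), m ≤ n :=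
      (eventually_ge_atTop m).filter_mono Nat.hyperfilter_le_atTop
    filter_upwards [hrem m, h1] with n h2 h3
    exact Nat.le_findGreatest h3 h2
  have hvan : ∀ m : ℕ, ∀ᶠ n in (hyperfilter ℕ : Filter ℕ), ∀ γ, γ ∉ s m → b.1 n γ = 0 := by
    intro m
    filter_upwards [hk m] with n hn γ hγ
    show ind ℂ (s (k n)) (c.1 n) γ = 0
    rw [ind_apply, if_neg fun h => hγ (hanti hn h)]
  have hset : UP.mk b ∈ (toReg (chStr S J [])).UaSet := by
    refine ⟨r, fun t ht => ?_⟩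
    obtain ⟨m, hm⟩ := (mem_FC S).1 (show t ∈ FC S J [] r from ht)
    rw [UP.map_mk]
    refine l1_congr26 ?_
    filter_upwards [hvan m] with n hn
    show ind ℂ t (b.1 n) = b.1 n
    apply lv_ext
    intro γ
    rw [ind_apply]
    by_cases hγ : γ ∈ t
    · rw [if_pos hγ]
    · rw [if_neg hγ, hn γ fun h => hγ (hm h)]
  have hb : UP.mk b ∈ (toReg (chStr S J [])).Ua :=
    Submodule.le_topologicalClosure _ (Submodule.subset_span hset)
  refine ⟨r, b, hb, ?_, hvan⟩
  have hcb : ‖UP.mk c - UP.mk b‖ ≤ ε / 2 := by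
    rw [← l1_mk_sub26]
    refine le_of_tendsto (UP.tendsto_norm (c - b)) ?_
    filter_upwards [hrem 0] with n hn
    have h1 : ‖c.1 n - ind ℂ (s (k n)) (c.1 n)‖ < ε / 2 :=
      Nat.findGreatest_spec (P := fun j => ‖c.1 n - ind ℂ (s j) (c.1 n)‖ < ε / 2) (Nat.zero_le n) hn
    exact h1.le
  have h1 : ‖x - ⟨UP.mk b, hb⟩‖ = ‖(x : UP (L2 G)) - UP.mk b‖ := rfl
  have h2 : (x : UP (L2 G)) - UP.mk b = ((x : UP (L2 G)) - y) + (y - UP.mk c) + (UP.mk c - UP.mk b) := by
    abel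
  rw [h1, h2]
  have h3 := norm_add_le (((x : UP (L2 G)) - y) + (y - UP.mk c)) (UP.mk c - UP.mk b)
  have h4 := norm_add_le ((x : UP (L2 G)) - y) (y - UP.mk c)
  linarith

end Pool.Agent.Helper84.GN.S3
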