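import Pool.Agent.Helper9.S3.Defs

/-!
# Project S3, block L3: the operators T in terms of the sequence

`ext_conj_zet`: as `ext_zet` in `Helper84/GN/Esc.lean` (with `escOp`, `esc_left`, ..., copy what is private): `zet w` is bounded for `Blim` with the operator `K f = UP.mk (n ↦ w_n (ivU f))` (`Blim k` is the limit of the translation `ξ ↦ (γ ↦ ξ (γ k))`, `Blim_apply`, so `K (lamU k f) = Blim k (K f)` since `w_n` commutes with the right translations and `ivU (lamU k f)` is a right translate of `ivU f`;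
`K (dl 1) = zet w`), so `ext (Blim G) E.conj l (zet w) = K (cf (E.conj.U l))` (`ext_kop`) and `ivU (cf (E.conj.U l)) = cf (E.U l⁻¹)` (`cf (E.conj.U l) g = conj (cf (E.U l) g) = cf (E.U l)⁻¹ g⁻¹`, `f2_cf_inv` or similar), `w_n (cf (E.U l⁻¹)) = cf (w_n * E.U l⁻¹)`.
`T_form`: both sides are continuous and linear in `f`, so take `f = dl k` (`clm_ext`; define the right side as a bounded operator `Ppr ∘ K'`, `K' f = UP.mk (n ↦ U_{e n l⁻¹} (ivU f))`, `escOp` of `Esc.lean`). `ext (BU R) E.conj l (Ppr R ζ) = Ppr R (ext (Blim G) E.conj l ζ)` (`map_ext` with `T = Ppr R`, `Ppr_B`; `ζ = zet ..` is bounded for `Blim`, `Ppr` has norm at most one), `= Ppr R (zet (n ↦ E.U (e n) * E.U l⁻¹))`,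
then apply `BU R k` (`Ppr_B`): `Blim k (zet w) = UP.mk (n ↦ w_n (ivU (dl k)))`, `ivU (dl k) = dl k⁻¹`.
-/

set_option autoImplicit false

open Filter Topology Matrix
open scoped ComplexConjugate

namespace Pool.Agent.Helper84.GN.S3

open NI GVN Pool.Agent.Helper90.RK Pool.Agent.Helper96.RK

variable {G Λ : Type} [Group G] [Group Λ]

/-- A sequence of unitaries as an operator with values in the limit space. -/
private noncomputable def op_33 (T : ℕ → (L2 G ≃ₗᵢ[ℂ] L2 G)) : L2 G →L[ℂ] UP (L2 G) :=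
  LinearMap.mkContinuous
    { toFun := fun f => UP.mk ⟨fun n => T n f, ‖f‖, fun n => (LinearIsometryEquiv.norm_map _ _).le⟩
      map_add' := fun f g => by
        rw [← UP.mk_add]
        congr 1
        exact Subtype.ext (funext fun n => map_add (T n) f g)
      map_smul' := fun c f => by
        rw [RingHom.id_apply, ← UP.mk_smul]
        congr 1
        exact Subtype.ext (funext fun n => map_smul (T n) c f) } 1 (by
    intro f
    rw [one_mul]
    exact UP.norm_mk_le _ fun n => (LinearIsometryEquiv.norm_map (T n) f).le)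

omit [Group G] in
private theorem op_apply_33 (T : ℕ → (L2 G ≃ₗᵢ[ℂ] L2 G)) (f : L2 G) :
    op_33 T f = UP.mk ⟨fun n => T n f, ‖f‖, fun n => (LinearIsometryEquiv.norm_map _ _).le⟩ := rfl

omit [Group G] in
private theorem norm_op_33 (T : ℕ → (L2 G ≃ₗᵢ[ℂ] L2 G)) (f : L2 G) : ‖op_33 T f‖ ≤ ‖f‖ := by
  rw [op_apply_33]
  exact UP.norm_mk_le _ fun n => (LinearIsometryEquiv.norm_map (T n) f).le

omit [Group G] in
private theorem mk_congr_33 {x y : BSeq (L2 G)} (h : ∀ n, x.1 n = y.1 n) : UP.mk x = UP.mk y := by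
  congr 1
  exact Subtype.ext (funext h)

omit [Group G] in
private theorem norm_sum_33 (s : Finset G) (a : G → ℂ) :
    ‖∑ g ∈ s, a g • (dl g : L2 G)‖ ^ 2 = ∑ g ∈ s, ‖a g‖ ^ 2 := by
  classical
  have h0 : Orthonormal ℂ (fun g : G => (dl g : L2 G)) := by
    rw [orthonormal_iff_ite]
    intro i j
    rw [inner_dl_left, dl_apply]
  have h1 := h0.inner_sum a a s
  rw [norm_sq_eq_re_inner (𝕜 := ℂ), h1, map_sum]
  refine Finset.sum_congr rfl fun g _ => ?_
  rw [Complex.conj_mul']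
  change (((‖a g‖ : ℂ) ^ 2)).re = _
  rw [← Complex.ofReal_pow, Complex.ofReal_re]

private theorem bdd_33 {A : G →* (UP (L2 G) ≃ₗᵢ[ℂ] UP (L2 G))} {ζ : UP (L2 G)}
    (T : ℕ → (L2 G ≃ₗᵢ[ℂ] L2 G)) (hT : ∀ g, op_33 T (dl g) = A g ζ) : Bdd A 1 ζ := by
  refine ⟨zero_le_one, fun s a => ?_⟩
  have e : ∑ g ∈ s, a g • A g ζ = op_33 T (∑ g ∈ s, a g • (dl g : L2 G)) := by
    rw [map_sum]
    refine Finset.sum_congr rfl fun g _ => ?_
    rw [map_smul, hT]
  rw [e, ← norm_sum_33 s a, one_pow, one_mul]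
  exact pow_le_pow_left₀ (norm_nonneg _) (norm_op_33 T _) 2

private theorem right_33 {w : ℕ → (L2 G ≃ₗᵢ[ℂ] L2 G)} (hw : ∀ n, CommR (w n)) (g : G) :
    op_33 (fun n => w n * ivU G) (dl g) = Blim G g (zet w) := by
  rw [op_apply_33]
  unfold zet Blim
  rw [UP.rep_apply, UP.map_mk]
  refine mk_congr_33 fun n => ?_
  change w n (ivU G (dl g)) = rhoU g (w n (dl 1))
  rw [← hw n, rhoU_dl, one_mul]
  congr 1
  exact permU_dl _ _

private theorem commR_mul_33 {u v : L2 G ≃ₗᵢ[ℂ] L2 G} (hu : CommR u) (hv : CommR v) : CommR (u * v) := by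
  intro k f
  rw [LinearIsometryEquiv.coe_mul, Function.comp_apply, Function.comp_apply, hv, hu]

theorem ext_conj_zet {w : ℕ → (L2 G ≃ₗᵢ[ℂ] L2 G)} (hw : ∀ n, CommR (w n)) (E : Emb Λ G) (l : Λ) :
    ext (Blim G) E.conj l (zet w) = zet fun n => w n * E.U l⁻¹ := by
  have bB := bdd_33 _ (right_33 hw)
  rw [ext_kop E.conj l bB (right_33 hw), op_apply_33]
  refine mk_congr_33 fun n => ?_
  change w n (ivU G (cjU (E.U l) (dl 1))) = w n (E.U l⁻¹ (dl 1))
  congr 1
  have h2 : jjU (E.U l⁻¹)⁻¹ (dl 1) = lamU 1 (cf (E.U l⁻¹)) := jj_dl (E.comm l⁻¹) 1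
  have h3 : (ivU G (dl 1) : L2 G) = dl 1 := by
    have h4 : (ivU G (dl 1) : L2 G) = dl (1⁻¹) := permU_dl _ _
    rw [h4, inv_one]
  rw [jjU_apply, h3, lamU_one, ← map_inv, inv_inv] at h2
  exact h2

theorem T_form (R : Reg G) (E : Emb Λ G) (e : ℕ → Λ) {T : L2 G →L[ℂ] R.Ua} {l : Λ}
    (hT : ∀ k, T (dl k) = BU R k (ext (BU R) E.conj l (Ppr R (zet fun n => E.U (e n))))) (f : L2 G) :
    T f = Ppr R (UP.mk ⟨fun n => E.U (e n * l⁻¹) (ivU G f), ‖f‖, fun n => by
      rw [LinearIsometryEquiv.norm_map, LinearIsometryEquiv.norm_map]⟩) := by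
  have h1 : T = (Ppr R).comp (op_33 fun n => E.U (e n * l⁻¹) * ivU G) := by
    refine clm_ext fun k => ?_
    rw [hT, ← map_ext (T := Ppr R) (Ppr_B R) E.conj l, ext_conj_zet (fun n => E.comm (e n)), ← Ppr_B,
      ContinuousLinearMap.comp_apply,
      ← right_33 (fun n => commR_mul_33 (E.comm (e n)) (E.comm l⁻¹))]
    congr 3
    funext n
    rw [map_mul]
  rw [h1]
  rfl

end Pool.Agent.Helper84.GN.S3
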