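import Pool.Agent.Helper9.S3.L3

/-!
# Project S3, block L4: the double limit

By `T_form`, for `ξ = UP.mk x ∈ R.Ua`: `⟪T f, ξ⟫ = ⟪Ppr (UP.mk (U_{e n l⁻¹} (ivU f))), ξ⟫ = lim_n ⟪U_{e n l⁻¹} (ivU f), x_n⟫ = lim_n ⟪f, ivU (U_{l (e n)⁻¹} x_n)⟫` (`Ppr` is an orthogonal projection, `ξ` is in its range; `ivU` is a unitary involution; `E.U` is multiplicative; `UP.tendsto_inner`). So for all `f`: `⟪f, T* ξ⟫ = lim_n ⟪f, z_n⟫`, `z_n = ivU (U_{l (e n)⁻¹} x_n)`. The same for `T'`, `l'`, `y`: `⟪f, T'* η⟫ = lim_m ⟪f, z'_m⟫`,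
`z'_m = ivU (U_{l' (e m)⁻¹} y_m)`. Then `⟪T'* η, T* ξ⟫ = lim_n ⟪T'* η, z_n⟫ = lim_n lim_m ⟪z'_m, z_n⟫` and `⟪z'_m, z_n⟫ = ⟪U_{l' (e m)⁻¹} y_m, U_{l (e n)⁻¹} x_n⟫ = ⟪y_m, U_{e m l'⁻¹ l (e n)⁻¹} x_n⟫`. For almost all `n` the inner limit has modulus at most `C` (`le_of_tendsto`), hence so has the outer one.
-/

set_option autoImplicit false

open Filter Topology Matrix
open scoped ComplexConjugate

namespace Pool.Agent.Helper84.GN.S3

open NI GVN Pool.Agent.Helper90.RK Pool.Agent.Helper96.RK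

variable {G Λ : Type} [Group G] [Group Λ]

/-- A unitary of the embedding moves to the other side. -/
private theorem inner_U71 (E : Emb Λ G) (g : Λ) (a b : L2 G) :
    inner ℂ (E.U g a) b = inner ℂ a (E.U g⁻¹ b) := by
  have h : E.U g (E.U g⁻¹ b) = b := by
    have h1 : (E.U g * E.U g⁻¹) b = b := by
      rw [← map_mul, mul_inv_cancel, map_one]; rfl
    exact h1
  calc inner ℂ (E.U g a) b = inner ℂ (E.U g a) (E.U g (E.U g⁻¹ b)) := by rw [h]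
    _ = inner ℂ a (E.U g⁻¹ b) := LinearIsometryEquiv.inner_map_map _ _ _

omit [Group Λ] in
private theorem inner_iv71 (a b : L2 G) : inner ℂ (ivU G a) b = inner ℂ a (ivU G b) := by
  calc inner ℂ (ivU G a) b = inner ℂ (ivU G a) (ivU G (ivU G b)) := by rw [ivU_ivU]
    _ = inner ℂ a (ivU G b) := LinearIsometryEquiv.inner_map_map _ _ _

private theorem key71 (R : Reg G) (E : Emb Λ G) (e : ℕ → Λ) {T : L2 G →L[ℂ] R.Ua} {l : Λ}
    (hT : ∀ k, T (dl k) = BU R k (ext (BU R) E.conj l (Ppr R (zet fun n => E.U (e n)))))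
    (x : BSeq (L2 G)) (hx : UP.mk x ∈ R.Ua) (f : L2 G) :
    Tendsto (fun n => inner ℂ f (ivU G (E.U (l * (e n)⁻¹) (x.1 n)))) (hyperfilter ℕ : Filter ℕ)
      (𝓝 (inner ℂ f (ContinuousLinearMap.adjoint T (⟨UP.mk x, hx⟩ : R.Ua)))) := by
  have h1 : inner ℂ f (ContinuousLinearMap.adjoint T (⟨UP.mk x, hx⟩ : R.Ua)) =
      inner ℂ (UP.mk ⟨fun n => E.U (e n * l⁻¹) (ivU G f), ‖f‖, fun n => by
      rw [LinearIsometryEquiv.norm_map, LinearIsometryEquiv.norm_map]⟩) (UP.mk x) := by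
    rw [ContinuousLinearMap.adjoint_inner_right, T_form R E e hT f]
    rw [← inner_conj_symm, ← inner_Ppr R _ (⟨UP.mk x, hx⟩ : R.Ua), inner_conj_symm]
  rw [h1]
  refine (UP.tendsto_inner _ x).congr fun n => ?_
  change inner ℂ (E.U (e n * l⁻¹) (ivU G f)) (x.1 n) = _
  rw [inner_U71, inner_iv71, _root_.mul_inv_rev, inv_inv]

theorem double_limit (R : Reg G) (E : Emb Λ G) (e : ℕ → Λ) {T T' : L2 G →L[ℂ] R.Ua} {l l' : Λ}
    (hT : ∀ k, T (dl k) = BU R k (ext (BU R) E.conj l (Ppr R (zet fun n => E.U (e n)))))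
    (hT' : ∀ k, T' (dl k) = BU R k (ext (BU R) E.conj l' (Ppr R (zet fun n => E.U (e n)))))
    (x y : BSeq (L2 G)) (hx : UP.mk x ∈ R.Ua) (hy : UP.mk y ∈ R.Ua) {C : ℝ}
    (h : ∀ᶠ n in (hyperfilter ℕ : Filter ℕ), ∀ᶠ m in (hyperfilter ℕ : Filter ℕ),
      ‖inner ℂ (y.1 m) (E.U (e m * l'⁻¹ * l * (e n)⁻¹) (x.1 n))‖ ≤ C) :
    ‖inner ℂ (ContinuousLinearMap.adjoint T' (⟨UP.mk y, hy⟩ : R.Ua)) (ContinuousLinearMap.adjoint T (⟨UP.mk x, hx⟩ : R.Ua))‖ ≤ C := by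
  have hA := key71 R E e hT x hx (ContinuousLinearMap.adjoint T' (⟨UP.mk y, hy⟩ : R.Ua))
  refine le_of_tendsto hA.norm (h.mono fun n hn => ?_)
  have hB := key71 R E e hT' y hy (ivU G (E.U (l * (e n)⁻¹) (x.1 n)))
  rw [norm_inner_symm]
  refine le_of_tendsto hB.norm (hn.mono fun m hm => ?_)
  have h1 : inner ℂ (ivU G (E.U (l * (e n)⁻¹) (x.1 n))) (ivU G (E.U (l' * (e m)⁻¹) (y.1 m))) =
      conj (inner ℂ (y.1 m) (E.U (e m * l'⁻¹ * l * (e n)⁻¹) (x.1 n))) := by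
    rw [LinearIsometryEquiv.inner_map_map, ← inner_conj_symm, inner_U71]
    congr 2
    have h2 : (E.U (l' * (e m)⁻¹)⁻¹ * E.U (l * (e n)⁻¹)) (x.1 n) =
        E.U (e m * l'⁻¹ * l * (e n)⁻¹) (x.1 n) := by
      rw [← map_mul]
      congr 2
      group
    exact h2
  rw [h1, RCLike.norm_conj]
  exact hm

end Pool.Agent.Helper84.GN.S3
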