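import Pool.Agent.Helper9.S3.P0
import Pool.Agent.Helper9.S3.F6
import Pool.Agent.Helper9.S3.L1
import Pool.Agent.Helper9.S3.L2
import Pool.Agent.Helper9.S3.L4

/-!
# Project S3, block L5: locality

Let `R = toReg (Sm S)`, `X = T m ∘ (T l)*`, `A`, `B` at distance at least `δ` (`(posPD S (Sm S).b).d = pdist S (Sm S).b`). It is enough to show `⟪(T m)* y', (T l)* x'⟫ = 0` for `x' = iU A x`, `y' = iU B y` (then `⟪y, iU B (X (iU A x))⟫ = ⟪iU B y, X (iU A x)⟫ = 0`; `iU B` is self adjoint). Let `ε > 0`. `exists_carrier` for `x'`, `y'` gives `UP.mk b`, `UP.mk b'`, indices `r`, `r'` (enlarge: take the maximum), and we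
may replace `b_n` by `ind A b_n`, `b'_n` by `ind B b'_n` (`x' = iU A x'`, `iU A` has norm at most one). `WC_Te` gives `ρ ≥ 1` such that for every `L` the supports of `b_n` and `b'_n` are in `Te S ρ L` for almost all `n`. Let `C` be the constant of `fl` for `ρ`, `δ`; let `β > 0`, `R₀` from `hH β`, `L` from `fl` for `R₀`. For almost all `n` and almost all `m'`:
`|⟪b'_{m'}, U (b_n)⟫| ≤ C ‖b'_{m'}‖ ‖b_n‖ β ≤ C c c' β` for every `U = E.U (..)` (`fl` with the roles: first vector `b'` with the set `B`, second vector `b` with the set `A`; `pdist` symmetric by `posPD.symm`; `CommR` from `E.comm`), where `c`, `c'` are the bounds of the sequences. `double_limit` (with `l' = m`): `|⟪(T m)* UP.mk b', (T l)* UP.mk b⟫| ≤ C c c' β` for all `β > 0`, so it is `0`.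
Now `ε → 0` (`‖(T m)*‖, ‖(T l)*‖` finite).
-/

set_option autoImplicit false

open Filter Topology Matrix
open scoped ComplexConjugate

namespace Pool.Agent.Helper84.GN.S3

open NI GVN Pool.Agent.Helper90.RK Pool.Agent.Helper96.RK

variable {G Λ : Type} [Group G] [Group Λ]

variable {N : ℕ} {P : PH G N}

omit [Group G] in
/-- Restrictions to sets are self adjoint. -/
theorem l5_adj (A : Set G) (a b : UP (L2 G)) :
    inner ℂ (UP.map (ind ℂ A) a) b = inner ℂ a (UP.map (ind ℂ A) b) := by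
  classical
  rw [UP.inner_map]
  have e : (ind ℂ A : Lv G ℂ →L[ℂ] Lv G ℂ) = ContinuousLinearMap.adjoint (ind ℂ A : Lv G ℂ →L[ℂ] Lv G ℂ) := by
    rw [ContinuousLinearMap.eq_adjoint_iff]
    intro x y
    refine (lv_inner _ _).unique ?_
    refine (lv_inner x (ind ℂ A y)).congr_fun ?_
    intro i
    rw [ind_apply, ind_apply]
    split_ifs
    · rfl
    · rw [inner_zero_left, inner_zero_right]
  rw [← e]

/-- A class approximated by sequences in a set, carried by the regions. -/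
theorem carrierA (S : Sv P) (J : Finset (Fin N)) (A : Set G) (x : (toReg (chStr S J [])).Ua)
    (hx : iU (toReg (chStr S J [])) A x = x) {ε : ℝ} (hε : 0 < ε) :
    ∃ (r : ℕ) (b : BSeq (L2 G)) (hb : UP.mk b ∈ (toReg (chStr S J [])).Ua),
      ‖x - ⟨UP.mk b, hb⟩‖ < ε ∧ ∀ r' : ℕ, r ≤ r' → ∀ m : ℕ, ∀ᶠ n in (hyperfilter ℕ : Filter ℕ), ∀ γ,
        γ ∉ A ∩ (WC S J r' ∩ TC S [J] m) → b.1 n γ = 0 := by
  classical
  obtain ⟨r, b, hb, h1, h2⟩ := exists_carrier S J x hε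
  have e1 : UP.mk (BSeq.map (ind ℂ A) b) = UP.map (ind ℂ A) (UP.mk b) := (UP.map_mk _ _).symm
  have hb' : UP.mk (BSeq.map (ind ℂ A) b) ∈ (toReg (chStr S J [])).Ua := by
    rw [e1]
    exact ind_mem_Ua _ A hb
  refine ⟨r, BSeq.map (ind ℂ A) b, hb', ?_, fun r' hr m => ?_⟩
  · have e2 : x - ⟨UP.mk (BSeq.map (ind ℂ A) b), hb'⟩ =
        iU (toReg (chStr S J [])) A (x - ⟨UP.mk b, hb⟩) := by
      rw [map_sub, hx]
      congr 1
      apply Subtype.ext
      rw [coe_iU]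
      exact e1
    have h3 : ‖iU (toReg (chStr S J [])) A (x - ⟨UP.mk b, hb⟩)‖ ≤ ‖x - ⟨UP.mk b, hb⟩‖ := by
      have h4 := UP.norm_map_le_of (T := ind ℂ A) (C := 1) zero_le_one
        (fun f => by rw [one_mul]; exact norm_ind2 A f) ((x - ⟨UP.mk b, hb⟩ : (toReg (chStr S J [])).Ua) : UP (L2 G))
      rw [one_mul] at h4
      exact h4
    rw [e2]
    exact lt_of_le_of_lt h3 h1
  · filter_upwards [h2 m] with n hn γ hγ
    change ind ℂ A (b.1 n) γ = 0
    rw [ind_apply]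
    split_ifs with hA
    · exact hn γ fun h => hγ ⟨hA, WC_mono S J hr h.1, h.2⟩
    · rfl

theorem loc_zero (hN : 3 ≤ N) (S : Sv P) (E : Emb Λ G)
    (hH : ∀ β : ℝ, 0 < β → ∃ R : ℝ, ∀ l, ‖ind ℂ (Bad S R) (cf (E.U l))‖ ≤ β) (e : ℕ → Λ)
    {T : Λ → (L2 G →L[ℂ] (toReg (Sm S)).Ua)}
    (hT : ∀ l k, T l (dl k) = BU (toReg (Sm S)) k (ext (BU (toReg (Sm S))) E.conj l
      (Ppr (toReg (Sm S)) (zet fun n => E.U (e n))))) (l m : Λ) {A B : Set G} {δ : ℝ} (hδ : 0 < δ)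
    (hAB : ∀ γ ∈ B, ∀ γ' ∈ A, δ ≤ pdist S (Sm S).b γ γ') {r : ℕ}
    {b b' : BSeq (L2 G)} (hb : UP.mk b ∈ (toReg (Sm S)).Ua) (hb' : UP.mk b' ∈ (toReg (Sm S)).Ua)
    (h1 : ∀ m : ℕ, ∀ᶠ n in (hyperfilter ℕ : Filter ℕ), ∀ γ,
        γ ∉ A ∩ (WC S (Jm N) r ∩ TC S [Jm N] m) → b.1 n γ = 0)
    (h2 : ∀ m : ℕ, ∀ᶠ n in (hyperfilter ℕ : Filter ℕ), ∀ γ,
        γ ∉ B ∩ (WC S (Jm N) r ∩ TC S [Jm N] m) → b'.1 n γ = 0) :
    inner ℂ (ContinuousLinearMap.adjoint (T m) (⟨UP.mk b', hb'⟩ : (toReg (Sm S)).Ua))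
      (ContinuousLinearMap.adjoint (T l) (⟨UP.mk b, hb⟩ : (toReg (Sm S)).Ua)) = 0 := by
  obtain ⟨c, hc⟩ := b.2
  obtain ⟨c', hc'⟩ := b'.2
  have hc0 : 0 ≤ c := (norm_nonneg _).trans (hc 0)
  have hc0' : 0 ≤ c' := (norm_nonneg _).trans (hc' 0)
  obtain ⟨ρ, hρ, hWT⟩ := WC_Te hN S r
  obtain ⟨C, hC, hfl⟩ := fl hN S hρ hδ
  have key : ∀ β : ℝ, 0 < β → ‖inner ℂ (ContinuousLinearMap.adjoint (T m) (⟨UP.mk b', hb'⟩ : (toReg (Sm S)).Ua))
      (ContinuousLinearMap.adjoint (T l) (⟨UP.mk b, hb⟩ : (toReg (Sm S)).Ua))‖ ≤ C * c' * c * β := by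
    intro β hβ
    obtain ⟨R, hR⟩ := hH β hβ
    obtain ⟨L, hL, hL'⟩ := hfl R
    obtain ⟨m0, hm0⟩ := hWT L
    refine double_limit (toReg (Sm S)) E e (hT l) (hT m) b b' hb hb' ?_
    filter_upwards [h1 m0] with n hn
    filter_upwards [h2 m0] with k hk
    refine (hL' B A hAB (E.U (e k * m⁻¹ * l * (e n)⁻¹)) (E.comm _) (b'.1 k) (b.1 n) ?_ ?_).trans ?_
    · exact fun γ hγ => hk γ fun h => hγ ⟨h.1, hm0 h.2⟩
    · exact fun γ hγ => hn γ fun h => hγ ⟨h.1, hm0 h.2⟩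
    · refine mul_le_mul (mul_le_mul (mul_le_mul_of_nonneg_left (hc' k) hC) (hc n) (norm_nonneg _)
        (mul_nonneg hC hc0')) (hR _) (norm_nonneg _) (mul_nonneg (mul_nonneg hC hc0') hc0)
  rw [← norm_le_zero_iff]
  refine le_of_forall_pos_le_add fun ε hε => ?_
  have hK : 0 ≤ C * c' * c := mul_nonneg (mul_nonneg hC hc0') hc0
  refine (key (ε / (C * c' * c + 1)) (by positivity)).trans ?_
  rw [zero_add, ← mul_div_assoc, div_le_iff₀ (by positivity)]
  nlinarith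

theorem loc_main (hN : 3 ≤ N) (S : Sv P) (E : Emb Λ G)
    (hH : ∀ β : ℝ, 0 < β → ∃ R : ℝ, ∀ l, ‖ind ℂ (Bad S R) (cf (E.U l))‖ ≤ β) (e : ℕ → Λ)
    {T : Λ → (L2 G →L[ℂ] (toReg (Sm S)).Ua)}
    (hT : ∀ l k, T l (dl k) = BU (toReg (Sm S)) k (ext (BU (toReg (Sm S))) E.conj l
      (Ppr (toReg (Sm S)) (zet fun n => E.U (e n))))) (l m : Λ) :
    Loc (toReg (Sm S)) (posPD S (Sm S).b) ((T m).comp (ContinuousLinearMap.adjoint (T l))) := by
  classical
  intro A B δ hδ hAB x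
  have hAB' : ∀ γ ∈ B, ∀ γ' ∈ A, δ ≤ pdist S (Sm S).b γ γ' := fun γ hγ γ' hγ' => by
    have h1 := hAB γ' hγ' γ hγ
    rwa [(posPD S (Sm S).b).symm] at h1
  -- vanishing of the inner products
  have key : ∀ x' y' : (toReg (Sm S)).Ua, iU (toReg (Sm S)) A x' = x' → iU (toReg (Sm S)) B y' = y' →
      inner ℂ (ContinuousLinearMap.adjoint (T m) y') (ContinuousLinearMap.adjoint (T l) x') = 0 := by
    intro x' y' hx' hy'
    have ha : ∀ k : ℕ, ∃ (u v : (toReg (Sm S)).Ua), ‖x' - u‖ < 1 / ((k : ℝ) + 1) ∧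
        ‖y' - v‖ < 1 / ((k : ℝ) + 1) ∧
        inner ℂ (ContinuousLinearMap.adjoint (T m) v) (ContinuousLinearMap.adjoint (T l) u) = 0 := by
      intro k
      obtain ⟨r, b, hb, h1, h2⟩ := carrierA S (Jm N) A x' hx' (ε := 1 / ((k : ℝ) + 1)) (by positivity)
      obtain ⟨r', b', hb', h1', h2'⟩ := carrierA S (Jm N) B y' hy' (ε := 1 / ((k : ℝ) + 1)) (by positivity)
      exact ⟨⟨UP.mk b, hb⟩, ⟨UP.mk b', hb'⟩, h1, h1', loc_zero hN S E hH e hT l m hδ hAB' hb hb'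
        (h2 (max r r') (le_max_left _ _)) (h2' (max r r') (le_max_right _ _))⟩
    choose u v hu hv huv using ha
    have hu' : Tendsto u atTop (𝓝 x') := by
      refine tendsto_iff_norm_sub_tendsto_zero.2 (squeeze_zero (fun _ => norm_nonneg _) (fun k => ?_)
        tendsto_one_div_add_atTop_nhds_zero_nat)
      rw [norm_sub_rev]
      exact (hu k).le
    have hv' : Tendsto v atTop (𝓝 y') := by
      refine tendsto_iff_norm_sub_tendsto_zero.2 (squeeze_zero (fun _ => norm_nonneg _) (fun k => ?_)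
        tendsto_one_div_add_atTop_nhds_zero_nat)
      rw [norm_sub_rev]
      exact (hv k).le
    have h3 := (((ContinuousLinearMap.adjoint (T m)).continuous.tendsto y').comp hv').inner
      (𝕜 := ℂ) (((ContinuousLinearMap.adjoint (T l)).continuous.tendsto x').comp hu')
    refine tendsto_nhds_unique h3 ?_
    refine tendsto_const_nhds.congr fun k => ?_
    exact (huv k).symm
  have idem : ∀ (C : Set G) (z : (toReg (Sm S)).Ua), iU (toReg (Sm S)) C (iU (toReg (Sm S)) C z) =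
      iU (toReg (Sm S)) C z := by
    intro C z
    apply Subtype.ext
    rw [coe_iU, coe_iU, ← UP.map_comp]
    congr 2
    ext1 f
    rw [ContinuousLinearMap.comp_apply, ind_ind2, Set.inter_self]
  set X : (toReg (Sm S)).Ua := ((T m).comp (ContinuousLinearMap.adjoint (T l))) (iU (toReg (Sm S)) A x) with hX
  have h4 : inner ℂ (iU (toReg (Sm S)) B X) (iU (toReg (Sm S)) B X) = (0 : ℂ) := by
    have h5 : inner ℂ (iU (toReg (Sm S)) B X) (iU (toReg (Sm S)) B X) =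
        (inner ℂ (iU (toReg (Sm S)) B X) X : ℂ) := by
      conv_rhs => rw [← idem B X]
      rw [Submodule.coe_inner, Submodule.coe_inner, coe_iU _ B (iU (toReg (Sm S)) B X), l5_adj]
      rfl
    rw [h5, hX, ContinuousLinearMap.comp_apply, ← ContinuousLinearMap.adjoint_inner_left]
    exact key _ _ (idem A x) (idem B X)
  exact inner_self_eq_zero.1 h4

end Pool.Agent.Helper84.GN.S3
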