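import Pool.Agent.Helper9.S3.Z5

/-!
# Project S3, block Y0: selection of the stratum

`select_two`: as `select` in `Helper96/RK/Ty3.lean` with the sets `A m = Two S (exp m)` and the empty chain: `ξ = tru A (fun m => cf (w m))`, `‖ξ‖ ≥ β > 0`. Choose `J` of maximal cardinality with `UP.map (ind (WC S J n)) ξ ≠ 0` for some `n` (`J = ∅` qualifies). As there, `ξ' = UP.map (ind (WC S J n)) ξ` is carried by the sets of `FC S J [] n`, so it is in `Ua`, and `⟪ξ', zet w⟫ = ‖ξ'‖^2 ≠ 0` gives `Ppr (zet w) ≠ 0`.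
Since `ξ' ≠ 0` the set `WC S J n ∩ Two S (exp m)` is nonempty for arbitrarily large `m > n` (else `tru_congr`, `tru_empty`): two different gaps `i`, `j` are larger than `exp m ≥ 1`, so `lg > m > n`, hence `i, j ∉ J`, and they are not the last index (`gp = 1` there).
`good_start`: if the hypothesis of `reach_two` holds for some `β > 0` then `reach_two`, `select_two` (choose `e m` for `R = exp m`) give the first alternative. Otherwise: `start` (`Helper96/RK/Ty5.lean`) for `V` = the set of the `E.U l` (`Λ` is infinite since it is not amenable: `infinite_of_nonAm` in `Helper66/RK/FinIdx.lean` or similar; the vectors `cf (E.U l)` are orthonormal, `hv_orthonormal` in `Helper84/GN/Main.lean`, so for distinct `l_n` the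
sequence tends weakly to zero, see how `start` is used in `Helper66/RK`) and `select S []` give `J ≠ univ` and `e` with `Ppr ≠ 0`. Take `i ∉ J`; `TC_nonempty` for `m = 1` gives `lg γ i ≥ 1`, so `i + 1 < N`. If `0 < i` and `i + 2 < N` we are done (second alternative). If `i = 0` then by `mass_of_Ppr` (`TC S [J] m ⊆ First S R` for `m > log R`) the first gap is reached, if `i + 2 = N` the last one: contradiction.
-/

set_option autoImplicit false

open Filter Topology Matrix
open scoped ComplexConjugate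

namespace Pool.Agent.Helper84.GN.S3

open NI GVN Pool.Agent.Helper90.RK Pool.Agent.Helper96.RK

variable {G Λ : Type} [Group G] [Group Λ]

variable {N : ℕ} {P : PH G N}

omit [Group G] in
/-- Nonamenable groups are infinite. -/
private theorem inf95 (h : NonAm Λ) : Infinite Λ := by
  by_contra hfin
  rw [not_infinite_iff_finite] at hfin
  have := Fintype.ofFinite Λ
  have hc : Summable fun _ : Λ => ‖(1 : ℂ)‖ ^ 2 := (hasSum_fintype _).summable
  let c : L2 Λ := ⟨fun _ => (1 : ℂ), memL2 hc⟩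
  have hc0 : c ≠ 0 := by
    intro h0
    have h1 := congrArg (fun f : L2 Λ => f 1) h0
    simp only at h1
    exact one_ne_zero h1
  have hn : 0 < ‖c‖ := norm_pos_iff.2 hc0
  obtain ⟨F, ε, hε, h⟩ := h
  obtain ⟨s, _, hs⟩ := h (((‖c‖⁻¹ : ℝ) : ℂ) • c) (by
    rw [norm_smul, Complex.norm_real, Real.norm_eq_abs, abs_of_pos (inv_pos.2 hn),
      inv_mul_cancel₀ hn.ne'])
  have h1 : lamU s c = c := by
    apply l2_ext
    intro x
    rfl
  rw [map_smul, h1, sub_self, norm_zero] at hs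
  linarith

/-- selection -/
theorem select_two (S : Sv P) {w : ℕ → (L2 G ≃ₗᵢ[ℂ] L2 G)} {β : ℝ} (hβ : 0 < β)
    (h : ∀ m : ℕ, β ≤ ‖ind ℂ (Two S (Real.exp m)) (cf (w m))‖) :
    ∃ J : Finset (Fin N), Ppr (toReg (chStr S J [])) (zet w) ≠ 0 ∧
      ∃ i j : Fin N, i ≠ j ∧ i ∉ J ∧ j ∉ J ∧ (i : ℕ) + 1 < N ∧ (j : ℕ) + 1 < N := by
  classical
  let A : ℕ → Set G := fun m => Two S (Real.exp m)
  have hA : ∀ m, A m = Two S (Real.exp m) := fun m => rfl
  let f : ℕ → L2 G := fun m => cf (w m)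
  have hf : ∀ m, ‖f m‖ ≤ 1 := fun m => norm_cf_le _
  set ξ : UP (L2 G) := tru A f hf with hξ
  have hξ0 : 0 < ‖ξ‖ := lt_of_lt_of_le hβ (le_norm_tru fun m => h m)
  -- the maximal set
  let 𝒮 : Finset (Finset (Fin N)) :=
    Finset.univ.filter fun J => ∃ n, UP.map (ind ℂ (WC S J n)) ξ ≠ 0
  have h𝒮 : ∀ J, J ∈ 𝒮 ↔ ∃ n, UP.map (ind ℂ (WC S J n)) ξ ≠ 0 := by
    intro J
    simp [𝒮]
  have hne : 𝒮.Nonempty := by
    refine ⟨∅, (h𝒮 _).2 ⟨0, ?_⟩⟩
    have h1 : WC S (∅ : Finset (Fin N)) 0 = Set.univ := by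
      ext γ
      simp [WC]
    rw [h1, hξ, ind_tru]
    simp only [Set.univ_inter]
    rw [← hξ]
    exact norm_pos_iff.1 hξ0
  obtain ⟨J, hJ, hmax⟩ := Finset.exists_max_image 𝒮 Finset.card hne
  obtain ⟨n, hn⟩ := (h𝒮 J).1 hJ
  have hnull : ∀ j, j ∉ J → ∀ n', UP.map (ind ℂ (WC S (insert j J) n')) ξ = 0 := by
    intro j hjJ n'
    by_contra hcon
    have h1 : insert j J ∈ 𝒮 := (h𝒮 _).2 ⟨n', hcon⟩
    have h2 := hmax _ h1
    rw [Finset.card_insert_of_notMem hjJ] at h2
    omega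
  refine ⟨J, ?_, ?_⟩
  · set ξ' : UP (L2 G) := UP.map (ind ℂ (WC S J n)) ξ with hξ'
    have hmem : ξ' ∈ (toReg (chStr S J [])).Ua := by
      refine Submodule.le_topologicalClosure _ (Submodule.subset_span ⟨n, fun s hs => ?_⟩)
      obtain ⟨m0, hm0⟩ := (mem_FC S).1 (show s ∈ FC S J [] n from hs)
      refine carried hξ' ?_
      have hsub : WC S J n \ s ⊆
          ⋃ j ∈ Finset.univ \ J, WC S (insert j J) (max n (m0 * (1 + N * n))) := by
        rintro γ ⟨h1, h2⟩
        have h4 : γ ∉ TC S [J] m0 := fun h4 => h2 (hm0 ⟨h1, h4⟩)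
        rw [TC_cons] at h4
        have h5 : ∃ j, j ∉ J ∧ lg S γ j < (m0 : ℝ) * (1 + ∑ i ∈ J, lg S γ i) := by
          by_contra hcon
          push Not at hcon
          exact h4 ⟨hcon, by simp [Pool.Agent.Helper96.RK.TC]⟩
        obtain ⟨j, hj, hlt⟩ := h5
        refine Set.mem_iUnion₂.2 ⟨j, Finset.mem_sdiff.2 ⟨Finset.mem_univ _, hj⟩, ?_⟩
        intro i hi
        rcases Finset.mem_insert.1 hi with rfl | hi
        · have h9 : ∑ k ∈ J, lg S γ k ≤ N * n := by
            calc ∑ k ∈ J, lg S γ k ≤ ∑ _k ∈ J, (n : ℝ) := Finset.sum_le_sum fun k hk => h1 k hk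
              _ = J.card * n := by rw [Finset.sum_const, nsmul_eq_mul]
              _ ≤ N * n := by
                have h4 : (J.card : ℝ) ≤ N := by
                  have := Finset.card_le_univ J
                  rw [Fintype.card_fin] at this
                  exact_mod_cast this
                exact mul_le_mul_of_nonneg_right h4 (Nat.cast_nonneg n)
          have h10 : (m0 : ℝ) * (1 + ∑ k ∈ J, lg S γ k) ≤ m0 * (1 + N * n) :=
            mul_le_mul_of_nonneg_left (by linarith) (Nat.cast_nonneg _)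
          refine (hlt.le.trans h10).trans ?_
          have : ((m0 * (1 + N * n) : ℕ) : ℝ) ≤ ((max n (m0 * (1 + N * n)) : ℕ) : ℝ) := by
            exact_mod_cast le_max_right _ _
          push_cast at this ⊢
          exact this
        · refine (h1 i hi).trans ?_
          exact_mod_cast le_max_left _ _
      refine null_mono hsub (null_iUnion _ _ fun j hj => ?_)
      rw [Finset.mem_sdiff] at hj
      exact hnull j hj.2 _
    refine Ppr_ne_zero _ hmem ?_
    have h1 : ξ' = tru (fun m => WC S J n ∩ A m) f hf := by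
      rw [hξ', hξ, ind_tru]
    have h2 : zet w = UP.mk ⟨f, 1, hf⟩ := rfl
    rw [h2]
    have h3 := inner_tru (fun m => WC S J n ∩ A m) f hf
    rw [← h1] at h3
    rw [h3]
    have h4 : ‖ξ'‖ ≠ 0 := norm_ne_zero_iff.2 hn
    exact_mod_cast pow_ne_zero 2 h4
  · by_contra hcon
    apply hn
    rw [hξ, ind_tru, tru_congr f hf n (B := fun _ => ∅), tru_empty]
    intro m hm
    rw [hA]
    ext γ
    simp only [Set.mem_inter_iff, Set.mem_empty_iff_false, iff_false, not_and]
    rintro h1 ⟨i, j, hij, hi, hj⟩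
    have hkey : ∀ k : Fin N, Real.exp m < gp S γ k → k ∉ J ∧ (k : ℕ) + 1 < N := by
      intro k hk
      constructor
      · intro hkJ
        have h3 := h1 k hkJ
        rw [gp_eq_exp, Real.exp_lt_exp] at hk
        have h4 : (n : ℝ) ≤ m := by exact_mod_cast hm
        linarith
      · by_contra hkN
        unfold gp at hk
        rw [dif_neg hkN] at hk
        have := Real.one_le_exp (Nat.cast_nonneg (α := ℝ) m)
        linarith
    exact hcon ⟨i, j, hij, (hkey i hi).1, (hkey j hj).1, (hkey i hi).2, (hkey j hj).2⟩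

theorem good_start (hN : 3 ≤ N) (S : Sv P) (E : Emb Λ G) (hΛ : NonAm Λ) : ∃ (J : Finset (Fin N)) (e : ℕ → Λ),
    Ppr (toReg (chStr S J [])) (zet fun n => E.U (e n)) ≠ 0 ∧
      ((∃ i j : Fin N, i ≠ j ∧ i ∉ J ∧ j ∉ J ∧ (i : ℕ) + 1 < N ∧ (j : ℕ) + 1 < N) ∨
        ∃ i : Fin N, i ∉ J ∧ 0 < (i : ℕ) ∧ (i : ℕ) + 2 < N) := by
  classical
  by_cases hfl : ∃ β : ℝ, 0 < β ∧ ((∀ R : ℝ, ∃ l, β ≤ ‖ind ℂ (Last S R) (cf (E.U l))‖) ∨
      ∀ R : ℝ, ∃ l, β ≤ ‖ind ℂ (First S R) (cf (E.U l))‖)
  · obtain ⟨β, hβ, h⟩ := hfl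
    obtain ⟨β', hβ', h'⟩ := reach_two hN S E hΛ hβ h
    choose e he using fun m : ℕ => h' (Real.exp m)
    obtain ⟨J, h1, h2⟩ := select_two S (w := fun m => E.U (e m)) hβ' he
    exact ⟨J, e, h1, Or.inl h2⟩
  · have : Infinite Λ := inf95 hΛ
    obtain ⟨u⟩ : Nonempty (ℕ ↪ Λ) := ⟨Infinite.natEmbedding Λ⟩
    have horth : Orthonormal ℂ (fun n : ℕ => cf (E.U (u n))) := by
      have hne : ∀ m n : ℕ, m ≠ n → ((u m)⁻¹ * u n) ≠ 1 := by
        intro m n hmn h
        exact hmn (u.injective (inv_mul_eq_one.1 h))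
      refine ⟨fun n => norm_cf _, fun m n hmn => ?_⟩
      have h1 : cf (E.U ((u m)⁻¹ * u n)) 1 = 0 := E.tr _ (hne m n hmn)
      have h2 : inner ℂ (cf (E.U (u m))) (cf (E.U (u n))) =
          inner ℂ (dl 1) (cf (E.U ((u m)⁻¹ * u n))) := by
        rw [← LinearIsometryEquiv.inner_map_map (E.U (u m)) (dl 1)]
        congr 1
        change E.U (u n) (dl 1) = (E.U (u m) * E.U ((u m)⁻¹ * u n)) (dl 1)
        rw [← map_mul, mul_inv_cancel_left]
      exact h2.trans ((inner_dl_left _ _).trans h1)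
    have hst := start S (V := Set.range fun l => E.U l) (w := fun n => E.U (u n))
      (fun n => ⟨u n, rfl⟩) (fun g => tendsto_of_orthonormal horth g)
    obtain ⟨J, w', hJ, hw', hne⟩ := select S [] (by norm_num : (0:ℝ) < 1 / 2) hst
    choose e he using hw'
    have hwe : w' = fun n => E.U (e n) := funext fun n => (he n).symm
    rw [hwe] at hne
    refine ⟨J, e, hne, Or.inr ?_⟩
    obtain ⟨i, hi⟩ : ∃ i, i ∉ J := by
      by_contra hcon
      push Not at hcon
      exact hJ.2 fun i _ => hcon i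
    obtain ⟨γ, hγ⟩ := TC_nonempty hne 1
    have h1 : 1 ≤ lg S γ i := by
      have h2 := ((TC_cons S).1 hγ).1 i hi
      have h3 := sum_lg_nonneg S γ J
      push_cast at h2
      linarith
    have hiN : (i : ℕ) + 1 < N := by
      by_contra hkN
      unfold lg gp at h1
      rw [dif_neg hkN, Real.log_one] at h1
      linarith
    obtain ⟨β, hβ, hm⟩ := mass_of_Ppr S J hne
    have hR : ∀ R : ℝ, ∃ m : ℕ, ∀ γ ∈ TC S [J] m, R < gp S γ i := by
      intro R
      obtain ⟨m, hmR⟩ := exists_nat_gt R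
      refine ⟨m, fun γ hγ => ?_⟩
      have h2 := ((TC_cons S).1 hγ).1 i hi
      have h3 := sum_lg_nonneg S γ J
      have h4 : (m : ℝ) ≤ lg S γ i := by
        have : (m : ℝ) * 1 ≤ m * (1 + ∑ i ∈ J, lg S γ i) :=
          mul_le_mul_of_nonneg_left (by linarith) (Nat.cast_nonneg _)
        linarith
      rw [gp_eq_exp]
      linarith [Real.add_one_le_exp (lg S γ i)]
    have hmono : ∀ (A B : Set G) (v : L2 G), A ⊆ B → ‖ind ℂ A v‖ ≤ ‖ind ℂ B v‖ := by
      intro A B v hAB
      have h2 : ind ℂ A v = ind ℂ A (ind ℂ B v) := by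
        rw [ind_ind2, Set.inter_eq_left.2 hAB]
      rw [h2]
      exact norm_ind2 _ _
    refine ⟨i, hi, ?_, ?_⟩
    · by_contra h0
      have h0' : (i : ℕ) = 0 := by omega
      apply hfl
      refine ⟨β, hβ, Or.inr fun R => ?_⟩
      obtain ⟨m, hm'⟩ := hR R
      obtain ⟨n, hn⟩ := hm m
      refine ⟨e n, hn.trans (hmono _ _ _ fun γ hγ j hj => ?_)⟩
      have : j = i := Fin.ext (by omega)
      rw [this]
      exact hm' γ hγ
    · by_contra h0
      have h0' : (i : ℕ) + 2 = N := by omega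
      apply hfl
      refine ⟨β, hβ, Or.inl fun R => ?_⟩
      obtain ⟨m, hm'⟩ := hR R
      obtain ⟨n, hn⟩ := hm m
      refine ⟨e n, hn.trans (hmono _ _ _ fun γ hγ j hj => ?_)⟩
      have : j = i := Fin.ext (by omega)
      rw [this]
      exact hm' γ hγ

end Pool.Agent.Helper84.GN.S3
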