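import Pool.Agent.Helper9.S3.Y0
import Pool.Agent.Helper84.GN.HA

/-!
# Project S3, block Y1: the two final theorems

`S` exists (`exists_sv` in `Helper90/RK`, see how it is used in `Helper84/GN/Main.lean`, `Helper66/RK/MainA.lean`). `no_two` (`N = 3`): `good_start` for `E₁`: the second alternative is impossible (`0 < i`, `i + 2 < 3`); so `J` contains neither `0` nor `1`. `escape_step` (`hasCoc` of `Helper84/GN/Main.lean` for all strata) with `E₂`, `c = []`: `β ≤ ‖ind (TC S [J] m \ WC S J m) ..‖`, but `WC S J m = univ` (`J ⊆ {2}`, `lg γ 2 = 0`), so the right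
side is `0`: contradiction. `no_nonAm_T` (`N = 4`): `good_start` for `E₁`: in both cases the blocks of `bJ J` have at most two elements (`J` misses two of the gaps `0, 1, 2`, or the gap `1`): hypothesis `h2` of `haag` (`Helper84/GN/HA.lean`), `hW`: `WC S J n` contains the `γ` with `s_i ≤ K s_j` inside the blocks for `n ≥ log K`. `ζ = Ppr (zet ..)`: `IsCV (AU R) (BU R) E₂ ζ` (`zet_cv .map`, see `escape_seq`), `no_T` (`Helper84/GN/TT.lean`)
with `hasCoc`: contradiction.
-/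

set_option autoImplicit false

open Filter Topology Matrix
open scoped ComplexConjugate

namespace Pool.Agent.Helper84.GN.S3

open NI GVN Pool.Agent.Helper90.RK Pool.Agent.Helper96.RK

variable {G : Type} [Group G]

theorem no_two (P : PH G 3) {Λ₁ Λ₂ : Type} [Group Λ₁] [Group Λ₂] (E₁ : Emb Λ₁ G) (E₂ : Emb Λ₂ G) (h₁ : NonAm Λ₁)
    (h₂ : NonAm Λ₂) (hc : ∀ l l' f, E₁.U l (E₂.U l' f) = E₂.U l' (E₁.U l f)) : False := by
  obtain ⟨S⟩ := nonempty_sv P
  obtain ⟨J, e, hne, hJ⟩ := good_start (le_refl 3) S E₁ h₁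
  rcases hJ with ⟨i, j, hij, hi, hj, hi1, hj1⟩ | ⟨i, hi, h0, h1⟩
  · obtain ⟨β, hβ, h⟩ := escape_step (fun T => hasCoc T) (E := E₂) h₂ (J := J) (c := [])
      (w := fun n => E₁.U (e n)) (fun n => E₁.comm _) (fun n l f => hc (e n) l f) hne
    obtain ⟨n, l, hl⟩ := h 0
    have hW : WC S (hd [J]) 0 = (Set.univ : Set G) := by
      ext γ
      refine ⟨fun _ => trivial, fun _ k hk => ?_⟩
      have hk' : k ∈ J := hk
      have h2 : (k : ℕ) = 2 := by
        have hki : k ≠ i := fun h => hi (h ▸ hk')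
        have hkj : k ≠ j := fun h => hj (h ▸ hk')
        have e1 : (k : ℕ) ≠ i := fun h => hki (Fin.ext h)
        have e2 : (k : ℕ) ≠ j := fun h => hkj (Fin.ext h)
        have e3 : (i : ℕ) ≠ j := fun h => hij (Fin.ext h)
        have := k.2
        omega
      unfold lg gp
      rw [dif_neg (by omega), Real.log_one]
      exact le_of_eq (by norm_num)
    rw [hW, Set.sdiff_univ] at hl
    rw [ind_empty2, norm_zero] at hl
    linarith
  · omega

theorem no_nonAm_T (P : PH G 4) {Λ₁ Λ₂ : Type} [Group Λ₁] [Group Λ₂] (E₁ : Emb Λ₁ G) (E₂ : Emb Λ₂ G) (h₁ : NonAm Λ₁)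
    [Infinite Λ₂] {Q : Finset Λ₂} {κ : ℝ} (hK : IsKazhdanPair Λ₂ (Q : Set Λ₂) κ)
    (hc : ∀ l l' f, E₁.U l (E₂.U l' f) = E₂.U l' (E₁.U l f)) : False := by
  obtain ⟨S⟩ := nonempty_sv P
  obtain ⟨J, e, hne, hJ⟩ := good_start (by norm_num) S E₁ h₁
  let R := toReg (chStr S J [])
  have hcv : IsCV (AU R) (BU R) E₂ (Ppr R (zet fun n => E₁.U (e n))) :=
    (zet_cv (fun n => E₁.comm _) E₂ (fun n l f => hc (e n) l f)).map (norm_Ppr R) (Ppr_A R) (Ppr_B R)
  have hbad : ∀ i j : Fin 4, (i : ℕ) + 1 = j → bJ J i = bJ J j → i ∈ J := by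
    intro i j hij hb
    exact mem_of_bJ_eq hb le_rfl (Fin.lt_def.2 (by omega))
  have h2 : ∀ i j k : Fin 4, bJ J i = bJ J j → bJ J j = bJ J k → i = j ∨ j = k ∨ i = k := by
    -- three indices in one block: two consecutive gaps in `J`
    have key : ∀ a b c : Fin 4, (a : ℕ) < b → (b : ℕ) < c → bJ J a = bJ J c → False := by
      intro a b c hab hbc hac
      have hmem : ∀ k : Fin 4, (a : ℕ) ≤ k → (k : ℕ) < c → k ∈ J := fun k h1 h2 =>
        mem_of_bJ_eq hac (Fin.le_def.2 h1) (Fin.lt_def.2 h2)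
      have hc4 := c.2
      rcases hJ with ⟨i, j, hij, hi, hj, hi1, hj1⟩ | ⟨i, hi, h0, h1⟩
      · have e3 : (i : ℕ) ≠ j := fun h => hij (Fin.ext h)
        have hi' : ¬ ((a : ℕ) ≤ i ∧ (i : ℕ) < c) := fun h => hi (hmem i h.1 h.2)
        have hj' : ¬ ((a : ℕ) ≤ j ∧ (j : ℕ) < c) := fun h => hj (hmem j h.1 h.2)
        omega
      · have hi' : ¬ ((a : ℕ) ≤ i ∧ (i : ℕ) < c) := fun h => hi (hmem i h.1 h.2)
        omega
    intro i j k hij hjk
    by_contra hcon
    push Not at hcon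
    obtain ⟨n1, n2, n3⟩ := hcon
    have e1 : (i : ℕ) ≠ j := fun h => n1 (Fin.ext h)
    have e2 : (j : ℕ) ≠ k := fun h => n2 (Fin.ext h)
    have e3 : (i : ℕ) ≠ k := fun h => n3 (Fin.ext h)
    rcases lt_or_gt_of_ne e1 with a1 | a1 <;> rcases lt_or_gt_of_ne e2 with a2 | a2 <;>
      rcases lt_or_gt_of_ne e3 with a3 | a3
    · exact key i j k a1 a2 (hij.trans hjk)
    · omega
    · exact key i k j a3 a2 hij
    · exact key k i j a3 a1 hjk.symm
    · exact key j i k a1 a3 hjk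
    · exact key j k i a2 a3 hij.symm
    · omega
    · exact key k j i a2 a1 (hij.trans hjk).symm
  have hW : ∀ K : ℝ, ∃ n, ∀ γ, (∀ i j, bJ J i = bJ J j → S.s γ i ≤ K * S.s γ j) → γ ∈ WC S J n := by
    intro K
    obtain ⟨n, hn⟩ := exists_nat_ge (Real.log (max K 1))
    refine ⟨n, fun γ hγ k hk => ?_⟩
    unfold lg gp
    split_ifs with hk1
    · have hb : bJ J k = bJ J ⟨k + 1, hk1⟩ := by
        by_contra hne'
        have hlt : bJ J k < bJ J ⟨k + 1, hk1⟩ :=
          lt_of_le_of_ne (bJ_mono J (Fin.le_def.2 (Nat.le_succ _))) hne'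
        obtain ⟨k', h1, h2, h3⟩ := exists_of_bJ_lt hlt
        have h4 : k' = k := by
          apply Fin.ext
          have a := Fin.le_def.1 h1
          have b : (k' : ℕ) < k + 1 := Fin.lt_def.1 h2
          omega
        exact h3 (h4 ▸ hk)
      have h1 := hγ k ⟨k + 1, hk1⟩ hb
      have hp := S.pos γ ⟨k + 1, hk1⟩
      have hp' := S.pos γ k
      refine le_trans (Real.log_le_log (by positivity) ?_) hn
      rw [div_le_iff₀ hp]
      exact h1.trans (mul_le_mul_of_nonneg_right (le_max_left _ _) hp.le)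
    · rw [Real.log_one]
      exact Nat.cast_nonneg n
  have hH : Haag R := haag (chStr S J []) h2 hW
  obtain ⟨L, i1, i2, i3, Γ, hD⟩ := hasCoc (chStr S J [])
  exact no_T (R := R) hH (Γ := Γ) hD hK hcv hne

end Pool.Agent.Helper84.GN.S3
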