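import Pool.Agent.Helper9.S3.Defs

/-!
# Project S3, block Z0: masses and components

`mass_of_Ppr`: `z = Ppr R (zet w) ≠ 0`, `s = TC S [J] m` belongs to all the filters (`TC_mem_FC`), so `UP.map (ind s) z = z` (`Ua_ind`) and `z = Ppr R (UP.map (ind s) (zet w))` (`Ppr` commutes with `ind s`; see the proof of `escape_seq` in `Helper84/GN/Esc.lean`), so `‖z‖ ≤ ‖UP.map (ind s) (zet w)‖ = lim_n ‖ind s (cf (w n))‖`; `β = ‖z‖ / 2`.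
`Ppr_of_mass`: with `tru`, `inner_tru`, `le_norm_tru`, `tru_congr` of `Helper96/RK/Ty3.lean`: `A m = WC S J r ∩ TC S [J] m`, `ξ = tru A (fun m => cf (w m))`, `‖ξ‖ ≥ β`; for `s ∈ FC S J [] r` there is `m0` with `A m ⊆ s` for `m ≥ m0` (`mem_FC`, `TC_anti`), so `UP.map (ind s) ξ = ξ` (`ind_tru`, `tru_congr`): `ξ ∈ UaSet ⊆ Ua`. `⟪ξ, zet w⟫ = ‖ξ‖^2 ≠ 0` (`inner_tru`) and
`⟪ξ, Ppr (zet w)⟫ = ⟪ξ, zet w⟫` (orthogonal projection, see the end of the proof of `select` in `Ty3.lean`).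
`mass_inv`: `cf w⁻¹ γ = conj (cf w γ⁻¹)` (`f2_cf_inv` in `Helper84/NI/F2.lean`), sum of squares (`lv_hasSum`, `ind_apply`), bijection `γ ↦ γ⁻¹` (`Equiv.inv`, `Equiv.hasSum_iff`).
-/

set_option autoImplicit false

open Filter Topology Matrix
open scoped ComplexConjugate

namespace Pool.Agent.Helper84.GN.S3

open NI GVN Pool.Agent.Helper90.RK Pool.Agent.Helper96.RK

variable {G Λ : Type} [Group G] [Group Λ] {N : ℕ} {P : PH G N} {S : Sv P}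

theorem mass_of_Ppr (S : Sv P) (J : Finset (Fin N)) {w : ℕ → (L2 G ≃ₗᵢ[ℂ] L2 G)}
    (h : Ppr (toReg (chStr S J [])) (zet w) ≠ 0) : ∃ β : ℝ, 0 < β ∧ ∀ m : ℕ, ∃ n : ℕ,
      β ≤ ‖ind ℂ (TC S [J] m) (cf (w n))‖ := by
  set z : (toReg (chStr S J [])).Ua := Ppr (toReg (chStr S J [])) (zet w) with hz
  have hzn : 0 < ‖z‖ := norm_pos_iff.2 h
  refine ⟨‖z‖ / 2, by positivity, fun m => ?_⟩
  have hs : ∀ n, TC S [J] m ∈ (toReg (chStr S J [])).F n := fun n => TC_mem_FC S J [] m n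
  have i1 : (inner ℂ (z : UP (L2 G)) (zet w) : ℂ).re = ‖z‖ ^ 2 := by
    rw [inner_Ppr (toReg (chStr S J [])) (zet w) z, ← hz]
    exact (norm_sq_eq_re_inner (𝕜 := ℂ) z).symm
  have i2 : (inner ℂ (z : UP (L2 G)) (zet w) : ℂ) =
      inner ℂ (z : UP (L2 G)) (UP.map (ind ℂ (TC S [J] m)) (zet w)) := by
    rw [← inner_ind, Ua_ind (toReg (chStr S J [])) hs z.2]
  have b2 : (inner ℂ (z : UP (L2 G)) (UP.map (ind ℂ (TC S [J] m)) (zet w)) : ℂ).re ≤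
      ‖z‖ * ‖UP.map (ind ℂ (TC S [J] m)) (zet w)‖ :=
    (Complex.re_le_norm _).trans (norm_inner_le_norm _ _)
  have b3 : ‖z‖ ≤ ‖UP.map (ind ℂ (TC S [J] m)) (zet w)‖ := by
    rw [i2] at i1
    have : ‖z‖ * ‖z‖ ≤ ‖z‖ * ‖UP.map (ind ℂ (TC S [J] m)) (zet w)‖ := by
      nlinarith
    exact le_of_mul_le_mul_left this hzn
  have b4 : ‖z‖ / 2 < ‖UP.map (ind ℂ (TC S [J] m)) (zet w)‖ := by linarith
  unfold zet at b4
  rw [UP.map_mk] at b4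
  obtain ⟨n, hn⟩ := ((UP.tendsto_norm (BSeq.map (ind ℂ (TC S [J] m))
    ⟨fun n => cf (w n), 1, fun n => (norm_cf (w n)).le⟩)).eventually
    (lt_mem_nhds b4)).exists
  exact ⟨n, hn.le⟩

theorem Ppr_of_mass (S : Sv P) (J : Finset (Fin N)) {w : ℕ → (L2 G ≃ₗᵢ[ℂ] L2 G)} {β : ℝ} {r : ℕ} (hβ : 0 < β)
    (h : ∀ m : ℕ, β ≤ ‖ind ℂ (WC S J r ∩ TC S [J] m) (cf (w m))‖) : Ppr (toReg (chStr S J [])) (zet w) ≠ 0 := by
  obtain ⟨A, hA⟩ : ∃ A : ℕ → Set G, ∀ m, A m = WC S J r ∩ TC S [J] m := ⟨_, fun _ => rfl⟩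
  have hf : ∀ m, ‖cf (w m)‖ ≤ 1 := fun m => norm_cf_le _
  have hξ0 : 0 < ‖tru A (fun m => cf (w m)) hf‖ := lt_of_lt_of_le hβ (le_norm_tru fun m => by
    rw [hA]
    exact h m)
  have hmem : tru A (fun m => cf (w m)) hf ∈ (toReg (chStr S J [])).Ua := by
    refine Submodule.le_topologicalClosure _ (Submodule.subset_span ⟨r, fun s hs => ?_⟩)
    obtain ⟨m0, hm0⟩ := (mem_FC S).1 (show s ∈ FC S J [] r from hs)
    rw [ind_tru]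
    refine tru_congr _ hf m0 fun m hm => ?_
    refine Set.inter_eq_right.2 ?_
    rw [hA]
    exact (Set.inter_subset_inter_right _ (TC_anti S _ hm)).trans hm0
  refine Ppr_ne_zero _ hmem ?_
  have h2 : zet w = UP.mk ⟨fun m => cf (w m), 1, hf⟩ := rfl
  rw [h2, inner_tru]
  exact_mod_cast pow_ne_zero 2 hξ0.ne'

theorem mass_inv (w : L2 G ≃ₗᵢ[ℂ] L2 G) (hw : CommR w) (A : Set G) :
    ‖ind ℂ A (cf w⁻¹)‖ = ‖ind ℂ {γ | γ⁻¹ ∈ A} (cf w)‖ := by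
  classical
  refine (sq_eq_sq₀ (norm_nonneg _) (norm_nonneg _)).1 ?_
  have h1 := lv_hasSum (ind ℂ A (cf w⁻¹))
  have h2 := lv_hasSum (ind ℂ {γ | γ⁻¹ ∈ A} (cf w))
  rw [← (Equiv.inv G).hasSum_iff] at h1
  refine h1.unique ?_
  refine h2.congr_fun ?_
  intro γ
  change ‖ind ℂ A (cf w⁻¹) γ⁻¹‖ ^ 2 = _
  rw [ind_apply, ind_apply, f2_cf_inv hw]
  by_cases h : γ⁻¹ ∈ A
  · rw [if_pos h, if_pos (show γ ∈ {γ | γ⁻¹ ∈ A} from h), RCLike.norm_conj]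
  · rw [if_neg h, if_neg (show γ ∉ {γ | γ⁻¹ ∈ A} from h)]

end Pool.Agent.Helper84.GN.S3
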