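import Pool.Agent.Helper9.S3.Z0

/-!
# Project S3, block Z3: the starting sequence

`R₀` from `hH (β/2)`; `n : ℕ` with `R₀ ≤ exp n`. For `m : ℕ` let `e m` be the element of `hL R` for `R = exp (m (1 + N n))` (or larger). `Last S R \ Bad S R₀ ⊆ WC S (Jm N) n ∩ TC S [Jm N] m`: if the gap after `N-2` is larger than `R` (`R ≥ R₀` may be assumed: take `R = max ..`) and `γ ∉ Bad S R₀` then all gaps `i` with `i + 2 ≠ N` are at most `R₀ ≤ exp n`, i.e. `lg ≤ n`, the sum over `Jm N` is at most `N n`, and `lg` of the gap after `N-2`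
(the only index not in `Jm N`) is larger than `m (1 + N n)`. `‖ind (Last ∖ Bad) f‖ ≥ ‖ind Last f‖ - ‖ind Bad f‖ ≥ β/2` (`ind Last f = ind (Last ∖ Bad) f + ind (Last ∩ Bad) f`, `norm_ind2`, monotonicity of `‖ind A f‖` in `A`). `Ppr_of_mass`.
-/

set_option autoImplicit false

open Filter Topology Matrix
open scoped ComplexConjugate

namespace Pool.Agent.Helper84.GN.S3

open NI GVN Pool.Agent.Helper90.RK Pool.Agent.Helper96.RK

variable {G Λ : Type} [Group G] [Group Λ] {N : ℕ} {P : PH G N} {S : Sv P}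

omit [Group G] in
private theorem ind_mono86 {A B : Set G} (h : A ⊆ B) (f : L2 G) : ‖ind ℂ A f‖ ≤ ‖ind ℂ B f‖ := by
  have : ind ℂ A f = ind ℂ A (ind ℂ B f) := by
    rw [ind_ind2, Set.inter_eq_left.2 h]
  rw [this]
  exact norm_ind2 _ _

omit [Group G] in
private theorem ind_split86 (A B : Set G) (f : L2 G) : ind ℂ A f = ind ℂ (A \ B) f + ind ℂ (A ∩ B) f := by
  classical
  apply lv_ext
  intro i
  have h : (ind ℂ (A \ B) f + ind ℂ (A ∩ B) f) i = ind ℂ (A \ B) f i + ind ℂ (A ∩ B) f i := rfl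
  rw [h, ind_apply, ind_apply, ind_apply]
  by_cases h1 : i ∈ A <;> by_cases h2 : i ∈ B <;> simp [h1, h2]

private theorem geo86 (hN : 3 ≤ N) (S : Sv P) {R₀ R : ℝ} {n m : ℕ} (hn : R₀ ≤ Real.exp n)
    (hR : R₀ ≤ R) (hR' : Real.exp ((m : ℝ) * (1 + N * n)) ≤ R) :
    Last S R \ Bad S R₀ ⊆ WC S (Jm N) n ∩ TC S [Jm N] m := by
  rintro γ ⟨h1, h2⟩
  have hj : N - 2 < N := by omega
  have hg : ∀ i : Fin N, (i : ℕ) + 2 ≠ N → lg S γ i ≤ n := by
    intro i hi
    have hle : gp S γ i ≤ R₀ := by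
      by_contra hcon
      push Not at hcon
      apply h2
      refine ⟨i, ⟨N - 2, hj⟩, ?_, hi, hcon, ?_⟩
      · show N - 2 + 2 = N
        omega
      · refine lt_of_le_of_lt hR (h1 _ ?_)
        show N - 2 + 2 = N
        omega
    have hpos : 0 < gp S γ i := lt_of_lt_of_le one_pos (one_le_gp S γ i)
    have := Real.log_le_log hpos (hle.trans hn)
    rwa [Real.log_exp] at this
  refine ⟨?_, ?_⟩
  · intro i hi
    exact hg i (Finset.mem_filter.1 hi).2
  · intro I hI j hjI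
    rw [List.mem_singleton] at hI
    subst hI
    have hj2 : (j : ℕ) + 2 = N := by
      by_contra hcon
      exact hjI (Finset.mem_filter.2 ⟨Finset.mem_univ _, hcon⟩)
    have hlt := h1 j hj2
    have hlg : (m : ℝ) * (1 + N * n) ≤ lg S γ j := by
      unfold lg
      rw [Real.le_log_iff_exp_le (lt_of_lt_of_le one_pos (one_le_gp S γ j))]
      exact hR'.trans hlt.le
    have hsum : ∑ i ∈ Jm N, lg S γ i ≤ (N : ℝ) * n := by
      calc ∑ i ∈ Jm N, lg S γ i ≤ ∑ i ∈ Jm N, (n : ℝ) :=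
            Finset.sum_le_sum fun i hi => hg i (Finset.mem_filter.1 hi).2
        _ = ((Jm N).card : ℝ) * n := by rw [Finset.sum_const, nsmul_eq_mul]
        _ ≤ (N : ℝ) * n := by
            have h4 : ((Jm N).card : ℝ) ≤ N := by
              have := Finset.card_le_univ (Jm N)
              rw [Fintype.card_fin] at this
              exact_mod_cast this
            exact mul_le_mul_of_nonneg_right h4 (Nat.cast_nonneg n)
    refine le_trans (mul_le_mul_of_nonneg_left ?_ (Nat.cast_nonneg m)) hlg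
    linarith

theorem exists_start (hN : 3 ≤ N) (S : Sv P) (E : Emb Λ G)
    (hH : ∀ β : ℝ, 0 < β → ∃ R : ℝ, ∀ l, ‖ind ℂ (Bad S R) (cf (E.U l))‖ ≤ β) {β : ℝ} (hβ : 0 < β)
    (hL : ∀ R : ℝ, ∃ l, β ≤ ‖ind ℂ (Last S R) (cf (E.U l))‖) :
    ∃ e : ℕ → Λ, Ppr (toReg (Sm S)) (zet fun n => E.U (e n)) ≠ 0 := by
  obtain ⟨R₀, hR₀⟩ := hH (β / 2) (by linarith)
  obtain ⟨n, hn⟩ : ∃ n : ℕ, R₀ ≤ Real.exp n := by
    obtain ⟨n, hn⟩ := exists_nat_ge R₀
    refine ⟨n, hn.trans ?_⟩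
    have := Real.add_one_le_exp (n : ℝ)
    linarith
  choose e he using fun m : ℕ => hL (max R₀ (Real.exp ((m : ℝ) * (1 + N * n))))
  refine ⟨e, ?_⟩
  have key := Ppr_of_mass S (Jm N) (w := fun m => E.U (e m)) (β := β / 2) (r := n) (by linarith) ?_
  · exact key
  intro m
  have hsub := geo86 hN S (m := m) hn (le_max_left R₀ (Real.exp ((m : ℝ) * (1 + N * n))))
    (le_max_right _ _)
  refine le_trans ?_ (ind_mono86 hsub _)
  have h1 := he m
  rw [ind_split86 _ (Bad S R₀)] at h1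
  have h2 := h1.trans (norm_add_le _ _)
  have h3 : ‖ind ℂ (Last S (max R₀ (Real.exp ((m : ℝ) * (1 + N * n)))) ∩ Bad S R₀) (cf (E.U (e m)))‖
      ≤ β / 2 := (ind_mono86 Set.inter_subset_right _).trans (hR₀ (e m))
  linarith

end Pool.Agent.Helper84.GN.S3
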