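import Pool.Agent.Helper9.S3.L3
import Pool.Agent.Helper9.S3.Z0

/-!
# Project S3, block Z4: the lower bound

`R = toReg (Sm S)`, `a_l = ext (BU R) E.conj l (Ppr R (zet ..)) = Ppr R (zet (n ↦ E.U (e n) * E.U l⁻¹)) = Ppr R (zet (n ↦ E.U (e n * l⁻¹)))` (`ext_conj_zet` and `map_ext`, as in the proof of `T_form`), `‖a_l‖ = ‖a_1‖ =: α > 0` (`norm_ext` with `E.conj`, as in `qf_main`: `hB.mem_VB`). `R₀` from `hH (α/2)`, `n` with `R₀ ≤ exp n`, `m` with `m > n` (so `exp m > R₀`). Let `y = UP.map (ind (WC S (Jm N) n)ᶜ) a_l`. With `s = TC S [Jm N] m`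
(`Ua_ind`, `TC_mem_FC`) `y = Ppr R (UP.map (ind (s \ WC)) (zet ..))` (`Ppr` commutes with `ind`) and `s \ WC S (Jm N) n ⊆ Bad S R₀` (some gap `i ∈ Jm N` has `lg > n`, so it is larger than `exp n ≥ R₀`, `i + 2 ≠ N`; the gap `j`, `j + 2 = N`, has `lg ≥ m > n`; `j` exists since `N ≥ 3`), so `‖y‖ ≤ α/2` and `‖UP.map (ind (WC S (Jm N) n)) a_l‖^2 = ‖a_l‖^2 - ‖y‖^2 ≥ α^2 / 2`.
Finally `⟪TL a_l, TR a_l⟫.re ≥ c_n ‖UP.map (ind (W n)) a_l‖^2` with `c_n` from `Γ.pos n`, as in the proof of `escape` in `Helper84/GN/Esc.lean` (`inner_TL_TR`, `esc_lower`; copy what is private). `c = c_n α^2 / 2`.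
-/

set_option autoImplicit false

open Filter Topology Matrix
open scoped ComplexConjugate

namespace Pool.Agent.Helper84.GN.S3

open NI GVN Pool.Agent.Helper90.RK Pool.Agent.Helper96.RK

variable {G Λ : Type} [Group G] [Group Λ] {N : ℕ} {P : PH G N} {S : Sv P}

omit [Group G] in
private theorem z4_mulop {f : G → ℂ} (hf : ∀ γ, ‖f γ‖ ≤ 1) (x : L2 G) :
    HasSum (fun γ => (f γ).re * ‖x γ‖ ^ 2) (inner ℂ x (mulop f x)).re := by
  have h1 : HasSum (fun γ => inner ℂ (x γ) (mulop f x γ)) (inner ℂ x (mulop f x)) :=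
    lv_inner x (mulop f x)
  have h2 := Complex.reCLM.hasSum h1
  have h3 : (fun γ => Complex.reCLM (inner ℂ (x γ) (mulop f x γ))) =
      fun γ => (f γ).re * ‖x γ‖ ^ 2 := by
    funext γ
    have hC : ∀ (i : G) (y : ℂ), ‖(f i • ContinuousLinearMap.id ℂ ℂ) y‖ ≤ 1 * ‖y‖ := by
      intro i y
      rw [_root_.smul_apply, ContinuousLinearMap.id_apply, norm_smul]
      exact mul_le_mul_of_nonneg_right (hf i) (norm_nonneg _)
    have h4 : mulop f x γ = f γ * x γ := by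
      unfold mulop
      rw [dg_apply hC, _root_.smul_apply, ContinuousLinearMap.id_apply, smul_eq_mul]
    rw [h4]
    change (inner ℂ (x γ) (f γ * x γ) : ℂ).re = _
    rw [← smul_eq_mul, inner_smul_right, inner_self_eq_norm_sq_to_K]
    have : ((‖x γ‖ : ℂ)) ^ 2 = ((‖x γ‖ ^ 2 : ℝ) : ℂ) := by push_cast; rfl
    change (f γ * ((‖x γ‖ : ℂ)) ^ 2).re = _
    rw [this, Complex.re_mul_ofReal]
  rw [h3] at h2
  exact h2

omit [Group G] in
/-- A multiplication operator that is at least `c` on `W`. -/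
private theorem z4_lower {f : G → ℂ} (hf : ∀ γ, ‖f γ‖ ≤ 1) {W : Set G} {c : ℝ} (h0 : ∀ γ, 0 ≤ (f γ).re)
    (h : ∀ γ ∈ W, c ≤ (f γ).re) (b : UP (L2 G)) :
    c * ‖UP.map (ind ℂ W) b‖ ^ 2 ≤ (inner ℂ b (UP.map (mulop f) b)).re := by
  classical
  refine UP.induction (p := fun b => c * ‖UP.map (ind ℂ W) b‖ ^ 2 ≤
    (inner ℂ b (UP.map (mulop f) b)).re) b ?_ (fun x => ?_)
  · refine isClosed_le ?_ ?_
    · exact continuous_const.mul ((UP.map (ind ℂ W)).continuous.norm.pow 2)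
    · exact Complex.continuous_re.comp (continuous_id.inner (UP.map (mulop f)).continuous)
  · have t1 := (Complex.continuous_re.tendsto _).comp (UP.tendsto_inner x (BSeq.map (mulop f) x))
    have t3 := ((UP.tendsto_norm (BSeq.map (ind ℂ W) x)).pow 2).const_mul c
    rw [UP.map_mk, UP.map_mk]
    refine le_of_tendsto_of_tendsto' t3 t1 fun n => ?_
    change c * ‖ind ℂ W (x.1 n)‖ ^ 2 ≤ (inner ℂ (x.1 n) (mulop f (x.1 n))).re
    have s1 := z4_mulop hf (x.1 n)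
    have s3 := (lv_hasSum (ind ℂ W (x.1 n))).mul_left c
    refine hasSum_le (fun γ => ?_) s3 s1
    rw [ind_apply]
    by_cases hγ : γ ∈ W
    · rw [if_pos hγ]
      exact mul_le_mul_of_nonneg_right (h γ hγ) (sq_nonneg _)
    · rw [if_neg hγ, norm_zero, zero_pow two_ne_zero, mul_zero]
      exact mul_nonneg (h0 γ) (sq_nonneg _)

/-- The sequence of unitaries is bounded for the right translations. -/
private theorem z4_bB {w : ℕ → (L2 G ≃ₗᵢ[ℂ] L2 G)} (hw : ∀ n, CommR (w n)) : Bdd (Blim G) 1 (zet w) := by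
  let E0 : Emb PUnit.{1} G :=
    { U := 1
      comm := fun l g f => rfl
      tr := fun l hl => (hl (Subsingleton.elim _ _)).elim }
  exact (zet_cv hw E0 (fun n l f => rfl)).bB

/-- Cutting down the projection. -/
private theorem z4_cut (R : Reg G) (A : Set G) (ζ : UP (L2 G)) :
    ‖UP.map (ind ℂ A) ((Ppr R ζ : R.Ua) : UP (L2 G))‖ ≤ ‖UP.map (ind ℂ A) ζ‖ := by
  set a : R.Ua := Ppr R ζ with ha
  set b : R.Ua := ⟨UP.map (ind ℂ A) (a : UP (L2 G)), ind_mem_Ua R A a.2⟩ with hb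
  have e0 : UP.map (ind ℂ A) (UP.map (ind ℂ A) (a : UP (L2 G))) = UP.map (ind ℂ A) (a : UP (L2 G)) := by
    rw [ind_ind, Set.inter_self]
  have e1 : (inner ℂ (b : UP (L2 G)) (b : UP (L2 G)) : ℂ) = inner ℂ (b : UP (L2 G)) (a : UP (L2 G)) := by
    change (inner ℂ (UP.map (ind ℂ A) (a : UP (L2 G))) (UP.map (ind ℂ A) (a : UP (L2 G))) : ℂ) =
      inner ℂ (UP.map (ind ℂ A) (a : UP (L2 G))) (a : UP (L2 G))
    rw [← inner_ind A, e0]
  have e2 : (inner ℂ (b : UP (L2 G)) (a : UP (L2 G)) : ℂ) = inner ℂ (b : UP (L2 G)) ζ := by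
    rw [inner_Ppr R ζ b]
    rfl
  have e3 : (inner ℂ (b : UP (L2 G)) ζ : ℂ) = inner ℂ (b : UP (L2 G)) (UP.map (ind ℂ A) ζ) := by
    change (inner ℂ (UP.map (ind ℂ A) (a : UP (L2 G))) ζ : ℂ) =
      inner ℂ (UP.map (ind ℂ A) (a : UP (L2 G))) (UP.map (ind ℂ A) ζ)
    rw [← inner_ind A, e0]
  have e4 : ‖(b : UP (L2 G))‖ ^ 2 = (inner ℂ (b : UP (L2 G)) (UP.map (ind ℂ A) ζ) : ℂ).re := by
    rw [← e3, ← e2, ← e1]
    exact norm_sq_eq_re_inner (𝕜 := ℂ) (b : UP (L2 G))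
  have e5 : ‖(b : UP (L2 G))‖ ^ 2 ≤ ‖(b : UP (L2 G))‖ * ‖UP.map (ind ℂ A) ζ‖ := by
    rw [e4]
    exact (Complex.re_le_norm _).trans (norm_inner_le_norm _ _)
  change ‖(b : UP (L2 G))‖ ≤ _
  rcases (norm_nonneg (b : UP (L2 G))).eq_or_lt with h | h
  · rw [← h]
    exact norm_nonneg _
  · rw [pow_two] at e5
    exact le_of_mul_le_mul_left e5 h

theorem low (hN : 3 ≤ N) (S : Sv P) (E : Emb Λ G)
    (hH : ∀ β : ℝ, 0 < β → ∃ R : ℝ, ∀ l, ‖ind ℂ (Bad S R) (cf (E.U l))‖ ≤ β) (e : ℕ → Λ)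
    (h0 : Ppr (toReg (Sm S)) (zet fun n => E.U (e n)) ≠ 0) {L : Type} [NormedAddCommGroup L] [InnerProductSpace ℂ L]
    [CompleteSpace L] (Γ : Coc (toReg (Sm S)) L) : ∃ c : ℝ, 0 < c ∧ ∀ l, c ≤ (inner ℂ
      (TL Γ (ext (BU (toReg (Sm S))) E.conj l (Ppr (toReg (Sm S)) (zet fun n => E.U (e n)))))
      (TR Γ (ext (BU (toReg (Sm S))) E.conj l (Ppr (toReg (Sm S)) (zet fun n => E.U (e n))))) : ℂ).re := by
  classical
  have hw : ∀ n, CommR (E.U (e n)) := fun n => E.comm (e n)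
  have hbB := Bdd.map (Ppr_B (toReg (Sm S))) (z4_bB hw)
  set z : (toReg (Sm S)).Ua := Ppr (toReg (Sm S)) (zet fun n => E.U (e n)) with hz
  have hzn : 0 < ‖z‖ := norm_pos_iff.2 h0
  obtain ⟨R₀, hR₀⟩ := hH (‖z‖ / 2) (by positivity)
  obtain ⟨n, hn⟩ := exists_nat_gt R₀
  have hexp : ∀ t : ℝ, (n : ℝ) < t → R₀ < Real.exp t := fun t ht => by
    have := Real.add_one_le_exp t
    linarith
  obtain ⟨c, hc, hpos⟩ := Γ.pos n
  refine ⟨c * (‖z‖ / 2) ^ 2, by positivity, fun l => ?_⟩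
  set al : (toReg (Sm S)).Ua := ext (BU (toReg (Sm S))) E.conj l z with hal
  have n1 : ‖al‖ = ‖z‖ := norm_ext E.conj l hbB.mem_VB
  have e1 : al = Ppr (toReg (Sm S)) (zet fun k => E.U (e k) * E.U l⁻¹) := by
    rw [hal, hz, ← map_ext (T := Ppr (toReg (Sm S))) (Ppr_B (toReg (Sm S))) E.conj l, ext_conj_zet hw E l]
  have hs : ∀ k, TC S [Jm N] (n + 1) ∈ (toReg (Sm S)).F k := fun k => TC_mem_FC S (Jm N) [] (n + 1) k
  have hsub : TC S [Jm N] (n + 1) \ WC S (Jm N) n ⊆ Bad S R₀ := by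
    rintro γ ⟨h1, h2⟩
    have h3 : ∃ i ∈ Jm N, (n : ℝ) < lg S γ i := by
      by_contra hne
      push Not at hne
      exact h2 hne
    obtain ⟨i, hi, hi2⟩ := h3
    have hj : (⟨N - 2, by omega⟩ : Fin N) ∉ Jm N := by
      unfold Jm
      rw [Finset.mem_filter]
      rintro ⟨-, h⟩
      exact h (by change N - 2 + 2 = N; omega)
    have h4 := h1 (Jm N) (List.mem_singleton.2 rfl) _ hj
    have h5 := sum_lg_nonneg S γ (Jm N)
    refine ⟨i, ⟨N - 2, by omega⟩, by change N - 2 + 2 = N; omega, ?_, ?_, ?_⟩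
    · exact (Finset.mem_filter.1 hi).2
    · rw [gp_eq_exp]
      exact hexp _ hi2
    · rw [gp_eq_exp]
      refine hexp _ ?_
      push_cast at h4
      have : (0 : ℝ) ≤ n := Nat.cast_nonneg n
      nlinarith
  have b1 : ‖UP.map (ind ℂ (WC S (Jm N) n)ᶜ) (al : UP (L2 G))‖ ≤ ‖z‖ / 2 := by
    have h1 : UP.map (ind ℂ (WC S (Jm N) n)ᶜ) (al : UP (L2 G)) =
        UP.map (ind ℂ (TC S [Jm N] (n + 1) \ WC S (Jm N) n)) (al : UP (L2 G)) := by
      conv_lhs => rw [← Ua_ind (toReg (Sm S)) hs al.2]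
      have h5 : (WC S (Jm N) n)ᶜ ∩ TC S [Jm N] (n + 1) = TC S [Jm N] (n + 1) \ WC S (Jm N) n := by
        rw [Set.inter_comm]
        rfl
      rw [ind_ind, h5]
    rw [h1, e1]
    refine (z4_cut _ _ _).trans ?_
    unfold zet
    rw [UP.map_mk]
    refine UP.norm_mk_le _ fun k => ?_
    change ‖ind ℂ _ (cf (E.U (e k) * E.U l⁻¹))‖ ≤ _
    rw [← map_mul]
    refine le_trans ?_ (hR₀ (e k * l⁻¹))
    have h2 : ind ℂ (TC S [Jm N] (n + 1) \ WC S (Jm N) n) (cf (E.U (e k * l⁻¹))) =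
        ind ℂ (TC S [Jm N] (n + 1) \ WC S (Jm N) n) (ind ℂ (Bad S R₀) (cf (E.U (e k * l⁻¹)))) := by
      rw [ind_ind2, Set.inter_eq_left.2 hsub]
    rw [h2]
    exact norm_ind2 _ _
  have b2 : ‖z‖ / 2 ≤ ‖UP.map (ind ℂ (WC S (Jm N) n)) (al : UP (L2 G))‖ := by
    have h1 : (al : UP (L2 G)) = UP.map (ind ℂ (WC S (Jm N) n)) (al : UP (L2 G)) +
        UP.map (ind ℂ (WC S (Jm N) n)ᶜ) (al : UP (L2 G)) := by
      have h2 : ind ℂ (WC S (Jm N) n) + ind ℂ (WC S (Jm N) n)ᶜ = ContinuousLinearMap.id ℂ (L2 G) := by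
        ext1 x
        apply lv_ext
        intro i
        rw [_root_.add_apply, lp.coeFn_add, Pi.add_apply, ind_apply, ind_apply, ContinuousLinearMap.id_apply]
        by_cases h4 : i ∈ WC S (Jm N) n <;> simp [h4]
      rw [← UP.map_add, h2, UP.map_id]
    have h3 : ‖(al : UP (L2 G))‖ = ‖z‖ := n1
    have h4 := norm_add_le (UP.map (ind ℂ (WC S (Jm N) n)) (al : UP (L2 G)))
      (UP.map (ind ℂ (WC S (Jm N) n)ᶜ) (al : UP (L2 G)))
    rw [← h1, h3] at h4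
    linarith
  rw [inner_TL_TR]
  refine le_trans ?_ (z4_lower (W := (toReg (Sm S)).W n) (c := c) (fun γ => ?_) (fun γ => Γ.nonneg γ)
    (fun γ hγ => hpos γ hγ) _)
  · exact mul_le_mul_of_nonneg_left (pow_le_pow_left₀ (by positivity) b2 2) hc.le
  · refine (norm_inner_le_norm _ _).trans ?_
    rw [Γ.nvX, Γ.nv, mul_one]

end Pool.Agent.Helper84.GN.S3
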