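import Pool.Agent.Helper9.S3.A9
import Pool.Agent.Helper9.S3.E0
import Pool.Agent.Helper9.S3.E1
import Pool.Agent.Helper9.S3.E2
import Pool.Agent.Helper9.S3.P3
import Pool.Agent.Helper9.S3.P4
import Pool.Agent.Helper9.S3.L5
import Pool.Agent.Helper9.S3.F0
import Pool.Agent.Helper9.S3.Z3
import Pool.Agent.Helper9.S3.Z4

/-!
# Project S3, block Z5: the main theorem

By contradiction: `hH : ∀ β > 0, ∃ R, ∀ l, ‖ind (Bad S R) (cf (E.U l))‖ ≤ β`. `exists_start` gives `e`; `exists_fibX`, `exists_xcoc`, `exists_xmul`, `pcf_pi`, `pcf_mo`, `exists_T`, `loc_main`, `low` and `dilation` give `¬ NonAm Λ`. `reach_two`: if the last gap is reached: `Bad ⊆ Two`. If the first gap is reached: `First S R = {γ | γ⁻¹ ∈ Last S R}` (`gp_inv`), `mass_inv`, `(E.U l)⁻¹ = E.U l⁻¹`.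
(helper9 writes this block.)
-/

set_option autoImplicit false

open Filter Topology Matrix
open scoped ComplexConjugate

namespace Pool.Agent.Helper84.GN.S3

open NI GVN Pool.Agent.Helper90.RK Pool.Agent.Helper96.RK

variable {G Λ : Type} [Group G] [Group Λ]

variable {N : ℕ} {P : PH G N}

/-- The embedding of the trivial group. -/
private noncomputable def trE (G : Type) [Group G] : Emb Unit G where
  U := 1
  comm _ := fun _ _ => rfl
  tr l hl := absurd (Subsingleton.elim l 1) hl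

private theorem bdd_Ppr (R : Reg G) {w : ℕ → (L2 G ≃ₗᵢ[ℂ] L2 G)} (hw : ∀ n, CommR (w n)) :
    Bdd (BU R) 1 (Ppr R (zet w)) := by
  have h := zet_cv hw (trE G) (fun _ _ _ => rfl)
  exact (h.map (norm_Ppr R) (Ppr_A R) (Ppr_B R)).bB

/-- Main theorem: if the last gap is reached, then the last gap is reached together with another one. -/
theorem reach_last (hN : 3 ≤ N) (S : Sv P) (E : Emb Λ G) (hΛ : NonAm Λ) {β : ℝ} (hβ : 0 < β)
    (hL : ∀ R : ℝ, ∃ l, β ≤ ‖ind ℂ (Last S R) (cf (E.U l))‖) :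
    ∃ β : ℝ, 0 < β ∧ ∀ R : ℝ, ∃ l : Λ, β ≤ ‖ind ℂ (Bad S R) (cf (E.U l))‖ := by
  by_contra hcon
  push Not at hcon
  have hH : ∀ β : ℝ, 0 < β → ∃ R : ℝ, ∀ l, ‖ind ℂ (Bad S R) (cf (E.U l))‖ ≤ β := by
    intro β hβ
    obtain ⟨R, hR⟩ := hcon β hβ
    exact ⟨R, fun l => (hR l).le⟩
  obtain ⟨e, he⟩ := exists_start hN S E hH hβ hL
  obtain ⟨L, i1, i2, i3, ⟨Ψ⟩⟩ := exists_fibX N
  obtain ⟨Γ, hΓ, -, -⟩ := exists_xcoc (Sm S) Ψ.toFibM
  have ha := bdd_Ppr (toReg (Sm S)) (w := fun n => E.U (e n)) (fun n => E.comm _)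
  obtain ⟨T, hT, -, -, -⟩ := exists_T (toReg (Sm S)) E ha
  obtain ⟨c, hc, hlow⟩ := low hN S E hH e he Γ
  refine dilation Γ E ha T hT (pd := posPD S (Sm S).b) (loc_main hN S E hH e hT)
    (fun h => pcf_pi (Sm S) Ψ.toFibM Γ hΓ h) (fun Q ε hε => ?_) hc hlow hΛ
  obtain ⟨D, A, hD⟩ := exists_xmul (Sm S) Ψ Γ hΓ Q hε
  exact ⟨D, fun t => pcf_mo (Sm S) Ψ A t _ fun γ w => hD γ t w⟩

private theorem ind_le {A B : Set G} (h : A ⊆ B) (f : L2 G) : ‖ind ℂ A f‖ ≤ ‖ind ℂ B f‖ := by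
  have h1 : ind ℂ A f = ind ℂ A (ind ℂ B f) := by
    rw [ind_ind2, Set.inter_eq_left.2 h]
  rw [h1]
  exact norm_ind2 _ _

theorem reach_two (hN : 3 ≤ N) (S : Sv P) (E : Emb Λ G) (hΛ : NonAm Λ) {β : ℝ} (hβ : 0 < β)
    (hL : (∀ R : ℝ, ∃ l, β ≤ ‖ind ℂ (Last S R) (cf (E.U l))‖) ∨ ∀ R : ℝ, ∃ l, β ≤ ‖ind ℂ (First S R) (cf (E.U l))‖) :
    ∃ β : ℝ, 0 < β ∧ ∀ R : ℝ, ∃ l : Λ, β ≤ ‖ind ℂ (Two S R) (cf (E.U l))‖ := by
  have hL2 : ∀ R : ℝ, ∃ l, β ≤ ‖ind ℂ (Last S R) (cf (E.U l))‖ := by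
    rcases hL with hL | hL
    · exact hL
    · intro R
      obtain ⟨l, hl⟩ := hL R
      refine ⟨l⁻¹, ?_⟩
      rw [map_inv, mass_inv (E.U l) (E.comm l)]
      have h1 : {γ | γ⁻¹ ∈ Last S R} = First S R := by
        ext γ
        constructor
        · intro h j hj
          have hj2 : N - 2 < N := by omega
          have h2 := h ⟨N - 2, hj2⟩ (by simp only; omega)
          rw [gp_inv S γ (i := ⟨N - 2, hj2⟩) (j := j) (by simp only; omega)] at h2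
          exact h2
        · intro h j hj
          have h0 : 0 < N := by omega
          have h2 := h ⟨0, h0⟩ rfl
          rw [gp_inv S γ (i := j) (j := ⟨0, h0⟩) (by simp only; omega)]
          exact h2
      rw [h1]
      exact hl
  obtain ⟨β', hβ', h⟩ := reach_last hN S E hΛ hβ hL2
  refine ⟨β', hβ', fun R => ?_⟩
  obtain ⟨l, hl⟩ := h R
  refine ⟨l, hl.trans (ind_le ?_ _)⟩
  rintro γ ⟨i, j, hj, hi, h1, h2⟩
  refine ⟨i, j, ?_, h1, h2⟩
  rintro rfl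
  exact hi hj

end Pool.Agent.Helper84.GN.S3
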